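import Pool.Agent.Work.MP_ea8963_ag.G4.Stmts2

/-!
Block [ea8963 G4]: assembly (from the statements of the items).  Captain helper56.
-/

set_option linter.style.longLine false
set_option linter.unusedVariables false

noncomputable section

open Module Topology

namespace Pool.Agent.Work.MP_ea8963_ag.G4

/-- a configuration of rank 5 has all the properties `Opt` -/
theorem opt_of_cfg (hTG : TGX) (hFL : FLX) (hBJ : BJX) (hCN : CNX) {s : T3} (hs : Gen s)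
    {p : Fin 3 → E} {l : E} {lam mu : Fin 3 → ℂ} (h : Cfg s p l lam mu)
    (h5 : 5 ≤ finrank ℂ ((ZS s).map (evB p l))) : Opt s p l lam mu := by
  have hm := hTG s hs p l lam mu h h5
  obtain ⟨h1, h2, h3, h4⟩ := hFL s hs p l lam mu h hm h5
  have hb := hBJ s p l lam mu h h3
  exact { toCfg := h, mu_ne := hm, bij := hb, rk5 := h1, rkS := h2, fullB := h3, fullS := h4,
          con := hCN s hs.1 p l lam mu h hm hb h4 }

lemma ZS_inf (s : T3) (p : Fin 3 → E) (l : E) : ZS s ⊓ ZB p l ≤ ZS s := inf_le_left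

/-- two configurations in general position -/
theorem trip_of_cfg (hTG : TGX) (hFL : FLX) (hBJ : BJX) (hCN : CNX) (hTW : TWX) (hRL : RLX)
    (hRN : RNX) (hNN : NNX) (hF2 : F2X) {s : T3} (hs : Gen s)
    {p : Fin 3 → E} {l : E} {lam mu : Fin 3 → ℂ} (h : Cfg s p l lam mu)
    {p' : Fin 3 → E} {l' : E} {lam' mu' : Fin 3 → ℂ} (h' : Cfg s p' l' lam' mu')
    (h5 : 5 ≤ finrank ℂ ((ZS s).map (evB p l)))
    (h5' : 5 ≤ finrank ℂ ((ZS s ⊓ ZB p l).map (evB p' l'))) : Trip s p l p' l' := by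
  have h5'' : 5 ≤ finrank ℂ ((ZS s).map (evB p' l')) :=
    h5'.trans (finrank_map_mono (evB p' l') (ZS_inf s p l))
  have o := opt_of_cfg hTG hFL hBJ hCN hs h h5
  have o' := opt_of_cfg hTG hFL hBJ hCN hs h' h5''
  have hsw : 5 ≤ finrank ℂ ((ZS s ⊓ ZB p' l').map (evB p l)) := by
    have e : finrank ℂ ((ZS s).map (evB p l)) + finrank ℂ ((ZS s ⊓ ZB p l).map (evB p' l')) =
        finrank ℂ ((ZS s).map (evB p' l')) + finrank ℂ ((ZS s ⊓ ZB p' l').map (evB p l)) :=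
      rn (evB p l) (evB p' l') (ZS s)
    rw [o.rk5, o'.rk5] at e
    omega
  have t1 : ∀ i, l' ⬝ᵥ p i ≠ 0 := hTW s hs.1 p l lam mu p' l' lam' mu' h o' h5'
  have t2 : ∀ i, l ⬝ᵥ p' i ≠ 0 := hTW s hs.1 p' l' lam' mu' p l lam mu h' o hsw
  have hr1 : finrank ℂ (RelM p l p' l') ≤ 1 :=
    hRL p l p' l' h.ind h.q0 o.bij h'.ind h'.lp t1
  have hr0 : finrank ℂ (RelM p l p' l') = 0 := by
    by_contra hne
    have hpos : 0 < finrank ℂ (RelM p l p' l') := Nat.pos_of_ne_zero hne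
    obtain ⟨x, hx0⟩ := Module.finrank_pos_iff_exists_ne_zero.1 hpos
    obtain ⟨m, hm0, hm1, hm2⟩ := hRN p l p' l' h.ind h.q0 o.bij h'.ind h'.q0 o'.bij h.lp h'.lp
      t1 t2 x.1 x.2 (fun h0 => hx0 (Subtype.ext h0))
    exact hNN s hs p l lam mu p' l' lam' mu' o o' h5' hr1 m hm0 hm1 hm2
  obtain ⟨f2, f3⟩ := hF2 s hs p l lam mu p' l' lam' mu' o o' h5' hr0
  exact {
    sK := ⟨h.mem_KB hs.1 o.mu_ne, h'.mem_KB hs.1 o'.mu_ne⟩
    q0 := h.q0
    q0' := h'.q0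
    lp := h.lp
    lp' := h'.lp
    ind := h.ind
    ind' := h'.ind
    nt := h.nt o.mu_ne
    nt' := h'.nt o'.mu_ne
    full1 := o.fullB
    full2 := f2
    full3 := f3 }

lemma CfgY.cfg {s : T3} {y : Y} (h : CfgY s y) : Cfg s (pOf y) (om s y 0) (laOf y) (muOf y) := h

lemma ent_countable (s : T3) : (ent s).Countable := by
  have : ent s = Set.range (fun x : Fin 5 × Fin 5 × Fin 5 => s x.1 x.2.1 x.2.2) := by
    ext z
    constructor
    · rintro ⟨i, j, k, rfl⟩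
      exact ⟨(i, j, k), rfl⟩
    · rintro ⟨⟨i, j, k⟩, rfl⟩
      exact ⟨i, j, k, rfl⟩
  rw [this]
  exact Set.countable_range _

lemma entB_countable (p : Fin 3 → E) (l : E) : (entB p l).Countable := by
  have : entB p l = Set.range (fun x : Fin 3 × Fin 5 => p x.1 x.2) ∪ Set.range l := by
    ext z
    constructor
    · rintro (⟨i, j, rfl⟩ | ⟨j, rfl⟩)
      · exact Or.inl ⟨(i, j), rfl⟩
      · exact Or.inr ⟨j, rfl⟩
    · rintro (⟨⟨i, j⟩, rfl⟩ | ⟨j, rfl⟩)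
      · exact Or.inl ⟨i, j, rfl⟩
      · exact Or.inr ⟨j, rfl⟩
  rw [this]
  exact (Set.countable_range _).union (Set.countable_range _)

lemma ZS_le_ZA (s : T3) : ZS s ≤ ZA (ent s) := by
  intro δ hδ a ha
  obtain ⟨i, j, k, rfl⟩ := ha
  rw [mem_ZS] at hδ
  exact congrFun (congrFun (congrFun hδ i) j) k

/-- a generic configuration where `F` and `G` do not vanish -/
theorem irr (hTG : TGX) (hFL : FLX) (hBJ : BJX) (hCN : CNX) (hTW : TWX) (hRL : RLX)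
    (hRN : RNX) (hNN : NNX) (hF2 : F2X) (hIC : ICX) (hTU : TUX) (hTY : TYX) (hLC : LCX)
    (hCT : CTX) (hPT : PTX) (hFF : FFX) {s : T3} (hs : Gen s) (F G : MvPolynomial (Fin 5) ℂ)
    {y1 y2 : Y} (h1 : CfgY s y1) (h2 : CfgY s y2)
    (hF : MvPolynomial.eval (om s y1 0) F ≠ 0) (hG : MvPolynomial.eval (om s y2 0) G ≠ 0) :
    ∃ (p : Fin 3 → E) (l : E) (lam mu : Fin 3 → ℂ), Opt s p l lam mu ∧
      MvPolynomial.eval l F ≠ 0 ∧ MvPolynomial.eval l G ≠ 0 := by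
  -- the base fields
  set A0 : Set ℂ := ent s with hA0
  set A1 : Set ℂ := ent s ∪ Set.range (fun m => F.coeff m) with hA1
  have hA01 : A0 ⊆ A1 := Set.subset_union_left
  have hA1c : A1.Countable := (ent_countable s).union (Set.countable_range _)
  -- first perturbation
  have hcont : ∀ H : MvPolynomial (Fin 5) ℂ, Continuous fun x : E => MvPolynomial.eval x H :=
    fun H => MvPolynomial.continuous_eval H
  obtain ⟨y1', c1, hO1, r1⟩ := hPT s hs.1 y1 h1 A1 hA1c Set.subset_union_left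
    {x | MvPolynomial.eval x F ≠ 0} ((isOpen_ne.preimage (hcont F)).mem_nhds hF)
  set p1 := pOf y1' with hp1
  set l1 := om s y1' 0 with hl1
  set A2 : Set ℂ := A1 ∪ entB p1 l1 with hA2
  have hA12 : A1 ⊆ A2 := Set.subset_union_left
  have hA2c : A2.Countable := hA1c.union (entB_countable _ _)
  obtain ⟨y2', c2, hO2, r2⟩ := hPT s hs.1 y2 h2 A2 hA2c (hA01.trans hA12)
    {x | MvPolynomial.eval x G ≠ 0} ((isOpen_ne.preimage (hcont G)).mem_nhds hG)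
  set p2 := pOf y2' with hp2
  set l2 := om s y2' 0 with hl2
  -- independent conjugate of the first point
  obtain ⟨τ, hτ, r3⟩ := hIC A1 A2 hA12 hA2c p1 l1 r1
  have hτs : mT τ s = s := by
    ext i j k
    refine hτ _ ((hFF A1).1 ?_)
    exact Or.inl ⟨i, j, k, rfl⟩
  have c3 := hCT τ s p1 l1 _ _ c1.cfg
  rw [hτs] at c3
  have hz1 : ZA A1 ≤ ZS s := ZA_ent Set.subset_union_left
  have hz2 : ZA A2 ≤ ZS s ⊓ ZB p1 l1 :=
    le_inf (ZA_ent (hA01.trans hA12)) (ZA_entB Set.subset_union_right)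
  have q1 : 5 ≤ finrank ℂ ((ZS s).map (evB p1 l1)) :=
    r1.trans (finrank_map_mono _ hz1)
  have q2 : 5 ≤ finrank ℂ ((ZS s ⊓ ZB p1 l1).map (evB p2 l2)) :=
    r2.trans (finrank_map_mono _ hz2)
  have q3 : 5 ≤ finrank ℂ ((ZS s ⊓ ZB p1 l1).map (evB (mP τ p1) (mE τ l1))) :=
    r3.trans (finrank_map_mono _ hz2)
  have T2 := trip_of_cfg hTG hFL hBJ hCN hTW hRL hRN hNN hF2 hs c1.cfg c2.cfg q1 q2
  have T3' := trip_of_cfg hTG hFL hBJ hCN hTW hRL hRN hNN hF2 hs c1.cfg c3 q1 q3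
  obtain ⟨σ, e1, e2, e3, e4, e5⟩ := hTU s p1 l1 (mP τ p1) (mE τ l1) s p1 l1 p2 l2 T3' T2
  have hσ : ∀ a ∈ A0, σ a = a := by
    rintro a ⟨i, j, k, rfl⟩
    exact congrFun (congrFun (congrFun e1 i) j) k
  have hclm : cl A0 ⊆ cl A1 := fun z hz δ hδ => hz δ (ZA_mono hA01 hδ)
  have hty := hTY A0 σ τ l1 l2 hσ (fun a ha => hτ a (hclm ha)) e3 e5
  have q2' : 5 ≤ finrank ℂ ((ZS s).map (evB p2 l2)) :=
    q2.trans (finrank_map_mono _ inf_le_left)
  have o2 := opt_of_cfg hTG hFL hBJ hCN hs c2.cfg q2'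
  refine ⟨p2, l2, _, _, o2, ?_, hO2⟩
  intro h0
  refine hO1 (hLC A0 A1 hA01 p2 l2 ?_ ?_ l1 (fun H hH h => ((hty H hH).2 h)) F ?_ h0)
  · calc finrank ℂ ((ZA A0).map (evB p2 l2)) ≤ finrank ℂ ((ZS s).map (evB p2 l2)) :=
        finrank_map_mono _ (ZA_ent subset_rfl)
      _ ≤ 5 := o2.rk5.le
  · exact r2.trans (finrank_map_mono _ (ZA_mono hA12))
  · intro m
    exact (hFF A1).1 (Or.inr ⟨m, rfl⟩)

/-- pack a configuration -/
def toY (p : Fin 3 → E) (lam mu : Fin 3 → ℂ) : Y := fun i => Fin.append (p i) ![lam i, mu i]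

lemma pOf_toY (p : Fin 3 → E) (lam mu : Fin 3 → ℂ) : pOf (toY p lam mu) = p := by
  ext i k
  exact Fin.append_left (p i) ![lam i, mu i] k

lemma laOf_toY (p : Fin 3 → E) (lam mu : Fin 3 → ℂ) : laOf (toY p lam mu) = lam := by
  ext i
  exact Fin.append_right (p i) ![lam i, mu i] 0

lemma muOf_toY (p : Fin 3 → E) (lam mu : Fin 3 → ℂ) : muOf (toY p lam mu) = mu := by
  ext i
  exact Fin.append_right (p i) ![lam i, mu i] 1

lemma om_toY {s : T3} {p : Fin 3 → E} {l : E} {lam mu : Fin 3 → ℂ} (h : Cfg s p l lam mu)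
    (i : Fin 3) : om s (toY p lam mu) i = l := by
  rw [om, pOf_toY, laOf_toY, muOf_toY]
  exact (h.eq i).symm

lemma Cfg.toCfgY {s : T3} {p : Fin 3 → E} {l : E} {lam mu : Fin 3 → ℂ} (h : Cfg s p l lam mu) :
    CfgY s (toY p lam mu) := by
  rw [CfgY, om_toY h, pOf_toY, laOf_toY, muOf_toY]
  exact h

/-- existence of a configuration of rank 5 -/
theorem exi (hTG : TGX) (hFL : FLX) (hBJ : BJX) (hCN : CNX) (hCT : CTX) (hPT : PTX)
    (hXE : XEX) (hXN : XNX) (hXG : XGX) (hXA : XAX) {s : T3} (hs : Gen s) :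
    ∃ (p : Fin 3 → E) (l : E) (lam mu : Fin 3 → ℂ), Opt s p l lam mu := by
  obtain ⟨s0, hs0, y0, h0⟩ := hXE
  have hev := hXN s0 hs0 y0 h0
  obtain ⟨s1, hs1, hg1⟩ := hXG s0 hs0 _ hev
  obtain ⟨y1, h1⟩ := hs1 hg1.1
  obtain ⟨σ, hσ⟩ := hXA s1 s hg1 hs
  have h2 := hCT σ s1 _ _ _ _ h1.cfg
  rw [hσ] at h2
  obtain ⟨y2, h3, -, r⟩ := hPT s hs.1 _ h2.toCfgY (ent s) (ent_countable s) subset_rfl
    Set.univ Filter.univ_mem
  exact ⟨_, _, _, _, opt_of_cfg hTG hFL hBJ hCN hs h3.cfg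
    (r.trans (finrank_map_mono _ (ZA_ent subset_rfl)))⟩

end Pool.Agent.Work.MP_ea8963_ag.G4
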