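import Mathlib

/-!
Block [ea8963 G4]: the Severi curve of a very general K3 surface of genus 4 is irreducible.
Basic definitions and calculus.  Captain helper56.
-/

set_option linter.style.longLine false
set_option linter.unnecessarySeqFocus false

noncomputable section

namespace Pool.Agent.Work.MP_ea8963_ag.G4

/-- vectors and covectors -/
abbrev E : Type := Fin 5 → ℂ

/-- tensors of order three -/
abbrev T3 : Type := Fin 5 → Fin 5 → Fin 5 → ℂ

/-- derivations of the complex numbers -/
abbrev D : Type := Derivation ℚ ℂ ℂ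

/-- the gradient of the quadric `x0 x1 + x2 x3 + x4 ^ 2` -/
def beta (x : E) : E := ![x 1, x 0, x 3, x 2, 2 * x 4]

/-- the bilinear form of the quadric, `B x x = 2 (x0 x1 + x2 x3 + x4 ^ 2)` -/
def B (x y : E) : ℂ := beta x ⬝ᵥ y

/-- the covector `s (x, y, .)` -/
def cov (s : T3) (x y : E) : E := fun k => ∑ i, ∑ j, s i j k * x i * y j

/-- the trilinear form of the tensor `s` -/
def tri (s : T3) (x y z : E) : ℂ := cov s x y ⬝ᵥ z

/-- symmetric tensors -/
def SymT : Submodule ℂ T3 where
  carrier := {s | ∀ i j k, s i j k = s j i k ∧ s i j k = s i k j}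
  zero_mem' := by intro i j k; exact ⟨rfl, rfl⟩
  add_mem' := by
    intro s t hs ht i j k
    exact ⟨by simp only [Pi.add_apply]; rw [(hs i j k).1, (ht i j k).1],
      by simp only [Pi.add_apply]; rw [(hs i j k).2, (ht i j k).2]⟩
  smul_mem' := by
    intro c s hs i j k
    exact ⟨by simp only [Pi.smul_apply]; rw [(hs i j k).1],
      by simp only [Pi.smul_apply]; rw [(hs i j k).2]⟩

/-- the symmetrised product of three linear forms (six terms) -/
def sp (a b c : E) : T3 := fun i j k =>
  a i * b j * c k + a i * c j * b k + b i * a j * c k + b i * c j * a k + c i * a j * b k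
    + c i * b j * a k

/-! ### the bilinear form -/

lemma B_def (x y : E) : B x y = x 1 * y 0 + x 0 * y 1 + x 3 * y 2 + x 2 * y 3 + 2 * x 4 * y 4 := by
  simp [B, beta, dotProduct, Fin.sum_univ_succ]
  ring

lemma B_comm (x y : E) : B x y = B y x := by
  rw [B_def, B_def]; ring

lemma beta_add (x y : E) : beta (x + y) = beta x + beta y := by
  ext i; fin_cases i <;> simp [beta] <;> ring

lemma beta_smul (c : ℂ) (x : E) : beta (c • x) = c • beta x := by
  ext i; fin_cases i <;> simp [beta] <;> ring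

/-- `beta` as a linear map -/
def betaL : E →ₗ[ℂ] E where
  toFun := beta
  map_add' := beta_add
  map_smul' := beta_smul

@[simp] lemma betaL_apply (x : E) : betaL x = beta x := rfl

lemma beta_injective : Function.Injective beta := by
  intro x y h
  ext i
  have h0 := congrFun h 0
  have h1 := congrFun h 1
  have h2 := congrFun h 2
  have h3 := congrFun h 3
  have h4 := congrFun h 4
  simp [beta] at h0 h1 h2 h3 h4
  fin_cases i <;> assumption

lemma beta_surjective : Function.Surjective beta := by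
  intro y
  refine ⟨![y 1, y 0, y 3, y 2, y 4 / 2], ?_⟩
  ext i; fin_cases i <;> simp [beta] <;> ring

lemma beta_zero : beta 0 = 0 := betaL.map_zero

lemma beta_eq_zero {x : E} : beta x = 0 ↔ x = 0 :=
  ⟨fun h => beta_injective (h.trans beta_zero.symm), fun h => h ▸ beta_zero⟩

lemma B_add_left (x y z : E) : B (x + y) z = B x z + B y z := by
  simp [B, beta_add, add_dotProduct]
lemma B_add_right (x y z : E) : B x (y + z) = B x y + B x z := by
  simp [B, dotProduct_add]
lemma B_smul_left (c : ℂ) (x z : E) : B (c • x) z = c * B x z := by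
  simp [B, beta_smul, smul_dotProduct]
lemma B_smul_right (c : ℂ) (x z : E) : B x (c • z) = c * B x z := by
  simp [B, dotProduct_smul]
lemma B_zero_left (z : E) : B 0 z = 0 := by simp [B, beta_zero]
lemma B_zero_right (z : E) : B z 0 = 0 := by simp [B]
lemma B_neg_left (x z : E) : B (-x) z = - B x z := by
  rw [← neg_one_smul ℂ x, B_smul_left]; ring
lemma B_neg_right (x z : E) : B x (-z) = - B x z := by
  rw [← neg_one_smul ℂ z, B_smul_right]; ring
lemma B_sub_left (x y z : E) : B (x - y) z = B x z - B y z := by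
  rw [sub_eq_add_neg, B_add_left, B_neg_left]; ring
lemma B_sub_right (x y z : E) : B x (y - z) = B x y - B x z := by
  rw [sub_eq_add_neg, B_add_right, B_neg_right]; ring

/-! ### the trilinear form -/

lemma tri_eq (s : T3) (x y z : E) : tri s x y z = ∑ i, ∑ j, ∑ k, s i j k * x i * y j * z k := by
  simp only [tri, cov, dotProduct, Finset.sum_mul]
  rw [Finset.sum_comm]
  refine Finset.sum_congr rfl fun i _ => ?_
  rw [Finset.sum_comm]

lemma cov_add_tensor (s t : T3) (x y : E) : cov (s + t) x y = cov s x y + cov t x y := by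
  ext k
  simp only [cov, Pi.add_apply, add_mul, Finset.sum_add_distrib]
lemma cov_smul_tensor (c : ℂ) (s : T3) (x y : E) : cov (c • s) x y = c • cov s x y := by
  ext k
  simp only [cov, Pi.smul_apply, smul_eq_mul, Finset.mul_sum]
  refine Finset.sum_congr rfl fun i _ => Finset.sum_congr rfl fun j _ => ?_
  ring
lemma cov_add_left (s : T3) (x x' y : E) : cov s (x + x') y = cov s x y + cov s x' y := by
  ext k
  simp only [cov, Pi.add_apply, ← Finset.sum_add_distrib]
  refine Finset.sum_congr rfl fun i _ => Finset.sum_congr rfl fun j _ => ?_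
  ring
lemma cov_add_right (s : T3) (x y y' : E) : cov s x (y + y') = cov s x y + cov s x y' := by
  ext k
  simp only [cov, Pi.add_apply, ← Finset.sum_add_distrib]
  refine Finset.sum_congr rfl fun i _ => Finset.sum_congr rfl fun j _ => ?_
  ring
lemma cov_smul_left (c : ℂ) (s : T3) (x y : E) : cov s (c • x) y = c • cov s x y := by
  ext k
  simp only [cov, Pi.smul_apply, smul_eq_mul, Finset.mul_sum]
  refine Finset.sum_congr rfl fun i _ => Finset.sum_congr rfl fun j _ => ?_
  ring
lemma cov_smul_right (c : ℂ) (s : T3) (x y : E) : cov s x (c • y) = c • cov s x y := by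
  ext k
  simp only [cov, Pi.smul_apply, smul_eq_mul, Finset.mul_sum]
  refine Finset.sum_congr rfl fun i _ => Finset.sum_congr rfl fun j _ => ?_
  ring
lemma cov_zero_tensor (x y : E) : cov 0 x y = 0 := by
  ext k; simp [cov]
lemma cov_zero_left (s : T3) (y : E) : cov s 0 y = 0 := by
  ext k; simp [cov]
lemma cov_zero_right (s : T3) (x : E) : cov s x 0 = 0 := by
  ext k; simp [cov]

lemma tri_add_tensor (s t : T3) (x y z : E) : tri (s + t) x y z = tri s x y z + tri t x y z := by
  simp [tri, cov_add_tensor, add_dotProduct]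
lemma tri_smul_tensor (c : ℂ) (s : T3) (x y z : E) : tri (c • s) x y z = c * tri s x y z := by
  simp [tri, cov_smul_tensor, smul_dotProduct]
lemma tri_add1 (s : T3) (x x' y z : E) : tri s (x + x') y z = tri s x y z + tri s x' y z := by
  simp [tri, cov_add_left, add_dotProduct]
lemma tri_add2 (s : T3) (x y y' z : E) : tri s x (y + y') z = tri s x y z + tri s x y' z := by
  simp [tri, cov_add_right, add_dotProduct]
lemma tri_add3 (s : T3) (x y z z' : E) : tri s x y (z + z') = tri s x y z + tri s x y z' := by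
  simp [tri, dotProduct_add]
lemma tri_smul1 (c : ℂ) (s : T3) (x y z : E) : tri s (c • x) y z = c * tri s x y z := by
  simp [tri, cov_smul_left, smul_dotProduct]
lemma tri_smul2 (c : ℂ) (s : T3) (x y z : E) : tri s x (c • y) z = c * tri s x y z := by
  simp [tri, cov_smul_right, smul_dotProduct]
lemma tri_smul3 (c : ℂ) (s : T3) (x y z : E) : tri s x y (c • z) = c * tri s x y z := by
  simp [tri, dotProduct_smul]
lemma tri_zero_tensor (x y z : E) : tri 0 x y z = 0 := by simp [tri, cov_zero_tensor]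
lemma tri_zero1 (s : T3) (y z : E) : tri s 0 y z = 0 := by simp [tri, cov_zero_left]
lemma tri_zero2 (s : T3) (y z : E) : tri s y 0 z = 0 := by simp [tri, cov_zero_right]
lemma tri_zero3 (s : T3) (y z : E) : tri s y z 0 = 0 := by simp [tri]

/-- `t ↦ tri t x y z` as a linear map -/
def triL (x y z : E) : T3 →ₗ[ℂ] ℂ where
  toFun t := tri t x y z
  map_add' s t := tri_add_tensor s t x y z
  map_smul' c t := by simp [tri_smul_tensor]

@[simp] lemma triL_apply (x y z : E) (t : T3) : triL x y z t = tri t x y z := rfl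

lemma cov_comm {s : T3} (hs : s ∈ SymT) (x y : E) : cov s x y = cov s y x := by
  ext k
  simp only [cov]
  rw [Finset.sum_comm]
  refine Finset.sum_congr rfl fun i _ => Finset.sum_congr rfl fun j _ => ?_
  rw [(hs j i k).1]; ring

lemma tri_comm12 {s : T3} (hs : s ∈ SymT) (x y z : E) : tri s x y z = tri s y x z := by
  simp [tri, cov_comm hs x y]

lemma tri_comm23 {s : T3} (hs : s ∈ SymT) (x y z : E) : tri s x y z = tri s x z y := by
  rw [tri_eq, tri_eq]
  refine Finset.sum_congr rfl fun i _ => ?_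
  rw [Finset.sum_comm]
  refine Finset.sum_congr rfl fun j _ => Finset.sum_congr rfl fun k _ => ?_
  rw [(hs i k j).2]; ring

lemma tri_comm13 {s : T3} (hs : s ∈ SymT) (x y z : E) : tri s x y z = tri s z y x := by
  rw [tri_comm12 hs, tri_comm23 hs, tri_comm12 hs]

/-- entries of the tensor from the trilinear form -/
lemma tri_single (s : T3) (i j k : Fin 5) :
    tri s (Pi.single i 1) (Pi.single j 1) (Pi.single k 1) = s i j k := by
  rw [tri_eq]
  simp [Pi.single_apply]

lemma sp_mem (a b c : E) : sp a b c ∈ SymT := by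
  intro i j k
  constructor <;> simp only [sp] <;> ring

private lemma sum3 (a b c x y z : E) :
    ∑ i, ∑ j, ∑ k, a i * b j * c k * x i * y j * z k = (a ⬝ᵥ x) * (b ⬝ᵥ y) * (c ⬝ᵥ z) := by
  simp only [dotProduct]
  rw [Finset.sum_mul_sum, Finset.sum_mul]
  refine Finset.sum_congr rfl fun i _ => ?_
  rw [Finset.sum_mul]
  refine Finset.sum_congr rfl fun j _ => ?_
  rw [Finset.mul_sum]
  refine Finset.sum_congr rfl fun k _ => ?_
  ring

lemma tri_sp (a b c x y z : E) : tri (sp a b c) x y z =
    (a ⬝ᵥ x) * (b ⬝ᵥ y) * (c ⬝ᵥ z) + (a ⬝ᵥ x) * (c ⬝ᵥ y) * (b ⬝ᵥ z)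
    + (b ⬝ᵥ x) * (a ⬝ᵥ y) * (c ⬝ᵥ z) + (b ⬝ᵥ x) * (c ⬝ᵥ y) * (a ⬝ᵥ z)
    + (c ⬝ᵥ x) * (a ⬝ᵥ y) * (b ⬝ᵥ z) + (c ⬝ᵥ x) * (b ⬝ᵥ y) * (a ⬝ᵥ z) := by
  rw [tri_eq]
  simp only [sp, add_mul, Finset.sum_add_distrib, sum3]

/-- the value used everywhere: `tri (sp a b c) p p v` -/
lemma tri_sp_ppv (a b c p v : E) : tri (sp a b c) p p v =
    2 * ((a ⬝ᵥ p) * (b ⬝ᵥ p) * (c ⬝ᵥ v) + (a ⬝ᵥ p) * (b ⬝ᵥ v) * (c ⬝ᵥ p)
      + (a ⬝ᵥ v) * (b ⬝ᵥ p) * (c ⬝ᵥ p)) := by
  rw [tri_sp]; ring

/-! ### derivations -/

/-- apply a derivation to a vector -/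
def dE (δ : D) (x : E) : E := fun i => δ (x i)

/-- apply a derivation to a tensor -/
def dT (δ : D) (s : T3) : T3 := fun i j k => δ (s i j k)

lemma dE_add (δ : D) (x y : E) : dE δ (x + y) = dE δ x + dE δ y := by
  ext i; simp [dE]
lemma dE_smul (δ : D) (c : ℂ) (x : E) : dE δ (c • x) = δ c • x + c • dE δ x := by
  ext i; simp [dE, Derivation.leibniz]; ring
lemma dE_zero (δ : D) : dE δ 0 = 0 := by
  ext i; simp [dE]
lemma dE_neg (δ : D) (x : E) : dE δ (-x) = -dE δ x := by
  ext i; simp [dE]
lemma dE_sub (δ : D) (x y : E) : dE δ (x - y) = dE δ x - dE δ y := by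
  ext i; simp [dE]
lemma d_two (δ : D) : δ (2 : ℂ) = 0 := by
  have : δ ((2 : ℚ) • (1 : ℂ)) = 0 := by rw [δ.map_smul, δ.map_one_eq_zero, smul_zero]
  simpa using this
lemma dE_beta (δ : D) (x : E) : dE δ (beta x) = beta (dE δ x) := by
  ext i; fin_cases i <;> simp [dE, beta, Derivation.leibniz, d_two]
lemma d_dot (δ : D) (x y : E) : δ (x ⬝ᵥ y) = dE δ x ⬝ᵥ y + x ⬝ᵥ dE δ y := by
  simp only [dotProduct, map_sum, Derivation.leibniz, dE, smul_eq_mul, Finset.sum_add_distrib]
  rw [add_comm]
  congr 1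
  refine Finset.sum_congr rfl fun i _ => ?_
  ring
lemma d_B (δ : D) (x y : E) : δ (B x y) = B (dE δ x) y + B x (dE δ y) := by
  simp [B, d_dot, dE_beta]
lemma dE_cov (δ : D) (s : T3) (x y : E) :
    dE δ (cov s x y) = cov (dT δ s) x y + cov s (dE δ x) y + cov s x (dE δ y) := by
  ext k
  simp only [dE, cov, dT, map_sum, Derivation.leibniz, smul_eq_mul, Pi.add_apply,
    ← Finset.sum_add_distrib]
  refine Finset.sum_congr rfl fun i _ => Finset.sum_congr rfl fun j _ => ?_
  ring
lemma d_tri (δ : D) (s : T3) (x y z : E) :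
    δ (tri s x y z) = tri (dT δ s) x y z + tri s (dE δ x) y z + tri s x (dE δ y) z
      + tri s x y (dE δ z) := by
  simp [tri, d_dot, dE_cov, add_dotProduct]
lemma dT_mem (δ : D) {s : T3} (hs : s ∈ SymT) : dT δ s ∈ SymT := by
  intro i j k
  exact ⟨by simp only [dT]; rw [(hs i j k).1], by simp only [dT]; rw [(hs i j k).2]⟩

/-- evaluation of derivations on a vector -/
def evE (x : E) : D →ₗ[ℂ] E where
  toFun δ := dE δ x
  map_add' a b := by ext i; simp [dE]
  map_smul' c a := by ext i; simp [dE]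

/-- evaluation of derivations on a tensor -/
def evT (s : T3) : D →ₗ[ℂ] T3 where
  toFun δ := dT δ s
  map_add' a b := by ext i j k; simp [dT]
  map_smul' c a := by ext i j k; simp [dT]

/-- evaluation of derivations on a triple of vectors -/
def evP (p : Fin 3 → E) : D →ₗ[ℂ] (Fin 3 → E) where
  toFun δ := fun i => dE δ (p i)
  map_add' a b := by ext i j; simp [dE]
  map_smul' c a := by ext i j; simp [dE]

/-- evaluation of derivations on a pair (triple of vectors, covector) -/
def evB (p : Fin 3 → E) (l : E) : D →ₗ[ℂ] (Fin 3 → E) × E := (evP p).prod (evE l)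

@[simp] lemma evE_apply (x : E) (δ : D) : evE x δ = dE δ x := rfl
@[simp] lemma evT_apply (x : T3) (δ : D) : evT x δ = dT δ x := rfl
@[simp] lemma evP_apply (x : Fin 3 → E) (δ : D) (i : Fin 3) : evP x δ i = dE δ (x i) := rfl
@[simp] lemma evB_apply (p : Fin 3 → E) (l : E) (δ : D) : evB p l δ = (evP p δ, dE δ l) := rfl

/-- the derivations which kill the tensor `s` -/
def ZS (s : T3) : Submodule ℂ D := LinearMap.ker (evT s)

/-- the derivations which kill `p` and `l` -/
def ZB (p : Fin 3 → E) (l : E) : Submodule ℂ D := LinearMap.ker (evB p l)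

/-- the derivations which kill the vector `x` -/
def ZE (x : E) : Submodule ℂ D := LinearMap.ker (evE x)

/-- the derivations which kill the set `A` -/
def ZA (A : Set ℂ) : Submodule ℂ D where
  carrier := {δ | ∀ a ∈ A, δ a = 0}
  zero_mem' := by intro a _; rfl
  add_mem' := by
    intro x y hx hy a ha
    have h1 : x a = 0 := hx a ha
    have h2 : y a = 0 := hy a ha
    simp [h1, h2]
  smul_mem' := by
    intro c x hx a ha
    have h1 : x a = 0 := hx a ha
    simp [h1]

lemma mem_ZS {s : T3} {δ : D} : δ ∈ ZS s ↔ dT δ s = 0 := LinearMap.mem_ker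
lemma mem_ZE {x : E} {δ : D} : δ ∈ ZE x ↔ dE δ x = 0 := LinearMap.mem_ker
lemma mem_ZB {p : Fin 3 → E} {l : E} {δ : D} :
    δ ∈ ZB p l ↔ (∀ i, dE δ (p i) = 0) ∧ dE δ l = 0 := by
  rw [ZB, LinearMap.mem_ker, evB_apply, Prod.mk_eq_zero]
  constructor
  · rintro ⟨h1, h2⟩
    exact ⟨fun i => congrFun h1 i, h2⟩
  · rintro ⟨h1, h2⟩
    exact ⟨funext h1, h2⟩
lemma mem_ZA {A : Set ℂ} {δ : D} : δ ∈ ZA A ↔ ∀ a ∈ A, δ a = 0 := Iff.rfl

end Pool.Agent.Work.MP_ea8963_ag.G4
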