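import Pool.Agent.Work.MP_ea8963_ag.G4.Lin

/-!
Block [ea8963 G4]: definitions and easy facts (all proved).  Captain helper56.

Notation of the comments: `s` a symmetric tensor (the cubic `s(x,x,x)`), `B` the bilinear form of
the quadric, `b = (p, l)` a configuration (three nodes `p 0, p 1, p 2`, hyperplane `l = 0`),
`N = span p`.  `Z*` are spaces of derivations of the complex numbers.
-/

set_option linter.style.longLine false
set_option linter.unusedVariables false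

noncomputable section

open Module Topology

namespace Pool.Agent.Work.MP_ea8963_ag.G4

/-! ### Definitions -/

/-- ordinary node at `p`, with multipliers `lam`, `mu` -/
structure Nd (s : T3) (p : E) (lam mu : ℂ) : Prop where
  rank : LinearIndependent ℂ ![beta p, cov s p p]
  ker : ∀ (v : E) (x y : ℂ), B p v = 0 → tri s p p v = 0 →
    lam • beta v + (2 * mu) • cov s p v + x • beta p + y • cov s p p = 0 → ∃ c : ℂ, v = c • p

/-- a configuration: the hyperplane section `l = 0` has nodes at `p 0, p 1, p 2` -/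
structure Cfg (s : T3) (p : Fin 3 → E) (l : E) (lam mu : Fin 3 → ℂ) : Prop where
  q0 : ∀ i, B (p i) (p i) = 0
  s0 : ∀ i, tri s (p i) (p i) (p i) = 0
  eq : ∀ i, l = lam i • beta (p i) + mu i • cov s (p i) (p i)
  ind : LinearIndependent ℂ p
  nd : ∀ i, Nd s (p i) (lam i) (mu i)
  l0 : l ≠ 0

/-- `s` is a generic symmetric tensor: its derivatives are arbitrary -/
def Gen (s : T3) : Prop := s ∈ SymT ∧ ∀ v ∈ SymT, ∃ δ : D, dT δ s = v

/-- tangent space of the variety of pairs `(p, l)`, `B (p i) (p i) = 0`, `l (p i) = 0` -/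
def TB (p : Fin 3 → E) (l : E) : Submodule ℂ ((Fin 3 → E) × E) where
  carrier := {x | ∀ i, B (p i) (x.1 i) = 0 ∧ x.2 ⬝ᵥ p i + l ⬝ᵥ x.1 i = 0}
  zero_mem' := by intro i; simp [B]
  add_mem' := by
    intro x y hx hy i
    obtain ⟨h1, h2⟩ := hx i
    obtain ⟨h3, h4⟩ := hy i
    refine ⟨?_, ?_⟩
    · simp [B_add_right, h1, h3]
    · simp only [Prod.snd_add, Prod.fst_add, Pi.add_apply, add_dotProduct, dotProduct_add]
      linear_combination h2 + h4
  smul_mem' := by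
    intro c x hx i
    obtain ⟨h1, h2⟩ := hx i
    refine ⟨?_, ?_⟩
    · simp [B_smul_right, h1]
    · simp only [Prod.smul_snd, Prod.smul_fst, Pi.smul_apply, smul_dotProduct, dotProduct_smul,
        smul_eq_mul]
      linear_combination c * h2

/-- symmetric tensors `t` with `t (P i, P i, v) = 0` for `v` in `A i` -/
def KK {n : ℕ} (P : Fin n → E) (A : Fin n → Submodule ℂ E) : Submodule ℂ T3 where
  carrier := {t | t ∈ SymT ∧ ∀ i, ∀ v ∈ A i, tri t (P i) (P i) v = 0}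
  zero_mem' := ⟨SymT.zero_mem, by intro i v _; exact tri_zero_tensor _ _ _⟩
  add_mem' := by
    intro x y hx hy
    refine ⟨SymT.add_mem hx.1 hy.1, fun i v hv => ?_⟩
    rw [tri_add_tensor, hx.2 i v hv, hy.2 i v hv, add_zero]
  smul_mem' := by
    intro c x hx
    refine ⟨SymT.smul_mem c hx.1, fun i v hv => ?_⟩
    rw [tri_smul_tensor, hx.2 i v hv, mul_zero]

/-- the cubics singular at `p 0, p 1, p 2` along the hyperplane section `l = 0` -/
def KB (p : Fin 3 → E) (l : E) : Submodule ℂ T3 := KK p (fun i => Ann ![beta (p i), l])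

/-- relations between the 18 functionals of two configurations -/
def RelM (p : Fin 3 → E) (l : E) (p' : Fin 3 → E) (l' : E) :
    Submodule ℂ ((Fin 3 → E) × (Fin 3 → E)) where
  carrier := {x | (∀ i, B (p i) (x.1 i) = 0 ∧ l ⬝ᵥ x.1 i = 0) ∧
    (∀ i, B (p' i) (x.2 i) = 0 ∧ l' ⬝ᵥ x.2 i = 0) ∧
    ∀ t ∈ SymT, ∑ i, tri t (p i) (p i) (x.1 i) + ∑ i, tri t (p' i) (p' i) (x.2 i) = 0}
  zero_mem' := by
    refine ⟨fun i => by simp [B], fun i => by simp [B], fun t _ => by simp [tri_zero3]⟩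
  add_mem' := by
    rintro x y ⟨h1, h2, h3⟩ ⟨g1, g2, g3⟩
    refine ⟨fun i => ?_, fun i => ?_, fun t ht => ?_⟩
    · simp [B_add_right, dotProduct_add, (h1 i).1, (h1 i).2, (g1 i).1, (g1 i).2]
    · simp [B_add_right, dotProduct_add, (h2 i).1, (h2 i).2, (g2 i).1, (g2 i).2]
    · simp only [Prod.fst_add, Prod.snd_add, Pi.add_apply, tri_add3, Finset.sum_add_distrib]
      linear_combination h3 t ht + g3 t ht
  smul_mem' := by
    rintro c x ⟨h1, h2, h3⟩
    refine ⟨fun i => ?_, fun i => ?_, fun t ht => ?_⟩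
    · simp [B_smul_right, dotProduct_smul, (h1 i).1, (h1 i).2]
    · simp [B_smul_right, dotProduct_smul, (h2 i).1, (h2 i).2]
    · simp only [Prod.smul_fst, Prod.smul_snd, Pi.smul_apply, tri_smul3, ← Finset.mul_sum]
      linear_combination c * h3 t ht

/-- non-tangential: the hyperplane `l = 0` is not the tangent hyperplane of the quadric at `p i` -/
def Nt (p : Fin 3 → E) (l : E) : Prop := ∀ i, LinearIndependent ℂ ![beta (p i), l]

/-- the standard solution of the relation on quadrics -/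
def uu (p : Fin 3 → E) (i : Fin 3) : E :=
  (B (p i) (p (i + 1)))⁻¹ • p (i + 1) - (B (p i) (p (i + 2)))⁻¹ • p (i + 2)

/-- everything we know about a configuration which is generic over the field of `s` -/
structure Opt (s : T3) (p : Fin 3 → E) (l : E) (lam mu : Fin 3 → ℂ) : Prop
    extends Cfg s p l lam mu where
  mu_ne : ∀ i, mu i ≠ 0
  bij : ∀ i j, i ≠ j → B (p i) (p j) ≠ 0
  rk5 : finrank ℂ ((ZS s).map (evB p l)) = 5
  rkS : finrank ℂ SymT ≤ finrank ℂ ((ZB p l).map (evT s)) + 9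
  fullB : ∀ x ∈ TB p l, ∃ δ : D, evB p l δ = x
  fullS : ∀ t ∈ KB p l, ∃ δ ∈ ZB p l, dT δ s = t
  con : ∀ x : Fin 3 → ℂ, B (∑ i, x i • p i) (∑ i, x i • p i) = 0 →
    tri s (∑ i, x i • p i) (∑ i, x i • p i) (∑ i, x i • p i) = 0 →
    ∃ (j : Fin 3) (c : ℂ), ∑ i, x i • p i = c • p j

/-- everything we need about two independent configurations on the same cubic -/
structure Trip (s : T3) (p : Fin 3 → E) (l : E) (p' : Fin 3 → E) (l' : E) : Prop where
  sK : s ∈ KB p l ⊓ KB p' l'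
  q0 : ∀ i, B (p i) (p i) = 0
  q0' : ∀ i, B (p' i) (p' i) = 0
  lp : ∀ i, l ⬝ᵥ p i = 0
  lp' : ∀ i, l' ⬝ᵥ p' i = 0
  ind : LinearIndependent ℂ p
  ind' : LinearIndependent ℂ p'
  nt : Nt p l
  nt' : Nt p' l'
  full1 : ∀ x ∈ TB p l, ∃ δ : D, evB p l δ = x
  full2 : ∀ x ∈ TB p' l', ∃ δ ∈ ZB p l, evB p' l' δ = x
  full3 : ∀ t ∈ KB p l ⊓ KB p' l', ∃ δ ∈ ZB p l ⊓ ZB p' l', dT δ s = t

/-- `x` is algebraically independent over the constants of `W` -/
def Full (W : Submodule ℂ D) {n : ℕ} (x : Fin n → ℂ) : Prop :=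
  ∀ v : Fin n → ℂ, ∃ δ ∈ W, ∀ i, δ (x i) = v i

/-- the algebraic closure of the field generated by `A`, as a set -/
def cl (A : Set ℂ) : Set ℂ := {z | ∀ δ ∈ ZA A, δ z = 0}

/-- the entries of the tensor `s` -/
def ent (s : T3) : Set ℂ := {z | ∃ i j k, z = s i j k}

/-- the entries of the configuration `(p, l)` -/
def entB (p : Fin 3 → E) (l : E) : Set ℂ := {z | (∃ i j, z = p i j) ∨ ∃ j, z = l j}

/-- apply a field automorphism to a vector -/
def mE (σ : ℂ ≃+* ℂ) (x : E) : E := fun i => σ (x i)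

/-- apply a field automorphism to a tensor -/
def mT (σ : ℂ ≃+* ℂ) (s : T3) : T3 := fun i j k => σ (s i j k)

/-- apply a field automorphism to a triple of vectors -/
def mP (σ : ℂ ≃+* ℂ) (p : Fin 3 → E) : Fin 3 → E := fun i => mE σ (p i)

/-! ### Easy facts, proved here -/

lemma mem_TB {p : Fin 3 → E} {l : E} {x : (Fin 3 → E) × E} :
    x ∈ TB p l ↔ ∀ i, B (p i) (x.1 i) = 0 ∧ x.2 ⬝ᵥ p i + l ⬝ᵥ x.1 i = 0 := Iff.rfl

lemma mem_KK {n : ℕ} {P : Fin n → E} {A : Fin n → Submodule ℂ E} {t : T3} :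
    t ∈ KK P A ↔ t ∈ SymT ∧ ∀ i, ∀ v ∈ A i, tri t (P i) (P i) v = 0 := Iff.rfl

lemma mem_Ann2 {a b x : E} : x ∈ Ann ![a, b] ↔ a ⬝ᵥ x = 0 ∧ b ⬝ᵥ x = 0 := by
  rw [mem_Ann, Fin.forall_fin_two]; rfl

lemma mem_KB {p : Fin 3 → E} {l : E} {t : T3} : t ∈ KB p l ↔
    t ∈ SymT ∧ ∀ i v, B (p i) v = 0 → l ⬝ᵥ v = 0 → tri t (p i) (p i) v = 0 := by
  rw [KB, mem_KK]
  refine and_congr Iff.rfl (forall_congr' fun i => forall_congr' fun v => ?_)
  rw [mem_Ann2]
  exact ⟨fun h h1 h2 => h ⟨h1, h2⟩, fun h h1 => h h1.1 h1.2⟩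

lemma Cfg.lp {s : T3} {p : Fin 3 → E} {l : E} {lam mu : Fin 3 → ℂ} (h : Cfg s p l lam mu)
    (i : Fin 3) : l ⬝ᵥ p i = 0 := by
  rw [h.eq i, add_dotProduct, smul_dotProduct, smul_dotProduct]
  have h1 : beta (p i) ⬝ᵥ p i = 0 := h.q0 i
  have h2 : cov s (p i) (p i) ⬝ᵥ p i = 0 := h.s0 i
  rw [h1, h2]; simp

lemma Cfg.ev_mem {s : T3} {p : Fin 3 → E} {l : E} {lam mu : Fin 3 → ℂ} (h : Cfg s p l lam mu)
    (δ : D) : evB p l δ ∈ TB p l := by
  intro i
  simp only [evB_apply, evP_apply]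
  constructor
  · have h1 := d_B δ (p i) (p i)
    rw [h.q0 i, map_zero, B_comm (dE δ (p i))] at h1
    linear_combination -(1 / 2 : ℂ) * h1
  · have h1 := d_dot δ l (p i)
    rw [h.lp i, map_zero] at h1
    exact h1.symm

/-- the main equation, paired with a vector -/
lemma Cfg.dot_eq {s : T3} {p : Fin 3 → E} {l : E} {lam mu : Fin 3 → ℂ} (h : Cfg s p l lam mu)
    (i : Fin 3) (v : E) : l ⬝ᵥ v = lam i * B (p i) v + mu i * tri s (p i) (p i) v := by
  conv_lhs => rw [h.eq i, add_dotProduct, smul_dotProduct, smul_dotProduct]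
  rfl

/-- the derivative of the main equation -/
lemma Cfg.d_eq {s : T3} {p : Fin 3 → E} {l : E} {lam mu : Fin 3 → ℂ} (hs : s ∈ SymT)
    (h : Cfg s p l lam mu) (δ : D) (i : Fin 3) :
    dE δ l = δ (lam i) • beta (p i) + lam i • beta (dE δ (p i)) + δ (mu i) • cov s (p i) (p i)
      + mu i • (cov (dT δ s) (p i) (p i) + (2 : ℂ) • cov s (p i) (dE δ (p i))) := by
  conv_lhs => rw [h.eq i]
  rw [dE_add, dE_smul, dE_smul, dE_beta, dE_cov, cov_comm hs (dE δ (p i)) (p i)]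
  rw [two_smul]
  simp only [smul_add]
  abel

lemma Gen.map_evT {s : T3} (h : Gen s) : (⊤ : Submodule ℂ D).map (evT s) = SymT := by
  ext v
  constructor
  · rintro ⟨δ, -, rfl⟩
    exact dT_mem δ h.1
  · intro hv
    obtain ⟨δ, hδ⟩ := h.2 v hv
    exact ⟨δ, trivial, hδ⟩

lemma ZA_mono {A A' : Set ℂ} (h : A ⊆ A') : ZA A' ≤ ZA A := fun _ hδ a ha => hδ a (h ha)

lemma ZA_ent {s : T3} {A : Set ℂ} (h : ent s ⊆ A) : ZA A ≤ ZS s := by
  intro δ hδ
  rw [mem_ZS]
  ext i j k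
  exact hδ _ (h ⟨i, j, k, rfl⟩)

lemma ZA_entB {p : Fin 3 → E} {l : E} {A : Set ℂ} (h : entB p l ⊆ A) : ZA A ≤ ZB p l := by
  intro δ hδ
  rw [mem_ZB]
  exact ⟨fun i => funext fun j => hδ _ (h (Or.inl ⟨i, j, rfl⟩)),
    funext fun j => hδ _ (h (Or.inr ⟨j, rfl⟩))⟩

lemma Cfg.nt {s : T3} {p : Fin 3 → E} {l : E} {lam mu : Fin 3 → ℂ} (h : Cfg s p l lam mu)
    (hm : ∀ i, mu i ≠ 0) : Nt p l := by
  intro i
  have h1 := (h.nd i).rank
  rw [LinearIndependent.pair_iff] at h1 ⊢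
  intro a b hab
  rw [h.eq i] at hab
  have h2 := h1 (a + b * lam i) (b * mu i) (by
    rw [← hab]; simp only [smul_add, add_smul, smul_smul]; abel)
  have hb : b = 0 := by
    rcases mul_eq_zero.1 h2.2 with h3 | h3
    · exact h3
    · exact absurd h3 (hm i)
  refine ⟨?_, hb⟩
  have := h2.1
  rw [hb] at this
  simpa using this

/-- pairing of the main equation: on the tangent space the cubic is singular -/
lemma Cfg.tri_zero {s : T3} {p : Fin 3 → E} {l : E} {lam mu : Fin 3 → ℂ} (h : Cfg s p l lam mu)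
    (hm : ∀ i, mu i ≠ 0) (i : Fin 3) {v : E} (h1 : B (p i) v = 0) (h2 : l ⬝ᵥ v = 0) :
    tri s (p i) (p i) v = 0 := by
  have h3 := h.dot_eq i v
  rw [h1, h2, mul_zero, zero_add] at h3
  rcases mul_eq_zero.1 h3.symm with h4 | h4
  · exact absurd h4 (hm i)
  · exact h4

lemma Cfg.mem_KB {s : T3} {p : Fin 3 → E} {l : E} {lam mu : Fin 3 → ℂ} (hs : s ∈ SymT)
    (h : Cfg s p l lam mu) (hm : ∀ i, mu i ≠ 0) : s ∈ KB p l := by
  rw [G4.mem_KB]
  exact ⟨hs, fun i v h1 h2 => h.tri_zero hm i h1 h2⟩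

lemma Cfg.dT_mem_KB {s : T3} {p : Fin 3 → E} {l : E} {lam mu : Fin 3 → ℂ} (hs : s ∈ SymT)
    (h : Cfg s p l lam mu) (hm : ∀ i, mu i ≠ 0) {δ : D} (hδ : δ ∈ ZB p l) :
    dT δ s ∈ KB p l := by
  rw [G4.mem_KB]
  refine ⟨dT_mem δ hs, fun i v h1 h2 => ?_⟩
  have h3 := h.d_eq hs δ i
  rw [mem_ZB] at hδ
  rw [hδ.1 i, hδ.2, beta_zero, cov_zero_right, smul_zero, smul_zero, add_zero, add_zero] at h3
  have h4 := congrArg (fun x => x ⬝ᵥ v) h3
  simp only [add_dotProduct, smul_dotProduct, zero_dotProduct, smul_eq_mul] at h4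
  have h5 : beta (p i) ⬝ᵥ v = 0 := h1
  have h6 : cov s (p i) (p i) ⬝ᵥ v = 0 := h.tri_zero hm i h1 h2
  rw [h5, h6] at h4
  have h7 : mu i * tri (dT δ s) (p i) (p i) v = 0 := by
    have : tri (dT δ s) (p i) (p i) v = cov (dT δ s) (p i) (p i) ⬝ᵥ v := rfl
    rw [this]
    linear_combination -h4
  rcases mul_eq_zero.1 h7 with h8 | h8
  · exact absurd h8 (hm i)
  · exact h8

/-- a derivation which kills `s` moves `p i` inside the kernel of the gradient of the cubic -/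
lemma Cfg.tri_dE {s : T3} {p : Fin 3 → E} {l : E} {lam mu : Fin 3 → ℂ} (hs : s ∈ SymT)
    (h : Cfg s p l lam mu) {δ : D} (hδ : δ ∈ ZS s) (i : Fin 3) :
    B (p i) (dE δ (p i)) = 0 ∧ tri s (p i) (p i) (dE δ (p i)) = 0 := by
  refine ⟨(h.ev_mem δ i).1, ?_⟩
  have h1 := d_tri δ s (p i) (p i) (p i)
  rw [h.s0 i, map_zero, mem_ZS.1 hδ, tri_zero_tensor, tri_comm13 hs (dE δ (p i)),
    tri_comm23 hs (p i) (dE δ (p i))] at h1
  linear_combination -(1 / 3 : ℂ) * h1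

/-- TAN: the derivative of `l` vanishes at the nodes -/
lemma Cfg.dl_p {s : T3} {p : Fin 3 → E} {l : E} {lam mu : Fin 3 → ℂ} (hs : s ∈ SymT)
    (h : Cfg s p l lam mu) {δ : D} (hδ : δ ∈ ZS s) (i : Fin 3) : dE δ l ⬝ᵥ p i = 0 := by
  have h1 := (h.ev_mem δ i).2
  simp only [evB_apply, evP_apply] at h1
  have h2 := h.dot_eq i (dE δ (p i))
  rw [(h.tri_dE hs hδ i).1, (h.tri_dE hs hδ i).2] at h2
  rw [h2] at h1
  simpa using h1

end Pool.Agent.Work.MP_ea8963_ag.G4
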