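import Pool.Agent.Work.MP_ea8963_ag.G4.Stmts

/-!
Block [ea8963 G4], item BJX.
-/

set_option linter.style.longLine false
set_option linter.unusedVariables false

noncomputable section

open Module Topology

namespace Pool.Agent.Work.MP_ea8963_ag.G4

theorem BJX_pf : BJX := by
  intro s p l lam mu h hfull i j hij hB
  -- the gradients at `p i` and `p j` are independent
  have hpair : LinearIndependent ℂ ![p i, p j] := by
    have h1 : LinearIndependent ℂ (p ∘ ![i, j]) := by
      apply h.ind.comp
      intro a b hab
      fin_cases a <;> fin_cases b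
      · rfl
      · exact absurd hab hij
      · exact absurd hab.symm hij
      · rfl
    have h2 : (p ∘ ![i, j]) = ![p i, p j] := by
      funext a; fin_cases a <;> rfl
    rwa [h2] at h1
  have hbeta : LinearIndependent ℂ ![beta (p i), beta (p j)] := by
    have h1 : LinearIndependent ℂ (betaL ∘ ![p i, p j]) :=
      hpair.map' betaL (LinearMap.ker_eq_bot.2 beta_injective)
    have h2 : (betaL ∘ ![p i, p j]) = ![beta (p i), beta (p j)] := by
      funext a; fin_cases a <;> rfl
    rwa [h2] at h1
  obtain ⟨w, hw⟩ := exists_solution hbeta ![0, 1]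
  have hw1 : B (p i) w = 0 := hw 0
  have hw2 : B (p j) w = 1 := hw 1
  obtain ⟨m, hm⟩ := exists_solution h.ind (fun k => if k = i then -(l ⬝ᵥ w) else 0)
  have hmem : ((Pi.single i w : Fin 3 → E), m) ∈ TB p l := by
    rw [mem_TB]
    intro k
    by_cases hk : k = i
    · subst hk
      refine ⟨by simpa using hw1, ?_⟩
      have h3 := hm k
      rw [if_pos rfl, dotProduct_comm] at h3
      simp [h3]
    · have h3 := hm k
      rw [if_neg hk, dotProduct_comm] at h3
      have h4 : (Pi.single i w : Fin 3 → E) k = 0 := by
        rw [Pi.single_apply, if_neg hk]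
      refine ⟨?_, ?_⟩
      · show B (p k) ((Pi.single i w : Fin 3 → E) k) = 0
        rw [h4, B_zero_right]
      · show m ⬝ᵥ p k + l ⬝ᵥ (Pi.single i w : Fin 3 → E) k = 0
        rw [h4, h3]; simp
  obtain ⟨δ, hδ⟩ := hfull _ hmem
  have h5 : evP p δ = (Pi.single i w : Fin 3 → E) := congrArg Prod.fst hδ
  have h6 : dE δ (p i) = w := by
    have := congrFun h5 i
    simpa using this
  have h7 : dE δ (p j) = 0 := by
    have h8 := congrFun h5 j
    rw [Pi.single_apply, if_neg (Ne.symm hij)] at h8
    exact h8
  have h9 := d_B δ (p i) (p j)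
  rw [hB, map_zero, h6, h7, B_zero_right, add_zero, B_comm, hw2] at h9
  exact zero_ne_one h9

end Pool.Agent.Work.MP_ea8963_ag.G4
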