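import Pool.Agent.Work.MP_ea8963_ag.G4.Stmts2

/-!
Block [ea8963 G4], item CHX: generic points near given ones.
-/

noncomputable section

open Module Topology

namespace Pool.Agent.Work.MP_ea8963_ag.G4

theorem CHX_pf (hFEX : FEX) : CHX := by
  intro A hA n
  induction n with
  | zero =>
    intro c ε hε
    exact ⟨c, fun i => i.elim0, fun v => ⟨0, (ZA A).zero_mem, fun i => i.elim0⟩⟩
  | succ n ih =>
    intro c ε hε
    obtain ⟨c', hc', hF⟩ := ih (fun i => c i.castSucc) ε hε
    have hcount : (cl (A ∪ Set.range c')).Countable :=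
      hFEX _ (hA.union (Set.countable_range c'))
    have hd : Dense (cl (A ∪ Set.range c'))ᶜ := hcount.dense_compl ℝ
    obtain ⟨z, hz, hzd⟩ := hd.exists_dist_lt (c (Fin.last n)) hε
    have hex : ∃ δ ∈ ZA (A ∪ Set.range c'), δ z ≠ 0 := by
      by_contra hcon
      push Not at hcon
      exact hz hcon
    obtain ⟨δ, hδ, hδz⟩ := hex
    refine ⟨Fin.snoc c' z, ?_, ?_⟩
    · intro i
      refine Fin.lastCases ?_ (fun j => ?_) i
      · rw [Fin.snoc_last, ← dist_eq_norm, dist_comm]
        exact hzd
      · rw [Fin.snoc_castSucc]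
        exact hc' j
    · intro v
      obtain ⟨δ₁, h1, h2⟩ := hF (fun i => v i.castSucc)
      refine ⟨δ₁ + ((v (Fin.last n) - δ₁ z) * (δ z)⁻¹) • δ, ?_, ?_⟩
      · exact (ZA A).add_mem h1 ((ZA A).smul_mem _ (ZA_mono Set.subset_union_left hδ))
      · intro i
        refine Fin.lastCases ?_ (fun j => ?_) i
        · rw [Fin.snoc_last, Derivation.add_apply, Derivation.smul_apply, smul_eq_mul, mul_assoc,
            inv_mul_cancel₀ hδz, mul_one]
          ring
        · rw [Fin.snoc_castSucc, Derivation.add_apply, Derivation.smul_apply, h2 j,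
            hδ (c' j) (Or.inr ⟨j, rfl⟩), smul_zero, add_zero]

end Pool.Agent.Work.MP_ea8963_ag.G4
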