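import Pool.Agent.Work.MP_ea8963_ag.G4.Stmts

/-!
Block [ea8963 G4], item CNX: the conic through the three nodes is not in the surface.
-/

set_option linter.style.longLine false
set_option linter.unusedVariables false

noncomputable section

open Module Topology

namespace Pool.Agent.Work.MP_ea8963_ag.G4

namespace I_CNX

lemma B_sum (p : Fin 3 → E) (x : Fin 3 → ℂ) (h0 : ∀ i, B (p i) (p i) = 0) :
    B (∑ i, x i • p i) (∑ i, x i • p i) = 2 * (x 0 * x 1 * B (p 0) (p 1) +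
      x 0 * x 2 * B (p 0) (p 2) + x 1 * x 2 * B (p 1) (p 2)) := by
  rw [Fin.sum_univ_three]
  simp only [B_add_left, B_add_right, B_smul_left, B_smul_right, h0]
  rw [B_comm (p 1) (p 0), B_comm (p 2) (p 0), B_comm (p 2) (p 1)]
  ring

lemma tri_sum {s : T3} (hs : s ∈ SymT) (p : Fin 3 → E) (x : Fin 3 → ℂ)
    (h0 : ∀ i, tri s (p i) (p i) (p i) = 0) :
    tri s (∑ i, x i • p i) (∑ i, x i • p i) (∑ i, x i • p i) =
      3 * (x 0 ^ 2 * x 1 * tri s (p 0) (p 0) (p 1) + x 0 ^ 2 * x 2 * tri s (p 0) (p 0) (p 2) +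
        x 1 ^ 2 * x 0 * tri s (p 1) (p 1) (p 0) + x 1 ^ 2 * x 2 * tri s (p 1) (p 1) (p 2) +
        x 2 ^ 2 * x 0 * tri s (p 2) (p 2) (p 0) + x 2 ^ 2 * x 1 * tri s (p 2) (p 2) (p 1)) +
      6 * (x 0 * x 1 * x 2) * tri s (p 0) (p 1) (p 2) := by
  have e1 : ∀ u v : E, tri s u v u = tri s u u v := fun u v => tri_comm23 hs u v u
  have e2 : ∀ u v : E, tri s v u u = tri s u u v := fun u v => tri_comm13 hs v u u
  have f1 : tri s (p 0) (p 2) (p 1) = tri s (p 0) (p 1) (p 2) := tri_comm23 hs _ _ _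
  have f2 : tri s (p 1) (p 0) (p 2) = tri s (p 0) (p 1) (p 2) := tri_comm12 hs _ _ _
  have f3 : tri s (p 1) (p 2) (p 0) = tri s (p 0) (p 1) (p 2) := by
    rw [tri_comm13 hs, f1]
  have f4 : tri s (p 2) (p 0) (p 1) = tri s (p 0) (p 1) (p 2) := by
    rw [tri_comm13 hs, f2]
  have f5 : tri s (p 2) (p 1) (p 0) = tri s (p 0) (p 1) (p 2) := tri_comm13 hs _ _ _
  rw [Fin.sum_univ_three]
  simp only [tri_add1, tri_add2, tri_add3, tri_smul1, tri_smul2, tri_smul3, h0]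
  rw [f1, f2, f3, f4, f5]
  rw [e1 (p 0) (p 1), e1 (p 0) (p 2), e1 (p 1) (p 0), e1 (p 1) (p 2), e1 (p 2) (p 0),
    e1 (p 2) (p 1), e2 (p 0) (p 1), e2 (p 0) (p 2), e2 (p 1) (p 0), e2 (p 1) (p 2),
    e2 (p 2) (p 0), e2 (p 2) (p 1)]
  ring

end I_CNX

open I_CNX in
theorem CNX_pf : CNX := by
  intro s hs p l lam mu h hm hB hfull x hq hq3
  -- the relation of the main equation
  have hrel : ∀ i j, tri s (p i) (p i) (p j) = -(lam i / mu i) * B (p i) (p j) := by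
    intro i j
    have h1 := h.dot_eq i (p j)
    rw [h.lp j] at h1
    have h2 := hm i
    field_simp
    linear_combination -h1
  -- the test tensor
  obtain ⟨a, ha⟩ := exists_dual h.ind
  have ht : sp (a 0) (a 1) (a 2) ∈ KB p l := by
    rw [mem_KB]
    refine ⟨sp_mem _ _ _, fun i v _ _ => ?_⟩
    rw [tri_sp_ppv, ha, ha, ha]
    fin_cases i <;> simp
  obtain ⟨δ, hδ, hδt⟩ := hfull _ ht
  rw [mem_ZB] at hδ
  have hdB : ∀ i j, δ (B (p i) (p j)) = 0 := by
    intro i j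
    rw [d_B, hδ.1 i, hδ.1 j, B_zero_left, B_zero_right, add_zero]
  have hdT : ∀ i j k, δ (tri s (p i) (p j) (p k)) = tri (sp (a 0) (a 1) (a 2)) (p i) (p j) (p k) := by
    intro i j k
    rw [d_tri, hδ.1 i, hδ.1 j, hδ.1 k, tri_zero1, tri_zero2, tri_zero3, hδt]
    ring
  have hdr : ∀ i, δ (lam i / mu i) = 0 := by
    intro i
    obtain ⟨j, hj⟩ : ∃ j, i ≠ j := ⟨i + 1, by fin_cases i <;> decide⟩
    have h1 : δ (tri s (p i) (p i) (p j)) = 0 := by
      rw [hdT, tri_sp_ppv, ha, ha, ha, ha, ha, ha]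
      fin_cases i <;> simp
    rw [hrel i j, δ.leibniz, hdB, smul_zero, zero_add, smul_eq_mul, map_neg] at h1
    rcases mul_eq_zero.1 h1 with h2 | h2
    · exact absurd h2 (hB i j hj)
    · exact neg_eq_zero.1 h2
  set c : ℂ := 3 * (lam 0 / mu 0 * B (p 1) (p 2) + lam 1 / mu 1 * B (p 0) (p 2) +
    lam 2 / mu 2 * B (p 0) (p 1)) + 6 * tri s (p 0) (p 1) (p 2) with hc
  have d3 : δ (3 : ℂ) = 0 := by
    have := δ.map_natCast 3
    simpa using this
  have d6 : δ (6 : ℂ) = 0 := by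
    have := δ.map_natCast 6
    simpa using this
  have h012 : tri (sp (a 0) (a 1) (a 2)) (p 0) (p 1) (p 2) = 1 := by
    rw [tri_sp]
    simp only [ha]
    simp
  have hdc : δ c = 6 := by
    rw [hc]
    simp only [map_add, δ.leibniz, smul_eq_mul, hdB, hdr, hdT, h012, d3, d6]
    ring
  have hc0 : c ≠ 0 := by
    intro h0
    rw [h0, map_zero] at hdc
    norm_num at hdc
  rw [B_sum p x h.q0] at hq
  have hq' : x 0 * x 1 * B (p 0) (p 1) + x 0 * x 2 * B (p 0) (p 2) + x 1 * x 2 * B (p 1) (p 2) = 0 := by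
    linear_combination (1 / 2 : ℂ) * hq
  rw [tri_sum hs p x h.s0, hrel, hrel, hrel, hrel, hrel, hrel, B_comm (p 1) (p 0),
    B_comm (p 2) (p 0), B_comm (p 2) (p 1)] at hq3
  have hprod : c * (x 0 * x 1 * x 2) = 0 := by
    rw [hc]
    linear_combination hq3 + 3 * (lam 0 / mu 0 * x 0 + lam 1 / mu 1 * x 1 + lam 2 / mu 2 * x 2) * hq'
  have hx : x 0 * x 1 * x 2 = 0 := (mul_eq_zero.1 hprod).resolve_left hc0
  have h01 := hB 0 1 (by decide)
  have h02 := hB 0 2 (by decide)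
  have h12 := hB 1 2 (by decide)
  rw [Fin.sum_univ_three]
  rcases mul_eq_zero.1 hx with h1 | h1
  · rcases mul_eq_zero.1 h1 with h2 | h2
    · rw [h2] at hq'
      have h3 : x 1 * x 2 * B (p 1) (p 2) = 0 := by linear_combination hq'
      rcases mul_eq_zero.1 ((mul_eq_zero.1 h3).resolve_right h12) with h4 | h4
      · exact ⟨2, x 2, by rw [h2, h4]; simp⟩
      · exact ⟨1, x 1, by rw [h2, h4]; simp⟩
    · rw [h2] at hq'
      have h3 : x 0 * x 2 * B (p 0) (p 2) = 0 := by linear_combination hq'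
      rcases mul_eq_zero.1 ((mul_eq_zero.1 h3).resolve_right h02) with h4 | h4
      · exact ⟨2, x 2, by rw [h2, h4]; simp⟩
      · exact ⟨0, x 0, by rw [h2, h4]; simp⟩
  · rw [h1] at hq'
    have h3 : x 0 * x 1 * B (p 0) (p 1) = 0 := by linear_combination hq'
    rcases mul_eq_zero.1 ((mul_eq_zero.1 h3).resolve_right h01) with h4 | h4
    · exact ⟨1, x 1, by rw [h1, h4]; simp⟩
    · exact ⟨0, x 0, by rw [h1, h4]; simp⟩

end Pool.Agent.Work.MP_ea8963_ag.G4
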