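import Pool.Agent.Work.MP_ea8963_ag.G4.Stmts2

/-!
Block [ea8963 G4], item COX: near a configuration every solution is a configuration.
-/

set_option linter.style.longLine false

noncomputable section

open Module Topology

namespace Pool.Agent.Work.MP_ea8963_ag.G4

namespace I_COX

lemma cont_pOf (i : Fin 3) : Continuous (fun z : T3 × Y => pOf z.2 i) := by
  unfold pOf
  fun_prop

lemma cont_laOf (i : Fin 3) : Continuous (fun z : T3 × Y => laOf z.2 i) := by
  unfold laOf
  fun_prop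

lemma cont_muOf (i : Fin 3) : Continuous (fun z : T3 × Y => muOf z.2 i) := by
  unfold muOf
  fun_prop

lemma cont_beta : Continuous beta :=
  LinearMap.continuous_of_finiteDimensional betaL

lemma cont_cov : Continuous (fun z : T3 × E × E => cov z.1 z.2.1 z.2.2) := by
  unfold cov
  fun_prop

lemma cont_covp (i : Fin 3) :
    Continuous (fun z : T3 × Y => cov z.1 (pOf z.2 i) (pOf z.2 i)) := by
  have h1 := cont_pOf i
  have h2 : Continuous (fun z : T3 × Y => ((z.1, pOf z.2 i, pOf z.2 i) : T3 × E × E)) :=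
    continuous_fst.prodMk (h1.prodMk h1)
  have h3 := Continuous.comp cont_cov h2
  exact h3

lemma cont_betap (i : Fin 3) : Continuous (fun z : T3 × Y => beta (pOf z.2 i)) :=
  cont_beta.comp (cont_pOf i)

lemma cont_om (i : Fin 3) : Continuous (fun z : T3 × Y => om z.1 z.2 i) := by
  have h3 : Continuous (fun z : T3 × Y => laOf z.2 i • beta (pOf z.2 i)) :=
    (cont_laOf i).smul (cont_betap i)
  have h4 : Continuous (fun z : T3 × Y => muOf z.2 i • cov z.1 (pOf z.2 i) (pOf z.2 i)) :=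
    (cont_muOf i).smul (cont_covp i)
  exact h3.add h4

lemma of_Phi {s : T3} {y : Y} (h : Phi s y = 0) :
    (∀ i, B (pOf y i) (pOf y i) = 0) ∧ (∀ i, tri s (pOf y i) (pOf y i) (pOf y i) = 0) ∧
    om s y 0 = om s y 1 ∧ om s y 0 = om s y 2 := by
  have h1 : (fun i => B (pOf y i) (pOf y i)) = (0 : Fin 3 → ℂ) := congrArg (fun x => x.1) h
  have h2 : (fun i => tri s (pOf y i) (pOf y i) (pOf y i)) = (0 : Fin 3 → ℂ) :=
    congrArg (fun x => x.2.1) h
  have h3 : om s y 0 - om s y 1 = 0 := congrArg (fun x => x.2.2.1) h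
  have h4 : om s y 0 - om s y 2 = 0 := congrArg (fun x => x.2.2.2) h
  exact ⟨fun i => congrFun h1 i, fun i => congrFun h2 i, sub_eq_zero.1 h3, sub_eq_zero.1 h4⟩

end I_COX

open I_COX in
/-- ITEM COX -/
theorem COX_pf (hNOX : NOX) : COX := by
  intro s y hy
  have h1 : ∀ᶠ z : T3 × Y in 𝓝 (s, y), LinearIndependent ℂ (pOf z.2) := by
    have hc : Continuous (fun z : T3 × Y => pOf z.2) := continuous_pi fun i => cont_pOf i
    have ho : IsOpen {f : Fin 3 → E | LinearIndependent ℂ f} := isOpen_setOfPred_linearIndependent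
    have hm : {f : Fin 3 → E | LinearIndependent ℂ f} ∈ 𝓝 (pOf y) := ho.mem_nhds hy.ind
    exact (hc.tendsto (s, y)) hm
  have h2 : ∀ᶠ z : T3 × Y in 𝓝 (s, y), om z.1 z.2 0 ≠ 0 :=
    (cont_om 0).continuousAt.eventually_ne hy.l0
  have h3 : ∀ i, ∀ᶠ z : T3 × Y in 𝓝 (s, y), B (pOf z.2 i) (pOf z.2 i) = 0 →
      tri z.1 (pOf z.2 i) (pOf z.2 i) (pOf z.2 i) = 0 →
      Nd z.1 (pOf z.2 i) (laOf z.2 i) (muOf z.2 i) := by
    intro i
    have hc : Continuous (fun z : T3 × Y => (z.1, pOf z.2 i, laOf z.2 i, muOf z.2 i)) :=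
      continuous_fst.prodMk ((cont_pOf i).prodMk ((cont_laOf i).prodMk (cont_muOf i)))
    exact (hc.tendsto (s, y)).eventually (hNOX s (pOf y i) (laOf y i) (muOf y i) (hy.nd i))
  filter_upwards [h1, h2, h3 0, h3 1, h3 2] with z g1 g2 g30 g31 g32 hz
  obtain ⟨e1, e2, e3, e4⟩ := of_Phi hz
  refine ⟨e1, e2, ?_, g1, ?_, g2⟩
  · intro i
    fin_cases i
    · rfl
    · exact e3
    · exact e4
  · intro i
    fin_cases i
    · exact g30 (e1 0) (e2 0)
    · exact g31 (e1 1) (e2 1)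
    · exact g32 (e1 2) (e2 2)

end Pool.Agent.Work.MP_ea8963_ag.G4
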