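import Pool.Agent.Work.MP_ea8963_ag.G4.Stmts2

/-!
Block [ea8963 G4], item CRX (helper16): explicit linear equations for `KB`.
-/

set_option linter.style.longLine false
set_option linter.unusedVariables false

noncomputable section

open Module Topology

namespace Pool.Agent.Work.MP_ea8963_ag.G4

namespace I_CRX

lemma dot_cross_left (a b u w z : E) : a ⬝ᵥ cross a b u w z = 0 := by
  simp only [cross, dotProduct_add, dotProduct_smul, smul_eq_mul]
  ring

lemma dot_cross_right (a b u w z : E) : b ⬝ᵥ cross a b u w z = 0 := by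
  simp only [cross, dotProduct_add, dotProduct_smul, smul_eq_mul]
  ring

/-- `cross` is linear in the last variable -/
def crossL (a b u w : E) : E →ₗ[ℂ] E where
  toFun z := cross a b u w z
  map_add' x y := by
    simp only [cross, dotProduct_add]
    module
  map_smul' c x := by
    simp only [cross, dotProduct_smul, smul_eq_mul, RingHom.id_apply]
    module

lemma cross_eq_of_ann (a b u w v : E) (ha : a ⬝ᵥ v = 0) (hb : b ⬝ᵥ v = 0) :
    cross a b u w v = ((a ⬝ᵥ u) * (b ⬝ᵥ w) - (a ⬝ᵥ w) * (b ⬝ᵥ u)) • v := by
  simp only [cross, ha, hb]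
  module

/-- the trilinear form on `cross` as a linear map -/
def TL (t : T3) (p a b u w : E) : E →ₗ[ℂ] ℂ where
  toFun z := tri t p p (crossL a b u w z)
  map_add' x y := by rw [map_add, tri_add3]
  map_smul' c x := by rw [map_smul, tri_smul3]; rfl

lemma exists_minor {a b : E} (h : LinearIndependent ℂ ![a, b]) :
    ∃ u w : Fin 5, a u * b w - a w * b u ≠ 0 := by
  by_contra hcon
  push Not at hcon
  rw [LinearIndependent.pair_iff] at h
  have ha : ∃ u, a u ≠ 0 := by
    by_contra h0
    push Not at h0
    have := h 1 0 (by rw [one_smul, zero_smul, add_zero]; exact funext h0)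
    exact one_ne_zero this.1
  obtain ⟨u, hu⟩ := ha
  have h1 := h (b u) (-(a u)) (by
    ext w
    have := hcon u w
    simp only [Pi.add_apply, Pi.smul_apply, smul_eq_mul, Pi.zero_apply]
    linear_combination -this)
  exact hu (neg_eq_zero.1 h1.2)

end I_CRX

open I_CRX in
theorem CRX_pf : CRX := by
  intro p l hN t ht
  rw [mem_KB]
  constructor
  · rintro ⟨-, h⟩ i u w z
    exact h i _ (dot_cross_left _ _ _ _ _) (dot_cross_right _ _ _ _ _)
  · intro h
    refine ⟨ht, fun i v h1 h2 => ?_⟩
    obtain ⟨u, w, huw⟩ := exists_minor (hN i)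
    have key : TL t (p i) (beta (p i)) l (Pi.single u 1) (Pi.single w 1) = 0 := by
      apply LinearMap.pi_ext'
      intro z
      apply LinearMap.ext_ring
      exact h i u w z
    have h3 := LinearMap.congr_fun key v
    have h4 : tri t (p i) (p i) (cross (beta (p i)) l (Pi.single u 1) (Pi.single w 1) v) = 0 := h3
    rw [cross_eq_of_ann _ _ _ _ _ h1 h2, tri_smul3] at h4
    rcases mul_eq_zero.1 h4 with h5 | h5
    · exfalso
      apply huw
      simpa using h5
    · exact h5

end Pool.Agent.Work.MP_ea8963_ag.G4
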