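import Pool.Agent.Work.MP_ea8963_ag.G4.Stmts

/-!
Block [ea8963 G4], item DKX: dimension of the intersection of two spaces of cubics.
-/

set_option linter.style.longLine false

noncomputable section

open Module

namespace Pool.Agent.Work.MP_ea8963_ag.G4

namespace I_DKX

/-- the tangent directions of the section at the node `p i` -/
abbrev An (p : Fin 3 → E) (l : E) (i : Fin 3) : Submodule ℂ E := Ann ![beta (p i), l]

/-- the parameter space of the functionals -/
abbrev Par (p : Fin 3 → E) (l : E) (p' : Fin 3 → E) (l' : E) : Type :=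
  ((i : Fin 3) → An p l i) × ((i : Fin 3) → An p' l' i)

/-- the functionals -/
def phi (p : Fin 3 → E) (l : E) (p' : Fin 3 → E) (l' : E) :
    Par p l p' l' →ₗ[ℂ] Dual ℂ SymT :=
  LinearMap.mk₂ ℂ (fun (x : Par p l p' l') (t : SymT) =>
      ∑ i, tri t.1 (p i) (p i) (x.1 i).1 + ∑ i, tri t.1 (p' i) (p' i) (x.2 i).1)
    (by
      intro x y t
      simp only [Prod.fst_add, Prod.snd_add, Pi.add_apply, Submodule.coe_add, tri_add3,
        Finset.sum_add_distrib]
      ring)
    (by
      intro c x t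
      simp only [Prod.smul_fst, Prod.smul_snd, Pi.smul_apply, Submodule.coe_smul, tri_smul3,
        ← Finset.mul_sum, smul_eq_mul]
      ring)
    (by
      intro x s t
      simp only [Submodule.coe_add, tri_add_tensor, Finset.sum_add_distrib]
      ring)
    (by
      intro c x t
      simp only [Submodule.coe_smul, tri_smul_tensor, ← Finset.mul_sum, smul_eq_mul]
      ring)

lemma phi_apply (p : Fin 3 → E) (l : E) (p' : Fin 3 → E) (l' : E) (x : Par p l p' l')
    (t : SymT) : phi p l p' l' x t =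
      ∑ i, tri t.1 (p i) (p i) (x.1 i).1 + ∑ i, tri t.1 (p' i) (p' i) (x.2 i).1 := rfl

/-- the inclusion of the parameter space -/
def inc (p : Fin 3 → E) (l : E) (p' : Fin 3 → E) (l' : E) :
    Par p l p' l' →ₗ[ℂ] (Fin 3 → E) × (Fin 3 → E) where
  toFun x := (fun i => (x.1 i).1, fun i => (x.2 i).1)
  map_add' x y := by ext <;> rfl
  map_smul' c x := by ext <;> rfl

lemma inc_injective (p : Fin 3 → E) (l : E) (p' : Fin 3 → E) (l' : E) :
    Function.Injective (inc p l p' l') := by
  rintro ⟨x, x'⟩ ⟨y, y'⟩ h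
  have h1 := congrArg Prod.fst h
  have h2 := congrArg Prod.snd h
  refine Prod.ext ?_ ?_
  · funext i
    exact Subtype.ext (congrFun h1 i)
  · funext i
    exact Subtype.ext (congrFun h2 i)

lemma map_ker (p : Fin 3 → E) (l : E) (p' : Fin 3 → E) (l' : E) :
    (LinearMap.ker (phi p l p' l')).map (inc p l p' l') = RelM p l p' l' := by
  ext x
  constructor
  · rintro ⟨y, hy, rfl⟩
    refine ⟨fun i => ?_, fun i => ?_, fun t ht => ?_⟩
    · exact mem_Ann2.1 (y.1 i).2
    · exact mem_Ann2.1 (y.2 i).2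
    · have h1 : phi p l p' l' y = 0 := hy
      have h2 := LinearMap.congr_fun h1 ⟨t, ht⟩
      rw [phi_apply] at h2
      exact h2
  · rintro ⟨h1, h2, h3⟩
    refine ⟨(fun i => ⟨x.1 i, mem_Ann2.2 (h1 i)⟩, fun i => ⟨x.2 i, mem_Ann2.2 (h2 i)⟩), ?_, rfl⟩
    have : phi p l p' l' (fun i => ⟨x.1 i, mem_Ann2.2 (h1 i)⟩, fun i => ⟨x.2 i, mem_Ann2.2 (h2 i)⟩)
        = 0 := by
      refine LinearMap.ext fun t => ?_
      rw [phi_apply]
      exact h3 t.1 t.2
    exact this

lemma map_coann (p : Fin 3 → E) (l : E) (p' : Fin 3 → E) (l' : E) :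
    ((LinearMap.range (phi p l p' l')).dualCoannihilator).map SymT.subtype =
      (KB p l ⊓ KB p' l' : Submodule ℂ T3) := by
  ext t
  constructor
  · rintro ⟨s, hs, rfl⟩
    have hs' : ∀ x : Par p l p' l', phi p l p' l' x s = 0 := fun x =>
      (Submodule.mem_dualCoannihilator s).1 hs _ ⟨x, rfl⟩
    refine ⟨⟨s.2, fun i v hv => ?_⟩, ⟨s.2, fun i v hv => ?_⟩⟩
    · have h1 := hs' (Pi.single i ⟨v, hv⟩, 0)
      rw [phi_apply, Finset.sum_eq_single i] at h1
      · simpa [tri_zero3] using h1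
      · intro j _ hj
        simp [Pi.single_eq_of_ne hj, tri_zero3]
      · intro h; exact absurd (Finset.mem_univ i) h
    · have h1 := hs' (0, Pi.single i ⟨v, hv⟩)
      rw [phi_apply, Finset.sum_eq_single (f := fun i => tri s.1 (p' i) (p' i) _) i] at h1
      · simpa [tri_zero3] using h1
      · intro j _ hj
        simp [Pi.single_eq_of_ne hj, tri_zero3]
      · intro h; exact absurd (Finset.mem_univ i) h
  · rintro ⟨h1, h2⟩
    refine ⟨⟨t, h1.1⟩, ?_, rfl⟩
    rw [SetLike.mem_coe, Submodule.mem_dualCoannihilator]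
    rintro _ ⟨x, rfl⟩
    rw [phi_apply]
    rw [Finset.sum_eq_zero fun i _ => h1.2 i _ (x.1 i).2,
      Finset.sum_eq_zero fun i _ => h2.2 i _ (x.2 i).2, add_zero]

lemma finrank_par (p : Fin 3 → E) (l : E) (p' : Fin 3 → E) (l' : E) (h : Nt p l)
    (h' : Nt p' l') : finrank ℂ (Par p l p' l') = 18 := by
  have h1 : ∀ i, finrank ℂ (An p l i) = 3 := by
    intro i
    have : finrank ℂ (An p l i) + 2 = 5 := finrank_Ann (h i)
    omega
  have h2 : ∀ i, finrank ℂ (An p' l' i) = 3 := by
    intro i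
    have : finrank ℂ (An p' l' i) + 2 = 5 := finrank_Ann (h' i)
    omega
  rw [Module.finrank_prod, Module.finrank_pi_fintype, Module.finrank_pi_fintype]
  simp only [h1, h2]
  simp

end I_DKX

theorem DKX_pf : DKX := by
  intro p l p' l' h h'
  have h1 := pair (I_DKX.phi p l p' l')
  rw [I_DKX.finrank_par p l p' l' h h'] at h1
  have h2 : finrank ℂ (KB p l ⊓ KB p' l' : Submodule ℂ T3) =
      finrank ℂ ((LinearMap.range (I_DKX.phi p l p' l')).dualCoannihilator) := by
    rw [← I_DKX.map_coann, Submodule.finrank_map_subtype_eq]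
  have h3 : finrank ℂ (RelM p l p' l') = finrank ℂ (LinearMap.ker (I_DKX.phi p l p' l')) := by
    rw [← I_DKX.map_ker]
    exact ((Submodule.equivMapOfInjective _ (I_DKX.inc_injective p l p' l')
      (LinearMap.ker (I_DKX.phi p l p' l'))).finrank_eq).symm
  rw [h2, h3]
  exact h1

end Pool.Agent.Work.MP_ea8963_ag.G4
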