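import Pool.Agent.Work.MP_ea8963_ag.G4.Stmts

/-!
Block [ea8963 G4], item DTB (helper44).
-/

noncomputable section

open Module

namespace Pool.Agent.Work.MP_ea8963_ag.G4

namespace I_DTB

lemma fst_le (p : Fin 3 → E) (l : E) (hp : LinearIndependent ℂ p) :
    finrank ℂ ((TB p l).map (LinearMap.fst ℂ (Fin 3 → E) E)) ≤ 12 := by
  set U : Submodule ℂ (Fin 3 → E) := (TB p l).map (LinearMap.fst ℂ (Fin 3 → E) E) with hU
  have hmem : ∀ x ∈ U, ∀ i, x i ∈ Ann ![beta (p i)] := by
    rintro x ⟨y, hy, rfl⟩ i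
    rw [mem_Ann]
    intro j
    have hj : j = 0 := Subsingleton.elim _ _
    subst hj
    exact (hy i).1
  let F : U →ₗ[ℂ] ((i : Fin 3) → Ann ![beta (p i)]) :=
    LinearMap.pi fun i => LinearMap.codRestrict (Ann ![beta (p i)])
      ((LinearMap.proj i : (Fin 3 → E) →ₗ[ℂ] E).comp U.subtype) (fun x => hmem x.1 x.2 i)
  have hF : Function.Injective F := by
    intro x y h
    apply Subtype.ext
    funext i
    have := congrFun h i
    exact congrArg Subtype.val this
  have h1 := LinearMap.finrank_le_finrank_of_injective hF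
  rw [Module.finrank_pi_fintype] at h1
  have h2 : ∀ i : Fin 3, finrank ℂ (Ann ![beta (p i)]) = 4 := by
    intro i
    have hb : beta (p i) ≠ 0 := by
      rw [Ne, beta_eq_zero]
      exact hp.ne_zero i
    have hi : LinearIndependent ℂ ![beta (p i)] := by
      rw [linearIndependent_unique_iff]
      exact hb
    have := finrank_Ann hi
    omega
  simp only [h2] at h1
  simpa using h1

lemma snd_le (p : Fin 3 → E) (l : E) (hp : LinearIndependent ℂ p) :
    finrank ℂ (((TB p l) ⊓ LinearMap.ker (LinearMap.fst ℂ (Fin 3 → E) E)).map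
      (LinearMap.snd ℂ (Fin 3 → E) E) : Submodule ℂ E) ≤ 2 := by
  have h := finrank_le_of_ann hp
    (U := ((TB p l) ⊓ LinearMap.ker (LinearMap.fst ℂ (Fin 3 → E) E)).map
      (LinearMap.snd ℂ (Fin 3 → E) E)) ?_
  · omega
  · rintro x ⟨y, ⟨hy, hk⟩, rfl⟩ i
    have h1 : y.1 = 0 := hk
    have h2 := (hy i).2
    rw [h1] at h2
    simp only [Pi.zero_apply, dotProduct_zero, add_zero] at h2
    rw [dotProduct_comm]
    exact h2

end I_DTB

theorem DTB_pf : DTB := by
  intro p l hp
  have h := rn_prod (LinearMap.fst ℂ (Fin 3 → E) E) (LinearMap.snd ℂ (Fin 3 → E) E) (TB p l)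
  have hid : (LinearMap.fst ℂ (Fin 3 → E) E).prod (LinearMap.snd ℂ (Fin 3 → E) E)
      = LinearMap.id := by
    ext x <;> rfl
  rw [hid, Submodule.map_id] at h
  rw [h]
  have h1 := I_DTB.fst_le p l hp
  have h2 := I_DTB.snd_le p l hp
  omega

end Pool.Agent.Work.MP_ea8963_ag.G4
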