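import Pool.Agent.Work.MP_ea8963_ag.G4.Stmts2

/-!
Block [ea8963 G4], item EXX: extension of automorphisms of the complex numbers.
-/

set_option linter.style.longLine false

noncomputable section

open Module Cardinal

namespace Pool.Agent.Work.MP_ea8963_ag.G4

namespace I_EXX

/-- two algebraically closed extensions of a ring with transcendence bases indexed by the same
type: an isomorphism which matches the bases -/
lemma ext_iso {F K L : Type} [CommRing F] [Field K] [Field L] [Algebra F K] [Algebra F L]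
    [IsAlgClosed K] [IsAlgClosed L] {ι : Type} (v : ι → K) (w : ι → L)
    (hv : IsTranscendenceBasis F v) (hw : IsTranscendenceBasis F w) :
    ∃ φ : K ≃+* L, (∀ a : F, φ (algebraMap F K a) = algebraMap F L a) ∧
      ∀ i, φ (v i) = w i := by
  let _ := IsAlgClosed.isAlgClosure_of_transcendence_basis v hv
  let _ := IsAlgClosed.isAlgClosure_of_transcendence_basis w hw
  set e : Algebra.adjoin F (Set.range v) ≃ₐ[F] Algebra.adjoin F (Set.range w) :=
    hv.1.aevalEquiv.symm.trans hw.1.aevalEquiv with he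
  have hX : ∀ i, e ⟨v i, Algebra.subset_adjoin ⟨i, rfl⟩⟩ =
      ⟨w i, Algebra.subset_adjoin ⟨i, rfl⟩⟩ := by
    intro i
    have h1 : hv.1.aevalEquiv (MvPolynomial.X i) = ⟨v i, Algebra.subset_adjoin ⟨i, rfl⟩⟩ := by
      apply Subtype.ext
      have := hv.1.algebraMap_aevalEquiv (MvPolynomial.X i)
      rw [MvPolynomial.aeval_X] at this
      exact this
    have h2 : hw.1.aevalEquiv (MvPolynomial.X i) = ⟨w i, Algebra.subset_adjoin ⟨i, rfl⟩⟩ := by
      apply Subtype.ext
      have := hw.1.algebraMap_aevalEquiv (MvPolynomial.X i)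
      rw [MvPolynomial.aeval_X] at this
      exact this
    rw [← h1, he, AlgEquiv.trans_apply, AlgEquiv.symm_apply_apply, h2]
  refine ⟨IsAlgClosure.equivOfEquiv K L e.toRingEquiv, ?_, ?_⟩
  · intro a
    have h := IsAlgClosure.equivOfEquiv_algebraMap K L e.toRingEquiv
      (algebraMap F (Algebra.adjoin F (Set.range v)) a)
    have h3 : e.toRingEquiv (algebraMap F (Algebra.adjoin F (Set.range v)) a) =
        algebraMap F (Algebra.adjoin F (Set.range w)) a := e.commutes a
    rw [h3] at h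
    exact h
  · intro i
    have h := IsAlgClosure.equivOfEquiv_algebraMap K L e.toRingEquiv
      ⟨v i, Algebra.subset_adjoin ⟨i, rfl⟩⟩
    have h3 : e.toRingEquiv ⟨v i, Algebra.subset_adjoin ⟨i, rfl⟩⟩ =
      ⟨w i, Algebra.subset_adjoin ⟨i, rfl⟩⟩ := hX i
    rw [h3] at h
    exact h

/-- the complement of a finite family in a transcendence basis has cardinality continuum -/
lemma card_compl {F : Type} [CommRing F] [Nontrivial F] [Algebra F ℂ] (hF : #F ≤ ℵ₀) {n : ℕ}
    (x : Fin n → ℂ) (S : Set ℂ) (hxS : Set.range x ⊆ S)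
    (hS : IsTranscendenceBasis F ((↑) : S → ℂ)) : #(S \ Set.range x : Set ℂ) = #ℂ := by
  have hC : ℵ₀ < #ℂ := by
    rw [Cardinal.mk_complex]; exact Cardinal.aleph0_lt_continuum
  have h1 : #ℂ = #S :=
    IsAlgClosed.cardinal_eq_cardinal_transcendence_basis_of_aleph0_lt' ((↑) : S → ℂ) hS hF hC
  have h2 : #(S \ Set.range x : Set ℂ) + #(Set.range x) = #S := Cardinal.mk_sdiff_add_mk hxS
  have h3 : #(Set.range x) < ℵ₀ := Cardinal.lt_aleph0_of_finite _
  have h4 : ℵ₀ ≤ #(S \ Set.range x : Set ℂ) := by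
    by_contra h
    rw [not_le] at h
    have := Cardinal.add_lt_aleph0 h h3
    rw [h2, ← h1] at this
    exact absurd this (not_lt.2 hC.le)
  rw [Cardinal.add_eq_left h4 (h3.le.trans h4)] at h2
  rw [h2, ← h1]

/-- the case of the identity automorphism -/
lemma ext_id (F : IntermediateField ℚ ℂ) (hF : #F ≤ ℵ₀) {n : ℕ} (x z : Fin n → ℂ)
    (hx : AlgebraicIndependent F x) (hz : AlgebraicIndependent F z) :
    ∃ τ : ℂ ≃+* ℂ, (∀ a ∈ F, τ a = a) ∧ ∀ i, τ (x i) = z i := by
  classical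
  obtain ⟨S, hxS, hS⟩ := exists_isTranscendenceBasis_superset
    (show AlgebraicIndepOn F id (Set.range x) from hx.to_subtype_range)
  obtain ⟨T, hzT, hT⟩ := exists_isTranscendenceBasis_superset
    (show AlgebraicIndepOn F id (Set.range z) from hz.to_subtype_range)
  have hc : #(S \ Set.range x : Set ℂ) = #(T \ Set.range z : Set ℂ) := by
    rw [card_compl hF x S hxS hS, card_compl hF z T hzT hT]
  obtain ⟨e0⟩ := Cardinal.eq.1 hc
  let e1 : Set.range x ≃ Set.range z :=
    (Equiv.ofInjective x hx.injective).symm.trans (Equiv.ofInjective z hz.injective)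
  let e : S ≃ T := (Equiv.Set.sumDiffSubset hxS).symm.trans
    ((Equiv.sumCongr e1 e0).trans (Equiv.Set.sumDiffSubset hzT))
  have he : ∀ i, ((e ⟨x i, hxS ⟨i, rfl⟩⟩ : T) : ℂ) = z i := by
    intro i
    have h1 : (Equiv.Set.sumDiffSubset hxS).symm ⟨x i, hxS ⟨i, rfl⟩⟩ =
        Sum.inl ⟨x i, ⟨i, rfl⟩⟩ := Equiv.Set.sumDiffSubset_symm_apply_of_mem hxS ⟨i, rfl⟩
    have h2 : e1 ⟨x i, ⟨i, rfl⟩⟩ = ⟨z i, ⟨i, rfl⟩⟩ := by
      have h3 : (⟨x i, ⟨i, rfl⟩⟩ : Set.range x) = Equiv.ofInjective x hx.injective i := rfl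
      simp only [e1]
      rw [h3, Equiv.trans_apply, Equiv.symm_apply_apply]
      rfl
    simp only [e]
    rw [Equiv.trans_apply, h1, Equiv.trans_apply, Equiv.sumCongr_apply, Sum.map_inl, h2,
      Equiv.Set.sumDiffSubset_apply_inl]
  obtain ⟨φ, h1, h2⟩ := ext_iso (F := F) ((↑) : S → ℂ) (fun s : S => ((e s : T) : ℂ)) hS
    (hT.comp_equiv e)
  refine ⟨φ, fun a ha => h1 ⟨a, ha⟩, fun i => ?_⟩
  have := h2 ⟨x i, hxS ⟨i, rfl⟩⟩
  rw [he i] at this
  exact this

/-- transport of derivations -/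
def tr (σ : ℂ ≃+* ℂ) (δ : D) : D where
  toFun z := σ.symm (δ (σ z))
  map_add' x y := by simp
  map_smul' r x := by
    have h : ∀ z : ℂ, r • z = (r : ℂ) * z := fun z => by rw [Rat.smul_def]
    have h0 : δ (r : ℂ) = 0 := by
      have := δ.map_algebraMap r
      simpa using this
    rw [h, map_mul, map_ratCast, Derivation.leibniz, h0, smul_zero, add_zero, smul_eq_mul,
      map_mul, map_ratCast, RingHom.id_apply, h]
  map_one_eq_zero' := by simp
  leibniz' x y := by
    simp [Derivation.leibniz]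

@[simp] lemma tr_apply (σ : ℂ ≃+* ℂ) (δ : D) (z : ℂ) : tr σ δ z = σ.symm (δ (σ z)) := rfl

lemma full_symm (A : Set ℂ) (σ : ℂ ≃+* ℂ) {n : ℕ} (y : Fin n → ℂ) (hy : Full (ZA (σ '' A)) y) :
    Full (ZA A) (fun i => σ.symm (y i)) := by
  intro v
  obtain ⟨δ, h1, h2⟩ := hy (fun i => σ (v i))
  refine ⟨tr σ δ, ?_, ?_⟩
  · rw [mem_ZA]
    intro a ha
    rw [tr_apply, mem_ZA.1 h1 (σ a) ⟨a, ha, rfl⟩, map_zero]
  · intro i
    rw [tr_apply, RingEquiv.apply_symm_apply, h2, RingEquiv.symm_apply_apply]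

end I_EXX

open I_EXX in
theorem EXX_pf (hFCX : FCX) : EXX := by
  intro A hA σ n x y hx hy
  have h1 : AlgebraicIndependent (IntermediateField.adjoin ℚ A) x := hFCX A n x hx
  have h2 : AlgebraicIndependent (IntermediateField.adjoin ℚ A) (fun i => σ.symm (y i)) :=
    hFCX A n _ (full_symm A σ y hy)
  have hF : #(IntermediateField.adjoin ℚ A) ≤ ℵ₀ := by
    refine (IntermediateField.cardinalMk_adjoin_le ℚ A).trans ?_
    refine max_le (max_le ?_ ?_) le_rfl
    · exact Cardinal.mk_le_aleph0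
    · exact Cardinal.le_aleph0_iff_set_countable.2 hA
  obtain ⟨τ, h3, h4⟩ := ext_id _ hF x _ h1 h2
  refine ⟨τ.trans σ, ?_, ?_⟩
  · intro a ha
    rw [RingEquiv.trans_apply, h3 a (IntermediateField.subset_adjoin ℚ A ha)]
  · intro i
    rw [RingEquiv.trans_apply, h4 i, RingEquiv.apply_symm_apply]

end Pool.Agent.Work.MP_ea8963_ag.G4
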