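import Pool.Agent.Work.MP_ea8963_ag.G4.Stmts2

/-!
Block [ea8963 G4], item FAX (helper71): derivations kill algebraic elements.
-/

set_option linter.style.longLine false

noncomputable section

open Module Topology

namespace Pool.Agent.Work.MP_ea8963_ag.G4

namespace I_FAX

lemma d_field {A : Set ℂ} {δ : D} (hδ : δ ∈ ZA A) {x : ℂ}
    (hx : x ∈ IntermediateField.adjoin ℚ A) : δ x = 0 := by
  induction hx using IntermediateField.adjoin_induction with
  | mem x hx => exact hδ x hx
  | algebraMap q => exact δ.map_algebraMap q
  | add x y _ _ hx hy => rw [map_add, hx, hy, add_zero]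
  | inv x _ hx =>
    by_cases h0 : x = 0
    · rw [h0, inv_zero, map_zero]
    · have h1 := congrArg δ (mul_inv_cancel₀ h0)
      rw [Derivation.leibniz, Derivation.map_one_eq_zero, hx] at h1
      simp only [smul_eq_mul, mul_zero, add_zero] at h1
      rcases mul_eq_zero.1 h1 with h2 | h2
      · exact absurd h2 h0
      · exact h2
  | mul x y _ _ hx hy =>
    rw [Derivation.leibniz, hx, hy, smul_zero, smul_zero, add_zero]

/-- a derivation which kills `A`, as a derivation over the field generated by `A` -/
def upD (A : Set ℂ) (δ : D) (hδ : δ ∈ ZA A) :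
    Derivation (IntermediateField.adjoin ℚ A) ℂ ℂ :=
  Derivation.mk'
    { toFun := fun x => δ x
      map_add' := fun x y => map_add δ x y
      map_smul' := fun c x => by
        have h1 : c • x = (c : ℂ) * x := rfl
        have h2 : δ (c : ℂ) = 0 := d_field hδ c.2
        rw [h1, Derivation.leibniz, h2, smul_zero, add_zero]
        rfl }
    (fun a b => by
      change δ (a * b) = a • δ b + b • δ a
      rw [Derivation.leibniz])

lemma upD_apply (A : Set ℂ) (δ : D) (hδ : δ ∈ ZA A) (x : ℂ) : upD A δ hδ x = δ x := rfl

end I_FAX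

theorem FAX_pf : FAX := by
  intro A z hz δ hδ
  have hi : IsIntegral (IntermediateField.adjoin ℚ A) z := hz.isIntegral
  have h1 := Derivation.map_aeval (I_FAX.upD A δ hδ)
    (minpoly (IntermediateField.adjoin ℚ A) z) z
  rw [minpoly.aeval, map_zero, I_FAX.upD_apply] at h1
  have h2 : Polynomial.aeval z
      (Polynomial.derivative (minpoly (IntermediateField.adjoin ℚ A) z)) ≠ 0 :=
    (minpoly.irreducible hi).separable.aeval_derivative_ne_zero (minpoly.aeval _ _)
  rcases smul_eq_zero.1 h1.symm with h3 | h3
  · exact absurd h3 h2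
  · exact h3

end Pool.Agent.Work.MP_ea8963_ag.G4
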