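import Pool.Agent.Work.MP_ea8963_ag.G4.Stmts2

/-!
Block [ea8963 G4], item FBX: existence of derivations.  Author helper31.
-/

set_option linter.style.longLine false
set_option linter.unusedVariables false

noncomputable section

open Module TensorProduct

namespace Pool.Agent.Work.MP_ea8963_ag.G4

namespace I_FBX

open scoped IntermediateField.algebraAdjoinAdjoin in
/-- `L` is formally etale over the polynomial algebra generated by a transcendence basis -/
lemma etale_adjoin {F L ι : Type*} [Field F] [Field L] [Algebra F L] [CharZero F]
    {y : ι → L} (hy : IsTranscendenceBasis F y) :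
    Algebra.FormallyEtale (Algebra.adjoin F (Set.range y)) L := by
  have h1 : Algebra.FormallyEtale (Algebra.adjoin F (Set.range y))
      (IntermediateField.adjoin F (Set.range y)) :=
    .of_isLocalization (nonZeroDivisors _)
  have h2 : Algebra.IsAlgebraic (IntermediateField.adjoin F (Set.range y)) L := hy.isAlgebraic_field
  have h3 : Algebra.FormallyEtale (IntermediateField.adjoin F (Set.range y)) L :=
    Algebra.FormallyEtale.of_isSeparable _ L
  exact .comp _ (IntermediateField.adjoin F (Set.range y)) _

/-- a derivation with given values on a transcendence basis -/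
lemma exists_der {F L ι : Type*} [Field F] [Field L] [Algebra F L] [CharZero F]
    {y : ι → L} (hy : IsTranscendenceBasis F y) (w : ι → L) :
    ∃ δ : Derivation F L L, ∀ i, δ (y i) = w i := by
  have := etale_adjoin hy
  set R := MvPolynomial ι F with hR
  let : Algebra R L := (MvPolynomial.aeval y : R →ₐ[F] L).toRingHom.toAlgebra
  have : IsScalarTower F R L := IsScalarTower.of_algebraMap_eq (fun a => by
    change algebraMap F L a = MvPolynomial.aeval y (algebraMap F R a)
    rw [AlgHom.commutes])
  let : Algebra R (Algebra.adjoin F (Set.range y)) := (hy.1.aevalEquiv : R →ₐ[F] _).toRingHom.toAlgebra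
  have : IsScalarTower R (Algebra.adjoin F (Set.range y)) L := IsScalarTower.of_algebraMap_eq (fun a => rfl)
  have : Algebra.FormallyEtale R (Algebra.adjoin F (Set.range y)) := by
    refine Algebra.FormallyEtale.of_equiv (A := R) ?_
    exact AlgEquiv.ofRingEquiv (f := hy.1.aevalEquiv.toRingEquiv) (fun r => rfl)
  have : Algebra.FormallyEtale R L := .comp R (Algebra.adjoin F (Set.range y)) L
  let D0 : Derivation F R L := MvPolynomial.mkDerivation F w
  let φ : Ω[L⁄F] →ₗ[L] L := (D0.liftKaehlerDifferential.liftBaseChange L).comp
    (KaehlerDifferential.tensorKaehlerEquivOfFormallyEtale F R L).symm.toLinearMap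
  refine ⟨φ.compDer (KaehlerDifferential.D F L), fun i => ?_⟩
  have h1 : y i = algebraMap R L (MvPolynomial.X i) := by
    change y i = MvPolynomial.aeval y (MvPolynomial.X i)
    rw [MvPolynomial.aeval_X]
  change φ (KaehlerDifferential.D F L (y i)) = w i
  rw [h1]
  change (D0.liftKaehlerDifferential.liftBaseChange L)
    ((KaehlerDifferential.tensorKaehlerEquivOfFormallyEtale F R L).symm _) = w i
  rw [KaehlerDifferential.tensorKaehlerEquivOfFormallyEtale_symm_D_algebraMap]
  rw [LinearMap.liftBaseChange_one_tmul, Derivation.liftKaehlerDifferential_comp_D]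
  exact MvPolynomial.mkDerivation_X _ _ _

end I_FBX

open I_FBX in
theorem FBX_pf : FBX := by
  intro A n x hx v
  classical
  set F := IntermediateField.adjoin ℚ A with hF
  have hxi : Function.Injective x := hx.injective
  obtain ⟨t, hst, ht⟩ := exists_isTranscendenceBasis_superset (R := F) (s := Set.range x) hx.to_subtype_range
  obtain ⟨δ, hδ⟩ := exists_der ht (fun z => if h : ∃ i, x i = z then v h.choose else 0)
  refine ⟨δ.restrictScalars ℚ, ?_, fun i => ?_⟩
  · rw [mem_ZA]
    intro a ha
    have h2 : a = algebraMap F ℂ ⟨a, IntermediateField.subset_adjoin ℚ A ha⟩ := rfl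
    rw [Derivation.restrictScalars_apply, h2, Derivation.map_algebraMap]
  · have h3 := hδ ⟨x i, hst ⟨i, rfl⟩⟩
    have h4 : ∃ j, x j = x i := ⟨i, rfl⟩
    simp only [dif_pos h4] at h3
    rw [Derivation.restrictScalars_apply, h3]
    congr 1
    exact hxi h4.choose_spec

end Pool.Agent.Work.MP_ea8963_ag.G4
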