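import Pool.Agent.Work.MP_ea8963_ag.G4.Stmts2

/-!
Block [ea8963 G4], item FCX (helper33): a full family is algebraically independent.
-/

set_option linter.style.longLine false

noncomputable section

open Module Topology

namespace Pool.Agent.Work.MP_ea8963_ag.G4

namespace I_FCX

lemma alg_up {A : Set ℂ} {T : Set ℂ} {z : ℂ}
    (h : IsAlgebraic (Algebra.adjoin (IntermediateField.adjoin ℚ A) T) z) :
    IsAlgebraic (IntermediateField.adjoin ℚ (A ∪ T)) z := by
  have hsub : ∀ y ∈ Algebra.adjoin (IntermediateField.adjoin ℚ A) T,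
      y ∈ IntermediateField.adjoin ℚ (A ∪ T) := by
    intro y hy
    induction hy using Algebra.adjoin_induction with
    | mem y hy => exact IntermediateField.subset_adjoin ℚ _ (Or.inr hy)
    | algebraMap r => exact IntermediateField.adjoin.mono ℚ _ _ Set.subset_union_left r.2
    | add a b _ _ ha hb => exact add_mem ha hb
    | mul a b _ _ ha hb => exact mul_mem ha hb
  let φ : Algebra.adjoin (IntermediateField.adjoin ℚ A) T →+* IntermediateField.adjoin ℚ (A ∪ T) :=
    { toFun := fun y => ⟨y.1, hsub y.1 y.2⟩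
      map_one' := rfl
      map_mul' := fun _ _ => rfl
      map_zero' := rfl
      map_add' := fun _ _ => rfl }
  have hφ : Function.Injective φ := by
    intro a b hab
    have h1 : (φ a : ℂ) = (φ b : ℂ) := congrArg Subtype.val hab
    exact Subtype.ext h1
  obtain ⟨p, hp, hp0⟩ := h
  refine ⟨p.map φ, (Polynomial.map_ne_zero_iff hφ).2 hp, ?_⟩
  rw [Polynomial.aeval_def, Polynomial.eval₂_map]
  rw [Polynomial.aeval_def] at hp0
  exact hp0

end I_FCX

theorem FCX_pf (hFAX : FAX) : FCX := by
  classical
  intro A n x hx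
  refine algebraicIndependent_of_finite_type'
    (FaithfulSMul.algebraMap_injective (IntermediateField.adjoin ℚ A) ℂ) ?_
  intro t _ _ i hi halg
  have h1 := hFAX _ _ (I_FCX.alg_up halg)
  obtain ⟨δ, hδ, hδx⟩ := hx (fun j => if j = i then 1 else 0)
  have h2 : δ ∈ ZA (A ∪ x '' t) := by
    rintro a (ha | ⟨j, hj, rfl⟩)
    · exact hδ a ha
    · rw [hδx j, if_neg]
      rintro rfl
      exact hi hj
  have h3 := h1 δ h2
  rw [hδx i, if_pos rfl] at h3
  exact one_ne_zero h3

end Pool.Agent.Work.MP_ea8963_ag.G4
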