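import Pool.Agent.Work.MP_ea8963_ag.G4.Stmts2

/-!
Block [ea8963 G4], item FDX.  Author helper31.
-/

set_option linter.style.longLine false
set_option linter.unusedVariables false

noncomputable section

open Module

namespace Pool.Agent.Work.MP_ea8963_ag.G4

theorem FDX_pf (hFBX : FBX) : FDX := by
  intro A z hz
  by_contra hcon
  have h1 : Transcendental (IntermediateField.adjoin ℚ A) z := hcon
  have h2 : AlgebraicIndependent (IntermediateField.adjoin ℚ A) (fun _ : Fin 1 => z) := by
    rw [algebraicIndependent_unique_type_iff]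
    exact h1
  obtain ⟨δ, hδ, h3⟩ := hFBX A 1 _ h2 (fun _ => 1)
  have h4 := hz δ hδ
  have h5 := h3 0
  rw [h4] at h5
  exact zero_ne_one h5

end Pool.Agent.Work.MP_ea8963_ag.G4
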