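import Pool.Agent.Work.MP_ea8963_ag.G4.Stmts2

/-!
Block [ea8963 G4], item FEX: `cl A` is countable if `A` is countable.
-/

set_option linter.style.longLine false

noncomputable section

open Cardinal

namespace Pool.Agent.Work.MP_ea8963_ag.G4

namespace I_FEX

lemma countable_adjoin {A : Set ℂ} (hA : A.Countable) :
    Countable (IntermediateField.adjoin ℚ A) := by
  rw [← mk_le_aleph0_iff]
  have h1 := IntermediateField.cardinalMk_adjoin_le (F := ℚ) (E := ℂ) A
  refine h1.trans ?_
  have h2 : #A ≤ ℵ₀ := hA.le_aleph0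
  simp [h2]

end I_FEX

theorem FEX_pf (hFDX : FDX) : FEX := by
  intro A hA
  have := I_FEX.countable_adjoin hA
  refine (Algebraic.countable (IntermediateField.adjoin ℚ A) ℂ).mono ?_
  intro z hz
  exact hFDX A z hz

end Pool.Agent.Work.MP_ea8963_ag.G4
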