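import Pool.Agent.Work.MP_ea8963_ag.G4.Stmts

/-!
Block [ea8963 G4], item FLX: all counts for a generic configuration are sharp.
-/

set_option linter.style.longLine false

noncomputable section

open Module Topology

namespace Pool.Agent.Work.MP_ea8963_ag.G4

namespace I_FLX

lemma kb_count (hGK : GK) {s : T3} {p : Fin 3 → E} {l : E} {lam mu : Fin 3 → ℂ}
    (h : Cfg s p l lam mu) (hm : ∀ i, mu i ≠ 0) :
    finrank ℂ (KB p l) + 9 ≤ finrank ℂ SymT := by
  have h0 := hGK 3 p (fun i => Ann ![beta (p i), l]) h.ind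
  have hA : ∀ i, finrank ℂ (Ann ![beta (p i), l]) = 3 := by
    intro i
    have h1 := finrank_Ann (h.nt hm i)
    omega
  simp only [hA, Finset.sum_const, Finset.card_univ, Fintype.card_fin, smul_eq_mul] at h0
  exact h0

end I_FLX

theorem FLX_pf (hGK : GK) (hDTB : DTB) : FLX := by
  intro s hs p l lam mu h hm h5
  have hrn := rn (evT s) (evB p l) ⊤
  rw [top_inf_eq, top_inf_eq, hs.map_evT] at hrn
  change finrank ℂ SymT + finrank ℂ ((ZS s).map (evB p l)) =
    finrank ℂ ((⊤ : Submodule ℂ D).map (evB p l)) + finrank ℂ ((ZB p l).map (evT s)) at hrn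
  have h1 : (⊤ : Submodule ℂ D).map (evB p l) ≤ TB p l := by
    rintro _ ⟨δ, -, rfl⟩
    exact h.ev_mem δ
  have h2 : (ZB p l).map (evT s) ≤ KB p l := by
    rintro _ ⟨δ, hδ, rfl⟩
    exact h.dT_mem_KB hs.1 hm hδ
  have h3 := I_FLX.kb_count hGK h hm
  have h4 := hDTB p l h.ind
  have h1' := Submodule.finrank_mono h1
  have h2' := Submodule.finrank_mono h2
  refine ⟨by omega, by omega, ?_, ?_⟩
  · have he : (⊤ : Submodule ℂ D).map (evB p l) = TB p l :=
      Submodule.eq_of_le_of_finrank_eq h1 (by omega)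
    intro x hx
    rw [← he] at hx
    obtain ⟨δ, -, hδ⟩ := hx
    exact ⟨δ, hδ⟩
  · have he : (ZB p l).map (evT s) = KB p l :=
      Submodule.eq_of_le_of_finrank_eq h2 (by omega)
    intro t ht
    rw [← he] at ht
    obtain ⟨δ, hδZ, hδ⟩ := ht
    exact ⟨δ, hδZ, hδ⟩

end Pool.Agent.Work.MP_ea8963_ag.G4
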