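import Pool.Agent.Work.MP_ea8963_ag.G4.Stmts

/-!
Block [ea8963 G4], item GK (linear algebra count).  helper24.
-/

set_option linter.style.longLine false
set_option linter.unusedVariables false

noncomputable section

open Module

namespace Pool.Agent.Work.MP_ea8963_ag.G4

namespace I_GK

variable {n : ℕ}

/-- the functional on symmetric tensors defined by a family of vectors -/
def func (P : Fin n → E) (A : Fin n → Submodule ℂ E) :
    ((i : Fin n) → A i) →ₗ[ℂ] Dual ℂ SymT where
  toFun v :=
    { toFun := fun t => ∑ i, tri (t : T3) (P i) (P i) (v i : E)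
      map_add' := fun s t => by
        simp only [Submodule.coe_add, tri_add_tensor, Finset.sum_add_distrib]
      map_smul' := fun c t => by
        simp only [Submodule.coe_smul, tri_smul_tensor, ← Finset.mul_sum, RingHom.id_apply,
          smul_eq_mul] }
  map_add' v w := by
    ext t
    simp only [LinearMap.coe_mk, AddHom.coe_mk, LinearMap.add_apply, Pi.add_apply,
      Submodule.coe_add, tri_add3, Finset.sum_add_distrib]
  map_smul' c v := by
    ext t
    simp only [LinearMap.coe_mk, AddHom.coe_mk, LinearMap.smul_apply, Pi.smul_apply,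
      Submodule.coe_smul, tri_smul3, ← Finset.mul_sum, RingHom.id_apply, smul_eq_mul]

lemma func_apply (P : Fin n → E) (A : Fin n → Submodule ℂ E) (v : (i : Fin n) → A i)
    (t : SymT) : func P A v t = ∑ i, tri (t : T3) (P i) (P i) (v i : E) := rfl

/-- the test: vectors killed by all functionals `sp (a i) (a i) c` are zero -/
lemma key {P : Fin n → E} (hP : LinearIndependent ℂ P) (v : Fin n → E)
    (h : ∀ t ∈ SymT, ∑ i, tri t (P i) (P i) (v i) = 0) (i : Fin n) : v i = 0 := by
  obtain ⟨a, ha⟩ := exists_dual hP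
  have h1 : ∀ c : E, c ⬝ᵥ v i + 2 * (a i ⬝ᵥ v i) * (c ⬝ᵥ P i) = 0 := by
    intro c
    have h2 := h (sp (a i) (a i) c) (sp_mem _ _ _)
    rw [Finset.sum_eq_single i] at h2
    · rw [tri_sp_ppv, ha i i] at h2
      simp only [if_true] at h2
      linear_combination (1 / 2 : ℂ) * h2
    · intro j _ hj
      rw [tri_sp_ppv, ha i j, if_neg (Ne.symm hj)]
      ring
    · intro hi
      exact absurd (Finset.mem_univ i) hi
  have h3 : a i ⬝ᵥ v i = 0 := by
    have h4 := h1 (a i)
    rw [ha i i, if_pos rfl] at h4
    linear_combination (1 / 3 : ℂ) * h4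
  apply eq_zero_of_dot
  intro c
  have h5 := h1 c
  rw [h3] at h5
  simpa using h5

lemma ker_func {P : Fin n → E} (hP : LinearIndependent ℂ P) (A : Fin n → Submodule ℂ E) :
    LinearMap.ker (func P A) = ⊥ := by
  rw [LinearMap.ker_eq_bot']
  intro v hv
  funext i
  apply Subtype.ext
  refine key hP (fun i => (v i : E)) (fun t ht => ?_) i
  have h1 := congrArg (fun f : Dual ℂ SymT => f ⟨t, ht⟩) hv
  simpa only [func_apply, LinearMap.zero_apply] using h1

lemma map_coann (P : Fin n → E) (A : Fin n → Submodule ℂ E) :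
    ((LinearMap.range (func P A)).dualCoannihilator).map SymT.subtype = KK P A := by
  classical
  ext t
  rw [mem_KK]
  constructor
  · rintro ⟨s, hs, rfl⟩
    refine ⟨s.2, fun i v hv => ?_⟩
    have h1 := (Submodule.mem_dualCoannihilator _).1 hs (func P A (Pi.single i ⟨v, hv⟩))
      (LinearMap.mem_range_self _ _)
    rw [func_apply, Finset.sum_eq_single i] at h1
    · simpa using h1
    · intro j _ hj
      rw [Pi.single_eq_of_ne hj]
      exact tri_zero3 _ _ _
    · intro hi
      exact absurd (Finset.mem_univ i) hi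
  · rintro ⟨ht, h⟩
    refine ⟨⟨t, ht⟩, ?_, rfl⟩
    rw [SetLike.mem_coe, Submodule.mem_dualCoannihilator]
    rintro _ ⟨v, rfl⟩
    rw [func_apply]
    exact Finset.sum_eq_zero fun i _ => h i _ (v i).2

end I_GK

theorem GK_pf : GK := by
  intro n P A hP
  have h1 := pair (I_GK.func P A)
  rw [I_GK.ker_func hP A, finrank_bot, add_zero] at h1
  have h2 : finrank ℂ (KK P A) =
      finrank ℂ ((LinearMap.range (I_GK.func P A)).dualCoannihilator : Submodule ℂ SymT) := by
    rw [← I_GK.map_coann P A]
    exact Submodule.finrank_map_subtype_eq SymT _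
  have h3 : finrank ℂ ((i : Fin n) → A i) = ∑ i, finrank ℂ (A i) :=
    Module.finrank_pi_fintype ℂ
  rw [h2, ← h3]
  exact h1.le

end Pool.Agent.Work.MP_ea8963_ag.G4
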