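import Pool.Agent.Work.MP_ea8963_ag.G4.Stmts2

/-!
Block [ea8963 G4], item GLX: generic solutions of conjugate linear systems are conjugate.
-/

set_option linter.style.longLine false
set_option linter.unusedVariables false

noncomputable section

open Module Topology

namespace Pool.Agent.Work.MP_ea8963_ag.G4

namespace I_GLX

/-- elimination: over a field `F`, a linear system with rows `R` has free variables `a k` and
`u i = ∑ c i k * u (a k)`. -/
theorem elim (F : Type) [Field F] (ι : Type) [Fintype ι] (R : Set (ι → F)) :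
    ∃ (n : ℕ) (a : Fin n → ι) (c : ι → Fin n → F),
      (∀ (τ : F →+* ℂ) (u : ι → ℂ), (∀ r ∈ R, ∑ i, τ (r i) * u i = 0) →
        ∀ i, u i = ∑ k, τ (c i k) * u (a k)) ∧
      (∀ (τ : F →+* ℂ) (w : Fin n → ℂ),
        (∀ r ∈ R, ∑ i, τ (r i) * (∑ k, τ (c i k) * w k) = 0) ∧
        ∀ k, ∑ k', τ (c (a k) k') * w k' = w k) := by
  classical
  set V : Submodule F (ι → F) := Submodule.span F R with hV
  obtain ⟨κ, a, ha, hsp, hli⟩ := exists_linearIndependent' (K := F)
    (fun i : ι => V.mkQ (Pi.single i (1 : F)))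
  have : Finite κ := Finite.of_injective a ha
  have : Fintype κ := Fintype.ofFinite κ
  set e : Fin (Fintype.card κ) ≃ κ := (Fintype.equivFin κ).symm with he
  -- coefficients
  have hc : ∀ i : ι, ∃ c : Fin (Fintype.card κ) → F,
      ∑ k, c k • V.mkQ (Pi.single (a (e k)) (1 : F)) = V.mkQ (Pi.single i (1 : F)) := by
    intro i
    have h1 : V.mkQ (Pi.single i (1 : F)) ∈
        Submodule.span F (Set.range (fun k : Fin (Fintype.card κ) =>
          V.mkQ (Pi.single (a (e k)) (1 : F)))) := by
      have h2 : Set.range (fun k : Fin (Fintype.card κ) => V.mkQ (Pi.single (a (e k)) (1 : F))) =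
          Set.range ((fun i : ι => V.mkQ (Pi.single i (1 : F))) ∘ a) := by
        ext q
        constructor
        · rintro ⟨k, rfl⟩
          exact ⟨e k, rfl⟩
        · rintro ⟨k, rfl⟩
          exact ⟨e.symm k, by simp⟩
      rw [h2, hsp]
      exact Submodule.subset_span ⟨i, rfl⟩
    exact (Submodule.mem_span_range_iff_exists_fun F).1 h1
  choose c hc using hc
  have hli' : LinearIndependent F (fun k : Fin (Fintype.card κ) =>
      V.mkQ (Pi.single (a (e k)) (1 : F))) := hli.comp e e.injective
  refine ⟨Fintype.card κ, fun k => a (e k), c, ?_, ?_⟩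
  · intro τ u hu i
    -- all elements of `V` annihilate `u`
    have hVu : ∀ v ∈ V, ∑ i, τ (v i) * u i = 0 := by
      intro v hv
      induction hv using Submodule.span_induction with
      | mem x hx => exact hu x hx
      | zero => simp
      | add x y _ _ hx hy =>
        simp only [Pi.add_apply, map_add, add_mul, Finset.sum_add_distrib, hx, hy, add_zero]
      | smul c x _ hx =>
        simp only [Pi.smul_apply, smul_eq_mul, map_mul, mul_assoc, ← Finset.mul_sum, hx, mul_zero]
    have h1 : Pi.single i (1 : F) - ∑ k, c i k • Pi.single (a (e k)) (1 : F) ∈ V := by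
      rw [← Submodule.Quotient.mk_eq_zero, ← Submodule.mkQ_apply, map_sub, map_sum]
      simp only [map_smul]
      rw [hc i, sub_self]
    have h2 := hVu _ h1
    simp only [Pi.sub_apply, Finset.sum_apply, Pi.smul_apply, smul_eq_mul, map_sub, map_sum,
      map_mul, sub_mul, Finset.sum_sub_distrib, Finset.sum_mul] at h2
    rw [Finset.sum_comm] at h2
    have h3 : ∀ j : ι, ∑ i', τ ((Pi.single j (1 : F) : ι → F) i') * u i' = u j := by
      intro j
      rw [Finset.sum_eq_single j]
      · simp
      · intro b _ hb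
        simp [Pi.single_eq_of_ne hb]
      · intro h; exact absurd (Finset.mem_univ j) h
    simp only [mul_assoc, ← Finset.mul_sum, h3] at h2
    exact sub_eq_zero.1 h2
  · intro τ w
    constructor
    · intro r hr
      have hrV : r ∈ V := Submodule.subset_span hr
      have h1 : V.mkQ r = 0 := by
        rw [Submodule.mkQ_apply, Submodule.Quotient.mk_eq_zero]; exact hrV
      have h2 : r = ∑ i, r i • Pi.single i (1 : F) := by
        ext j
        simp [Finset.sum_apply, Pi.single_apply]
      have h3 : ∑ k, (∑ i, r i * c i k) • V.mkQ (Pi.single (a (e k)) (1 : F)) = 0 := by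
        rw [h2, map_sum] at h1
        simp only [map_smul] at h1
        rw [← h1]
        simp only [Finset.sum_smul]
        rw [Finset.sum_comm]
        refine Finset.sum_congr rfl fun i _ => ?_
        rw [← hc i, Finset.smul_sum]
        refine Finset.sum_congr rfl fun k _ => ?_
        rw [smul_smul]
      have h4 := (Fintype.linearIndependent_iff.1 hli') _ h3
      have h5 : ∑ i, τ (r i) * (∑ k, τ (c i k) * w k) = ∑ k, τ (∑ i, r i * c i k) * w k := by
        simp only [Finset.mul_sum, map_sum, map_mul, Finset.sum_mul]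
        rw [Finset.sum_comm]
        refine Finset.sum_congr rfl fun k _ => Finset.sum_congr rfl fun i _ => ?_
        ring
      rw [h5]
      refine Finset.sum_eq_zero fun k _ => ?_
      rw [h4 k, map_zero, zero_mul]
    · intro k
      have h1 : ∑ k', (c (a (e k)) k' - if k' = k then 1 else 0) •
          V.mkQ (Pi.single (a (e k')) (1 : F)) = 0 := by
        simp only [sub_smul, Finset.sum_sub_distrib, hc (a (e k)), ite_smul, one_smul, zero_smul,
          Finset.sum_ite_eq', Finset.mem_univ, if_true, sub_self]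
      have h4 := (Fintype.linearIndependent_iff.1 hli') _ h1
      rw [Finset.sum_eq_single k]
      · have h5 := h4 k
        rw [if_pos rfl, sub_eq_zero] at h5
        rw [h5, map_one, one_mul]
      · intro k' _ hk'
        have h5 := h4 k'
        rw [if_neg hk', sub_zero] at h5
        rw [h5, map_zero, zero_mul]
      · intro h; exact absurd (Finset.mem_univ k) h

end I_GLX

theorem GLX_pf (hEXX : EXX) : GLX := by
  intro ι _ A hA σ R hR x y hx hy hδx hδy
  set F := IntermediateField.adjoin ℚ A with hF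
  obtain ⟨n, a, c, h1, h2⟩ := I_GLX.elim F ι {v : ι → F | (fun i => (v i : ℂ)) ∈ R}
  -- the two embeddings
  set τ₁ : F →+* ℂ := algebraMap F ℂ with hτ₁
  set τ₂ : F →+* ℂ := (σ : ℂ →+* ℂ).comp (algebraMap F ℂ) with hτ₂
  have e1 : ∀ z : F, τ₁ z = (z : ℂ) := fun z => rfl
  have e2 : ∀ z : F, τ₂ z = σ (z : ℂ) := fun z => rfl
  -- rows as vectors over F
  have hlift : ∀ r ∈ R, ∃ v : ι → F, (fun i => (v i : ℂ)) = r := fun r hr =>
    ⟨fun i => ⟨r i, hR r hr i⟩, rfl⟩
  have hx1 := h1 τ₁ x (by
    intro r hr
    have := hx _ hr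
    simpa [e1] using this)
  have hy1 := h1 τ₂ y (by
    intro r hr
    have := hy _ hr
    simpa [e2] using this)
  have hfx : Full (ZA A) (fun k => x (a k)) := by
    intro v
    obtain ⟨h3, h4⟩ := h2 τ₁ v
    obtain ⟨δ, hδ, hδ'⟩ := hδx (fun i => ∑ k, τ₁ (c i k) * v k) (by
      intro r hr
      obtain ⟨r', rfl⟩ := hlift r hr
      exact h3 r' hr)
    exact ⟨δ, hδ, fun k => by rw [hδ' (a k)]; exact h4 k⟩
  have hfy : Full (ZA (σ '' A)) (fun k => y (a k)) := by
    intro v
    obtain ⟨h3, h4⟩ := h2 τ₂ v
    obtain ⟨δ, hδ, hδ'⟩ := hδy (fun i => ∑ k, τ₂ (c i k) * v k) (by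
      intro r hr
      obtain ⟨r', rfl⟩ := hlift r hr
      exact h3 r' hr)
    exact ⟨δ, hδ, fun k => by rw [hδ' (a k)]; exact h4 k⟩
  obtain ⟨σ', hσ1, hσ2⟩ := hEXX A hA σ n (fun k => x (a k)) (fun k => y (a k)) hfx hfy
  refine ⟨σ', hσ1, fun i => ?_⟩
  -- `σ'` and `σ` agree on `F`
  have hag : ∀ z ∈ F, σ' z = σ z := by
    intro z hz
    induction hz using IntermediateField.adjoin_induction with
    | mem x hx => exact hσ1 x hx
    | algebraMap q => simp
    | add x y _ _ hx hy => rw [map_add, map_add, hx, hy]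
    | inv x _ hx => rw [map_inv₀, map_inv₀, hx]
    | mul x y _ _ hx hy => rw [map_mul, map_mul, hx, hy]
  rw [hx1 i, hy1 i, map_sum]
  refine Finset.sum_congr rfl fun k _ => ?_
  rw [map_mul, e1, e2, hag _ (c i k).2, hσ2 k]

end Pool.Agent.Work.MP_ea8963_ag.G4
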