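import Pool.Agent.Work.MP_ea8963_ag.G4.Stmts2

/-! Block [ea8963 G4], item GQX: generic isotropic vectors are conjugate. -/

set_option linter.style.longLine false

noncomputable section

open Module Topology

namespace Pool.Agent.Work.MP_ea8963_ag.G4

namespace I_GQX

lemma ne_zero {A : Set ℂ} {p : E}
    (h : ∀ v, B p v = 0 → ∃ δ ∈ ZA A, dE δ p = v) : p 1 ≠ 0 := by
  intro h1
  have key : ∀ v : E, B p v = 0 → v 1 = 0 := by
    intro v hv
    obtain ⟨δ, -, hδ⟩ := h v hv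
    rw [← hδ]
    show δ (p 1) = 0
    rw [h1, map_zero]
  have h3 : p 3 = 0 := by
    by_contra h3
    have := key ![0, 1, -(p 0) / p 3, 0, 0] (by rw [B_def]; simp; field_simp; ring)
    simp at this
  have h2 : p 2 = 0 := by
    by_contra h2
    have := key ![0, 1, 0, -(p 0) / p 2, 0] (by rw [B_def]; simp; field_simp; ring)
    simp at this
  have h4 : p 4 = 0 := by
    by_contra h4
    have := key ![0, 1, 0, 0, -(p 0) / (2 * p 4)] (by rw [B_def]; simp; field_simp; ring)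
    simp at this
  obtain ⟨δ, -, hδ⟩ := h ![0, 0, 1, 0, 0] (by rw [B_def]; simp [h3])
  have h5 : δ (p 2) = 1 := by
    have := congrFun hδ 2
    simpa [dE] using this
  rw [h2, map_zero] at h5
  exact zero_ne_one h5

lemma full {A : Set ℂ} {p : E} (h1 : p 1 ≠ 0)
    (h : ∀ v, B p v = 0 → ∃ δ ∈ ZA A, dE δ p = v) :
    Full (ZA A) (![p 1, p 2, p 3, p 4] : Fin 4 → ℂ) := by
  intro w
  obtain ⟨δ, hδ, hv⟩ := h
    ![-(p 0 * w 0 + p 3 * w 1 + p 2 * w 2 + 2 * p 4 * w 3) / p 1, w 0, w 1, w 2, w 3] (by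
      rw [B_def]; simp; field_simp; ring)
  refine ⟨δ, hδ, ?_⟩
  have e1 := congrFun hv 1
  have e2 := congrFun hv 2
  have e3 := congrFun hv 3
  have e4 := congrFun hv 4
  simp [dE] at e1 e2 e3 e4
  intro i
  fin_cases i
  · exact e1
  · exact e2
  · exact e3
  · exact e4

end I_GQX

theorem GQX_pf (hEXX : EXX) : GQX := by
  intro A hA σ p q _ _ hpp hqq h h'
  have hp1 := I_GQX.ne_zero h
  have hq1 := I_GQX.ne_zero h'
  obtain ⟨σ', hσ, hx⟩ := hEXX A hA σ 4 _ _ (I_GQX.full hp1 h) (I_GQX.full hq1 h')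
  refine ⟨σ', hσ, ?_⟩
  have e1 : σ' (p 1) = q 1 := hx 0
  have e2 : σ' (p 2) = q 2 := hx 1
  have e3 : σ' (p 3) = q 3 := hx 2
  have e4 : σ' (p 4) = q 4 := hx 3
  have e0 : σ' (p 0) = q 0 := by
    rw [B_def] at hpp hqq
    have h2 := congrArg σ' hpp
    simp only [map_add, map_mul, map_zero, e1, e2, e3, e4] at h2
    have h5 : σ' 2 = 2 := map_ofNat σ' 2
    rw [h5] at h2
    have h3 : q 1 * (σ' (p 0) - q 0) = 0 := by linear_combination (1 / 2 : ℂ) * h2 - (1 / 2 : ℂ) * hqq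
    rcases mul_eq_zero.1 h3 with h4 | h4
    · exact absurd h4 hq1
    · exact sub_eq_zero.1 h4
  funext i
  fin_cases i
  · exact e0
  · exact e1
  · exact e2
  · exact e3
  · exact e4

end Pool.Agent.Work.MP_ea8963_ag.G4
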