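import Pool.Agent.Work.MP_ea8963_ag.G4.Stmts2

/-!
Block [ea8963 G4], item ICX: independent conjugate of a configuration.
-/

set_option linter.style.longLine false

noncomputable section

open Module Topology

namespace Pool.Agent.Work.MP_ea8963_ag.G4

namespace I_ICX

lemma Full.mono {W W' : Submodule ℂ D} (h : W ≤ W') {n : ℕ} {x : Fin n → ℂ} (hx : Full W x) :
    Full W' x := by
  intro v
  obtain ⟨δ, hδ, h2⟩ := hx v
  exact ⟨δ, h hδ, h2⟩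

lemma entB_map {p : Fin 3 → E} {l : E} (τ : ℂ ≃+* ℂ) {z : ℂ} (hz : z ∈ entB p l) :
    τ z ∈ entB (mP τ p) (mE τ l) := by
  rcases hz with ⟨i, j, rfl⟩ | ⟨j, rfl⟩
  · exact Or.inl ⟨i, j, rfl⟩
  · exact Or.inr ⟨j, rfl⟩

end I_ICX

theorem ICX_pf (hEXX : EXX) (hCHX : CHX) (hJCX : JCX) (hJDX : JDX) (hFEX : FEX) (hFFX : FFX) :
    ICX := by
  intro A0 A1 h01 hA1 p l h5
  obtain ⟨x, hx, hFx⟩ := hJCX (ZA A0) p l h5
  obtain ⟨y, -, hFy⟩ := hCHX A1 hA1 5 x 1 one_pos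
  have hcl : ZA (cl A0) = ZA A0 := (hFFX A0).2.1
  have hx' : Full (ZA (cl A0)) x := by rw [hcl]; exact hFx
  have hy' : Full (ZA (cl A0)) y := by
    rw [hcl]; exact I_ICX.Full.mono (ZA_mono h01) hFy
  have him : ((RingEquiv.refl ℂ : ℂ ≃+* ℂ) '' (cl A0)) = cl A0 := by
    ext z
    simp
  obtain ⟨τ, h1, h2⟩ := hEXX (cl A0) (hFEX A0 (hA1.mono h01)) (RingEquiv.refl ℂ) 5 x y hx'
    (by rw [him]; exact hy')
  refine ⟨τ, fun a ha => h1 a ha, ?_⟩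
  refine hJDX (ZA A1) (mP τ p) (mE τ l) y (fun k => ?_) hFy
  rw [← h2 k]
  exact I_ICX.entB_map τ (hx k)

end Pool.Agent.Work.MP_ea8963_ag.G4
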