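import Pool.Agent.Work.MP_ea8963_ag.G4.Stmts2

/-!
Block [ea8963 G4], item IFX: implicit function theorem (existence).
-/

set_option linter.style.longLine false

noncomputable section

open Module Topology

namespace Pool.Agent.Work.MP_ea8963_ag.G4

/-- ITEM IFX -/
theorem IFX_pf : IFX := by
  intro X Y' Z _ _ _ _ _ _ _ _ _ g g' x0 y0 hg hsurj U hU
  have : CompleteSpace X := FiniteDimensional.complete ℂ X
  have : CompleteSpace Y' := FiniteDimensional.complete ℂ Y'
  have : CompleteSpace Z := FiniteDimensional.complete ℂ Z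
  have h1 : HasStrictFDerivAt (fun z : X × Y' => (z.1, g z))
      ((ContinuousLinearMap.fst ℂ X Y').prod g') (x0, y0) :=
    (hasStrictFDerivAt_fst).prodMk hg
  have h2 : ((ContinuousLinearMap.fst ℂ X Y').prod g').range = ⊤ := by
    rw [LinearMap.range_eq_top]
    rintro ⟨a, z⟩
    obtain ⟨y, hy⟩ := hsurj (z - g' (a, 0))
    refine ⟨(a, y), ?_⟩
    have h3 : ((a, y) : X × Y') = (a, 0) + (0, y) := by simp
    have h4 : g' (a, y) = z := by
      rw [h3, map_add, hy]; abel
    exact Prod.ext rfl h4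
  have h5 := h1.map_nhds_eq_of_surj h2
  have h6 : (Set.univ : Set X) ×ˢ U ∈ 𝓝 (x0, y0) := prod_mem_nhds Filter.univ_mem hU
  have h7 : (fun z : X × Y' => (z.1, g z)) '' ((Set.univ : Set X) ×ˢ U) ∈ 𝓝 (x0, g (x0, y0)) := by
    have := Filter.image_mem_map (m := fun z : X × Y' => (z.1, g z)) h6
    rw [h5] at this
    exact this
  have h8 : Filter.Tendsto (fun x : X => (x, g (x0, y0))) (𝓝 x0) (𝓝 (x0, g (x0, y0))) :=
    (Continuous.prodMk continuous_id continuous_const).tendsto x0
  filter_upwards [h8 h7] with x hx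
  obtain ⟨⟨a, y⟩, hay, h9⟩ := hx
  have h10 : a = x := congrArg Prod.fst h9
  have h11 : g (a, y) = g (x0, y0) := congrArg Prod.snd h9
  subst h10
  exact ⟨y, hay.2, h11⟩

end Pool.Agent.Work.MP_ea8963_ag.G4
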