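import Pool.Agent.Work.MP_ea8963_ag.G4.Stmts2

/-!
Block [ea8963 G4], item JCX.  Prover helper15.
-/

noncomputable section

open Module

namespace Pool.Agent.Work.MP_ea8963_ag.G4

namespace I_JCX

/-- a point separating set of functionals contains `k` jointly surjective ones -/
lemma exists_functionals {U : Type*} [AddCommGroup U] [Module ℂ U] [FiniteDimensional ℂ U]
    (s : Set (Dual ℂ U)) (hs : ∀ u : U, (∀ f ∈ s, f u = 0) → u = 0) {k : ℕ}
    (hk : k ≤ finrank ℂ U) :
    ∃ g : Fin k → Dual ℂ U, (∀ i, g i ∈ s) ∧ ∀ v : Fin k → ℂ, ∃ u : U, ∀ i, g i u = v i := by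
  obtain ⟨f, hf, -, hind⟩ := Submodule.exists_fun_fin_finrank_span_eq ℂ s
  have h1 := Subspace.finrank_add_finrank_dualCoannihilator_eq (K := ℂ) (V := U)
    (Submodule.span ℂ s)
  have h2 : ((Submodule.span ℂ s).dualCoannihilator : Submodule ℂ U) = ⊥ := by
    rw [Submodule.eq_bot_iff]
    intro u hu
    rw [Submodule.mem_dualCoannihilator] at hu
    exact hs u fun g hg => hu g (Submodule.subset_span hg)
  rw [h2, finrank_bot, add_zero] at h1
  have hcard : Fintype.card (Fin (finrank ℂ (Submodule.span ℂ s))) = finrank ℂ (Dual ℂ U) := by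
    rw [Fintype.card_fin, Subspace.dual_finrank_eq, h1]
  rcases Nat.eq_zero_or_pos k with hk0 | hk0
  · subst hk0
    exact ⟨fun i => i.elim0, fun i => i.elim0, fun v => ⟨0, fun i => i.elim0⟩⟩
  have hpos : 0 < finrank ℂ (Submodule.span ℂ s) := by omega
  have : Nonempty (Fin (finrank ℂ (Submodule.span ℂ s))) := ⟨⟨0, hpos⟩⟩
  set b := basisOfLinearIndependentOfCardEqFinrank hind hcard with hb
  have hbf : ∀ i, b i = f i := fun i => by
    rw [hb, coe_basisOfLinearIndependentOfCardEqFinrank]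
  have hk' : k ≤ finrank ℂ (Submodule.span ℂ s) := by omega
  refine ⟨fun i => f (Fin.castLE hk' i), fun i => hf _, fun v => ?_⟩
  refine ⟨∑ j, v j • (evalEquiv ℂ U).symm (b.dualBasis (Fin.castLE hk' j)), fun i => ?_⟩
  rw [map_sum]
  have h3 : ∀ j, f (Fin.castLE hk' i) (v j • (evalEquiv ℂ U).symm
      (b.dualBasis (Fin.castLE hk' j))) = if j = i then v j else 0 := by
    intro j
    rw [map_smul, apply_evalEquiv_symm_apply, ← hbf, Basis.dualBasis_apply_self, smul_eq_mul]
    by_cases h4 : j = i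
    · subst h4
      simp
    · have h5 : Fin.castLE hk' i ≠ Fin.castLE hk' j := fun h6 =>
        h4 (Fin.castLE_injective hk' h6).symm
      simp [h4, h5]
  rw [Finset.sum_congr rfl fun j _ => h3 j]
  simp

end I_JCX

theorem JCX_pf : JCX := by
  intro W p l h5
  set U : Submodule ℂ ((Fin 3 → E) × E) := W.map (evB p l) with hU
  -- the functionals which are evaluations at the entries of the configuration
  set s : Set (Dual ℂ U) := {f | ∃ z ∈ entB p l, ∀ δ (hδ : δ ∈ W),
    f ⟨evB p l δ, Submodule.mem_map_of_mem hδ⟩ = δ z} with hs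
  have hsep : ∀ u : U, (∀ f ∈ s, f u = 0) → u = 0 := by
    rintro ⟨⟨a, b⟩, hab⟩ hu
    have h1 : ∀ i j, a i j = 0 := by
      intro i j
      let f : Dual ℂ U := ((LinearMap.proj j).comp ((LinearMap.proj i).comp
        (LinearMap.fst ℂ (Fin 3 → E) E))).comp U.subtype
      exact hu f ⟨p i j, Or.inl ⟨i, j, rfl⟩, fun δ _ => rfl⟩
    have h2 : ∀ j, b j = 0 := by
      intro j
      let f : Dual ℂ U := ((LinearMap.proj j).comp
        (LinearMap.snd ℂ (Fin 3 → E) E)).comp U.subtype
      exact hu f ⟨l j, Or.inr ⟨j, rfl⟩, fun δ _ => rfl⟩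
    apply Subtype.ext
    exact Prod.ext (funext fun i => funext fun j => h1 i j) (funext fun j => h2 j)
  obtain ⟨g, hg, hsurj⟩ := I_JCX.exists_functionals s hsep h5
  choose x hx hgx using hg
  refine ⟨x, hx, fun v => ?_⟩
  obtain ⟨⟨u, hu⟩, huv⟩ := hsurj v
  obtain ⟨δ, hδ, rfl⟩ := hu
  exact ⟨δ, hδ, fun i => by rw [← hgx i δ hδ]; exact huv i⟩

end Pool.Agent.Work.MP_ea8963_ag.G4
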