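import Pool.Agent.Work.MP_ea8963_ag.G4.Stmts2

/-! Block [ea8963 G4], item JDX: five free coordinates give rank at least five (helper90). -/

noncomputable section

open Module

namespace Pool.Agent.Work.MP_ea8963_ag.G4

namespace I_JDX

/-- an entry of the configuration is a coordinate functional of `evB` -/
theorem exists_functional (p : Fin 3 → E) (l : E) (x : ℂ) (hx : x ∈ entB p l) :
    ∃ φ : ((Fin 3 → E) × E) →ₗ[ℂ] ℂ, ∀ δ : D, φ (evB p l δ) = δ x := by
  rcases hx with ⟨i, j, rfl⟩ | ⟨j, rfl⟩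
  · refine ⟨(LinearMap.proj j).comp ((LinearMap.proj i).comp
      (LinearMap.fst ℂ (Fin 3 → E) E)), fun δ => rfl⟩
  · refine ⟨(LinearMap.proj j).comp (LinearMap.snd ℂ (Fin 3 → E) E), fun δ => rfl⟩

end I_JDX

open I_JDX in
theorem JDX_pf : JDX := by
  intro W p l x hx hfull
  choose φ hφ using fun k => exists_functional p l (x k) (hx k)
  have hmap : (W.map (evB p l)).map (LinearMap.pi φ) = ⊤ := by
    rw [eq_top_iff]
    intro v _
    obtain ⟨δ, hδ, hv⟩ := hfull v
    refine ⟨evB p l δ, ⟨δ, hδ, rfl⟩, ?_⟩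
    ext k
    rw [LinearMap.pi_apply, hφ, hv]
  have h1 := Submodule.finrank_map_le (LinearMap.pi φ) (W.map (evB p l))
  rw [hmap, finrank_top] at h1
  simpa using h1

end Pool.Agent.Work.MP_ea8963_ag.G4
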