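import Pool.Agent.Work.MP_ea8963_ag.G4.Stmts2

/-! Item JEX of block [ea8963 G4] (linear algebra).  Author helper82. -/

set_option linter.style.longLine false

noncomputable section

open Module

namespace Pool.Agent.Work.MP_ea8963_ag.G4

namespace I_JEX

/-- the coordinate functional, restricted to `ker L` -/
def co (L : Y →ₗ[ℂ] Z16) (j : Fin 3 × Fin 7) : Dual ℂ (LinearMap.ker L) :=
  ((LinearMap.proj (R := ℂ) (φ := fun _ : Fin 7 => ℂ) j.2).comp
    (LinearMap.proj (R := ℂ) (φ := fun _ : Fin 3 => Fin 7 → ℂ) j.1)).comp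
      (LinearMap.ker L).subtype

lemma co_apply (L : Y →ₗ[ℂ] Z16) (j : Fin 3 × Fin 7) (y : LinearMap.ker L) :
    co L j y = (y : Y) j.1 j.2 := rfl

lemma finrank_ker (L : Y →ₗ[ℂ] Z16) (hL : Function.Surjective L) :
    finrank ℂ (LinearMap.ker L) = 5 := by
  have h1 := L.finrank_range_add_finrank_ker
  rw [LinearMap.range_eq_top.2 hL, finrank_top] at h1
  have h2 : finrank ℂ Y = 21 := by
    rw [Module.finrank_pi_fintype]; simp
  have h3 : finrank ℂ Z16 = 16 := by
    simp [Z16, E]
  omega

lemma span_co (L : Y →ₗ[ℂ] Z16) : Submodule.span ℂ (Set.range (co L)) = ⊤ := by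
  have h : (Submodule.span ℂ (Set.range (co L))).dualCoannihilator = ⊥ := by
    rw [eq_bot_iff]
    intro y hy
    rw [Submodule.mem_dualCoannihilator] at hy
    rw [Submodule.mem_bot]
    apply Subtype.ext
    funext a b
    exact hy (co L (a, b)) (Submodule.subset_span ⟨(a, b), rfl⟩)
  have h2 := Subspace.dualCoannihilator_dualAnnihilator_eq
    (W := Submodule.span ℂ (Set.range (co L)))
  rw [h, Submodule.dualAnnihilator_bot] at h2
  exact h2.symm

end I_JEX

open I_JEX in
theorem JEX_pf : JEX := by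
  intro L hL
  have h5 := finrank_ker L hL
  obtain ⟨f, hf, hs, hi⟩ := Submodule.exists_fun_fin_finrank_span_eq ℂ (Set.range (co L))
  have hc : finrank ℂ (Submodule.span ℂ (Set.range (co L))) = 5 := by
    rw [span_co, finrank_top, Subspace.dual_finrank_eq, h5]
  choose g hg using hf
  let J : Fin 5 → Fin 3 × Fin 7 := fun k => g (Fin.cast hc.symm k)
  have hJ : Submodule.span ℂ (Set.range fun k => co L (J k)) = ⊤ := by
    have : (Set.range fun k => co L (J k)) = Set.range f := by
      ext x
      constructor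
      · rintro ⟨k, rfl⟩
        exact ⟨Fin.cast hc.symm k, (hg _).symm⟩
      · rintro ⟨k, rfl⟩
        exact ⟨Fin.cast hc k, hg _⟩
    rw [this, hs, span_co]
  let M : LinearMap.ker L →ₗ[ℂ] (Fin 5 → ℂ) := LinearMap.pi fun k => co L (J k)
  have hM : Function.Injective M := by
    rw [← LinearMap.ker_eq_bot, eq_bot_iff]
    intro y hy
    rw [Submodule.mem_bot]
    have h1 : ∀ φ ∈ Submodule.span ℂ (Set.range fun k => co L (J k)), φ y = 0 := by
      intro φ hφ
      induction hφ using Submodule.span_induction with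
      | mem x hx =>
        obtain ⟨k, rfl⟩ := hx
        exact congrFun (LinearMap.mem_ker.1 hy) k
      | zero => rfl
      | add a b _ _ ha hb => simp [ha, hb]
      | smul c a _ ha => simp [ha]
    apply Subtype.ext
    funext a b
    exact h1 (co L (a, b)) (by rw [hJ]; trivial)
  have hMs : Function.Surjective M := by
    have : finrank ℂ (LinearMap.ker L) = finrank ℂ (Fin 5 → ℂ) := by simp [h5]
    exact (LinearMap.injective_iff_surjective_of_finrank_eq_finrank this).1 hM
  refine ⟨J, fun z c => ?_⟩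
  obtain ⟨y0, hy0⟩ := hL z
  obtain ⟨w, hw⟩ := hMs (fun k => c k - y0 (J k).1 (J k).2)
  refine ⟨y0 + w, ?_, fun k => ?_⟩
  · rw [map_add, hy0, LinearMap.mem_ker.1 w.2, add_zero]
  · have h1 : (w : Y) (J k).1 (J k).2 = c k - y0 (J k).1 (J k).2 := congrFun hw k
    rw [Pi.add_apply, Pi.add_apply, h1]
    ring

end Pool.Agent.Work.MP_ea8963_ag.G4
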