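import Pool.Agent.Work.MP_ea8963_ag.G4.Stmts2

/-!
Block [ea8963 G4]: item LAX (good derivations).  helper91.

The stability of `M` under the derivations is proved with the Lie bracket of derivations.
-/

set_option linter.style.longLine false
set_option linter.unusedVariables false

noncomputable section

open Module

namespace Pool.Agent.Work.MP_ea8963_ag.G4

namespace I_LAX

/-- the values of a derivation at the entries of `x` -/
def evX {n : ℕ} (x : Fin n → ℂ) : D →ₗ[ℂ] (Fin n → ℂ) where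
  toFun δ := fun i => δ (x i)
  map_add' := by intro a b; ext i; simp
  map_smul' := by intro c a; ext i; simp

lemma evX_apply {n : ℕ} (x : Fin n → ℂ) (δ : D) (i : Fin n) : evX x δ i = δ (x i) := rfl

/-- a derivation which kills `A0` and five independent entries kills all entries -/
lemma key {A0 : Set ℂ} {p : Fin 3 → E} {l : E} (h5 : finrank ℂ ((ZA A0).map (evB p l)) ≤ 5)
    {x : Fin 5 → ℂ} (hx : ∀ k, x k ∈ entB p l) (hF : Full (ZA A0) x) {ε : D} (h0 : ε ∈ ZA A0)
    (h1 : ∀ i, ε (x i) = 0) : ε ∈ ZA (A0 ∪ entB p l) := by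
  have hrn := rn (evB p l) (evX x) (ZA A0)
  have hφ : (ZA A0).map (evX x) = ⊤ := by
    rw [eq_top_iff]
    rintro v -
    obtain ⟨δ, hδ, hv⟩ := hF v
    exact ⟨δ, hδ, funext hv⟩
  have h5' : finrank ℂ ((ZA A0).map (evX x)) = 5 := by
    rw [hφ, finrank_top]; simp
  have hz : ((ZA A0) ⊓ LinearMap.ker (evB p l)).map (evX x) = ⊥ := by
    rw [eq_bot_iff]
    rintro v ⟨δ, ⟨-, hδ⟩, rfl⟩
    rw [Submodule.mem_bot]
    have hδ' : δ ∈ ZB p l := hδ
    rw [mem_ZB] at hδ'
    funext i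
    rw [evX_apply]
    rcases hx i with ⟨a, b, hab⟩ | ⟨b, hb⟩
    · rw [hab]; exact congrFun (hδ'.1 a) b
    · rw [hb]; exact congrFun hδ'.2 b
  rw [hz, h5', finrank_bot] at hrn
  have h6 : finrank ℂ (((ZA A0) ⊓ LinearMap.ker (evX x)).map (evB p l) :
      Submodule ℂ ((Fin 3 → E) × E)) = 0 := by omega
  have h7 : ((ZA A0) ⊓ LinearMap.ker (evX x)).map (evB p l) = ⊥ := Submodule.finrank_eq_zero.1 h6
  have h8 : evB p l ε ∈ ((ZA A0) ⊓ LinearMap.ker (evX x)).map (evB p l) :=
    ⟨ε, ⟨h0, LinearMap.mem_ker.2 (funext h1)⟩, rfl⟩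
  rw [h7, Submodule.mem_bot] at h8
  have h9 : ε ∈ ZB p l := h8
  rw [mem_ZB] at h9
  rintro a (ha | ⟨i, j, rfl⟩ | ⟨j, rfl⟩)
  · exact h0 a ha
  · exact congrFun (h9.1 i) j
  · exact congrFun h9.2 j

end I_LAX

open I_LAX in
theorem LAX_pf (hFAX : FAX) (hFBX : FBX) (hFCX : FCX) (hFDX : FDX) (hJCX : JCX) : LAX := by
  intro A0 A1 h01 p l h5 h5'
  obtain ⟨x, hx, hF⟩ := hJCX (ZA A1) p l h5'
  have hF0 : Full (ZA A0) x := fun v => by
    obtain ⟨δ, hδ, hv⟩ := hF v
    exact ⟨δ, ZA_mono h01 hδ, hv⟩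
  have hd := fun k : Fin 5 => hF (fun i => if i = k then 1 else 0)
  choose d hd1 hd2 using hd
  refine ⟨Set.range d, ?_, ?_, ?_⟩
  · rintro _ ⟨k, rfl⟩
    exact hd1 k
  · rintro _ ⟨k, rfl⟩ g hg ε hε
    have hε0 : ε ∈ ZA A0 := ZA_mono Set.subset_union_left hε
    have hεx : ∀ i, ε (x i) = 0 := fun i => hε _ (Or.inr (hx i))
    have hc : ⁅ε, d k⁆ ∈ ZA (A0 ∪ entB p l) := by
      refine key h5 hx hF0 ?_ ?_
      · intro a ha
        rw [Derivation.commutator_apply, hε0 a ha, hd1 k a (h01 ha), map_zero, map_zero, sub_zero]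
      · intro i
        rw [Derivation.commutator_apply, hεx i, hd2 k i, map_zero, sub_zero]
        split_ifs
        · exact ε.map_one_eq_zero
        · exact map_zero ε
    have h1 := hg _ hc
    rw [Derivation.commutator_apply, hg ε hε, map_zero, sub_zero] at h1
    exact h1
  · intro g hg hk δ hδ
    set ε : D := δ - ∑ k, δ (x k) • d k with hεd
    have happ : ∀ z, ε z = δ z - ∑ k, δ (x k) * d k z := by
      intro z
      have h := congrFun (map_sub (evX (fun _ : Fin 1 => z)) δ (∑ k, δ (x k) • d k)) 0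
      rw [map_sum] at h
      rw [Pi.sub_apply, Finset.sum_apply] at h
      exact h
    have h1 : ε ∈ ZA (A0 ∪ entB p l) := by
      refine key h5 hx hF0 ?_ ?_
      · intro a ha
        rw [happ, hδ a ha]
        simp [fun k => hd1 k a (h01 ha)]
      · intro i
        rw [happ]
        simp [hd2]
    have h2 := hg _ h1
    rw [happ] at h2
    have h3 : ∀ k, d k g = 0 := fun k => hk _ ⟨k, rfl⟩
    simpa [h3] using h2

end Pool.Agent.Work.MP_ea8963_ag.G4
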