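import Pool.Agent.Work.MP_ea8963_ag.G4.Stmts2

/-!
Block [ea8963 G4], item LCX (helper59).
-/

set_option linter.style.longLine false

noncomputable section

open Module Topology

namespace Pool.Agent.Work.MP_ea8963_ag.G4

namespace I_LCX

/-- `cl A` as a subfield -/
def clF (hFFX : FFX) (A : Set ℂ) : Subfield ℂ where
  carrier := cl A
  zero_mem' := by simpa using (hFFX A).2.2.1 0
  one_mem' := by simpa using (hFFX A).2.2.1 1
  add_mem' := fun {x y} hx hy => ((hFFX A).2.2.2 x hx y hy).1
  mul_mem' := fun {x y} hx hy => ((hFFX A).2.2.2 x hx y hy).2.1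
  neg_mem' := fun {x} hx => ((hFFX A).2.2.2 x hx x hx).2.2.1
  inv_mem' := fun x hx => ((hFFX A).2.2.2 x hx x hx).2.2.2

lemma mem_clF {hFFX : FFX} {A : Set ℂ} {x : ℂ} : x ∈ clF hFFX A ↔ x ∈ cl A := Iff.rfl

lemma cl_mono {A A' : Set ℂ} (h : A ⊆ A') : cl A ⊆ cl A' := fun _ hz δ hδ => hz δ (ZA_mono h hδ)

lemma eval_mem (K : Subfield ℂ) (l : E) (hl : ∀ i, l i ∈ K) (H : MvPolynomial (Fin 5) ℂ)
    (hH : ∀ m, H.coeff m ∈ K) : MvPolynomial.eval l H ∈ K := by
  rw [MvPolynomial.eval_eq']
  exact sum_mem fun m _ => mul_mem (hH m) (prod_mem fun i _ => pow_mem (hl i) _)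

end I_LCX

open I_LCX in
theorem LCX_pf (hFFX : FFX) (hLBX : LBX) : LCX := by
  intro A0 A1 hA p l hr1 hr2 l1 hH F hF hFl
  classical
  set K : Subfield ℂ := clF hFFX A0 with hK
  set V : Submodule K ℂ := Submodule.span K ((fun m => F.coeff m) '' (F.support : Set (Fin 5 →₀ ℕ))) with hV
  have : FiniteDimensional K V :=
    FiniteDimensional.span_of_finite K (Set.Finite.image _ (Finset.finite_toSet _))
  set b := Module.finBasis K V with hb
  have hmem : ∀ m, F.coeff m ∈ V := by
    intro m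
    by_cases hm : m ∈ F.support
    · exact Submodule.subset_span ⟨m, hm, rfl⟩
    · rw [MvPolynomial.notMem_support_iff.1 hm]; exact V.zero_mem
  set θ : Fin (finrank K V) → ℂ := fun j => (b j : ℂ) with hθ
  -- the coefficients
  set k : Fin (finrank K V) → (Fin 5 →₀ ℕ) → ℂ :=
    fun j m => ((b.repr ⟨F.coeff m, hmem m⟩ j : K) : ℂ) with hk
  have hkK : ∀ j m, k j m ∈ cl A0 := fun j m => (b.repr ⟨F.coeff m, hmem m⟩ j).2
  have hsum : ∀ m, F.coeff m = ∑ j, θ j * k j m := by
    intro m
    have h := b.sum_repr ⟨F.coeff m, hmem m⟩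
    have h' := congrArg (fun v : V => (v : ℂ)) h
    simp only [Submodule.coe_sum, Submodule.coe_smul] at h'
    rw [← h']
    refine Finset.sum_congr rfl fun j _ => ?_
    rw [hθ, hk]
    simp only [Subfield.smul_def, smul_eq_mul]
    ring
  set H : Fin (finrank K V) → MvPolynomial (Fin 5) ℂ :=
    fun j => ∑ m ∈ F.support, MvPolynomial.monomial m (k j m) with hHdef
  have hHc : ∀ j m, (H j).coeff m = if m ∈ F.support then k j m else 0 := by
    intro j m
    rw [hHdef]
    simp only [MvPolynomial.coeff_sum, MvPolynomial.coeff_monomial]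
    rw [Finset.sum_ite_eq']
  have hHK : ∀ j m, (H j).coeff m ∈ cl A0 := by
    intro j m
    rw [hHc]
    split_ifs
    · exact hkK j m
    · exact (clF hFFX A0).zero_mem
  have hFH : F = ∑ j, θ j • H j := by
    ext m
    rw [MvPolynomial.coeff_sum]
    simp only [MvPolynomial.coeff_smul, hHc, smul_eq_mul]
    by_cases hm : m ∈ F.support
    · simp only [if_pos hm]; exact hsum m
    · simp only [if_neg hm, mul_zero, Finset.sum_const_zero]
      exact MvPolynomial.notMem_support_iff.1 hm
  have hev : ∀ x : E, MvPolynomial.eval x F = ∑ j, θ j * MvPolynomial.eval x (H j) := by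
    intro x
    conv_lhs => rw [hFH]
    simp [MvPolynomial.smul_eval]
  -- θ in cl A1
  have hVle : ∀ v ∈ V, v ∈ cl A1 := by
    intro v hv
    rw [hV] at hv
    induction hv using Submodule.span_induction with
    | mem x hx => obtain ⟨m, -, rfl⟩ := hx; exact hF m
    | zero => exact (clF hFFX A1).zero_mem
    | add x y _ _ hx hy => exact (clF hFFX A1).add_mem hx hy
    | smul c x _ hx =>
      rw [Subfield.smul_def, smul_eq_mul]
      exact (clF hFFX A1).mul_mem (cl_mono hA c.2) hx
  have hθ1 : ∀ j, θ j ∈ cl A1 := fun j => hVle _ (b j).2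
  have hind : ∀ c : Fin (finrank K V) → ℂ, (∀ i, c i ∈ cl A0) → ∑ i, c i * θ i = 0 → ∀ i, c i = 0 := by
    intro c hc h0 i
    have hli := b.linearIndependent
    rw [Fintype.linearIndependent_iff] at hli
    have := hli (fun i => (⟨c i, hc i⟩ : K)) (by
      apply Subtype.ext
      simp only [Submodule.coe_sum, Submodule.coe_smul, Subfield.smul_def, smul_eq_mul,
        Submodule.coe_zero]
      exact h0) i
    exact congrArg (fun z : K => (z : ℂ)) this
  have hgl : ∀ j, MvPolynomial.eval l (H j) ∈ cl (A0 ∪ entB p l) := by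
    intro j
    refine eval_mem (clF hFFX (A0 ∪ entB p l)) l (fun i => ?_) (H j) (fun m => ?_)
    · exact (hFFX (A0 ∪ entB p l)).1 (Or.inr (Or.inr ⟨i, rfl⟩))
    · exact cl_mono Set.subset_union_left (hHK j m)
  have hz := hLBX A0 A1 hA p l hr1 hr2 _ θ (fun j => MvPolynomial.eval l (H j)) hθ1 hgl hind
    (by rw [← hev l]; exact hFl)
  rw [hev l1]
  refine Finset.sum_eq_zero fun j _ => ?_
  rw [hH (H j) (hHK j) (hz j), mul_zero]

end Pool.Agent.Work.MP_ea8963_ag.G4
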