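import Pool.Agent.Work.MP_ea8963_ag.G4.Stmts

/-!
Block [ea8963 G4], item LMX: if the hyperplane of a configuration is projectively constant along a
derivation which kills the cubic, then so are the nodes.
-/

set_option linter.style.longLine false
set_option linter.unusedVariables false

noncomputable section

open Module Topology

namespace Pool.Agent.Work.MP_ea8963_ag.G4

theorem LMX_pf : LMX := by
  intro s hs p l lam mu h δ hδ c hc i
  have hT := h.tri_dE hs hδ i
  have hd := h.d_eq hs δ i
  rw [mem_ZS.1 hδ, cov_zero_tensor, zero_add, hc] at hd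
  have hl := h.eq i
  refine (h.nd i).ker (dE δ (p i)) (δ (lam i) - c * lam i) (δ (mu i) - c * mu i) hT.1 hT.2 ?_
  have key : lam i • beta (dE δ (p i)) + (2 * mu i) • cov s (p i) (dE δ (p i))
      + δ (lam i) • beta (p i) + δ (mu i) • cov s (p i) (p i)
      - c • (lam i • beta (p i) + mu i • cov s (p i) (p i)) = 0 := by
    rw [← hl, hd]
    ext k
    simp only [Pi.sub_apply, Pi.add_apply, Pi.smul_apply, Pi.zero_apply, smul_eq_mul]
    ring
  rw [← key]
  ext k
  simp only [Pi.sub_apply, Pi.add_apply, Pi.smul_apply, smul_eq_mul]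
  ring

end Pool.Agent.Work.MP_ea8963_ag.G4
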