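import Pool.Agent.Work.MP_ea8963_ag.G4.Stmts

/-!
Item NCX of block [ea8963 G4].
-/

set_option linter.style.longLine false

noncomputable section

open Module

namespace Pool.Agent.Work.MP_ea8963_ag.G4

theorem NCX_pf : NCX := by
  intro s hs p l lam mu h hB δ hδ hne i c hc
  have h1 := h.d_eq hs δ i
  have h0 : dT δ s = 0 := mem_ZS.1 hδ
  rw [h0, cov_zero_tensor, zero_add, hc, beta_smul, cov_smul_right] at h1
  have h2 := h.eq i
  set β := beta (p i) with hβ
  set γ := cov s (p i) (p i) with hγ
  have h3 : dE δ l = (δ (lam i) + lam i * c) • β + (δ (mu i) + 2 * c * mu i) • γ := by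
    rw [h1]
    module
  set A := δ (lam i) + lam i * c with hA
  set Bq := δ (mu i) + 2 * c * mu i with hBq
  by_cases hD : lam i * Bq - mu i * A = 0
  · by_cases hl : lam i = 0
    · by_cases hm : mu i = 0
      · apply h.l0
        rw [h2, hl, hm]; simp
      · apply hne (Bq / mu i)
        have e1 : Bq / mu i * lam i = A := by
          rw [div_mul_eq_mul_div, div_eq_iff hm]
          linear_combination hD
        rw [h3]
        conv_rhs => rw [h2]
        rw [smul_add, smul_smul, smul_smul, e1, div_mul_cancel₀ _ hm]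
    · apply hne (A / lam i)
      have e1 : A / lam i * mu i = Bq := by
        rw [div_mul_eq_mul_div, div_eq_iff hl]
        linear_combination -hD
      rw [h3]
      conv_rhs => rw [h2]
      rw [smul_add, smul_smul, smul_smul, e1, div_mul_cancel₀ _ hl]
  · have hij : i ≠ i + 1 := by fin_cases i <;> decide
    apply hB i (i + 1) hij
    have h4 : (lam i * Bq - mu i * A) • β = Bq • l - mu i • dE δ l := by
      rw [h3]
      conv_rhs => rw [h2]
      module
    have h5 := congrArg (fun x => x ⬝ᵥ p (i + 1)) h4
    simp only [smul_dotProduct, sub_dotProduct, smul_eq_mul] at h5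
    rw [h.lp (i + 1), h.dl_p hs hδ (i + 1)] at h5
    have h6 : β ⬝ᵥ p (i + 1) = 0 := by
      have h7 : (lam i * Bq - mu i * A) * (β ⬝ᵥ p (i + 1)) = 0 := by
        rw [h5]; ring
      exact (mul_eq_zero.1 h7).resolve_left hD
    exact h6

end Pool.Agent.Work.MP_ea8963_ag.G4
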