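import Pool.Agent.Work.MP_ea8963_ag.G4.Stmts

/-! Item NFX of block [ea8963 G4] (there is no fourth singular point).  Author helper82. -/

set_option linter.style.longLine false
set_option linter.unusedVariables false

noncomputable section

open Module

namespace Pool.Agent.Work.MP_ea8963_ag.G4

namespace I_NFX

/-- case (a): tangent hyperplane -/
lemma caseA {s : T3} {p : Fin 3 → E} {l : E} {lam mu : Fin 3 → ℂ} (h : Opt s p l lam mu) {q : E}
    (hB : B q q = 0) {al : ℂ} (hl : l = al • beta q)
    (hq : q ∉ Submodule.span ℂ (Set.range p)) : False := by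
  have hal : al ≠ 0 := by
    rintro rfl
    exact h.l0 (by rw [hl, zero_smul])
  obtain ⟨m, hm, hmq⟩ := exists_sep h.ind hq
  have hT : ((0 : Fin 3 → E), m) ∈ TB p l := by
    rw [mem_TB]
    intro i
    refine ⟨by simp [B], ?_⟩
    have h1 := hm i
    rw [dotProduct_comm] at h1
    simp [h1]
  obtain ⟨δ, hδ⟩ := h.fullB _ hT
  have h2 : dE δ l = m := by
    have := congrArg Prod.snd hδ
    simpa using this
  have hl' : l = beta (al • q) := by rw [hl, beta_smul]
  have h3 : m = beta (dE δ (al • q)) := by rw [← h2, hl', dE_beta]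
  have h4 : B (al • q) (al • q) = 0 := by rw [B_smul_left, B_smul_right, hB]; ring
  have h5 := d_B δ (al • q) (al • q)
  rw [h4, map_zero, B_comm (al • q) (dE δ (al • q))] at h5
  have h6 : m ⬝ᵥ (al • q) = 0 := by
    rw [h3]
    have : beta (dE δ (al • q)) ⬝ᵥ (al • q) = B (dE δ (al • q)) (al • q) := rfl
    rw [this]
    linear_combination -(1 / 2 : ℂ) * h5
  rw [dotProduct_smul, dotProduct_comm, hmq] at h6
  simp at h6
  exact hal h6

/-- case (b), normalised -/
lemma caseB (hGK : GK) (hSMX : SMX) {s : T3} (hs : Gen s) {p : Fin 3 → E} {l : E}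
    {lam mu : Fin 3 → ℂ} (h : Opt s p l lam mu) {q : E} {j : Fin 5} (hj : q j = 1)
    (hB : B q q = 0) (hlq : l ⬝ᵥ q = 0) {al be : ℂ} (hbe : be ≠ 0)
    (hl : l = al • beta q + be • cov s q q)
    (hq : q ∉ Submodule.span ℂ (Set.range p)) : False := by
  have hq0 : q ≠ 0 := by
    rintro rfl
    simp at hj
  have hind := hSMX s hs q hq0 hB
  have hi2 : LinearIndependent ℂ ![beta q, l] := by
    rw [LinearIndependent.pair_iff] at hind ⊢
    intro a b hab
    rw [hl] at hab
    have h2 := hind (a + b * al) (b * be) (by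
      rw [← hab]; simp only [smul_add, add_smul, smul_smul]; abel)
    have hb : b = 0 := by
      rcases mul_eq_zero.1 h2.2 with h3 | h3
      · exact h3
      · exact absurd h3 hbe
    refine ⟨?_, hb⟩
    have := h2.1
    rw [hb] at this
    simpa using this
  have hi3 : LinearIndependent ℂ ![beta q, l, Pi.single j 1] := by
    rw [Fintype.linearIndependent_iff] at hi2 ⊢
    intro g hg
    simp only [Fin.sum_univ_three, Matrix.cons_val_zero, Matrix.cons_val_one,
      Matrix.cons_val_two, Matrix.head_cons, Matrix.tail_cons, Matrix.cons_val] at hg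
    have h1 := congrArg (fun x => x ⬝ᵥ q) hg
    have h2 : beta q ⬝ᵥ q = 0 := hB
    simp only [add_dotProduct, smul_dotProduct, h2, hlq, single_dotProduct, hj, zero_dotProduct,
      smul_eq_mul, mul_zero, zero_add, mul_one, one_mul] at h1
    rw [h1, zero_smul, add_zero] at hg
    have h3 := hi2 ![g 0, g 1] (by simpa [Fin.sum_univ_two] using hg)
    intro i
    fin_cases i
    · simpa using h3 0
    · simpa using h3 1
    · exact h1
  -- the first count
  have c1 : finrank ℂ ((ZB p l).map (evE q)) + 3 ≤ 5 := by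
    apply finrank_le_of_ann hi3
    rintro _ ⟨δ, hδ, rfl⟩ i
    have hδ' := mem_ZB.1 hδ
    rw [evE_apply]
    fin_cases i
    · have h1 := d_B δ q q
      rw [hB, map_zero, B_comm (dE δ q) q] at h1
      have : beta q ⬝ᵥ dE δ q = B q (dE δ q) := rfl
      change beta q ⬝ᵥ dE δ q = 0
      rw [this]
      linear_combination -(1 / 2 : ℂ) * h1
    · have h1 := d_dot δ l q
      rw [hlq, map_zero, hδ'.2, zero_dotProduct, zero_add] at h1
      exact h1.symm
    · change Pi.single j 1 ⬝ᵥ dE δ q = 0
      rw [single_dotProduct, one_mul]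
      change δ (q j) = 0
      rw [hj]
      exact δ.map_one_eq_zero
  -- the second count
  set P : Fin 4 → E := Fin.cons q p with hP
  have hPi : LinearIndependent ℂ P := linearIndependent_finCons.2 ⟨h.ind, hq⟩
  have hnt : ∀ i, LinearIndependent ℂ ![beta (P i), l] := by
    intro i
    refine Fin.cases ?_ (fun i => ?_) i
    · exact hi2
    · exact h.toCfg.nt h.mu_ne i
  have c2 := hGK 4 P (fun i => Ann ![beta (P i), l]) hPi
  have c3 : ∀ i, finrank ℂ (Ann ![beta (P i), l]) = 3 := by
    intro i
    have := finrank_Ann (hnt i)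
    omega
  simp only [c3, Finset.sum_const, Finset.card_univ, Fintype.card_fin, smul_eq_mul] at c2
  have c4 : finrank ℂ ((ZB p l ⊓ LinearMap.ker (evE q)).map (evT s) : Submodule ℂ T3) ≤
      finrank ℂ (KK P (fun i => Ann ![beta (P i), l])) := by
    apply Submodule.finrank_mono
    rintro _ ⟨δ, ⟨hδ, hδq⟩, rfl⟩
    rw [evT_apply]
    have hδq' : dE δ q = 0 := hδq
    have h1 := h.toCfg.dT_mem_KB hs.1 h.mu_ne hδ
    rw [mem_KB] at h1
    rw [mem_KK]
    refine ⟨h1.1, fun i v hv => ?_⟩
    rw [mem_Ann2] at hv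
    obtain ⟨hv1, hv2⟩ := hv
    revert hv1
    refine Fin.cases ?_ (fun i => ?_) i
    · intro hv1
      change beta q ⬝ᵥ v = 0 at hv1
      change tri (dT δ s) q q v = 0
      have h2 : dE δ l = dE δ (al • beta q + be • cov s q q) := by rw [← hl]
      rw [(mem_ZB.1 hδ).2, dE_add, dE_smul, dE_smul, dE_beta, dE_cov, hδq', beta_zero,
        cov_zero_left, cov_zero_right, smul_zero, add_zero, add_zero, add_zero] at h2
      have h3 := congrArg (fun x => x ⬝ᵥ v) h2
      simp only [add_dotProduct, smul_dotProduct, zero_dotProduct, smul_eq_mul, hv1] at h3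
      have h4 := congrArg (fun x => x ⬝ᵥ v) hl
      simp only [add_dotProduct, smul_dotProduct, smul_eq_mul, hv1, hv2] at h4
      have h5 : cov s q q ⬝ᵥ v = 0 := by
        have : be * (cov s q q ⬝ᵥ v) = 0 := by linear_combination -h4
        rcases mul_eq_zero.1 this with h6 | h6
        · exact absurd h6 hbe
        · exact h6
      rw [h5] at h3
      have h6 : be * (cov (dT δ s) q q ⬝ᵥ v) = 0 := by linear_combination -h3
      rcases mul_eq_zero.1 h6 with h7 | h7
      · exact absurd h7 hbe
      · exact h7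
    · intro hv1
      exact h1.2 i v hv1 hv2
  have c5 := rn_le (evT s) (evE q) (ZB p l)
  have c6 := h.rkS
  omega

end I_NFX

open I_NFX in
theorem NFX_pf (hGK : GK) (hSMX : SMX) : NFX := by
  intro s hs p l lam mu h q hq0 hB hs3 hlq al be hl
  by_cases hq : q ∈ Submodule.span ℂ (Set.range p)
  · obtain ⟨x, hx⟩ := (Submodule.mem_span_range_iff_exists_fun ℂ).1 hq
    obtain ⟨j, c, hc⟩ := h.con x (by rw [hx]; exact hB) (by rw [hx]; exact hs3)
    exact ⟨j, c, by rw [← hx]; exact hc⟩
  exfalso
  by_cases hbe : be = 0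
  · exact caseA h hB (al := al) (by rw [hl, hbe]; simp) hq
  obtain ⟨j, hj⟩ : ∃ j, q j ≠ 0 := by
    by_contra hcon
    push Not at hcon
    exact hq0 (funext hcon)
  have hc : (q j)⁻¹ ≠ 0 := inv_ne_zero hj
  refine caseB hGK hSMX hs h (q := (q j)⁻¹ • q) (j := j) ?_ ?_ ?_ (al := al * q j)
    (be := be * (q j * q j)) ?_ ?_ ?_
  · simp [hj]
  · rw [B_smul_left, B_smul_right, hB]; ring
  · rw [dotProduct_smul, hlq, smul_zero]
  · exact mul_ne_zero hbe (mul_ne_zero hj hj)
  · conv_lhs => rw [hl]
    rw [beta_smul, cov_smul_left, cov_smul_right, smul_smul, smul_smul, smul_smul]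
    congr 2
    · field_simp
    · field_simp
  · intro hcon
    apply hq
    have := Submodule.smul_mem _ (q j) hcon
    rwa [smul_smul, mul_inv_cancel₀ hj, one_smul] at this

end Pool.Agent.Work.MP_ea8963_ag.G4
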