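import Pool.Agent.Work.MP_ea8963_ag.G4.Stmts

/-!
Block [ea8963 G4], item NLX: there is no line in the surface.  Author helper27.
-/

set_option linter.style.longLine false

noncomputable section

open Module

namespace Pool.Agent.Work.MP_ea8963_ag.G4

namespace I_NLX

lemma exists_minor {u v : E} (h : LinearIndependent ℂ ![u, v]) :
    ∃ i j : Fin 5, u i * v j - u j * v i ≠ 0 := by
  by_contra hcon
  push Not at hcon
  rw [LinearIndependent.pair_iff] at h
  have hu : ∃ i, u i ≠ 0 := by
    by_contra h0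
    push Not at h0
    have h1 : u = 0 := funext h0
    have h2 := h 1 0 (by rw [h1]; simp)
    exact one_ne_zero h2.1
  obtain ⟨i, hi⟩ := hu
  have h2 := h (v i) (-u i) (by
    ext j
    simp only [Pi.add_apply, Pi.smul_apply, smul_eq_mul, Pi.zero_apply]
    linear_combination -hcon i j)
  exact hi (neg_eq_zero.1 h2.2)

lemma ind3 {u v : E} {i j : Fin 5} (hui : u i = 1) (huj : u j = 0) (hvi : v i = 0) (hvj : v j = 1)
    (h1 : B u u = 0) (h2 : B u v = 0) :
    LinearIndependent ℂ ![beta u, Pi.single i 1, Pi.single j 1] := by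
  rw [Fintype.linearIndependent_iff]
  intro g hg
  have hg : g 0 • beta u + g 1 • (Pi.single i 1 : E) + g 2 • (Pi.single j 1 : E) = 0 := by
    have := hg
    rw [Fin.sum_univ_three] at this
    exact this
  have e1 := congrArg (fun x => x ⬝ᵥ u) hg
  have e2 := congrArg (fun x => x ⬝ᵥ v) hg
  simp only [add_dotProduct, smul_dotProduct, single_dotProduct, zero_dotProduct, smul_eq_mul,
    one_mul] at e1 e2
  have h1' : beta u ⬝ᵥ u = 0 := h1
  have h2' : beta u ⬝ᵥ v = 0 := h2
  rw [h1', hui, huj] at e1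
  rw [h2', hvi, hvj] at e2
  have g1 : g 1 = 0 := by linear_combination e1
  have g2 : g 2 = 0 := by linear_combination e2
  rw [g1, g2, zero_smul, zero_smul, add_zero, add_zero, smul_eq_zero, beta_eq_zero] at hg
  have g0 : g 0 = 0 := by
    rcases hg with h | h
    · exact h
    · rw [h] at hui
      simp at hui
  intro k
  fin_cases k
  · exact g0
  · exact g1
  · exact g2

lemma ind4 {u v : E} {i j : Fin 5} (hui : u i = 1) (huj : u j = 0) (hvi : v i = 0) (hvj : v j = 1)
    (h1 : B u u = 0) (h2 : B u v = 0) (h3 : B v v = 0) :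
    LinearIndependent ℂ ![beta u, beta v, Pi.single i 1, Pi.single j 1] := by
  rw [Fintype.linearIndependent_iff]
  intro g hg
  have hg : g 0 • beta u + g 1 • beta v + g 2 • (Pi.single i 1 : E) +
      g 3 • (Pi.single j 1 : E) = 0 := by
    have := hg
    rw [Fin.sum_univ_four] at this
    exact this
  have e1 := congrArg (fun x => x ⬝ᵥ u) hg
  have e2 := congrArg (fun x => x ⬝ᵥ v) hg
  simp only [add_dotProduct, smul_dotProduct, single_dotProduct, zero_dotProduct, smul_eq_mul,
    one_mul] at e1 e2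
  have h1' : beta u ⬝ᵥ u = 0 := h1
  have h2' : beta u ⬝ᵥ v = 0 := h2
  have h2'' : beta v ⬝ᵥ u = 0 := by
    have : B v u = 0 := by rw [B_comm]; exact h2
    exact this
  have h3' : beta v ⬝ᵥ v = 0 := h3
  rw [h1', h2'', hui, huj] at e1
  rw [h2', h3', hvi, hvj] at e2
  have g2 : g 2 = 0 := by linear_combination e1
  have g3 : g 3 = 0 := by linear_combination e2
  rw [g2, g3, zero_smul, zero_smul, add_zero, add_zero, ← beta_smul, ← beta_smul, ← beta_add,
    beta_eq_zero] at hg
  have g0 : g 0 = 0 := by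
    have := congrFun hg i
    simpa [hui, hvi] using this
  have g1 : g 1 = 0 := by
    have := congrFun hg j
    simpa [huj, hvj] using this
  intro k
  fin_cases k
  · exact g0
  · exact g1
  · exact g2
  · exact g3

lemma core (hGK : GK) {s : T3} (hs : Gen s) {u v : E} {i j : Fin 5} (hui : u i = 1)
    (huj : u j = 0) (hvi : v i = 0) (hvj : v j = 1)
    (h1 : B u u = 0) (h2 : B u v = 0) (h3 : B v v = 0)
    (t1 : tri s u u u = 0) (t2 : tri s u u v = 0) (t3 : tri s v v u = 0) (t4 : tri s v v v = 0) :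
    False := by
  have d0 : ∀ (δ : D), dE δ u i = 0 ∧ dE δ u j = 0 ∧ dE δ v i = 0 ∧ dE δ v j = 0 := by
    intro δ
    refine ⟨?_, ?_, ?_, ?_⟩
    · simp [dE, hui]
    · simp [dE, huj]
    · simp [dE, hvi]
    · simp [dE, hvj]
  -- first count
  have c1 : finrank ℂ ((⊤ : Submodule ℂ D).map (evE u)) + 3 ≤ 5 := by
    refine finrank_le_of_ann (ind3 hui huj hvi hvj h1 h2) ?_
    rintro _ ⟨δ, -, rfl⟩ k
    rw [evE_apply]
    fin_cases k
    · have e := d_B δ u u
      rw [h1, map_zero, B_comm (dE δ u) u] at e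
      have : B u (dE δ u) = 0 := by linear_combination -(1 / 2 : ℂ) * e
      exact this
    · change Pi.single i 1 ⬝ᵥ dE δ u = 0
      rw [single_dotProduct, (d0 δ).1, mul_zero]
    · change Pi.single j 1 ⬝ᵥ dE δ u = 0
      rw [single_dotProduct, (d0 δ).2.1, mul_zero]
  -- second count
  have c2 : finrank ℂ ((⊤ ⊓ LinearMap.ker (evE u) : Submodule ℂ D).map (evE v)) + 4 ≤ 5 := by
    refine finrank_le_of_ann (ind4 hui huj hvi hvj h1 h2 h3) ?_
    rintro _ ⟨δ, hδ, rfl⟩ k
    have hδu : dE δ u = 0 := LinearMap.mem_ker.1 hδ.2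
    rw [evE_apply]
    fin_cases k
    · have e := d_B δ u v
      rw [h2, map_zero, hδu, B_zero_left, zero_add] at e
      exact e.symm
    · have e := d_B δ v v
      rw [h3, map_zero, B_comm (dE δ v) v] at e
      have : B v (dE δ v) = 0 := by linear_combination -(1 / 2 : ℂ) * e
      exact this
    · change Pi.single i 1 ⬝ᵥ dE δ v = 0
      rw [single_dotProduct, (d0 δ).2.2.1, mul_zero]
    · change Pi.single j 1 ⬝ᵥ dE δ v = 0
      rw [single_dotProduct, (d0 δ).2.2.2, mul_zero]
  -- independence of the plane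
  have huv : LinearIndependent ℂ ![u, v] := by
    rw [LinearIndependent.pair_iff]
    intro a b hab
    have e1 := congrFun hab i
    have e2 := congrFun hab j
    simp only [Pi.add_apply, Pi.smul_apply, smul_eq_mul, Pi.zero_apply, hui, huj, hvi, hvj] at e1 e2
    exact ⟨by linear_combination e1, by linear_combination e2⟩
  set S : Submodule ℂ E := Submodule.span ℂ (Set.range ![u, v]) with hS
  have hSr : finrank ℂ S = 2 := by
    have := finrank_span_eq_card huv
    simpa using this
  have hSm : ∀ w ∈ S, ∃ a b : ℂ, w = a • u + b • v := by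
    intro w hw
    have hw' : w ∈ Submodule.span ℂ ({u, v} : Set E) := by
      have e : Set.range ![u, v] = ({u, v} : Set E) := by
        simp [Set.pair_comm]
      rw [← e]; exact hw
    obtain ⟨a, b, hab⟩ := Submodule.mem_span_pair.1 hw'
    exact ⟨a, b, hab.symm⟩
  have c3 : finrank ℂ (((⊤ ⊓ LinearMap.ker (evE u)) ⊓ LinearMap.ker (evE v) :
      Submodule ℂ D).map (evT s)) ≤ finrank ℂ (KK ![u, v] (fun _ => S)) := by
    apply Submodule.finrank_mono
    rintro _ ⟨δ, hδ, rfl⟩
    have hδu : dE δ u = 0 := LinearMap.mem_ker.1 hδ.1.2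
    have hδv : dE δ v = 0 := LinearMap.mem_ker.1 hδ.2
    rw [evT_apply]
    have r : ∀ x y z : E, dE δ x = 0 → dE δ y = 0 → dE δ z = 0 → tri s x y z = 0 →
        tri (dT δ s) x y z = 0 := by
      intro x y z hx hy hz h
      have e := d_tri δ s x y z
      rw [h, map_zero, hx, hy, hz, tri_zero1, tri_zero2, tri_zero3, add_zero, add_zero,
        add_zero] at e
      exact e.symm
    refine ⟨dT_mem δ hs.1, fun k w hw => ?_⟩
    obtain ⟨a, b, rfl⟩ := hSm w hw
    fin_cases k
    · change tri (dT δ s) u u (a • u + b • v) = 0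
      rw [tri_add3, tri_smul3, tri_smul3, r u u u hδu hδu hδu t1, r u u v hδu hδu hδv t2]
      simp
    · change tri (dT δ s) v v (a • u + b • v) = 0
      rw [tri_add3, tri_smul3, tri_smul3, r v v u hδv hδv hδu t3, r v v v hδv hδv hδv t4]
      simp
  have c4 : finrank ℂ (KK ![u, v] (fun _ => S)) + (2 + 2) ≤ finrank ℂ SymT := by
    have c4 := hGK 2 ![u, v] (fun _ => S) huv
    rw [Fin.sum_univ_two, hSr] at c4
    exact c4
  have c5 := rn_le (evT s) (evE u) ⊤
  rw [hs.map_evT] at c5
  have c6 := rn_le (evT s) (evE v) (⊤ ⊓ LinearMap.ker (evE u))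
  omega

end I_NLX

open I_NLX in
theorem NLX_pf (hGK : GK) : NLX := by
  intro s hs u v hI h1 h2 h3 t1 t2 t3 t4
  obtain ⟨i, j, hd⟩ := exists_minor hI
  set d := u i * v j - u j * v i with hdd
  have hsym := hs.1
  have h2' : B v u = 0 := by rw [B_comm]; exact h2
  have t12 : tri s u v u = 0 := by rw [tri_comm23 hsym]; exact t2
  have t13 : tri s v u u = 0 := by rw [tri_comm12 hsym]; exact t12
  have t31 : tri s v u v = 0 := by rw [tri_comm23 hsym]; exact t3
  have t32 : tri s u v v = 0 := by rw [tri_comm12 hsym]; exact t31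
  have hB : ∀ a b a' b' : ℂ, B (a • u + b • v) (a' • u + b' • v) = 0 := by
    intro a b a' b'
    simp only [B_add_left, B_add_right, B_smul_left, B_smul_right, h1, h2, h2', h3]
    ring
  have hT : ∀ a b a' b' a'' b'' : ℂ,
      tri s (a • u + b • v) (a' • u + b' • v) (a'' • u + b'' • v) = 0 := by
    intro a b a' b' a'' b''
    simp only [tri_add1, tri_add2, tri_add3, tri_smul1, tri_smul2, tri_smul3, t1, t2, t3, t4,
      t12, t13, t31, t32]
    ring
  refine core hGK hs (u := (d⁻¹ * v j) • u + (-(d⁻¹ * u j)) • v)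
    (v := (-(d⁻¹ * v i)) • u + (d⁻¹ * u i) • v) (i := i) (j := j) ?_ ?_ ?_ ?_
    (hB _ _ _ _) (hB _ _ _ _) (hB _ _ _ _) (hT _ _ _ _ _ _) (hT _ _ _ _ _ _)
    (hT _ _ _ _ _ _) (hT _ _ _ _ _ _)
  · simp only [Pi.add_apply, Pi.smul_apply, smul_eq_mul]
    have : d⁻¹ * d = 1 := inv_mul_cancel₀ hd
    rw [← this, hdd]; ring
  · simp only [Pi.add_apply, Pi.smul_apply, smul_eq_mul]; ring
  · simp only [Pi.add_apply, Pi.smul_apply, smul_eq_mul]; ring
  · simp only [Pi.add_apply, Pi.smul_apply, smul_eq_mul]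
    have : d⁻¹ * d = 1 := inv_mul_cancel₀ hd
    rw [← this, hdd]; ring

end Pool.Agent.Work.MP_ea8963_ag.G4
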