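import Pool.Agent.Work.MP_ea8963_ag.G4.Stmts

/-!
Block [ea8963 G4], item NNX: the two planes of nodes are not in a common hyperplane.
-/

set_option linter.style.longLine false

noncomputable section

open Module Topology

namespace Pool.Agent.Work.MP_ea8963_ag.G4

namespace I_NNX

lemma span_zero {p : Fin 3 → E} {m : E} (hm : ∀ i, m ⬝ᵥ p i = 0) {x : E}
    (hx : x ∈ Submodule.span ℂ (Set.range p)) : m ⬝ᵥ x = 0 := by
  induction hx using Submodule.span_induction with
  | mem x h =>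
    obtain ⟨i, rfl⟩ := h
    exact hm i
  | zero => simp
  | add x y _ _ h1 h2 => rw [dotProduct_add, h1, h2, add_zero]
  | smul c x _ h1 => rw [dotProduct_smul, h1, smul_zero]

/-- the derivatives of `m` -/
lemma ev_m_le {p : Fin 3 → E} {l m : E} (hp : LinearIndependent ℂ p) {j : Fin 5} (hj : m j = 1)
    (hm : ∀ i, m ⬝ᵥ p i = 0) : finrank ℂ ((ZB p l).map (evE m)) ≤ 1 := by
  have hind : LinearIndependent ℂ (Fin.cons (Pi.single j (1 : ℂ)) p : Fin 4 → E) := by
    refine linearIndependent_finCons.2 ⟨hp, fun h => ?_⟩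
    have h1 := span_zero hm h
    rw [dotProduct_single_one, hj] at h1
    exact one_ne_zero h1
  have h := finrank_le_of_ann hind (U := (ZB p l).map (evE m)) ?_
  · omega
  · rintro _ ⟨δ, hδ, rfl⟩ i
    have hδ' := mem_ZB.1 hδ
    refine Fin.cases ?_ (fun i => ?_) i
    · rw [Fin.cons_zero, single_one_dotProduct, evE_apply, dE, hj]
      exact δ.map_one_eq_zero
    · rw [Fin.cons_succ, evE_apply, dotProduct_comm]
      have h1 := d_dot δ m (p i)
      rw [hm i, map_zero, hδ'.1 i, dotProduct_zero, add_zero] at h1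
      exact h1.symm

/-- the space of `(dp, dl)` when `m` is constant -/
lemma ev_le {s : T3} {p' : Fin 3 → E} {l' m : E} {lam mu : Fin 3 → ℂ} (h' : Opt s p' l' lam mu)
    (hm0 : m ≠ 0) (hm : ∀ i, m ⬝ᵥ p' i = 0) (W : Submodule ℂ D) (hW : W ≤ ZE m) :
    finrank ℂ (W.map (evB p' l')) ≤ 11 := by
  set U : Submodule ℂ ((Fin 3 → E) × E) := W.map (evB p' l') with hU
  have h := rn_prod (LinearMap.fst ℂ (Fin 3 → E) E) (LinearMap.snd ℂ (Fin 3 → E) E) U
  have hid : (LinearMap.fst ℂ (Fin 3 → E) E).prod (LinearMap.snd ℂ (Fin 3 → E) E)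
      = LinearMap.id := by
    ext x <;> rfl
  rw [hid, Submodule.map_id] at h
  have hUT : ∀ x ∈ U, x ∈ TB p' l' := by
    rintro _ ⟨δ, -, rfl⟩
    exact h'.toCfg.ev_mem δ
  have hUm : ∀ x ∈ U, ∀ i, m ⬝ᵥ x.1 i = 0 := by
    rintro _ ⟨δ, hδ, rfl⟩ i
    have h1 := d_dot δ m (p' i)
    rw [hm i, map_zero, mem_ZE.1 (hW hδ), zero_dotProduct, zero_add] at h1
    exact h1.symm
  -- first part
  have hA : finrank ℂ (U.map (LinearMap.fst ℂ (Fin 3 → E) E)) ≤ 9 := by
    set V : Submodule ℂ (Fin 3 → E) := U.map (LinearMap.fst ℂ (Fin 3 → E) E) with hV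
    have hmem : ∀ x ∈ V, ∀ i, x i ∈ Ann ![beta (p' i), m] := by
      rintro x ⟨y, hy, rfl⟩ i
      rw [mem_Ann2]
      exact ⟨(hUT y hy i).1, hUm y hy i⟩
    let F : V →ₗ[ℂ] ((i : Fin 3) → Ann ![beta (p' i), m]) :=
      LinearMap.pi fun i => LinearMap.codRestrict (Ann ![beta (p' i), m])
        ((LinearMap.proj i : (Fin 3 → E) →ₗ[ℂ] E).comp V.subtype) (fun x => hmem x.1 x.2 i)
    have hF : Function.Injective F := by
      intro x y h
      apply Subtype.ext
      funext i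
      have := congrFun h i
      exact congrArg Subtype.val this
    have h1 := LinearMap.finrank_le_finrank_of_injective hF
    rw [Module.finrank_pi_fintype] at h1
    have h2 : ∀ i : Fin 3, finrank ℂ (Ann ![beta (p' i), m]) = 3 := by
      intro i
      have hi : LinearIndependent ℂ ![beta (p' i), m] := by
        rw [LinearIndependent.pair_iff]
        intro a b hab
        have hij : i ≠ i + 1 := by fin_cases i <;> decide
        have h3 := congrArg (fun x => x ⬝ᵥ p' (i + 1)) hab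
        simp only [add_dotProduct, smul_dotProduct, zero_dotProduct, smul_eq_mul,
          hm (i + 1), mul_zero, add_zero] at h3
        have h4 : beta (p' i) ⬝ᵥ p' (i + 1) ≠ 0 := h'.bij i (i + 1) hij
        have ha : a = 0 := (mul_eq_zero.1 h3).resolve_right h4
        refine ⟨ha, ?_⟩
        rw [ha, zero_smul, zero_add] at hab
        exact (smul_eq_zero.1 hab).resolve_right hm0
      have := finrank_Ann hi
      omega
    simp only [h2] at h1
    simpa using h1
  -- second part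
  have hB : finrank ℂ ((U ⊓ LinearMap.ker (LinearMap.fst ℂ (Fin 3 → E) E)).map
      (LinearMap.snd ℂ (Fin 3 → E) E) : Submodule ℂ E) ≤ 2 := by
    have h5 := finrank_le_of_ann h'.ind
      (U := (U ⊓ LinearMap.ker (LinearMap.fst ℂ (Fin 3 → E) E)).map
        (LinearMap.snd ℂ (Fin 3 → E) E)) ?_
    · omega
    · rintro x ⟨y, ⟨hy, hk⟩, rfl⟩ i
      have h1 : y.1 = 0 := hk
      have h2 := (hUT y hy i).2
      rw [h1] at h2
      simp only [Pi.zero_apply, dotProduct_zero, add_zero] at h2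
      rw [dotProduct_comm]
      exact h2
  omega

lemma main (hDKX : DKX) {s : T3} (hs : Gen s) {p : Fin 3 → E} {l : E} {lam mu : Fin 3 → ℂ}
    {p' : Fin 3 → E} {l' : E} {lam' mu' : Fin 3 → ℂ} (h : Opt s p l lam mu)
    (h' : Opt s p' l' lam' mu') (h5 : 5 ≤ finrank ℂ ((ZS s ⊓ ZB p l).map (evB p' l')))
    (hR : finrank ℂ (RelM p l p' l') ≤ 1) {m : E} {j : Fin 5} (hj : m j = 1)
    (hm : ∀ i, m ⬝ᵥ p i = 0) (hm' : ∀ i, m ⬝ᵥ p' i = 0) : False := by
  have hm0 : m ≠ 0 := by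
    rintro rfl
    simp at hj
  have h1 := rn (evT s) (evB p' l') (ZB p l)
  change finrank ℂ ((ZB p l).map (evT s)) +
    finrank ℂ ((ZB p l ⊓ ZS s).map (evB p' l') : Submodule ℂ ((Fin 3 → E) × E)) =
    finrank ℂ ((ZB p l).map (evB p' l')) +
    finrank ℂ ((ZB p l ⊓ ZB p' l').map (evT s) : Submodule ℂ T3) at h1
  rw [inf_comm (ZB p l) (ZS s)] at h1
  have h2 := h.rkS
  have h3 := rn_le (evB p' l') (evE m) (ZB p l)
  have h4 : finrank ℂ ((ZB p l).map (evE m)) ≤ 1 := ev_m_le h.ind hj hm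
  have h6 : finrank ℂ ((ZB p l ⊓ LinearMap.ker (evE m)).map (evB p' l') :
      Submodule ℂ ((Fin 3 → E) × E)) ≤ 11 := ev_le h' hm0 hm' _ inf_le_right
  have h7 : (ZB p l ⊓ ZB p' l').map (evT s) ≤ KB p l ⊓ KB p' l' := by
    rintro _ ⟨δ, hδ, rfl⟩
    exact ⟨h.toCfg.dT_mem_KB hs.1 h.mu_ne hδ.1, h'.toCfg.dT_mem_KB hs.1 h'.mu_ne hδ.2⟩
  have h8 := Submodule.finrank_mono h7
  have h9 := hDKX p l p' l' (h.toCfg.nt h.mu_ne) (h'.toCfg.nt h'.mu_ne)
  omega

end I_NNX

theorem NNX_pf (hDKX : DKX) : NNX := by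
  intro s hs p l lam mu p' l' lam' mu' h h' h5 hR m hm0 hm hm'
  obtain ⟨j, hj⟩ : ∃ j, m j ≠ 0 := by
    by_contra hcon
    push Not at hcon
    exact hm0 (funext hcon)
  refine I_NNX.main hDKX hs h h' h5 hR (m := (m j)⁻¹ • m) (j := j) ?_ (fun i => ?_) (fun i => ?_)
  · simp [hj]
  · rw [smul_dotProduct, hm i, smul_zero]
  · rw [smul_dotProduct, hm' i, smul_zero]

end Pool.Agent.Work.MP_ea8963_ag.G4
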