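import Pool.Agent.Work.MP_ea8963_ag.G4.Stmts2

/-!
Item NOX: the node condition is open.
-/

set_option linter.style.longLine false
set_option linter.unusedVariables false

noncomputable section

open Module Topology

namespace Pool.Agent.Work.MP_ea8963_ag.G4

namespace I_NOX

abbrev Z : Type := T3 × E × ℂ × ℂ
abbrev Tg : Type := ℂ × ℂ × E × ℂ

/-- the linear map `v ↦ (B p v, tri s p p v, lam beta v + 2 mu cov s p v, v j)` -/
def L (j : Fin 5) (z : Z) : E →ₗ[ℂ] Tg where
  toFun v := (B z.2.1 v, tri z.1 z.2.1 z.2.1 v,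
    z.2.2.1 • beta v + (2 * z.2.2.2) • cov z.1 z.2.1 v, v j)
  map_add' v w := by
    ext
    · simp [B_add_right]
    · simp [tri_add3]
    · simp only [beta_add, cov_add_right, smul_add, Prod.mk_add_mk, Pi.add_apply, Pi.smul_apply,
        smul_eq_mul]
      ring
    · simp
  map_smul' c v := by
    ext
    · simp [B_smul_right]
    · simp [tri_smul3]
    · simp only [beta_smul, cov_smul_right, Prod.smul_mk, RingHom.id_apply, Pi.add_apply,
        Pi.smul_apply, smul_eq_mul]
      ring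
    · simp

/-- the images of the basis vectors -/
def F (j : Fin 5) (z : Z) : Fin 5 ⊕ Fin 2 → Tg
  | .inl i => L j z (Pi.single i 1)
  | .inr i => if i = 0 then (0, 0, beta z.2.1, 0) else (0, 0, cov z.1 z.2.1 z.2.1, 0)

lemma sum_F (j : Fin 5) (z : Z) (g : Fin 5 ⊕ Fin 2 → ℂ) :
    ∑ i, g i • F j z i = (B z.2.1 (fun i => g (.inl i)), tri z.1 z.2.1 z.2.1 (fun i => g (.inl i)),
      z.2.2.1 • beta (fun i => g (.inl i)) + (2 * z.2.2.2) • cov z.1 z.2.1 (fun i => g (.inl i))
        + g (.inr 0) • beta z.2.1 + g (.inr 1) • cov z.1 z.2.1 z.2.1, g (.inl j)) := by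
  rw [Fintype.sum_sum_type]
  have h1 : ∑ i : Fin 5, g (.inl i) • F j z (.inl i) = L j z (fun i => g (.inl i)) := by
    have h2 : (fun i => g (.inl i) : E) = ∑ i : Fin 5, g (.inl i) • (Pi.single i 1 : E) := by
      exact pi_eq_sum_univ' _
    conv_rhs => rw [h2]
    rw [map_sum]
    refine Finset.sum_congr rfl fun i _ => ?_
    rw [map_smul]
    rfl
  rw [h1, Fin.sum_univ_two]
  simp only [F, L, LinearMap.coe_mk, AddHom.coe_mk]
  simp only [if_true, Fin.isValue, one_ne_zero, if_false, Prod.smul_mk, Prod.mk_add_mk, smul_zero,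
    add_zero, add_assoc]

lemma cont_cov : Continuous fun z : T3 × E × E => cov z.1 z.2.1 z.2.2 := by
  unfold cov
  fun_prop

lemma cont_beta : Continuous beta := betaL.continuous_of_finiteDimensional

lemma cont_dot : Continuous fun z : E × E => z.1 ⬝ᵥ z.2 := by
  unfold dotProduct
  fun_prop

lemma cont_F (j : Fin 5) : Continuous (F j) := by
  have hc : ∀ v : E, Continuous fun z : Z => cov z.1 z.2.1 v := fun v =>
    cont_cov.comp (f := fun z : Z => (z.1, z.2.1, v)) (by fun_prop)
  have hc' : Continuous fun z : Z => cov z.1 z.2.1 z.2.1 :=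
    cont_cov.comp (f := fun z : Z => (z.1, z.2.1, z.2.1)) (by fun_prop)
  have hb : Continuous fun z : Z => beta z.2.1 := cont_beta.comp (by fun_prop)
  refine continuous_pi fun i => ?_
  rcases i with i | i
  · simp only [F, L, LinearMap.coe_mk, AddHom.coe_mk]
    have h1 : Continuous fun z : Z => B z.2.1 (Pi.single i 1 : E) :=
      cont_dot.comp (hb.prodMk continuous_const)
    have h2 : Continuous fun z : Z => tri z.1 z.2.1 z.2.1 (Pi.single i 1 : E) :=
      cont_dot.comp (hc'.prodMk continuous_const)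
    have h3 := hc (Pi.single i 1)
    fun_prop
  · simp only [F]
    split_ifs
    · fun_prop
    · fun_prop

lemma li_of_nd (j : Fin 5) (z : Z) (hj : z.2.1 j ≠ 0) (h : Nd z.1 z.2.1 z.2.2.1 z.2.2.2) :
    LinearIndependent ℂ (F j z) := by
  rw [Fintype.linearIndependent_iff]
  intro g hg
  rw [sum_F] at hg
  simp only [Prod.mk_eq_zero] at hg
  obtain ⟨h1, h2, h3, h4⟩ := hg
  obtain ⟨c, hc⟩ := h.ker _ _ _ h1 h2 h3
  have h5 : c * z.2.1 j = 0 := by
    have := congrFun hc j
    simp only [Pi.smul_apply, smul_eq_mul] at this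
    rw [← this, h4]
  have h6 : c = 0 := (mul_eq_zero.1 h5).resolve_right hj
  rw [h6, zero_smul] at hc
  rw [hc, beta_zero, cov_zero_right, smul_zero, smul_zero, zero_add, zero_add] at h3
  have h7 := LinearIndependent.pair_iff.1 h.rank _ _ h3
  rintro (i | i)
  · exact congrFun hc i
  · fin_cases i
    · exact h7.1
    · exact h7.2

lemma nd_of_li (j : Fin 5) (z : Z) (hj : z.2.1 j ≠ 0) (h : LinearIndependent ℂ (F j z))
    (h1 : B z.2.1 z.2.1 = 0) (h2 : tri z.1 z.2.1 z.2.1 z.2.1 = 0) :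
    Nd z.1 z.2.1 z.2.2.1 z.2.2.2 := by
  rw [Fintype.linearIndependent_iff] at h
  have key : ∀ (v : E) (x y : ℂ), B z.2.1 v = 0 → tri z.1 z.2.1 z.2.1 v = 0 →
      z.2.2.1 • beta v + (2 * z.2.2.2) • cov z.1 z.2.1 v + x • beta z.2.1
        + y • cov z.1 z.2.1 z.2.1 = 0 → v j = 0 → v = 0 ∧ x = 0 ∧ y = 0 := by
    intro v x y e1 e2 e3 e4
    have e5 := h (Sum.elim v ![x, y]) (by
      rw [sum_F]
      simp only [Sum.elim_inl, Sum.elim_inr]
      simp only [Prod.mk_eq_zero]
      exact ⟨e1, e2, e3, e4⟩)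
    exact ⟨funext fun i => e5 (.inl i), e5 (.inr 0), e5 (.inr 1)⟩
  constructor
  · rw [LinearIndependent.pair_iff]
    intro x y hxy
    have e := key 0 x y (B_zero_right _) (tri_zero3 _ _ _)
      (by rw [beta_zero, cov_zero_right, smul_zero, smul_zero, zero_add, zero_add, hxy]) rfl
    exact e.2
  · intro v x y e1 e2 e3
    refine ⟨v j / z.2.1 j, ?_⟩
    set c := v j / z.2.1 j with hc
    have e := key (v - c • z.2.1) (x + c * z.2.2.1) (y + 2 * c * z.2.2.2)
      (by rw [B_sub_right, B_smul_right, e1, h1]; ring)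
      (by
        rw [sub_eq_add_neg, ← neg_smul, tri_add3, tri_smul3, e2, h2]; ring)
      (by
        rw [← e3, sub_eq_add_neg, ← neg_smul, beta_add, beta_smul, cov_add_right, cov_smul_right]
        module)
      (by
        simp only [Pi.sub_apply, Pi.smul_apply, smul_eq_mul]
        rw [hc, div_mul_cancel₀ _ hj, sub_self])
    exact sub_eq_zero.1 e.1

end I_NOX

theorem NOX_pf : NOX := by
  intro s p lam mu h
  have hp : p ≠ 0 := by
    rintro rfl
    have h1 := h.rank.ne_zero 0
    simp only [Matrix.cons_val_zero, beta_zero] at h1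
    exact h1 rfl
  obtain ⟨j, hj⟩ : ∃ j, p j ≠ 0 := by
    by_contra hc
    push Not at hc
    exact hp (funext hc)
  have h1 := I_NOX.li_of_nd j (s, p, lam, mu) hj h
  have h2 : ∀ᶠ z in 𝓝 ((s, p, lam, mu) : I_NOX.Z), LinearIndependent ℂ (I_NOX.F j z) :=
    ((I_NOX.cont_F j).continuousAt).eventually (isOpen_setOfPred_linearIndependent.mem_nhds h1)
  have h3 : ∀ᶠ z in 𝓝 ((s, p, lam, mu) : I_NOX.Z), z.2.1 j ≠ 0 := by
    have hc : Continuous fun z : I_NOX.Z => z.2.1 j := by fun_prop
    exact hc.continuousAt.eventually_ne hj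
  filter_upwards [h2, h3] with z h2 h3 h4 h5
  exact I_NOX.nd_of_li j z h3 h2 h4 h5

end Pool.Agent.Work.MP_ea8963_ag.G4
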