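import Pool.Agent.Work.MP_ea8963_ag.G4.Off

/-!
Block [ea8963 G4]: item OAX, the quadratic form, its gradient and its Hessian.
-/

set_option linter.style.longLine false
set_option linter.unusedVariables false

noncomputable section

open Module Topology MvPolynomial

namespace Pool.Agent.Work.MP_ea8963_ag.G4

namespace I_OAX

lemma qf_two (x : E) : 2 * eval x qf = B x x := by
  rw [B_def]
  simp [qf]
  ring

lemma qf_grad (x : E) : grad qf x = beta x := by
  ext i
  fin_cases i <;> simp [grad, qf, beta, pderiv_X]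

lemma pd_two (i : Fin 5) : pderiv i (2 : MvPolynomial (Fin 5) ℂ) = 0 := by
  rw [show (2 : MvPolynomial (Fin 5) ℂ) = C 2 from (map_ofNat C 2).symm, pderiv_C]

lemma qf_hess (x v w : E) : hess qf x v w = B v w := by
  rw [B_def]
  simp [hess, qf, pderiv_X, Pi.single_apply, Fin.sum_univ_succ, pd_two]
  ring

end I_OAX

theorem OAX_pf : OAX := ⟨I_OAX.qf_two, I_OAX.qf_grad, I_OAX.qf_hess⟩

end Pool.Agent.Work.MP_ea8963_ag.G4
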