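import Pool.Agent.Work.MP_ea8963_ag.G4.Off

/-!
Block [ea8963 G4], item OBX: a cubic form and its tensor of third derivatives.  helper41.
-/

set_option linter.style.longLine false

noncomputable section

open Module Topology MvPolynomial

namespace Pool.Agent.Work.MP_ea8963_ag.G4

namespace I_OBX

lemma pcomm (i j : Fin 5) (f : MvPolynomial (Fin 5) ℂ) :
    pderiv i (pderiv j f) = pderiv j (pderiv i f) := by
  have h : (⁅(pderiv i : Derivation ℂ (MvPolynomial (Fin 5) ℂ) (MvPolynomial (Fin 5) ℂ)),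
      (pderiv j : Derivation ℂ (MvPolynomial (Fin 5) ℂ) (MvPolynomial (Fin 5) ℂ))⁆) = 0 := by
    apply MvPolynomial.derivation_ext
    intro k
    have h1 : ∀ a b : Fin 5, pderiv a (pderiv b (X k : MvPolynomial (Fin 5) ℂ)) = 0 := by
      intro a b
      by_cases hb : k = b
      · subst hb
        rw [pderiv_X_self, pderiv_one]
      · rw [pderiv_X_of_ne hb, map_zero]
    rw [Derivation.commutator_apply, h1, h1, sub_zero]
    rfl
  have h2 : (⁅(pderiv i : Derivation ℂ (MvPolynomial (Fin 5) ℂ) (MvPolynomial (Fin 5) ℂ)),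
      (pderiv j : Derivation ℂ (MvPolynomial (Fin 5) ℂ) (MvPolynomial (Fin 5) ℂ))⁆) f = 0 := by
    rw [h]; rfl
  rw [Derivation.commutator_apply] at h2
  exact sub_eq_zero.1 h2

lemma euler {g : MvPolynomial (Fin 5) ℂ} {n : ℕ} (h : g.IsHomogeneous n) (x : Fin 5 → ℂ) :
    (n : ℂ) * eval x g = ∑ i, x i * eval x (pderiv i g) := by
  have h1 := congrArg (eval x) h.sum_X_mul_pderiv
  rw [map_sum, nsmul_eq_mul, map_mul, map_natCast] at h1
  rw [← h1]
  refine Finset.sum_congr rfl fun i _ => ?_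
  rw [map_mul, eval_X]

lemma const {g : MvPolynomial (Fin 5) ℂ} (h : g.IsHomogeneous 0) (x y : Fin 5 → ℂ) :
    eval x g = eval y g := by
  rw [← totalDegree_zero_iff_isHomogeneous, totalDegree_eq_zero_iff_eq_C] at h
  rw [h, eval_C, eval_C]

lemma third {f : MvPolynomial (Fin 5) ℂ} (hf : f.IsHomogeneous 3) (x : Fin 5 → ℂ)
    (i j k : Fin 5) : eval x (pderiv i (pderiv j (pderiv k f))) = 6 * sten f i j k := by
  have h1 : (pderiv k f).IsHomogeneous 2 := hf.pderiv
  have h2 : (pderiv j (pderiv k f)).IsHomogeneous 1 := h1.pderiv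
  have h3 : (pderiv i (pderiv j (pderiv k f))).IsHomogeneous 0 := h2.pderiv
  rw [const h3 x 0, sten]
  ring

lemma second {f : MvPolynomial (Fin 5) ℂ} (hf : f.IsHomogeneous 3) (x : Fin 5 → ℂ)
    (i j : Fin 5) : eval x (pderiv i (pderiv j f)) = ∑ k, x k * (6 * sten f k i j) := by
  have h1 : (pderiv j f).IsHomogeneous 2 := hf.pderiv
  have h2 : (pderiv i (pderiv j f)).IsHomogeneous 1 := h1.pderiv
  have h3 := euler h2 x
  rw [Nat.cast_one, one_mul] at h3
  rw [h3]
  refine Finset.sum_congr rfl fun k _ => ?_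
  rw [third hf]

lemma first {f : MvPolynomial (Fin 5) ℂ} (hf : f.IsHomogeneous 3) (x : Fin 5 → ℂ)
    (k : Fin 5) : eval x (pderiv k f) = 3 * cov (sten f) x x k := by
  have h1 : (pderiv k f).IsHomogeneous 2 := hf.pderiv
  have h3 := euler h1 x
  have h4 : ∑ j, x j * eval x (pderiv j (pderiv k f)) = 6 * cov (sten f) x x k := by
    rw [cov, Finset.sum_comm, Finset.mul_sum]
    refine Finset.sum_congr rfl fun j _ => ?_
    rw [second hf, Finset.mul_sum, Finset.mul_sum]
    refine Finset.sum_congr rfl fun i _ => ?_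
    ring
  rw [h4] at h3
  have h5 : (2 : ℂ) * eval x (pderiv k f) = 2 * (3 * cov (sten f) x x k) := by
    have h6 : ((2 : ℕ) : ℂ) = 2 := by norm_num
    rw [h6] at h3
    rw [h3]
    ring
  exact mul_left_cancel₀ (by norm_num : (2 : ℂ) ≠ 0) h5

end I_OBX

open I_OBX in
theorem OBX_pf : OBX := by
  intro f hf
  refine ⟨?_, ?_, ?_, ?_⟩
  · intro i j k
    refine ⟨?_, ?_⟩
    · simp only [sten]
      rw [pcomm i j]
    · simp only [sten]
      rw [pcomm j k]
  · intro x
    have h1 := euler hf x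
    have h2 : ∑ i, x i * eval x (pderiv i f) = 3 * tri (sten f) x x x := by
      rw [tri, dotProduct, Finset.mul_sum]
      refine Finset.sum_congr rfl fun i _ => ?_
      rw [first hf]
      ring
    rw [h2] at h1
    have h3 : ((3 : ℕ) : ℂ) = 3 := by norm_num
    rw [h3] at h1
    exact mul_left_cancel₀ (by norm_num : (3 : ℂ) ≠ 0) h1
  · intro x
    ext k
    rw [grad, first hf, Pi.smul_apply, smul_eq_mul]
  · intro x v w
    rw [hess, tri_eq, Finset.mul_sum]
    have h1 : ∀ i j, eval x (pderiv i (pderiv j f)) * v i * w j =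
        ∑ k, 6 * (sten f k i j * x k * v i * w j) := by
      intro i j
      rw [second hf, Finset.sum_mul, Finset.sum_mul]
      refine Finset.sum_congr rfl fun k _ => ?_
      ring
    simp only [h1, Finset.mul_sum]
    have h2 : ∀ i, ∑ j, ∑ k, 6 * (sten f k i j * x k * v i * w j) =
        ∑ k, ∑ j, 6 * (sten f k i j * x k * v i * w j) := fun i => Finset.sum_comm
    simp only [h2]
    rw [Finset.sum_comm]

end Pool.Agent.Work.MP_ea8963_ag.G4
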