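import Pool.Agent.Work.MP_ea8963_ag.G4.Off

/-!
Block [ea8963 G4], item OCX: the tensor of a cubic form with algebraically independent coefficients
is generic.  Author helper50.
-/

set_option linter.style.longLine false
set_option linter.unusedVariables false

noncomputable section

open Module Topology MvPolynomial

namespace Pool.Agent.Work.MP_ea8963_ag.G4

namespace I_OCX

/-- the exponent `e_i + e_j + e_k` -/
def ex3 (i j k : Fin 5) : Fin 5 →₀ ℕ :=
  Finsupp.single i 1 + Finsupp.single j 1 + Finsupp.single k 1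

lemma ex3_degree (i j k : Fin 5) : (ex3 i j k).degree = 3 := by
  simp [ex3, Finsupp.degree_single]

/-- the numerical factor -/
def cf (i j k : Fin 5) : ℂ :=
  ((((Finsupp.single i 1 + Finsupp.single j 1 : Fin 5 →₀ ℕ) k : ℕ) : ℂ) + 1) *
    ((((Finsupp.single i 1 : Fin 5 →₀ ℕ) j : ℕ) : ℂ) + 1)

lemma cf_ne (i j k : Fin 5) : cf i j k ≠ 0 := by
  unfold cf
  exact mul_ne_zero (Nat.cast_add_one_ne_zero _) (Nat.cast_add_one_ne_zero _)

lemma sten_eq (f : MvPolynomial (Fin 5) ℂ) (i j k : Fin 5) :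
    sten f i j k = (1 / 6 : ℂ) * (f.coeff (ex3 i j k) * cf i j k) := by
  unfold sten
  congr 1
  have h0 : ∀ p : MvPolynomial (Fin 5) ℂ, eval 0 p = coeff 0 p := by
    intro p
    rw [← MvPolynomial.constantCoeff_eq, MvPolynomial.eval_zero]
  rw [h0, coeff_pderiv, coeff_pderiv, coeff_pderiv]
  simp only [zero_add, ex3, cf, Finsupp.coe_zero, Pi.zero_apply, Nat.cast_zero, mul_one]
  ring

lemma perm2 {j k j' k' : Fin 5}
    (h : (Finsupp.single j 1 + Finsupp.single k 1 : Fin 5 →₀ ℕ) =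
      Finsupp.single j' 1 + Finsupp.single k' 1) : (j = j' ∧ k = k') ∨ (j = k' ∧ k = j') := by
  rw [Finsupp.single_add_single_eq_single_add_single one_ne_zero one_ne_zero] at h
  rcases h with h | h | h
  · exact Or.inl h
  · exact Or.inr h.2
  · exact absurd h.1 (by norm_num)

lemma sym_eq {t : T3} (ht : t ∈ SymT) {i j k i' j' k' : Fin 5} (h : ex3 i j k = ex3 i' j' k') :
    t i j k = t i' j' k' := by
  have s1 : ∀ a b c, t a b c = t b a c := fun a b c => (ht a b c).1
  have s2 : ∀ a b c, t a b c = t a c b := fun a b c => (ht a b c).2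
  have key : ∀ a b c b' c' : Fin 5, ex3 a b c = ex3 a b' c' → t a b c = t a b' c' := by
    intro a b c b' c' hh
    unfold ex3 at hh
    rw [add_assoc, add_assoc] at hh
    rcases perm2 (add_left_cancel hh) with ⟨rfl, rfl⟩ | ⟨rfl, rfl⟩
    · rfl
    · exact s2 _ _ _
  have hi : i = i' ∨ i = j' ∨ i = k' := by
    by_contra hcon
    push Not at hcon
    obtain ⟨h1, h2, h3⟩ := hcon
    have h4 := DFunLike.congr_fun h i
    simp only [ex3, Finsupp.add_apply, Finsupp.single_apply, if_true, if_neg (Ne.symm h1),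
      if_neg (Ne.symm h2), if_neg (Ne.symm h3)] at h4
    omega
  rcases hi with rfl | rfl | rfl
  · exact key _ _ _ _ _ h
  · rw [s1 i' i k']
    apply key
    rw [h]
    unfold ex3
    abel
  · rw [s2 i' j' i, s1 i' i j']
    apply key
    rw [h]
    unfold ex3
    abel

/-- a derivation with given values on the coefficients -/
lemma exists_der (hFBX : FBX) (f : MvPolynomial (Fin 5) ℂ)
    (hf : AlgebraicIndependent ℚ (fun m : {m : Fin 5 →₀ ℕ // m.degree = 3} => f.coeff m.1))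
    (w : {m : Fin 5 →₀ ℕ // m.degree = 3} → ℂ) :
    ∃ δ : D, ∀ m : {m : Fin 5 →₀ ℕ // m.degree = 3}, δ (f.coeff m.1) = w m := by
  have hfin : Finite {m : Fin 5 →₀ ℕ // m.degree = 3} :=
    (Finsupp.finite_of_degree_eq (σ := Fin 5) 3).to_subtype
  obtain ⟨n, ⟨e⟩⟩ := Finite.exists_equiv_fin {m : Fin 5 →₀ ℕ // m.degree = 3}
  have h1 : AlgebraicIndependent ℚ
      ((fun m : {m : Fin 5 →₀ ℕ // m.degree = 3} => f.coeff m.1) ∘ e.symm) :=
    hf.comp _ e.symm.injective
  have h2 : Algebra.IsAlgebraic ℚ (IntermediateField.adjoin ℚ (∅ : Set ℂ)) := by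
    rw [IntermediateField.adjoin_empty]
    infer_instance
  have h3 := h1.extendScalars (IntermediateField.adjoin ℚ (∅ : Set ℂ))
  obtain ⟨δ, -, hδ⟩ := hFBX ∅ n _ h3 (fun i => w (e.symm i))
  refine ⟨δ, fun m => ?_⟩
  have := hδ (e m)
  simpa using this

end I_OCX

open I_OCX in
theorem OCX_pf (hFBX : FBX) (hOBX : OBX) : OCX := by
  classical
  intro f hf3 hf
  have hs : sten f ∈ SymT := (hOBX f hf3).1
  refine ⟨hs, fun v hv => ?_⟩
  obtain ⟨δ, hδ⟩ := exists_der hFBX f hf (fun m =>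
    if h : ∃ q : Fin 5 × Fin 5 × Fin 5, ex3 q.1 q.2.1 q.2.2 = m.1 then
      6 * (cf h.choose.1 h.choose.2.1 h.choose.2.2)⁻¹ *
        v h.choose.1 h.choose.2.1 h.choose.2.2 else 0)
  refine ⟨δ, ?_⟩
  funext i j k
  have hex : ∃ q : Fin 5 × Fin 5 × Fin 5, ex3 q.1 q.2.1 q.2.2 = ex3 i j k := ⟨(i, j, k), rfl⟩
  have h1 := hδ ⟨ex3 i j k, ex3_degree i j k⟩
  simp only [dif_pos hex] at h1
  have hq := hex.choose_spec
  set q := hex.choose with hqdef
  rw [← sym_eq (dT_mem δ hs) hq, ← sym_eq hv hq]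
  have h2 : dT δ (sten f) q.1 q.2.1 q.2.2 = δ (sten f q.1 q.2.1 q.2.2) := rfl
  have hc : ∀ (n : ℕ), δ (n : ℂ) = 0 := fun n => by
    have := δ.map_natCast n
    exact this
  have h3 : δ (cf q.1 q.2.1 q.2.2) = 0 := by
    unfold cf
    rw [Derivation.leibniz, map_add, map_add, hc, hc]
    simp
  have h4 : δ (1 / 6 : ℂ) = 0 := by
    have h5 : δ (((1 / 6 : ℚ) : ℂ)) = 0 := by
      have := δ.map_algebraMap (1 / 6 : ℚ)
      simpa using this
    simpa using h5
  rw [h2, sten_eq, Derivation.leibniz, Derivation.leibniz, h3, h4, hq, h1]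
  simp only [smul_eq_mul, mul_zero, zero_add, add_zero]
  have h6 := cf_ne q.1 q.2.1 q.2.2
  field_simp

end Pool.Agent.Work.MP_ea8963_ag.G4
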