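import Pool.Agent.Work.MP_ea8963_ag.G4.Off

/-!
Block [ea8963 G4], item ODX: a point of the Severi curve gives a configuration.
-/

noncomputable section

open Module MvPolynomial

namespace Pool.Agent.Work.MP_ea8963_ag.G4

namespace I_ODX

/-- a vector dependent on two independent ones -/
theorem exists_comb {a b l : E} (h1 : LinearIndependent ℂ ![a, b])
    (h2 : ¬ LinearIndependent ℂ ![a, (3 : ℂ) • b, l]) : ∃ x y : ℂ, l = x • a + y • b := by
  rw [Fintype.not_linearIndependent_iff] at h2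
  obtain ⟨g, hg, i, hi⟩ := h2
  have hg' : g 0 • a + g 1 • ((3 : ℂ) • b) + g 2 • l = 0 := by
    have := hg
    simp only [Fin.sum_univ_three, Matrix.cons_val_zero, Matrix.cons_val_one,
      Matrix.cons_val_two] at this
    exact this
  by_cases h0 : g 2 = 0
  · rw [h0, zero_smul, add_zero, smul_smul] at hg'
    rw [LinearIndependent.pair_iff] at h1
    obtain ⟨h3, h4⟩ := h1 _ _ hg'
    have h5 : g 1 = 0 := (mul_eq_zero.1 h4).resolve_right (by norm_num)
    exfalso
    apply hi
    fin_cases i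
    · exact h3
    · exact h5
    · exact h0
  · refine ⟨-(g 0 / g 2), -(g 1 * 3 / g 2), ?_⟩
    have h3 : g 2 • l = -(g 0 • a + g 1 • ((3 : ℂ) • b)) := by
      rw [eq_neg_iff_add_eq_zero, add_comm]
      exact hg'
    have h4 : l = (g 2)⁻¹ • (g 2 • l) := by
      rw [smul_smul, inv_mul_cancel₀ h0, one_smul]
    rw [h4, h3]
    ext j
    simp only [Pi.smul_apply, Pi.neg_apply, Pi.add_apply, smul_eq_mul]
    field_simp
    ring

end I_ODX

open I_ODX in
theorem ODX_pf (hSMX : SMX) (hPIX : PIX) (hOAX : OAX) (hOBX : OBX) : ODX := by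
  intro f hf hs l hl
  obtain ⟨hA1, hA2, hA3⟩ := hOAX
  obtain ⟨-, hB1, hB2, hB3⟩ := hOBX f hf
  obtain ⟨hl0, p, hnode, hpair, -⟩ := hl
  have hq : ∀ i, B (p i) (p i) = 0 := fun i => by
    rw [← hA1, (hnode i).1.2.1, mul_zero]
  have h3 : ∀ i, tri (sten f) (p i) (p i) (p i) = 0 := fun i => by
    rw [← hB1, (hnode i).1.2.2.1]
  have hp0 : ∀ i, p i ≠ 0 := fun i => (hnode i).1.1
  have hind : ∀ i, LinearIndependent ℂ ![beta (p i), cov (sten f) (p i) (p i)] :=
    fun i => hSMX (sten f) hs (p i) (hp0 i) (hq i)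
  have hcomb : ∀ i, ∃ x y : ℂ, l = x • beta (p i) + y • cov (sten f) (p i) (p i) := fun i => by
    have h5 := (hnode i).1.2.2.2.2
    rw [hA2, hB2] at h5
    exact exists_comb (hind i) h5
  choose lam mu heq using hcomb
  refine ⟨p, lam, mu, hq, h3, heq, ?_, fun i => ⟨hind i, ?_⟩, hl0⟩
  · exact hPIX (sten f) hs p l lam mu hl0 hq h3 heq hp0 hpair
  · intro v x y h1 h2 h4
    have hcond := (hnode i).2.2 (lam i) (mu i / 3) (-1) (Or.inr (Or.inr (by norm_num))) (by
      rw [hA2, hB2, smul_smul, div_mul_cancel₀ _ (by norm_num : (3 : ℂ) ≠ 0), neg_one_smul,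
        ← heq i, add_neg_cancel]) v
    have hb : ∀ w, grad qf (p i) ⬝ᵥ w = B (p i) w := fun w => by rw [hA2]; rfl
    have hc : ∀ w, grad f (p i) ⬝ᵥ w = 3 * tri (sten f) (p i) (p i) w := fun w => by
      rw [hB2, smul_dotProduct, smul_eq_mul]; rfl
    have hlv : ∀ w, l ⬝ᵥ w = lam i * B (p i) w + mu i * tri (sten f) (p i) (p i) w := fun w => by
      conv_lhs => rw [heq i, add_dotProduct, smul_dotProduct, smul_dotProduct]
      rfl
    apply hcond
    · rw [hb, h1]
    · rw [hc, h2, mul_zero]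
    · rw [hlv, h1, h2, mul_zero, mul_zero, add_zero]
    · intro w hw1 hw2 hw3
      rw [hA3, hB3]
      rw [hb] at hw1
      rw [hc] at hw2
      have hw2' : tri (sten f) (p i) (p i) w = 0 :=
        (mul_eq_zero.1 hw2).resolve_left (by norm_num)
      have h5 := congrArg (fun u => u ⬝ᵥ w) h4
      simp only [add_dotProduct, smul_dotProduct, zero_dotProduct, smul_eq_mul] at h5
      have e1 : beta v ⬝ᵥ w = B v w := rfl
      have e2 : cov (sten f) (p i) v ⬝ᵥ w = tri (sten f) (p i) v w := rfl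
      have e3 : beta (p i) ⬝ᵥ w = B (p i) w := rfl
      have e4 : cov (sten f) (p i) (p i) ⬝ᵥ w = tri (sten f) (p i) (p i) w := rfl
      rw [e1, e2, e3, e4, hw1, hw2'] at h5
      linear_combination h5

end Pool.Agent.Work.MP_ea8963_ag.G4
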