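import Pool.Agent.Work.MP_ea8963_ag.G4.Stmts

set_option autoImplicit false
set_option linter.style.longLine false

noncomputable section

open Module

namespace Pool.Agent.Work.MP_ea8963_ag.G4

namespace I_PIX

/-- a relation between three pairwise independent null vectors has mutually orthogonal vectors -/
lemma orth (a b c : ℂ) (x y z : E) (ha : a ≠ 0) (hb : b ≠ 0)
    (hx : B x x = 0) (hy : B y y = 0) (hz : B z z = 0)
    (h : a • x + b • y + c • z = 0) : B x y = 0 := by
  have h1 : a • x + b • y = -(c • z) := by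
    rw [eq_neg_iff_add_eq_zero]; exact h
  have h2 : B (a • x + b • y) (a • x + b • y) = B (-(c • z)) (-(c • z)) := by rw [h1]
  rw [B_add_left, B_add_right, B_add_right, B_neg_left, B_neg_right] at h2
  simp only [B_smul_left, B_smul_right] at h2
  rw [hx, hy, hz, B_comm y x] at h2
  have h3 : (2 * a * b) * B x y = 0 := by linear_combination h2
  have h4 : (2 * a * b : ℂ) ≠ 0 := mul_ne_zero (mul_ne_zero two_ne_zero ha) hb
  exact (mul_eq_zero.1 h3).resolve_left h4

/-- a coefficient cannot vanish -/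
lemma coef (p : Fin 3 → E) (hp : ∀ i j, i ≠ j → ∀ c : ℂ, p i ≠ c • p j) (g : Fin 3 → ℂ)
    (h : g 0 • p 0 + g 1 • p 1 + g 2 • p 2 = 0) (hg : ∃ i, g i ≠ 0)
    (hz : ∀ i, p i ≠ 0) : ∀ i, g i ≠ 0 := by
  have key : ∀ i j k : Fin 3, i ≠ j → i ≠ k → j ≠ k → g i • p i + g j • p j + g k • p k = 0 →
      g k = 0 → g i = 0 ∧ g j = 0 := by
    intro i j k hij hik hjk h1 hk
    rw [hk, zero_smul, add_zero] at h1
    have hi : g i = 0 := by
      by_contra hi
      refine hp i j hij (-((g i)⁻¹ * g j)) ?_
      have h2 : g i • p i = -(g j • p j) := by rw [eq_neg_iff_add_eq_zero]; exact h1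
      calc p i = (g i)⁻¹ • (g i • p i) := by rw [smul_smul, inv_mul_cancel₀ hi, one_smul]
        _ = -((g i)⁻¹ * g j) • p j := by rw [h2, smul_neg, smul_smul, neg_smul]
    refine ⟨hi, ?_⟩
    rw [hi, zero_smul, zero_add] at h1
    rcases smul_eq_zero.1 h1 with h3 | h3
    · exact h3
    · exact absurd h3 (hz j)
  obtain ⟨m, hm⟩ := hg
  intro k hk
  have hall : ∀ i, g i = 0 := by
    fin_cases k
    · have := key 1 2 0 (by decide) (by decide) (by decide) (by rw [← h]; abel) hk
      intro i; fin_cases i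
      · exact hk
      · exact this.1
      · exact this.2
    · have := key 0 2 1 (by decide) (by decide) (by decide) (by rw [← h]; abel) hk
      intro i; fin_cases i
      · exact this.1
      · exact hk
      · exact this.2
    · have := key 0 1 2 (by decide) (by decide) (by decide) h hk
      intro i; fin_cases i
      · exact this.1
      · exact this.2
      · exact hk
  exact hm (hall m)

end I_PIX

theorem PIX_pf (hNLX : NLX) : PIX := by
  intro s hs p l lam mu hl hB ht heq hz hp
  by_contra hcon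
  rw [Fintype.not_linearIndependent_iff] at hcon
  obtain ⟨g, hg, hne⟩ := hcon
  rw [Fin.sum_univ_three] at hg
  have hall := I_PIX.coef p hp g hg hne hz
  have h01 : B (p 0) (p 1) = 0 :=
    I_PIX.orth (g 0) (g 1) (g 2) _ _ _ (hall 0) (hall 1) (hB 0) (hB 1) (hB 2) hg
  have h02 : B (p 0) (p 2) = 0 :=
    I_PIX.orth (g 0) (g 2) (g 1) _ _ _ (hall 0) (hall 2) (hB 0) (hB 2) (hB 1)
      (by rw [← hg]; abel)
  have h12 : B (p 1) (p 2) = 0 :=
    I_PIX.orth (g 1) (g 2) (g 0) _ _ _ (hall 1) (hall 2) (hB 1) (hB 2) (hB 0)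
      (by rw [← hg]; abel)
  have hBij : ∀ i j, B (p i) (p j) = 0 := by
    intro i j
    fin_cases i <;> fin_cases j
    · exact hB 0
    · exact h01
    · exact h02
    · exact (B_comm _ _).trans h01
    · exact hB 1
    · exact h12
    · exact (B_comm _ _).trans h02
    · exact (B_comm _ _).trans h12
    · exact hB 2
  have hdot : ∀ i v, l ⬝ᵥ v = lam i * B (p i) v + mu i * tri s (p i) (p i) v := by
    intro i v
    conv_lhs => rw [heq i, add_dotProduct, smul_dotProduct, smul_dotProduct]
    rfl
  have hlp : ∀ i, l ⬝ᵥ p i = 0 := by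
    intro i
    rw [hdot i, hB i, ht i]; ring
  have htri : ∀ i j, mu i ≠ 0 → tri s (p i) (p i) (p j) = 0 := by
    intro i j hm
    have h1 := hdot i (p j)
    rw [hlp j, hBij i j, mul_zero, zero_add] at h1
    exact (mul_eq_zero.1 h1.symm).resolve_left hm
  have hmu : ∀ i j, i ≠ j → mu i = 0 → mu j ≠ 0 := by
    intro i j hij hi hj
    have h1 := heq i
    have h2 := heq j
    rw [hi, zero_smul, add_zero] at h1
    rw [hj, zero_smul, add_zero] at h2
    have hlam : lam i ≠ 0 := by
      intro h0
      rw [h0, zero_smul] at h1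
      exact hl h1
    refine hp i j hij ((lam i)⁻¹ * lam j) (beta_injective ?_)
    rw [beta_smul, mul_smul, ← h2, h1, smul_smul, inv_mul_cancel₀ hlam, one_smul]
  have hfin : ∀ i j, i ≠ j → mu i ≠ 0 → mu j ≠ 0 → False := by
    intro i j hij hi hj
    refine hNLX s hs (p i) (p j) ?_ (hB i) (hBij i j) (hB j) (ht i) (htri i j hi) (htri j i hj)
      (ht j)
    rw [LinearIndependent.pair_iff]
    intro a b hab
    have ha : a = 0 := by
      by_contra ha
      refine hp i j hij (-(a⁻¹ * b)) ?_
      have h2 : a • p i = -(b • p j) := by rw [eq_neg_iff_add_eq_zero]; exact hab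
      calc p i = a⁻¹ • (a • p i) := by rw [smul_smul, inv_mul_cancel₀ ha, one_smul]
        _ = -(a⁻¹ * b) • p j := by rw [h2, smul_neg, smul_smul, neg_smul]
    refine ⟨ha, ?_⟩
    rw [ha, zero_smul, zero_add] at hab
    rcases smul_eq_zero.1 hab with h3 | h3
    · exact h3
    · exact absurd h3 (hz j)
  by_cases h0 : mu 0 = 0
  · exact hfin 1 2 (by decide) (hmu 0 1 (by decide) h0) (hmu 0 2 (by decide) h0)
  · by_cases h1 : mu 1 = 0
    · exact hfin 0 2 (by decide) h0 (hmu 1 2 (by decide) h1)
    · exact hfin 0 1 (by decide) h0 h1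

end Pool.Agent.Work.MP_ea8963_ag.G4
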