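import Pool.Agent.Work.MP_ea8963_ag.G4.Stmts2

/-!
Block [ea8963 G4], item PTX: generic configurations nearby.
-/

set_option linter.style.longLine false
set_option linter.unusedVariables false

noncomputable section

open Module Topology

namespace Pool.Agent.Work.MP_ea8963_ag.G4

namespace I_PTX

lemma phi_zero {s : T3} {y : Y} (h : CfgY s y) : Phi s y = 0 := by
  refine Prod.ext (funext h.q0) (Prod.ext (funext h.s0) (Prod.ext ?_ ?_))
  · exact sub_eq_zero.2 (h.eq 1)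
  · exact sub_eq_zero.2 (h.eq 2)

lemma continuous_beta : Continuous beta := by
  have h : beta = fun x => betaL x := rfl
  rw [h]
  exact betaL.continuous_of_finiteDimensional

lemma continuous_pOf (i : Fin 3) : Continuous (fun y : Y => pOf y i) := by
  unfold pOf
  fun_prop

lemma continuous_om (s : T3) : Continuous (fun y : Y => om s y 0) := by
  have h1 : Continuous (fun y : Y => beta (pOf y 0)) := continuous_beta.comp (continuous_pOf 0)
  have h2 : Continuous (fun y : Y => cov s (pOf y 0) (pOf y 0)) := by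
    unfold cov pOf
    fun_prop
  have h3 : Continuous (fun y : Y => laOf y 0) := by unfold laOf; fun_prop
  have h4 : Continuous (fun y : Y => muOf y 0) := by unfold muOf; fun_prop
  unfold om
  exact (h3.smul h1).add (h4.smul h2)

/-- the linear map `(c, y) ↦ (coordinates J of y) - c` -/
def RR (J : Fin 5 → Fin 3 × Fin 7) : (Fin 5 → ℂ) × Y →L[ℂ] (Fin 5 → ℂ) :=
  ContinuousLinearMap.pi (fun k =>
    ((ContinuousLinearMap.proj (R := ℂ) (φ := fun _ : Fin 7 => ℂ) (J k).2).comp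
      (ContinuousLinearMap.proj (R := ℂ) (φ := fun _ : Fin 3 => Fin 7 → ℂ) (J k).1)).comp
        (ContinuousLinearMap.snd ℂ (Fin 5 → ℂ) Y)
    - (ContinuousLinearMap.proj (R := ℂ) (φ := fun _ : Fin 5 => ℂ) k).comp
        (ContinuousLinearMap.fst ℂ (Fin 5 → ℂ) Y))

lemma RR_apply (J : Fin 5 → Fin 3 × Fin 7) (z : (Fin 5 → ℂ) × Y) :
    RR J z = fun k => z.2 (J k).1 (J k).2 - z.1 k := rfl

end I_PTX

open I_PTX

theorem PTX_pf (hSUX : SUX) (hSTX : STX) (hIFX : IFX) (hJEX : JEX) (hCOX : COX) (hRYX : RYX)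
    (hCHX : CHX) : PTX := by
  intro s hs y hy A hA hsA O hO
  obtain ⟨g', hg', hgd⟩ := hSTX s y
  -- the five coordinates
  obtain ⟨J, hJ⟩ := hJEX (g'.comp (ContinuousLinearMap.inr ℂ T3 Y)).toLinearMap (by
    intro z
    obtain ⟨dy, hdy⟩ := hSUX s hs y hy z
    refine ⟨dy, ?_⟩
    rw [← hdy, ← hgd dy]
    rfl)
  -- the function and its derivative
  set c0 : Fin 5 → ℂ := fun k => y (J k).1 (J k).2 with hc0
  have hin : HasStrictFDerivAt (fun z : (Fin 5 → ℂ) × Y => ((s, z.2) : T3 × Y))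
      ((0 : (Fin 5 → ℂ) × Y →L[ℂ] T3).prod (ContinuousLinearMap.snd ℂ (Fin 5 → ℂ) Y)) (c0, y) :=
    (hasStrictFDerivAt_const s (c0, y)).prodMk hasStrictFDerivAt_snd
  have h1 : HasStrictFDerivAt (fun z : (Fin 5 → ℂ) × Y => Phi s z.2)
      (g'.comp ((0 : (Fin 5 → ℂ) × Y →L[ℂ] T3).prod (ContinuousLinearMap.snd ℂ (Fin 5 → ℂ) Y)))
      (c0, y) := HasStrictFDerivAt.comp (c0, y) (g := fun z : T3 × Y => Phi z.1 z.2) hg' hin
  have h2 : HasStrictFDerivAt (fun z : (Fin 5 → ℂ) × Y => RR J z) (RR J) (c0, y) :=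
    (RR J).hasStrictFDerivAt
  have h3 := h1.prodMk h2
  -- the neighbourhood
  have hU : {y' : Y | (Phi s y' = 0 → CfgY s y') ∧ om s y' 0 ∈ O} ∈ 𝓝 y := by
    have hc : Filter.Tendsto (fun y' : Y => ((s, y') : T3 × Y)) (𝓝 y) (𝓝 (s, y)) :=
      (Continuous.prodMk_right s).tendsto y
    have e1 : ∀ᶠ y' in 𝓝 y, Phi s y' = 0 → CfgY s y' := hc.eventually (hCOX s y hy)
    have e2 : ∀ᶠ y' in 𝓝 y, om s y' 0 ∈ O := (continuous_om s).continuousAt.eventually_mem hO
    filter_upwards [e1, e2] with y' a b using ⟨a, b⟩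
  have h4 := hIFX (Fin 5 → ℂ) Y (Z16 × (Fin 5 → ℂ)) _ _ c0 y h3 (by
    rintro ⟨z, c⟩
    obtain ⟨dy, hdy, hdc⟩ := hJ z c
    refine ⟨dy, Prod.ext ?_ ?_⟩
    · exact hdy
    · change RR J (0, dy) = c
      rw [RR_apply]
      funext k
      have := hdc k
      simp [this]) _ hU
  obtain ⟨ε, hε, hball⟩ := Metric.eventually_nhds_iff.1 h4
  obtain ⟨c, hc, hfull⟩ := hCHX A hA 5 c0 ε hε
  obtain ⟨y', hyU, hyg⟩ := hball (y := c) ((dist_pi_lt_iff hε).2 fun k => by
    rw [dist_eq_norm]; exact hc k)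
  have h5 : Phi s y' = Phi s y := congrArg Prod.fst hyg
  have h6 : RR J (c, y') = RR J (c0, y) := congrArg Prod.snd hyg
  have h7 : (fun k => y' (J k).1 (J k).2) = c := by
    funext k
    have h8 := congrFun h6 k
    rw [RR_apply, RR_apply] at h8
    simp only [hc0, sub_self] at h8
    exact sub_eq_zero.1 h8
  have h8 : CfgY s y' := hyU.1 (h5.trans (phi_zero hy))
  refine ⟨y', h8, hyU.2, hRYX s hs y' h8 A hsA J ?_⟩
  rw [h7]
  exact hfull

end Pool.Agent.Work.MP_ea8963_ag.G4
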