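import Pool.Agent.Work.MP_ea8963_ag.G4.Stmts

/-!
Block [ea8963 G4], item R1X.  Prover helper15.
-/

noncomputable section

namespace Pool.Agent.Work.MP_ea8963_ag.G4

/-- item R1X: test the relation with `t = sp m b c` -/
theorem R1X_pf : R1X := by
  intro p p' v v' h m hp' hv' b c
  have h1 := h (sp m b c) (sp_mem m b c)
  have h2 : ∑ i, tri (sp m b c) (p' i) (p' i) (v' i) = 0 := by
    refine Finset.sum_eq_zero fun i _ => ?_
    rw [tri_sp_ppv, hp' i, hv' i]
    ring
  rw [h2, add_zero] at h1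
  rw [← h1]
  refine Finset.sum_congr rfl fun i _ => ?_
  rw [tri_sp_ppv]
  simp only [dotProduct_add, dotProduct_smul, smul_eq_mul]
  ring

end Pool.Agent.Work.MP_ea8963_ag.G4
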