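import Pool.Agent.Work.MP_ea8963_ag.G4.Stmts

/-!
Block [ea8963 G4], item R2X.  Prover helper68.
-/

set_option linter.style.longLine false

noncomputable section

namespace Pool.Agent.Work.MP_ea8963_ag.G4

/-- item R2X: the solutions of the relation on quadrics are the multiples of `uu p` -/
theorem R2X_pf : R2X := by
  intro p hp hq hb w hw h
  obtain ⟨a, ha⟩ := exists_dual hp
  -- `w i` is in the span of `p`
  have hspan : ∀ i, w i ∈ Submodule.span ℂ (Set.range p) := by
    intro i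
    by_contra hcon
    obtain ⟨x, hx, hx1⟩ := exists_sep hp hcon
    have h1 := h x (a i)
    have h2 : ∑ k, ((x ⬝ᵥ p k) * (a i ⬝ᵥ w k) + (x ⬝ᵥ w k) * (a i ⬝ᵥ p k)) = x ⬝ᵥ w i := by
      rw [Finset.sum_eq_single i]
      · rw [dotProduct_comm x (p i), hx i, ha i i]
        simp
      · intro k _ hk
        rw [dotProduct_comm x (p k), hx k, ha i k, if_neg (Ne.symm hk)]
        simp
      · intro hi
        exact absurd (Finset.mem_univ i) hi
    rw [h2, dotProduct_comm, hx1] at h1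
    exact one_ne_zero h1
  have hm : ∀ i, ∃ c : Fin 3 → ℂ, ∑ j, c j • p j = w i := fun i =>
    (Submodule.mem_span_range_iff_exists_fun ℂ).1 (hspan i)
  choose m hm using hm
  have haw : ∀ k i, a k ⬝ᵥ w i = m i k := by
    intro k i
    rw [← hm i, dotProduct_sum]
    rw [Finset.sum_eq_single k]
    · rw [dotProduct_smul, ha k k]; simp
    · intro j _ hj
      rw [dotProduct_smul, ha k j, if_neg (Ne.symm hj)]; simp
    · intro hk
      exact absurd (Finset.mem_univ k) hk
  have hanti : ∀ i j, m i j + m j i = 0 := by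
    intro i j
    have h1 := h (a i) (a j)
    rw [Finset.sum_add_distrib] at h1
    have h2 : ∑ k, (a i ⬝ᵥ p k) * (a j ⬝ᵥ w k) = m i j := by
      rw [Finset.sum_eq_single i]
      · rw [ha i i, haw]; simp
      · intro k _ hk
        rw [ha i k, if_neg (Ne.symm hk)]; simp
      · intro hk
        exact absurd (Finset.mem_univ i) hk
    have h3 : ∑ k, (a i ⬝ᵥ w k) * (a j ⬝ᵥ p k) = m j i := by
      rw [Finset.sum_eq_single j]
      · rw [ha j j, haw]; simp
      · intro k _ hk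
        rw [ha j k, if_neg (Ne.symm hk)]; simp
      · intro hk
        exact absurd (Finset.mem_univ j) hk
    rw [h2, h3] at h1
    exact h1
  have hd : ∀ i, m i i = 0 := by
    intro i
    have h1 := hanti i i
    have h2 : (2 : ℂ) * m i i = 0 := by linear_combination h1
    rcases mul_eq_zero.1 h2 with h3 | h3
    · norm_num at h3
    · exact h3
  have hB : ∀ i, m i 0 * B (p i) (p 0) + m i 1 * B (p i) (p 1) + m i 2 * B (p i) (p 2) = 0 := by
    intro i
    have h1 := hw i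
    rw [← hm i, Fin.sum_univ_three] at h1
    simp only [B_add_right, B_smul_right] at h1
    exact h1
  have b01 : B (p 0) (p 1) ≠ 0 := hb 0 1 (by decide)
  have b02 : B (p 0) (p 2) ≠ 0 := hb 0 2 (by decide)
  have b12 : B (p 1) (p 2) ≠ 0 := hb 1 2 (by decide)
  have c10 : B (p 1) (p 0) = B (p 0) (p 1) := B_comm _ _
  have c20 : B (p 2) (p 0) = B (p 0) (p 2) := B_comm _ _
  have c21 : B (p 2) (p 1) = B (p 1) (p 2) := B_comm _ _
  have e0 := hB 0
  have e1 := hB 1
  have e2 := hB 2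
  rw [hq 0] at e0
  rw [hq 1, c10] at e1
  rw [hq 2, c20, c21] at e2
  have a01 := hanti 0 1
  have a02 := hanti 0 2
  have a12 := hanti 1 2
  have f02 : m 0 2 * B (p 0) (p 2) = -(m 0 1 * B (p 0) (p 1)) := by linear_combination e0
  have f12 : m 1 2 * B (p 1) (p 2) = m 0 1 * B (p 0) (p 1) := by
    linear_combination e1 - B (p 0) (p 1) * a01
  refine ⟨m 0 1 * B (p 0) (p 1), ?_⟩
  have g01 : m 0 1 = m 0 1 * B (p 0) (p 1) * (B (p 0) (p 1))⁻¹ := by
    field_simp
  have g02 : m 0 2 = -(m 0 1 * B (p 0) (p 1) * (B (p 0) (p 2))⁻¹) := by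
    field_simp
    linear_combination f02
  have g12 : m 1 2 = m 0 1 * B (p 0) (p 1) * (B (p 1) (p 2))⁻¹ := by
    field_simp
    linear_combination f12
  have g10 : m 1 0 = -(m 0 1 * B (p 0) (p 1) * (B (p 0) (p 1))⁻¹) := by
    rw [← g01]; linear_combination a01
  have g20 : m 2 0 = m 0 1 * B (p 0) (p 1) * (B (p 0) (p 2))⁻¹ := by
    linear_combination a02 - g02
  have g21 : m 2 1 = -(m 0 1 * B (p 0) (p 1) * (B (p 1) (p 2))⁻¹) := by
    linear_combination a12 - g12
  intro i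
  rw [← hm i, Fin.sum_univ_three]
  fin_cases i
  · have hu : uu p 0 = (B (p 0) (p 1))⁻¹ • p 1 - (B (p 0) (p 2))⁻¹ • p 2 := rfl
    show m 0 0 • p 0 + m 0 1 • p 1 + m 0 2 • p 2 = (m 0 1 * B (p 0) (p 1)) • uu p 0
    rw [hu, hd 0, g02, smul_sub, smul_smul, smul_smul, ← g01]
    module
  · have hu : uu p 1 = (B (p 1) (p 2))⁻¹ • p 2 - (B (p 1) (p 0))⁻¹ • p 0 := rfl
    show m 1 0 • p 0 + m 1 1 • p 1 + m 1 2 • p 2 = (m 0 1 * B (p 0) (p 1)) • uu p 1
    rw [hu, hd 1, c10, g10, g12, smul_sub, smul_smul, smul_smul]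
    module
  · have hu : uu p 2 = (B (p 2) (p 0))⁻¹ • p 0 - (B (p 2) (p 1))⁻¹ • p 1 := rfl
    show m 2 0 • p 0 + m 2 1 • p 1 + m 2 2 • p 2 = (m 0 1 * B (p 0) (p 1)) • uu p 2
    rw [hu, hd 2, c20, c21, g20, g21, smul_sub, smul_smul, smul_smul]
    module

end Pool.Agent.Work.MP_ea8963_ag.G4
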