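import Pool.Agent.Work.MP_ea8963_ag.G4.Stmts

/-!
Block [ea8963 G4], item RKX: the relations between the functionals of two configurations.
-/

noncomputable section

namespace Pool.Agent.Work.MP_ea8963_ag.G4

theorem RKX_pf (hR1X : R1X) (hR2X : R2X) : RKX := by
  intro p l p' l' hind hq hb hlp' hlp x hx
  obtain ⟨h1, h2, h3⟩ := hx
  have hsum := hR1X p p' x.1 x.2 h3 l' hlp' (fun i => (h2 i).2)
  obtain ⟨κ, hκ⟩ := hR2X p hind hq hb
    (fun i => (2 * (l' ⬝ᵥ p i)) • x.1 i + (l' ⬝ᵥ x.1 i) • p i)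
    (fun i => by
      rw [B_add_right, B_smul_right, B_smul_right, (h1 i).1, hq i]
      ring)
    hsum
  refine ⟨κ, hκ, fun h0 i => ?_⟩
  have hw : (2 * (l' ⬝ᵥ p i)) • x.1 i + (l' ⬝ᵥ x.1 i) • p i = 0 := by
    have := hκ i
    rw [h0, zero_smul] at this
    exact this
  have hl : l' ⬝ᵥ x.1 i = 0 := by
    have h4 := congrArg (fun y => l' ⬝ᵥ y) hw
    simp only [dotProduct_add, dotProduct_smul, dotProduct_zero, smul_eq_mul] at h4
    have h5 : (3 * (l' ⬝ᵥ p i)) * (l' ⬝ᵥ x.1 i) = 0 := by linear_combination h4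
    rcases mul_eq_zero.1 h5 with h6 | h6
    · rcases mul_eq_zero.1 h6 with h7 | h7
      · norm_num at h7
      · exact absurd h7 (hlp i)
    · exact h6
  rw [hl, zero_smul, add_zero] at hw
  rcases smul_eq_zero.1 hw with h8 | h8
  · rcases mul_eq_zero.1 h8 with h9 | h9
    · norm_num at h9
    · exact absurd h9 (hlp i)
  · exact h8

end Pool.Agent.Work.MP_ea8963_ag.G4
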