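import Pool.Agent.Work.MP_ea8963_ag.G4.Stmts

/-!
Block [ea8963 G4], item RLX: the space of relations has dimension at most one.
-/

set_option linter.style.longLine false

noncomputable section

open Module Topology

namespace Pool.Agent.Work.MP_ea8963_ag.G4

namespace I_RLX

/-- the functionals `t ↦ tri t (P i) (P i) v` are independent in `v` -/
lemma ker_zero {P : Fin 3 → E} (hP : LinearIndependent ℂ P) {v : Fin 3 → E}
    (h : ∀ t ∈ SymT, ∑ i, tri t (P i) (P i) (v i) = 0) : v = 0 := by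
  obtain ⟨a, ha⟩ := exists_dual hP
  have key : ∀ (i : Fin 3) (c : E), (c ⬝ᵥ v i) + 2 * (a i ⬝ᵥ v i) * (c ⬝ᵥ P i) = 0 := by
    intro i c
    have h1 := h (sp (a i) (a i) c) (sp_mem _ _ _)
    rw [Finset.sum_eq_single i] at h1
    · rw [tri_sp_ppv, ha i i, if_pos rfl] at h1
      linear_combination (1 / 2 : ℂ) * h1
    · intro j _ hj
      rw [tri_sp_ppv, ha i j, if_neg (fun h => hj h.symm)]
      ring
    · intro hi
      exact absurd (Finset.mem_univ i) hi
  funext i
  have h1 : a i ⬝ᵥ v i = 0 := by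
    have h2 := key i (a i)
    rw [ha i i, if_pos rfl] at h2
    have h3 : (3 : ℂ) * (a i ⬝ᵥ v i) = 0 := by linear_combination h2
    rcases mul_eq_zero.1 h3 with h4 | h4
    · norm_num at h4
    · exact h4
  apply eq_zero_of_dot
  intro c
  have h2 := key i c
  rw [h1] at h2
  linear_combination h2

lemma uu_ne {p : Fin 3 → E} (hp : LinearIndependent ℂ p)
    (hB : ∀ i j, i ≠ j → B (p i) (p j) ≠ 0) : uu p 0 ≠ 0 := by
  intro h0
  have h1 : uu p 0 = (B (p 0) (p 1))⁻¹ • p 1 - (B (p 0) (p 2))⁻¹ • p 2 := rfl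
  rw [h1] at h0
  have h2 := Fintype.linearIndependent_iff.1 hp
    ![0, (B (p 0) (p 1))⁻¹, -(B (p 0) (p 2))⁻¹] (by
      simp only [Fin.sum_univ_three, Matrix.cons_val_zero, Matrix.cons_val_one, Matrix.cons_val]
      rw [zero_smul, zero_add, neg_smul, ← sub_eq_add_neg]
      exact h0) 1
  simp only [Matrix.cons_val_one, Matrix.cons_val_zero] at h2
  exact inv_ne_zero (hB 0 1 (by decide)) h2

/-- the linear map of the proof -/
def FF (p : Fin 3 → E) (l' : E) : (Fin 3 → E) × (Fin 3 → E) →ₗ[ℂ] E where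
  toFun x := (2 * (l' ⬝ᵥ p 0)) • x.1 0 + (l' ⬝ᵥ x.1 0) • p 0
  map_add' x y := by
    simp only [Prod.fst_add, Pi.add_apply, dotProduct_add, smul_add, add_smul]
    abel
  map_smul' c x := by
    simp only [Prod.smul_fst, Pi.smul_apply, dotProduct_smul, smul_eq_mul, RingHom.id_apply,
      smul_add, smul_smul]
    rw [mul_comm c (2 * (l' ⬝ᵥ p 0))]

end I_RLX

open I_RLX in
theorem RLX_pf (hRKX : RKX) : RLX := by
  intro p l p' l' hp hq hB hp' hl' hl
  set g : RelM p l p' l' →ₗ[ℂ] E := (FF p l').comp (RelM p l p' l').subtype with hg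
  have hginj : Function.Injective g := by
    rw [injective_iff_map_eq_zero]
    rintro ⟨x, hx⟩ h0
    obtain ⟨κ, hκ, hκ0⟩ := hRKX p l p' l' hp hq hB hl' hl x hx
    have h1 : (2 * (l' ⬝ᵥ p 0)) • x.1 0 + (l' ⬝ᵥ x.1 0) • p 0 = 0 := h0
    have h2 : κ = 0 := by
      have h3 := hκ 0
      rw [h1] at h3
      rcases smul_eq_zero.1 h3.symm with h4 | h4
      · exact h4
      · exact absurd h4 (uu_ne hp hB)
    have h3 := hκ0 h2
    have h4 : x.2 = 0 := by
      apply ker_zero hp'
      intro t ht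
      have h5 := hx.2.2 t ht
      have h6 : ∑ i, tri t (p i) (p i) (x.1 i) = 0 := by
        apply Finset.sum_eq_zero
        intro i _
        rw [h3 i, tri_zero3]
      rw [h6, zero_add] at h5
      exact h5
    have h5 : x = 0 := Prod.ext (funext h3) h4
    exact Subtype.ext h5
  have hr : LinearMap.range g ≤ Submodule.span ℂ {uu p 0} := by
    rintro _ ⟨⟨x, hx⟩, rfl⟩
    obtain ⟨κ, hκ, -⟩ := hRKX p l p' l' hp hq hB hl' hl x hx
    have h1 : g ⟨x, hx⟩ = κ • uu p 0 := hκ 0
    rw [h1]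
    exact Submodule.smul_mem _ _ (Submodule.mem_span_singleton_self _)
  have h1 := LinearMap.finrank_range_of_inj hginj
  have h2 := Submodule.finrank_mono hr
  have h3 : finrank ℂ (Submodule.span ℂ {uu p 0} : Submodule ℂ E) ≤ 1 := by
    have h4 := finrank_span_le_card (R := ℂ) ({uu p 0} : Set E)
    simpa using h4
  omega

end Pool.Agent.Work.MP_ea8963_ag.G4
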