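import Pool.Agent.Work.MP_ea8963_ag.G4.Stmts

/-!
Block [ea8963 G4], item RNX: a non-zero relation between the functionals of two configurations
produces a hyperplane through all six nodes.
-/

set_option linter.style.longLine false

noncomputable section

open Module Topology

namespace Pool.Agent.Work.MP_ea8963_ag.G4

namespace I_RNX

/-- the functionals `t ↦ tri t (P i) (P i) v` are independent in `v` -/
lemma ker_zero {P : Fin 3 → E} (hP : LinearIndependent ℂ P) {v : Fin 3 → E}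
    (h : ∀ t ∈ SymT, ∑ i, tri t (P i) (P i) (v i) = 0) : v = 0 := by
  obtain ⟨a, ha⟩ := exists_dual hP
  have key : ∀ (i : Fin 3) (c : E), (c ⬝ᵥ v i) + 2 * (a i ⬝ᵥ v i) * (c ⬝ᵥ P i) = 0 := by
    intro i c
    have h1 := h (sp (a i) (a i) c) (sp_mem _ _ _)
    rw [Finset.sum_eq_single i] at h1
    · rw [tri_sp_ppv, ha i i, if_pos rfl] at h1
      linear_combination (1 / 2 : ℂ) * h1
    · intro j _ hj
      rw [tri_sp_ppv, ha i j, if_neg (fun h => hj h.symm)]
      ring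
    · intro hi
      exact absurd (Finset.mem_univ i) hi
  funext i
  have h1 : a i ⬝ᵥ v i = 0 := by
    have h2 := key i (a i)
    rw [ha i i, if_pos rfl] at h2
    have h3 : (3 : ℂ) * (a i ⬝ᵥ v i) = 0 := by linear_combination h2
    rcases mul_eq_zero.1 h3 with h4 | h4
    · norm_num at h4
    · exact h4
  apply eq_zero_of_dot
  intro c
  have h2 := key i c
  rw [h1] at h2
  linear_combination h2

/-- a covector which kills `p` kills `uu p` -/
lemma dot_uu {p : Fin 3 → E} {m : E} (hm : ∀ i, m ⬝ᵥ p i = 0) (i : Fin 3) :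
    m ⬝ᵥ uu p i = 0 := by
  simp [uu, dotProduct_sub, dotProduct_smul, hm]

/-- `p i` and `uu p i` are independent -/
lemma uu_indep {p : Fin 3 → E} (hp : LinearIndependent ℂ p)
    (hB : ∀ i j, i ≠ j → B (p i) (p j) ≠ 0) {i : Fin 3} {c d : ℂ}
    (h : c • p i = d • uu p i) : d = 0 := by
  obtain ⟨a, ha⟩ := exists_dual hp
  have h12 : ∀ i : Fin 3, i + 1 ≠ i + 2 := by decide
  have h10 : ∀ i : Fin 3, i + 1 ≠ i := by decide
  have h1 := congrArg (fun y => a (i + 1) ⬝ᵥ y) h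
  simp only [uu, dotProduct_smul, dotProduct_sub, smul_eq_mul] at h1
  rw [ha (i + 1) i, if_neg (h10 i), ha (i + 1) (i + 1), if_pos rfl, ha (i + 1) (i + 2),
    if_neg (h12 i)] at h1
  have h2 : d * (B (p i) (p (i + 1)))⁻¹ = 0 := by linear_combination -h1
  rcases mul_eq_zero.1 h2 with h3 | h3
  · exact h3
  · exact absurd h3 (inv_ne_zero (hB i (i + 1) (fun h => h10 i h.symm)))

/-- there is a covector which kills `p'` and is not a multiple of `l'` -/
lemma exists_m {p' : Fin 3 → E} (hp' : LinearIndependent ℂ p') (l' : E) :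
    ∃ m : E, (∀ i, m ⬝ᵥ p' i = 0) ∧ ∀ c : ℂ, m ≠ c • l' := by
  by_contra hcon
  push Not at hcon
  have h1 := finrank_Ann hp'
  have h2 : Ann p' ≤ Submodule.span ℂ {l'} := by
    intro m hm
    obtain ⟨c, hc⟩ := hcon m (fun i => by rw [dotProduct_comm]; exact hm i)
    rw [hc]
    exact Submodule.smul_mem _ _ (Submodule.mem_span_singleton_self _)
  have h3 := Submodule.finrank_mono h2
  have h4 : finrank ℂ (Submodule.span ℂ {l'} : Submodule ℂ E) ≤ 1 := by
    have h5 := finrank_span_le_card (R := ℂ) ({l'} : Set E)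
    simpa using h5
  omega

end I_RNX

open I_RNX in
theorem RNX_pf (hR1X : R1X) (hR2X : R2X) (hRKX : RKX) : RNX := by
  intro p l p' l' hp hq hB hp' hq' hB' hlp hlp' hl'p hlp'' x hx hx0
  obtain ⟨κ, hκ, hκ0⟩ := hRKX p l p' l' hp hq hB hlp' hl'p x hx
  obtain ⟨h1, h2, h3⟩ := hx
  -- the constant is not zero
  have hκne : κ ≠ 0 := by
    intro h0
    have h4 := hκ0 h0
    apply hx0
    refine Prod.ext (funext h4) (ker_zero hp' ?_)
    intro t ht
    have h5 := h3 t ht
    have h6 : ∑ i, tri t (p i) (p i) (x.1 i) = 0 := by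
      apply Finset.sum_eq_zero
      intro i _
      rw [h4 i, tri_zero3]
    rw [h6, zero_add] at h5
    exact h5
  -- the swapped relation
  have hsw : ((x.2, x.1) : (Fin 3 → E) × (Fin 3 → E)) ∈ RelM p' l' p l := by
    refine ⟨h2, h1, fun t ht => ?_⟩
    have h4 := h3 t ht
    rw [add_comm]
    exact h4
  obtain ⟨κ₂, hκ₂, -⟩ := hRKX p' l' p l hp' hq' hB' hlp hlp'' (x.2, x.1) hsw
  obtain ⟨m, hm, hml⟩ := exists_m hp' l'
  have hmx : ∀ i, m ⬝ᵥ x.2 i = 0 := by
    intro i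
    have h4 := congrArg (fun y => m ⬝ᵥ y) (hκ₂ i)
    simp only [dotProduct_add, dotProduct_smul, smul_eq_mul, dot_uu hm i, hm i] at h4
    have h5 : (2 * (l ⬝ᵥ p' i)) * (m ⬝ᵥ x.2 i) = 0 := by linear_combination h4
    rcases mul_eq_zero.1 h5 with h6 | h6
    · rcases mul_eq_zero.1 h6 with h7 | h7
      · norm_num at h7
      · exact absurd h7 (hlp'' i)
    · exact h6
  have hsum := hR1X p p' x.1 x.2 h3 m hm hmx
  obtain ⟨κ', hκ'⟩ := hR2X p hp hq hB
    (fun i => (2 * (m ⬝ᵥ p i)) • x.1 i + (m ⬝ᵥ x.1 i) • p i)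
    (fun i => by
      rw [B_add_right, B_smul_right, B_smul_right, (h1 i).1, hq i]
      ring)
    hsum
  have key : ∀ i, κ' * (l' ⬝ᵥ p i) - κ * (m ⬝ᵥ p i) = 0 := by
    intro i
    have e1 := hκ i
    have e2 : (2 * (m ⬝ᵥ p i)) • x.1 i + (m ⬝ᵥ x.1 i) • p i = κ' • uu p i := hκ' i
    apply uu_indep hp hB (i := i)
      (c := (l' ⬝ᵥ p i) * (m ⬝ᵥ x.1 i) - (m ⬝ᵥ p i) * (l' ⬝ᵥ x.1 i))
    linear_combination (norm := module) (l' ⬝ᵥ p i) • e2 - (m ⬝ᵥ p i) • e1
  refine ⟨κ • m - κ' • l', ?_, fun i => ?_, fun i => ?_⟩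
  · intro h0
    apply hml (κ⁻¹ * κ')
    have h4 : κ • m = κ' • l' := sub_eq_zero.1 h0
    rw [mul_smul, ← h4, smul_smul, inv_mul_cancel₀ hκne, one_smul]
  · rw [sub_dotProduct, smul_dotProduct, smul_dotProduct, smul_eq_mul, smul_eq_mul]
    linear_combination -(key i)
  · rw [sub_dotProduct, smul_dotProduct, smul_dotProduct, hm i, hlp' i]
    simp

end Pool.Agent.Work.MP_ea8963_ag.G4
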