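import Pool.Agent.Work.MP_ea8963_ag.G4.Stmts

/-!
Block [ea8963 G4], item SMX: the surface is smooth.  Author helper80.
-/

set_option linter.style.longLine false

noncomputable section

open Module

namespace Pool.Agent.Work.MP_ea8963_ag.G4

namespace I_SMX

lemma ind1 {x : E} (hx : x ≠ 0) : LinearIndependent ℂ ![x] := by
  rw [Fintype.linearIndependent_iff]
  intro g hg k
  rw [Fin.sum_univ_one] at hg
  have hg' : g 0 • x = 0 := hg
  rcases smul_eq_zero.1 hg' with h | h
  · rw [Subsingleton.elim k 0]; exact h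
  · exact absurd h hx

lemma ind2 {q : E} {j : Fin 5} (hj : q j = 1) (h1 : B q q = 0) :
    LinearIndependent ℂ ![beta q, Pi.single j 1] := by
  rw [LinearIndependent.pair_iff]
  intro a b hab
  have e1 := congrArg (fun x => x ⬝ᵥ q) hab
  simp only [add_dotProduct, smul_dotProduct, single_dotProduct, zero_dotProduct, smul_eq_mul,
    one_mul] at e1
  have h1' : beta q ⬝ᵥ q = 0 := h1
  rw [h1', hj] at e1
  have hb : b = 0 := by linear_combination e1
  rw [hb, zero_smul, add_zero, smul_eq_zero, beta_eq_zero] at hab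
  rcases hab with h | h
  · exact ⟨h, hb⟩
  · rw [h] at hj
    simp at hj

lemma core (hGK : GK) {s : T3} (hs : Gen s) {q : E} {j : Fin 5} (hj : q j = 1) (h1 : B q q = 0)
    {ρ : ℂ} (hρ : cov s q q = ρ • beta q) : False := by
  have hq : q ≠ 0 := by
    rintro rfl
    simp at hj
  have c1 : finrank ℂ ((⊤ : Submodule ℂ D).map (evE q)) + 2 ≤ 5 := by
    refine finrank_le_of_ann (ind2 hj h1) ?_
    rintro _ ⟨δ, -, rfl⟩ k
    rw [evE_apply]
    fin_cases k
    · have e := d_B δ q q
      rw [h1, map_zero, B_comm (dE δ q) q] at e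
      have : B q (dE δ q) = 0 := by linear_combination -(1 / 2 : ℂ) * e
      exact this
    · change Pi.single j 1 ⬝ᵥ dE δ q = 0
      have : dE δ q j = 0 := by simp [dE, hj]
      rw [single_dotProduct, this, mul_zero]
  have c2 : finrank ℂ ((⊤ ⊓ LinearMap.ker (evE q) : Submodule ℂ D).map (evT s)) ≤
      finrank ℂ (KK ![q] (fun _ => Ann ![beta q])) := by
    apply Submodule.finrank_mono
    rintro _ ⟨δ, hδ, rfl⟩
    have hδq : dE δ q = 0 := LinearMap.mem_ker.1 hδ.2
    rw [evT_apply]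
    refine ⟨dT_mem δ hs.1, fun k w hw => ?_⟩
    have e1 := dE_cov δ s q q
    rw [hρ, dE_smul, dE_beta, hδq, beta_zero, smul_zero, add_zero, cov_zero_left,
      cov_zero_right, add_zero, add_zero] at e1
    have hw' : beta q ⬝ᵥ w = 0 := by
      have := mem_Ann.1 hw 0
      exact this
    have hk : (![q] : Fin 1 → E) k = q := by
      rw [Subsingleton.elim k 0]; rfl
    rw [hk]
    change cov (dT δ s) q q ⬝ᵥ w = 0
    rw [← e1, smul_dotProduct, hw', smul_zero]
  have c3 : finrank ℂ (KK ![q] (fun _ => Ann ![beta q])) + finrank ℂ (Ann ![beta q]) ≤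
      finrank ℂ SymT := by
    have c3 := hGK 1 ![q] (fun _ => Ann ![beta q]) (ind1 hq)
    rw [Fin.sum_univ_one] at c3
    exact c3
  have c4 : finrank ℂ (Ann ![beta q]) + 1 = 5 :=
    finrank_Ann (ind1 (fun h => hq (beta_eq_zero.1 h)))
  have c5 := rn_le (evT s) (evE q) ⊤
  rw [hs.map_evT] at c5
  omega

end I_SMX

open I_SMX in
theorem SMX_pf (hGK : GK) : SMX := by
  intro s hs q hq h1
  by_contra hcon
  have hb : beta q ≠ 0 := fun h => hq (beta_eq_zero.1 h)
  rw [LinearIndependent.pair_iff' hb] at hcon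
  push Not at hcon
  obtain ⟨ρ, hρ⟩ := hcon
  have hj : ∃ j, q j ≠ 0 := by
    by_contra h0
    push Not at h0
    exact hq (funext h0)
  obtain ⟨j, hj⟩ := hj
  refine core hGK hs (q := (q j)⁻¹ • q) (j := j) (ρ := (q j)⁻¹ * ρ) ?_ ?_ ?_
  · simp [hj]
  · rw [B_smul_left, B_smul_right, h1, mul_zero, mul_zero]
  · rw [cov_smul_left, cov_smul_right, ← hρ, beta_smul, smul_smul, smul_smul, smul_smul]
    congr 1
    ring

end Pool.Agent.Work.MP_ea8963_ag.G4
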