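import Pool.Agent.Work.MP_ea8963_ag.G4.Stmts2

/-! Item STX: strict differentiability of the equations. -/

set_option linter.style.longLine false

noncomputable section

namespace Pool.Agent.Work.MP_ea8963_ag.G4

namespace I_STX

lemma pOf_add (y dy : Y) (t : ℂ) (i : Fin 3) : pOf (y + t • dy) i = pOf y i + t • pOf dy i := by
  ext k; simp [pOf]

lemma laOf_add (y dy : Y) (t : ℂ) (i : Fin 3) : laOf (y + t • dy) i = laOf y i + t * laOf dy i := by
  simp [laOf]

lemma muOf_add (y dy : Y) (t : ℂ) (i : Fin 3) : muOf (y + t • dy) i = muOf y i + t * muOf dy i := by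
  simp [muOf]

/-- second coefficient of `om` -/
def o2 (s : T3) (y dy : Y) (i : Fin 3) : E :=
  laOf dy i • beta (pOf dy i) + muOf y i • cov s (pOf dy i) (pOf dy i)
    + muOf dy i • (cov s (pOf dy i) (pOf y i) + cov s (pOf y i) (pOf dy i))

/-- third coefficient of `om` -/
def o3 (s : T3) (dy : Y) (i : Fin 3) : E := muOf dy i • cov s (pOf dy i) (pOf dy i)

lemma om_add (s : T3) (y dy : Y) (t : ℂ) (i : Fin 3) :
    om s (y + t • dy) i = om s y i + t • dom s y dy i + t ^ 2 • o2 s y dy i + t ^ 3 • o3 s dy i := by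
  unfold om dom o2 o3
  rw [pOf_add, laOf_add, muOf_add]
  simp only [beta_add, beta_smul, cov_add_left, cov_add_right, cov_smul_left, cov_smul_right]
  ext k
  simp only [Pi.add_apply, Pi.smul_apply, smul_eq_mul]
  ring

/-- second coefficient -/
def r2 (s : T3) (y dy : Y) : Z16 :=
  (fun i => B (pOf dy i) (pOf dy i),
    fun i => tri s (pOf y i) (pOf dy i) (pOf dy i) + tri s (pOf dy i) (pOf y i) (pOf dy i)
      + tri s (pOf dy i) (pOf dy i) (pOf y i),
    o2 s y dy 0 - o2 s y dy 1, o2 s y dy 0 - o2 s y dy 2)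

/-- third coefficient -/
def r3 (s : T3) (dy : Y) : Z16 :=
  (fun _ => 0, fun i => tri s (pOf dy i) (pOf dy i) (pOf dy i),
    o3 s dy 0 - o3 s dy 1, o3 s dy 0 - o3 s dy 2)

lemma Phi_add (s : T3) (y dy : Y) (t : ℂ) :
    Phi s (y + t • dy) = Phi s y + t • dPhi s y dy + t ^ 2 • r2 s y dy + t ^ 3 • r3 s dy := by
  unfold Phi dPhi r2 r3
  refine Prod.ext ?_ (Prod.ext ?_ (Prod.ext ?_ ?_))
  · funext i
    simp only [pOf_add, B_add_left, B_add_right, B_smul_left, B_smul_right, Prod.fst_add,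
      Prod.smul_fst, Pi.add_apply, Pi.smul_apply, smul_eq_mul]
    ring
  · funext i
    simp only [pOf_add, tri_add1, tri_add2, tri_add3, tri_smul1, tri_smul2, tri_smul3, Prod.fst_add,
      Prod.snd_add, Prod.smul_fst, Prod.smul_snd, Pi.add_apply, Pi.smul_apply, smul_eq_mul]
    ring
  · funext k
    simp only [om_add, Prod.fst_add, Pi.sub_apply,
      Prod.snd_add, Prod.smul_fst, Prod.smul_snd, Pi.add_apply, Pi.smul_apply, smul_eq_mul]
    ring
  · funext k
    simp only [om_add, Pi.sub_apply,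
      Prod.snd_add, Prod.smul_snd, Pi.add_apply, Pi.smul_apply, smul_eq_mul]
    ring

lemma hasDeriv_poly {F : Type} [NormedAddCommGroup F] [NormedSpace ℂ F] (a b c d : F) :
    HasDerivAt (fun t : ℂ => a + t • b + t ^ 2 • c + t ^ 3 • d) b 0 := by
  have h1 : HasDerivAt (fun t : ℂ => t • b) b 0 := by
    simpa using (hasDerivAt_id (0 : ℂ)).smul_const b
  have h2 : HasDerivAt (fun t : ℂ => t ^ 2 • c) 0 0 := by
    simpa using (hasDerivAt_pow 2 (0 : ℂ)).smul_const c
  have h3 : HasDerivAt (fun t : ℂ => t ^ 3 • d) 0 0 := by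
    simpa using (hasDerivAt_pow 3 (0 : ℂ)).smul_const d
  have h := ((h1.const_add a).add h2).add h3
  exact h.congr_deriv (by simp)

lemma hasDeriv_Phi (s : T3) (y dy : Y) :
    HasDerivAt (fun t : ℂ => Phi s (y + t • dy)) (dPhi s y dy) 0 := by
  have h := hasDeriv_poly (Phi s y) (dPhi s y dy) (r2 s y dy) (r3 s dy)
  have e : (fun t : ℂ => Phi s (y + t • dy)) =
      fun t : ℂ => Phi s y + t • dPhi s y dy + t ^ 2 • r2 s y dy + t ^ 3 • r3 s dy :=
    funext fun t => Phi_add s y dy t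
  rw [e]; exact h

lemma cd_y (i : Fin 3) (k : Fin 7) : ContDiff ℂ 1 (fun z : T3 × Y => z.2 i k) := by fun_prop

lemma cd_p (i : Fin 3) (k : Fin 5) : ContDiff ℂ 1 (fun z : T3 × Y => pOf z.2 i k) := by
  unfold pOf
  exact cd_y i _

lemma cd_s (i j k : Fin 5) : ContDiff ℂ 1 (fun z : T3 × Y => z.1 i j k) := by fun_prop

lemma cd_beta (i : Fin 3) : ContDiff ℂ 1 (fun z : T3 × Y => beta (pOf z.2 i)) := by
  rw [contDiff_pi]
  intro k
  fin_cases k
  · simpa [beta] using cd_p i 1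
  · simpa [beta] using cd_p i 0
  · simpa [beta] using cd_p i 3
  · simpa [beta] using cd_p i 2
  · simpa [beta] using contDiff_const.mul (cd_p i 4)

lemma cd_cov (i : Fin 3) : ContDiff ℂ 1 (fun z : T3 × Y => cov z.1 (pOf z.2 i) (pOf z.2 i)) := by
  rw [contDiff_pi]
  intro k
  unfold cov
  exact ContDiff.sum fun a _ => ContDiff.sum fun b _ => ((cd_s a b k).mul (cd_p i a)).mul (cd_p i b)

lemma cd_om (i : Fin 3) : ContDiff ℂ 1 (fun z : T3 × Y => om z.1 z.2 i) := by
  unfold om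
  exact ((cd_y i 5).smul (cd_beta i)).add ((cd_y i 6).smul (cd_cov i))

lemma cd_B (i : Fin 3) : ContDiff ℂ 1 (fun z : T3 × Y => B (pOf z.2 i) (pOf z.2 i)) := by
  unfold B dotProduct
  exact ContDiff.sum fun a _ => ((contDiff_pi.1 (cd_beta i)) a).mul (cd_p i a)

lemma cd_tri (i : Fin 3) :
    ContDiff ℂ 1 (fun z : T3 × Y => tri z.1 (pOf z.2 i) (pOf z.2 i) (pOf z.2 i)) := by
  unfold tri dotProduct
  exact ContDiff.sum fun a _ => ((contDiff_pi.1 (cd_cov i)) a).mul (cd_p i a)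

lemma cd_Phi : ContDiff ℂ 1 (fun z : T3 × Y => Phi z.1 z.2) := by
  unfold Phi
  exact (contDiff_pi.2 fun i => cd_B i).prodMk ((contDiff_pi.2 fun i => cd_tri i).prodMk
    (((cd_om 0).sub (cd_om 1)).prodMk ((cd_om 0).sub (cd_om 2))))

end I_STX

open I_STX in
theorem STX_pf : STX := by
  intro s y
  have h : HasStrictFDerivAt (fun z : T3 × Y => Phi z.1 z.2)
      (fderiv ℂ (fun z : T3 × Y => Phi z.1 z.2) (s, y)) (s, y) :=
    (cd_Phi.contDiffAt).hasStrictFDerivAt (by norm_num)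
  refine ⟨_, h, fun dy => ?_⟩
  have hl : HasDerivAt (fun t : ℂ => ((s, y + t • dy) : T3 × Y)) (0, dy) 0 := by
    refine (hasDerivAt_const (0 : ℂ) s).prodMk ?_
    simpa using ((hasDerivAt_id (0 : ℂ)).smul_const dy).const_add y
  have hc := (h.hasFDerivAt).comp_hasDerivAt_of_eq (0 : ℂ) hl (by simp)
  exact hc.unique (hasDeriv_Phi s y dy)

end Pool.Agent.Work.MP_ea8963_ag.G4
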