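import Pool.Agent.Work.MP_ea8963_ag.G4.Stmts2

/-!
Block [ea8963 G4], item SUX: the partial derivative of the equations is surjective at a
configuration.
-/

set_option linter.style.longLine false
set_option linter.unusedVariables false

noncomputable section

open Module Topology

namespace Pool.Agent.Work.MP_ea8963_ag.G4

namespace I_SUX

/-- `cov s p` as a linear map -/
def covL (s : T3) (p : E) : E →ₗ[ℂ] E where
  toFun v := cov s p v
  map_add' x y := cov_add_right s p x y
  map_smul' c x := by simp [cov_smul_right]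

@[simp] lemma covL_apply (s : T3) (p v : E) : covL s p v = cov s p v := rfl

/-- the linear map of the key step -/
def F (s : T3) (p : E) (lam mu : ℂ) :
    (Ann ![beta p, cov s p p]) × (ℂ × ℂ) →ₗ[ℂ] E :=
  ((lam • betaL + (2 * mu) • covL s p).comp (Ann ![beta p, cov s p p]).subtype).coprod
    ((LinearMap.toSpanSingleton ℂ E (beta p)).coprod
      (LinearMap.toSpanSingleton ℂ E (cov s p p)))

lemma F_apply (s : T3) (p : E) (lam mu : ℂ) (u : (Ann ![beta p, cov s p p]) × (ℂ × ℂ)) :
    F s p lam mu u = lam • beta (u.1 : E) + (2 * mu) • cov s p (u.1 : E) + u.2.1 • beta p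
      + u.2.2 • cov s p p := by
  simp [F, add_assoc]

/-- the key step -/
lemma key {s : T3} (hs : s ∈ SymT) {p : E} {lam mu : ℂ} (h : Nd s p lam mu) (hq : B p p = 0)
    (hs0 : tri s p p p = 0) {ω : E} (hω : p ⬝ᵥ ω = 0) :
    ∃ (v : E) (x y : ℂ), B p v = 0 ∧ tri s p p v = 0 ∧
      lam • beta v + (2 * mu) • cov s p v + x • beta p + y • cov s p p = ω := by
  have hr := LinearIndependent.pair_iff.1 h.rank
  have hp0 : p ≠ 0 := by
    rintro rfl
    have := hr 1 0 (by simp [beta_zero])
    exact one_ne_zero this.1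
  have hdom : finrank ℂ ((Ann ![beta p, cov s p p]) × (ℂ × ℂ)) = 5 := by
    have h1 := finrank_Ann h.rank
    rw [finrank_prod, finrank_prod, finrank_self]
    omega
  have hp1 : p ∈ Ann ![beta p, cov s p p] := mem_Ann2.2 ⟨hq, hs0⟩
  have hker : finrank ℂ (LinearMap.ker (F s p lam mu)) ≤ 1 := by
    have hle : LinearMap.ker (F s p lam mu) ≤
        Submodule.span ℂ {((⟨p, hp1⟩, (-lam, -(2 * mu))) : (Ann ![beta p, cov s p p]) × (ℂ × ℂ))} := by
      intro u hu
      rw [LinearMap.mem_ker, F_apply] at hu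
      have hu1 := mem_Ann2.1 u.1.2
      obtain ⟨c, hc⟩ := h.ker (u.1 : E) u.2.1 u.2.2 hu1.1 hu1.2 hu
      rw [hc, beta_smul, cov_smul_right] at hu
      have h2 := hr (u.2.1 + c * lam) (u.2.2 + c * (2 * mu)) (by
        rw [← hu]; simp only [add_smul, smul_smul]
        rw [mul_comm c lam, mul_comm c (2 * mu)]; abel)
      rw [Submodule.mem_span_singleton]
      refine ⟨c, ?_⟩
      refine Prod.ext (Subtype.ext ?_) (Prod.ext ?_ ?_)
      · simpa using hc.symm
      · simp only [Prod.smul_mk, smul_eq_mul]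
        linear_combination -h2.1
      · simp only [Prod.smul_mk, smul_eq_mul]
        linear_combination -h2.2
    refine (Submodule.finrank_mono hle).trans ?_
    refine (finrank_span_le_card _).trans ?_
    simp
  have hrk := LinearMap.finrank_range_add_finrank_ker (F s p lam mu)
  have hi : LinearIndependent ℂ (![p] : Fin 1 → E) := by
    rw [linearIndependent_unique_iff]
    simpa using hp0
  have hA := finrank_Ann hi
  have hle : LinearMap.range (F s p lam mu) ≤ Ann ![p] := by
    rintro _ ⟨u, rfl⟩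
    rw [mem_Ann]
    intro i
    have hi0 : i = 0 := Subsingleton.elim _ _
    subst hi0
    have hu1 := mem_Ann2.1 u.1.2
    rw [F_apply, dotProduct_comm]
    simp only [Matrix.cons_val_zero, add_dotProduct, smul_dotProduct, smul_eq_mul]
    have e1 : beta (u.1 : E) ⬝ᵥ p = 0 := by
      have := B_comm (u.1 : E) p
      rw [show B p (u.1 : E) = 0 from hu1.1] at this
      exact this
    have e2 : cov s p (u.1 : E) ⬝ᵥ p = 0 := by
      have := tri_comm23 hs p (u.1 : E) p
      rw [show tri s p p (u.1 : E) = 0 from hu1.2] at this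
      exact this
    have e3 : beta p ⬝ᵥ p = 0 := hq
    have e4 : cov s p p ⬝ᵥ p = 0 := hs0
    rw [e1, e2, e3, e4]
    ring
  have heq : LinearMap.range (F s p lam mu) = Ann ![p] :=
    Submodule.eq_of_le_of_finrank_le hle (by omega)
  have hmem : ω ∈ LinearMap.range (F s p lam mu) := by
    rw [heq, mem_Ann]
    intro i
    have hi0 : i = 0 := Subsingleton.elim _ _
    subst hi0
    exact hω
  obtain ⟨u, hu⟩ := hmem
  have hu1 := mem_Ann2.1 u.1.2
  exact ⟨u.1, u.2.1, u.2.2, hu1.1, hu1.2, by rw [← hu, F_apply]⟩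

/-- the key step with prescribed values -/
lemma key' {s : T3} (hs : s ∈ SymT) {p : E} {lam mu : ℂ} (h : Nd s p lam mu) (hq : B p p = 0)
    (hs0 : tri s p p p = 0) (a c : ℂ) {ω : E} (hω : p ⬝ᵥ ω = lam * a + 2 * mu * c) :
    ∃ (v : E) (x y : ℂ), B p v = a ∧ tri s p p v = c ∧
      lam • beta v + (2 * mu) • cov s p v + x • beta p + y • cov s p p = ω := by
  obtain ⟨w, hw⟩ := exists_solution h.rank ![a, c]
  have hw1 : B p w = a := hw 0
  have hw2 : tri s p p w = c := hw 1
  have e1 : beta w ⬝ᵥ p = a := by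
    have := B_comm w p
    rw [hw1] at this
    exact this
  have e2 : cov s p w ⬝ᵥ p = c := by
    have := tri_comm23 hs p w p
    rw [hw2] at this
    exact this
  obtain ⟨v, x, y, h1, h2, h3⟩ := key hs h hq hs0
    (ω := ω - (lam • beta w + (2 * mu) • cov s p w)) (by
      rw [dotProduct_sub, hω, dotProduct_comm p]
      simp only [add_dotProduct, smul_dotProduct, smul_eq_mul]
      rw [e1, e2]
      ring)
  refine ⟨v + w, x, y, ?_, ?_, ?_⟩
  · rw [B_add_right, h1, hw1, zero_add]
  · rw [tri_add3, h2, hw2, zero_add]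
  · rw [beta_add, cov_add_right, smul_add, smul_add]
    have h4 : lam • beta v + (2 * mu) • cov s p v + x • beta p + y • cov s p p
        + (lam • beta w + (2 * mu) • cov s p w) = ω := by rw [h3]; abel
    rw [← h4]; abel

end I_SUX

open I_SUX in
/-- ITEM SUX -/
theorem SUX_pf : SUX := by
  intro s hs y hy z
  obtain ⟨a, c, η, θ⟩ := z
  set p := pOf y with hp
  set la := laOf y with hla
  set mu := muOf y with hmu
  obtain ⟨ω, hω⟩ := exists_solution hy.ind
    (fun i => la i * (a i / 2) + 2 * mu i * (c i / 3) + p i ⬝ᵥ (![0, η, θ] : Fin 3 → E) i)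
  have hk := fun i : Fin 3 => key' hs (hy.nd i) (hy.q0 i) (hy.s0 i) (a i / 2) (c i / 3)
    (ω := ω - (![0, η, θ] : Fin 3 → E) i) (by
      rw [dotProduct_sub, hω i]; ring)
  choose v x w h1 h2 h3 using hk
  refine ⟨fun i => (Fin.append (v i) ![x i, w i] : Fin (5 + 2) → ℂ), ?_⟩
  set dy : Y := fun i => (Fin.append (v i) ![x i, w i] : Fin (5 + 2) → ℂ) with hdy
  have hpd : ∀ i, pOf dy i = v i := by
    intro i
    ext k
    simp only [pOf, hdy]
    exact Fin.append_left _ _ _
  have hld : ∀ i, laOf dy i = x i := fun i => rfl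
  have hmd : ∀ i, muOf dy i = w i := fun i => rfl
  have hdom : ∀ i, dom s y dy i = ω - (![0, η, θ] : Fin 3 → E) i := by
    intro i
    rw [← h3 i, dom, hpd, hld, hmd, cov_comm hs (v i) (pOf y i)]
    rw [two_mul, add_smul, smul_add]
    abel
  refine Prod.ext ?_ (Prod.ext ?_ (Prod.ext ?_ ?_))
  · funext i
    simp only [dPhi]
    rw [hpd, B_comm (v i)]
    have := h1 i
    rw [← hp, this]; ring
  · funext i
    simp only [dPhi]
    rw [hpd, tri_comm13 hs (v i), tri_comm23 hs (pOf y i) (v i)]
    have := h2 i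
    rw [← hp, this]; ring
  · simp only [dPhi]
    rw [hdom, hdom]
    simp
  · simp only [dPhi]
    rw [hdom, hdom]
    simp

end Pool.Agent.Work.MP_ea8963_ag.G4
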