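import Pool.Agent.Work.MP_ea8963_ag.G4.Stmts

/-!
Item TGX of block [ea8963 G4]: the section is not tangential.
-/

set_option linter.style.longLine false
set_option linter.unusedVariables false

noncomputable section

open Module Topology

namespace Pool.Agent.Work.MP_ea8963_ag.G4

namespace I_TGX

variable {s : T3} {p : Fin 3 → E} {l : E} {lam mu : Fin 3 → ℂ}

lemma p_ne (h : LinearIndependent ℂ p) (i : Fin 3) : p i ≠ 0 := h.ne_zero i

lemma beta_ind (h : LinearIndependent ℂ p) : LinearIndependent ℂ (fun i => beta (p i)) :=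
  h.map' betaL (LinearMap.ker_eq_bot.2 beta_injective)

lemma pair_ind (h : LinearIndependent ℂ p) {i m : Fin 3} (him : i ≠ m) {c : ℂ} (hc : c ≠ 0) :
    LinearIndependent ℂ ![beta (p m), c • beta (p i)] := by
  have h1 := beta_ind h
  rw [LinearIndependent.pair_iff]
  intro a b hab
  have h2 : LinearIndependent ℂ ![beta (p m), beta (p i)] := by
    have h3 := h1.comp ![m, i] (by
      intro x y hxy
      fin_cases x <;> fin_cases y <;> simp_all)
    convert h3 using 1
    ext x
    fin_cases x <;> rfl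
  rw [LinearIndependent.pair_iff] at h2
  have h4 := h2 a (b * c) (by rw [← hab, smul_smul])
  refine ⟨h4.1, ?_⟩
  rcases mul_eq_zero.1 h4.2 with h5 | h5
  · exact h5
  · exact absurd h5 hc

lemma mu_ne_of_ne (h : Cfg s p l lam mu) {i : Fin 3} (hi : mu i = 0) {m : Fin 3} (hm : m ≠ i) :
    mu m ≠ 0 := by
  intro h0
  have h1 := h.eq i
  have h2 := h.eq m
  rw [hi, zero_smul, add_zero] at h1
  rw [h0, zero_smul, add_zero] at h2
  have hlam : lam i ≠ 0 := by
    intro h3
    rw [h3, zero_smul] at h1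
    exact h.l0 h1
  have h3 := pair_ind h.ind (i := i) (m := m) (Ne.symm hm) hlam
  rw [LinearIndependent.pair_iff] at h3
  have h4 := h3 (lam m) (-1) (by rw [← h1, ← h2]; simp)
  exact one_ne_zero (neg_eq_zero.1 h4.2)

/-- the image of the derivations is small -/
lemma bd1 (h : Cfg s p l lam mu) {i : Fin 3} (hi : mu i = 0) :
    finrank ℂ ((⊤ : Submodule ℂ D).map (evB p l)) ≤ 11 := by
  have h1 := h.eq i
  rw [hi, zero_smul, add_zero] at h1
  have hlam : lam i ≠ 0 := by
    intro h3
    rw [h3, zero_smul] at h1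
    exact h.l0 h1
  have hev := h.ev_mem
  -- indices
  have hj : i ≠ i + 1 := by fin_cases i <;> decide
  have hk : i ≠ i + 2 := by fin_cases i <;> decide
  have hall : ∀ m : Fin 3, m = i ∨ m = i + 1 ∨ m = i + 2 := by
    intro m
    fin_cases i <;> fin_cases m <;> decide
  have e1 := rn_le (evB p l) (evE (p i)) (⊤ : Submodule ℂ D)
  have e2 := rn_le (evB p l) (evE l) ((⊤ : Submodule ℂ D) ⊓ LinearMap.ker (evE (p i)))
  have e3 := rn_le (evB p l) (evE (p (i + 1)))
    ((⊤ : Submodule ℂ D) ⊓ LinearMap.ker (evE (p i)) ⊓ LinearMap.ker (evE l))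
  have e4 := rn_le (evB p l) (evE (p (i + 2)))
    ((⊤ : Submodule ℂ D) ⊓ LinearMap.ker (evE (p i)) ⊓ LinearMap.ker (evE l) ⊓
      LinearMap.ker (evE (p (i + 1))))
  -- first
  have b1 : finrank ℂ ((⊤ : Submodule ℂ D).map (evE (p i))) + 1 ≤ 5 := by
    refine finrank_le_of_ann (a := ![beta (p i)]) ?_ ?_
    · refine LinearIndependent.of_subsingleton (v := ![beta (p i)]) 0 ?_
      exact fun h0 => p_ne h.ind i (beta_eq_zero.1 h0)
    · rintro x ⟨δ, -, rfl⟩ t
      fin_cases t
      exact (hev δ i).1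
  have b2 : finrank ℂ (((⊤ : Submodule ℂ D) ⊓ LinearMap.ker (evE (p i))).map (evE l)) ≤ 1 := by
    have hle : ((⊤ : Submodule ℂ D) ⊓ LinearMap.ker (evE (p i))).map (evE l) ≤
        Submodule.span ℂ {beta (p i)} := by
      rintro x ⟨δ, ⟨-, hδ⟩, rfl⟩
      have hδ' : dE δ (p i) = 0 := hδ
      rw [Submodule.mem_span_singleton]
      refine ⟨δ (lam i), ?_⟩
      rw [evE_apply, h1, dE_smul, dE_beta, hδ', beta_zero, smul_zero, add_zero]
    exact (Submodule.finrank_mono hle).trans (le_of_eq (finrank_span_singleton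
      (fun h0 => p_ne h.ind i (beta_eq_zero.1 h0))))
  have key : ∀ m : Fin 3, i ≠ m → ∀ W : Submodule ℂ D, (∀ δ ∈ W, dE δ l = 0) →
      finrank ℂ (W.map (evE (p m))) + 2 ≤ 5 := by
    intro m hm W hW
    refine finrank_le_of_ann (a := ![beta (p m), l]) ?_ ?_
    · rw [h1]
      exact pair_ind h.ind hm hlam
    · rintro x ⟨δ, hδ, rfl⟩ t
      have hdl := hW δ hδ
      have hm2 := (hev δ m).2
      simp only [evB_apply, evP_apply] at hm2
      rw [hdl, zero_dotProduct, zero_add] at hm2
      fin_cases t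
      · exact (hev δ m).1
      · exact hm2
  have b3 := key (i + 1) hj
    ((⊤ : Submodule ℂ D) ⊓ LinearMap.ker (evE (p i)) ⊓ LinearMap.ker (evE l))
    (fun δ hδ => hδ.2)
  have b4 := key (i + 2) hk
    ((⊤ : Submodule ℂ D) ⊓ LinearMap.ker (evE (p i)) ⊓ LinearMap.ker (evE l) ⊓
      LinearMap.ker (evE (p (i + 1)))) (fun δ hδ => hδ.1.2)
  have b5 : finrank ℂ (((⊤ : Submodule ℂ D) ⊓ LinearMap.ker (evE (p i)) ⊓ LinearMap.ker (evE l) ⊓
      LinearMap.ker (evE (p (i + 1))) ⊓ LinearMap.ker (evE (p (i + 2)))).map (evB p l)) = 0 := by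
    have hz : ((⊤ : Submodule ℂ D) ⊓ LinearMap.ker (evE (p i)) ⊓ LinearMap.ker (evE l) ⊓
      LinearMap.ker (evE (p (i + 1))) ⊓ LinearMap.ker (evE (p (i + 2)))).map (evB p l) = ⊥ := by
      rw [eq_bot_iff]
      rintro x ⟨δ, ⟨⟨⟨⟨-, hi0⟩, hl0⟩, hj0⟩, hk0⟩, rfl⟩
      have hi0' : dE δ (p i) = 0 := hi0
      have hl0' : dE δ l = 0 := hl0
      have hj0' : dE δ (p (i + 1)) = 0 := hj0
      have hk0' : dE δ (p (i + 2)) = 0 := hk0
      rw [Submodule.mem_bot]
      have : δ ∈ ZB p l := by
        rw [mem_ZB]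
        refine ⟨fun m => ?_, hl0'⟩
        rcases hall m with rfl | rfl | rfl
        · exact hi0'
        · exact hj0'
        · exact hk0'
      exact this
    rw [hz]
    exact finrank_bot ℂ _
  omega

/-- the space of the tensors is small -/
lemma bd2 (hGK : GK) (hs : s ∈ SymT) (h : Cfg s p l lam mu) {i : Fin 3} (hi : mu i = 0) :
    finrank ℂ ((ZB p l).map (evT s)) + 7 ≤ finrank ℂ SymT := by
  have h1 := h.eq i
  rw [hi, zero_smul, add_zero] at h1
  have hlam : lam i ≠ 0 := by
    intro h3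
    rw [h3, zero_smul] at h1
    exact h.l0 h1
  set A : Fin 3 → Submodule ℂ E := fun m =>
    if m = i then Submodule.span ℂ {p i} else Ann ![beta (p m), l] with hA
  have hle : (ZB p l).map (evT s) ≤ KK p A := by
    rintro t ⟨δ, hδ, rfl⟩
    have hδ' := mem_ZB.1 hδ
    rw [mem_KK]
    refine ⟨dT_mem δ hs, fun m v hv => ?_⟩
    rw [evT_apply]
    by_cases hm : m = i
    · subst hm
      have hv' : v ∈ Submodule.span ℂ {p m} := by simpa [hA] using hv
      obtain ⟨c, rfl⟩ := Submodule.mem_span_singleton.1 hv'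
      have h2 := d_tri δ s (p m) (p m) (p m)
      rw [h.s0 m, map_zero, hδ'.1 m, tri_zero1, tri_zero2, tri_zero3, add_zero, add_zero,
        add_zero] at h2
      rw [tri_smul3, ← h2, mul_zero]
    · have hv' : v ∈ Ann ![beta (p m), l] := by simpa [hA, hm] using hv
      rw [mem_Ann2] at hv'
      obtain ⟨hv1, hv2⟩ := hv'
      have hmu := mu_ne_of_ne h hi hm
      have hv1' : B (p m) v = 0 := hv1
      have h3 := h.dot_eq m v
      rw [hv1', hv2, mul_zero, zero_add] at h3
      have h6 : tri s (p m) (p m) v = 0 := by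
        rcases mul_eq_zero.1 h3.symm with h4 | h4
        · exact absurd h4 hmu
        · exact h4
      have h3 := h.d_eq hs δ m
      rw [hδ'.1 m, hδ'.2, beta_zero, cov_zero_right, smul_zero, smul_zero, add_zero,
        add_zero] at h3
      have h4 := congrArg (fun x => x ⬝ᵥ v) h3
      simp only [add_dotProduct, smul_dotProduct, zero_dotProduct, smul_eq_mul] at h4
      have h6' : cov s (p m) (p m) ⬝ᵥ v = 0 := h6
      rw [hv1, h6'] at h4
      have h7 : mu m * tri (dT δ s) (p m) (p m) v = 0 := by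
        have : tri (dT δ s) (p m) (p m) v = cov (dT δ s) (p m) (p m) ⬝ᵥ v := rfl
        rw [this]
        linear_combination -h4
      rcases mul_eq_zero.1 h7 with h8 | h8
      · exact absurd h8 hmu
      · exact h8
  have hsum : ∑ m, finrank ℂ (A m) = 7 := by
    have hAi : finrank ℂ (A i) = 1 := by
      show finrank ℂ (if i = i then Submodule.span ℂ {p i} else Ann ![beta (p i), l] :
        Submodule ℂ E) = 1
      rw [if_pos rfl]
      exact finrank_span_singleton (p_ne h.ind i)
    have hAm : ∀ m, m ≠ i → finrank ℂ (A m) = 3 := by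
      intro m hm
      show finrank ℂ (if m = i then Submodule.span ℂ {p i} else Ann ![beta (p m), l] :
        Submodule ℂ E) = 3
      rw [if_neg hm]
      have h5 := finrank_Ann (a := ![beta (p m), l]) (by
        rw [h1]
        exact pair_ind h.ind (Ne.symm hm) hlam)
      omega
    rw [← Finset.add_sum_erase Finset.univ (fun m => finrank ℂ (A m)) (Finset.mem_univ i), hAi,
      Finset.sum_congr rfl (fun m hm => hAm m (Finset.ne_of_mem_erase hm)), Finset.sum_const,
      Finset.card_erase_of_mem (Finset.mem_univ i)]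
    simp
  have h2 := hGK 3 p A h.ind
  rw [hsum] at h2
  have h3 := Submodule.finrank_mono hle
  omega

end I_TGX

open I_TGX in
theorem TGX_pf (hGK : GK) : TGX := by
  intro s hs p l lam mu h h5 i hi
  have h1 := rn (evT s) (evB p l) (⊤ : Submodule ℂ D)
  rw [hs.map_evT, top_inf_eq, top_inf_eq] at h1
  have h2 := bd1 h hi
  have h3 := bd2 hGK hs.1 h hi
  have h4 : LinearMap.ker (evT s) = ZS s := rfl
  have h6 : LinearMap.ker (evB p l) = ZB p l := rfl
  rw [h4, h6] at h1
  omega

end Pool.Agent.Work.MP_ea8963_ag.G4
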