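import Pool.Agent.Work.MP_ea8963_ag.G4.Stmts2

/-!
Block [ea8963 G4], item TUX (helper10): uniqueness of the type.
-/

set_option linter.style.longLine false
set_option linter.unusedVariables false

noncomputable section

open Module Topology

namespace Pool.Agent.Work.MP_ea8963_ag.G4

namespace I_TUX

/-- the entries of a triple -/
def entP (p : Fin 3 → E) (S : Set (Fin 3)) : Set ℂ := {z | ∃ i ∈ S, ∃ k, z = p i k}

lemma entP_countable (p : Fin 3 → E) (S : Set (Fin 3)) : (entP p S).Countable := by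
  refine Set.Countable.mono ?_ (Set.countable_iUnion fun i : Fin 3 => Set.countable_range (p i))
  rintro z ⟨i, -, k, rfl⟩
  exact Set.mem_iUnion.2 ⟨i, k, rfl⟩

/-- derivations which move only one point -/
lemma der {A : Set ℂ} {p : Fin 3 → E} {l : E} (ind : LinearIndependent ℂ p)
    (full : ∀ x ∈ TB p l, ∃ δ ∈ ZA A, evB p l δ = x) (j : Fin 3) (v : E) (hv : B (p j) v = 0) :
    ∃ δ ∈ ZA A, dE δ (p j) = v ∧ ∀ i, i ≠ j → dE δ (p i) = 0 := by
  obtain ⟨m', hm'⟩ := exists_solution ind (fun i => if i = j then -(l ⬝ᵥ v) else 0)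
  obtain ⟨δ, hδ, h⟩ := full (Pi.single j v, m') (by
    intro i
    have h1 := hm' i
    rw [dotProduct_comm] at h1
    by_cases hij : i = j
    · subst hij
      rw [if_pos rfl] at h1
      refine ⟨?_, ?_⟩
      · simpa using hv
      · simp only [Pi.single_eq_same]
        rw [h1]; ring
    · rw [if_neg hij] at h1
      refine ⟨?_, ?_⟩
      · simp only [Pi.single_eq_of_ne hij]
        exact B_zero_right _
      · simp only [Pi.single_eq_of_ne hij]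
        rw [h1]; simp)
  refine ⟨δ, hδ, ?_, ?_⟩
  · have := congrFun (congrArg Prod.fst h) j
    simpa using this
  · intro i hij
    have := congrFun (congrArg Prod.fst h) i
    simpa [Pi.single_eq_of_ne hij] using this

/-- derivations which move only the covector -/
lemma derl {A : Set ℂ} {p : Fin 3 → E} {l : E}
    (full : ∀ x ∈ TB p l, ∃ δ ∈ ZA A, evB p l δ = x) (v : E) (hv : ∀ i, v ⬝ᵥ p i = 0) :
    ∃ δ ∈ ZA A, dE δ l = v ∧ ∀ i, dE δ (p i) = 0 := by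
  obtain ⟨δ, hδ, h⟩ := full (0, v) (by
    intro i
    refine ⟨B_zero_right _, ?_⟩
    simp [hv i])
  refine ⟨δ, hδ, congrArg Prod.snd h, ?_⟩
  intro i
  exact congrFun (congrArg Prod.fst h) i

lemma mem_ZA_union {A A' : Set ℂ} {δ : D} (h : δ ∈ ZA A) (h' : δ ∈ ZA A') : δ ∈ ZA (A ∪ A') := by
  rintro a (ha | ha)
  · exact h a ha
  · exact h' a ha

lemma ext_step (hGQX : GQX) {A : Set ℂ} (hA : A.Countable) {σ0 : ℂ ≃+* ℂ} {p : Fin 3 → E} {l : E}
    {c : Fin 3 → E} {m : E} (q0 : ∀ i, B (p i) (p i) = 0) (q0' : ∀ i, B (c i) (c i) = 0)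
    (ind : LinearIndependent ℂ p) (ind' : LinearIndependent ℂ c)
    (full : ∀ x ∈ TB p l, ∃ δ ∈ ZA A, evB p l δ = x)
    (full' : ∀ x ∈ TB c m, ∃ δ ∈ ZA (σ0 '' A), evB c m δ = x)
    (S : Set (Fin 3)) (j : Fin 3) (hj : j ∉ S) (σ : ℂ ≃+* ℂ) (h1 : ∀ a ∈ A, σ a = σ0 a)
    (h2 : ∀ i ∈ S, mE σ (p i) = c i) :
    ∃ σ' : ℂ ≃+* ℂ, (∀ a ∈ A, σ' a = σ0 a) ∧ ∀ i ∈ insert j S, mE σ' (p i) = c i := by
  obtain ⟨σ', hσ, hp⟩ := hGQX (A ∪ entP p S) (hA.union (entP_countable p S)) σ (p j) (c j)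
    (ind.ne_zero j) (ind'.ne_zero j) (q0 j) (q0' j)
    (by
      intro v hv
      obtain ⟨δ, hδ, e1, e2⟩ := der ind full j v hv
      refine ⟨δ, mem_ZA_union hδ ?_, e1⟩
      rintro z ⟨i, hi, k, rfl⟩
      have hij : i ≠ j := fun h => hj (h ▸ hi)
      exact congrFun (e2 i hij) k)
    (by
      intro v hv
      obtain ⟨δ, hδ, e1, e2⟩ := der ind' full' j v hv
      refine ⟨δ, ?_, e1⟩
      rintro _ ⟨a, ha | ⟨i, hi, k, rfl⟩, rfl⟩
      · rw [h1 a ha]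
        exact hδ _ ⟨a, ha, rfl⟩
      · have hij : i ≠ j := fun h => hj (h ▸ hi)
        have h3 : σ (p i k) = c i k := congrFun (h2 i hi) k
        rw [h3]
        exact congrFun (e2 i hij) k)
  refine ⟨σ', fun a ha => (hσ a (Or.inl ha)).trans (h1 a ha), ?_⟩
  rintro i (rfl | hi)
  · exact hp
  · rw [← h2 i hi]
    funext k
    exact hσ _ (Or.inr ⟨i, hi, k, rfl⟩)

lemma pair_step (hGQX : GQX) (hGLX : GLX) {A : Set ℂ} (hA : A.Countable) {σ0 : ℂ ≃+* ℂ}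
    {p : Fin 3 → E} {l : E}
    {c : Fin 3 → E} {m : E} (q0 : ∀ i, B (p i) (p i) = 0) (q0' : ∀ i, B (c i) (c i) = 0)
    (lp : ∀ i, l ⬝ᵥ p i = 0) (lp' : ∀ i, m ⬝ᵥ c i = 0)
    (ind : LinearIndependent ℂ p) (ind' : LinearIndependent ℂ c)
    (full : ∀ x ∈ TB p l, ∃ δ ∈ ZA A, evB p l δ = x)
    (full' : ∀ x ∈ TB c m, ∃ δ ∈ ZA (σ0 '' A), evB c m δ = x) :
    ∃ σ' : ℂ ≃+* ℂ, (∀ a ∈ A, σ' a = σ0 a) ∧ mP σ' p = c ∧ mE σ' l = m := by
  obtain ⟨σ1, h1, g1⟩ := ext_step hGQX hA q0 q0' ind ind' full full' ∅ 0 (by simp) σ0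
    (fun a _ => rfl) (by simp)
  obtain ⟨σ2, h2, g2⟩ := ext_step hGQX hA q0 q0' ind ind' full full' (insert 0 ∅) 1 (by simp) σ1
    h1 g1
  obtain ⟨σ3, h3, g3⟩ := ext_step hGQX hA q0 q0' ind ind' full full' (insert 1 (insert 0 ∅)) 2
    (by simp) σ2 h2 g2
  have g : ∀ i, mE σ3 (p i) = c i := by
    intro i
    apply g3
    fin_cases i <;> simp
  obtain ⟨σ4, h4, g4⟩ := hGLX (Fin 5) (A ∪ entP p Set.univ) (hA.union (entP_countable p _)) σ3
    (Set.range p)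
    (by
      rintro _ ⟨i, rfl⟩ k
      exact IntermediateField.subset_adjoin ℚ _ (Or.inr ⟨i, trivial, k, rfl⟩))
    l m
    (by
      rintro _ ⟨i, rfl⟩
      have := lp i
      rw [dotProduct_comm] at this
      exact this)
    (by
      rintro _ ⟨i, rfl⟩
      have := lp' i
      rw [dotProduct_comm, ← g i] at this
      exact this)
    (by
      intro u hu
      obtain ⟨δ, hδ, e1, e2⟩ := derl full u (by
        intro i
        rw [dotProduct_comm]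
        exact hu _ ⟨i, rfl⟩)
      refine ⟨δ, mem_ZA_union hδ ?_, fun k => congrFun e1 k⟩
      rintro z ⟨i, -, k, rfl⟩
      exact congrFun (e2 i) k)
    (by
      intro u hu
      obtain ⟨δ, hδ, e1, e2⟩ := derl full' u (by
        intro i
        rw [dotProduct_comm, ← g i]
        exact hu _ ⟨i, rfl⟩)
      refine ⟨δ, ?_, fun k => congrFun e1 k⟩
      rintro _ ⟨a, ha | ⟨i, -, k, rfl⟩, rfl⟩
      · rw [h3 a ha]
        exact hδ _ ⟨a, ha, rfl⟩
      · have h5 : σ3 (p i k) = c i k := congrFun (g i) k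
        rw [h5]
        exact congrFun (e2 i) k)
  refine ⟨σ4, fun a ha => (h4 a (Or.inl ha)).trans (h3 a ha), ?_, funext g4⟩
  funext i
  rw [← g i]
  funext k
  exact h4 _ (Or.inr ⟨i, trivial, k, rfl⟩)

/-! ### the tensor -/

/-- triples of indices -/
abbrev I3 : Type := Fin 5 × Fin 5 × Fin 5

/-- a tensor as a family -/
def flat (t : T3) : I3 → ℂ := fun q => t q.1 q.2.1 q.2.2

/-- rows of the symmetry equations -/
def rS (q q' : I3) : I3 → ℂ := Pi.single q 1 - Pi.single q' 1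

/-- row of the equation `t (p, p, v) = 0` -/
def rK (p v : E) : I3 → ℂ := fun q => p q.1 * p q.2.1 * v q.2.2

lemma sum_rS (q q' : I3) (x : I3 → ℂ) : ∑ r, rS q q' r * x r = x q - x q' := by
  simp [rS, sub_mul, Finset.sum_sub_distrib, Pi.single_apply]

lemma sum_rK (p v : E) (t : T3) : ∑ q, rK p v q * flat t q = tri t p p v := by
  rw [tri_eq, Fintype.sum_prod_type]
  refine Finset.sum_congr rfl fun i _ => ?_
  rw [Fintype.sum_prod_type]
  refine Finset.sum_congr rfl fun j _ => Finset.sum_congr rfl fun k _ => ?_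
  simp only [rK, flat]
  ring

/-- the vector of CRX -/
def cr (p l : E) (u w z : Fin 5) : E :=
  cross (beta p) l (Pi.single u 1) (Pi.single w 1) (Pi.single z 1)

/-- the rows -/
def Rows (p : Fin 3 → E) (l : E) (p' : Fin 3 → E) (l' : E) : Set (I3 → ℂ) :=
  {r | (∃ i j k, r = rS (i, j, k) (j, i, k)) ∨ (∃ i j k, r = rS (i, j, k) (i, k, j)) ∨
    (∃ (i : Fin 3) (u w z : Fin 5), r = rK (p i) (cr (p i) l u w z)) ∨
    ∃ (i : Fin 3) (u w z : Fin 5), r = rK (p' i) (cr (p' i) l' u w z)}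

lemma rows_iff (hCRX : CRX) {p : Fin 3 → E} {l : E} {p' : Fin 3 → E} {l' : E} (hN : Nt p l)
    (hN' : Nt p' l') (t : T3) :
    (∀ r ∈ Rows p l p' l', ∑ q, r q * flat t q = 0) ↔ t ∈ KB p l ⊓ KB p' l' := by
  constructor
  · intro h
    have ht : t ∈ SymT := by
      intro i j k
      refine ⟨?_, ?_⟩
      · have := h _ (Or.inl ⟨i, j, k, rfl⟩)
        rw [sum_rS] at this
        exact sub_eq_zero.1 this
      · have := h _ (Or.inr (Or.inl ⟨i, j, k, rfl⟩))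
        rw [sum_rS] at this
        exact sub_eq_zero.1 this
    refine ⟨(hCRX p l hN t ht).2 fun i u w z => ?_, (hCRX p' l' hN' t ht).2 fun i u w z => ?_⟩
    · have := h _ (Or.inr (Or.inr (Or.inl ⟨i, u, w, z, rfl⟩)))
      rw [sum_rK] at this
      exact this
    · have := h _ (Or.inr (Or.inr (Or.inr ⟨i, u, w, z, rfl⟩)))
      rw [sum_rK] at this
      exact this
  · rintro ⟨h, h'⟩
    have ht : t ∈ SymT := (mem_KB.1 h).1
    rintro r (⟨i, j, k, rfl⟩ | ⟨i, j, k, rfl⟩ | ⟨i, u, w, z, rfl⟩ | ⟨i, u, w, z, rfl⟩)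
    · rw [sum_rS]
      exact sub_eq_zero.2 (ht i j k).1
    · rw [sum_rS]
      exact sub_eq_zero.2 (ht i j k).2
    · rw [sum_rK]
      exact (hCRX p l hN t ht).1 h i u w z
    · rw [sum_rK]
      exact (hCRX p' l' hN' t ht).1 h' i u w z

/-! ### automorphisms -/

lemma mE_add (σ : ℂ ≃+* ℂ) (x y : E) : mE σ (x + y) = mE σ x + mE σ y := by
  funext i; simp [mE]

lemma mE_smul (σ : ℂ ≃+* ℂ) (a : ℂ) (x : E) : mE σ (a • x) = σ a • mE σ x := by
  funext i; simp [mE]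

lemma mE_dot (σ : ℂ ≃+* ℂ) (x y : E) : σ (x ⬝ᵥ y) = mE σ x ⬝ᵥ mE σ y := by
  simp [dotProduct, mE]

lemma mE_single (σ : ℂ ≃+* ℂ) (u : Fin 5) : mE σ (Pi.single u 1) = Pi.single u 1 := by
  funext i
  simp only [mE, Pi.single_apply]
  split_ifs <;> simp

lemma mE_beta (σ : ℂ ≃+* ℂ) (x : E) : mE σ (beta x) = beta (mE σ x) := by
  funext i
  have h2 : σ 2 = 2 := map_ofNat σ 2
  fin_cases i <;> simp [mE, beta, h2]

lemma mE_cross (σ : ℂ ≃+* ℂ) (a b u w z : E) :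
    mE σ (cross a b u w z) = cross (mE σ a) (mE σ b) (mE σ u) (mE σ w) (mE σ z) := by
  simp only [cross, mE_add, mE_smul, map_sub, map_mul, mE_dot]

lemma mE_cr (σ : ℂ ≃+* ℂ) (p l : E) (u w z : Fin 5) :
    mE σ (cr p l u w z) = cr (mE σ p) (mE σ l) u w z := by
  simp only [cr, mE_cross, mE_beta, mE_single]

lemma map_rS (σ : ℂ ≃+* ℂ) (q q' r : I3) : σ (rS q q' r) = rS q q' r := by
  simp only [rS, Pi.sub_apply, Pi.single_apply]
  split_ifs <;> simp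

lemma map_rK (σ : ℂ ≃+* ℂ) (p v : E) (q : I3) : σ (rK p v q) = rK (mE σ p) (mE σ v) q := by
  simp [rK, mE]

/-- the rows of the image -/
lemma rows_map (σ : ℂ ≃+* ℂ) {p : Fin 3 → E} {l : E} {p' : Fin 3 → E} {l' : E}
    {c : Fin 3 → E} {m : E} {c' : Fin 3 → E} {m' : E} (h1 : mP σ p = c) (h2 : mE σ l = m)
    (h3 : mP σ p' = c') (h4 : mE σ l' = m') (x : I3 → ℂ) :
    (∀ r ∈ Rows p l p' l', ∑ q, σ (r q) * x q = 0) ↔
      ∀ r ∈ Rows c m c' m', ∑ q, r q * x q = 0 := by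
  have e1 : ∀ i, mE σ (p i) = c i := fun i => congrFun h1 i
  have e3 : ∀ i, mE σ (p' i) = c' i := fun i => congrFun h3 i
  constructor
  · intro h
    rintro r (⟨i, j, k, rfl⟩ | ⟨i, j, k, rfl⟩ | ⟨i, u, w, z, rfl⟩ | ⟨i, u, w, z, rfl⟩)
    · have := h _ (Or.inl ⟨i, j, k, rfl⟩)
      simpa only [map_rS] using this
    · have := h _ (Or.inr (Or.inl ⟨i, j, k, rfl⟩))
      simpa only [map_rS] using this
    · have := h _ (Or.inr (Or.inr (Or.inl ⟨i, u, w, z, rfl⟩)))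
      simpa only [map_rK, mE_cr, e1, h2] using this
    · have := h _ (Or.inr (Or.inr (Or.inr ⟨i, u, w, z, rfl⟩)))
      simpa only [map_rK, mE_cr, e3, h4] using this
  · intro h
    rintro r (⟨i, j, k, rfl⟩ | ⟨i, j, k, rfl⟩ | ⟨i, u, w, z, rfl⟩ | ⟨i, u, w, z, rfl⟩)
    · simp only [map_rS]
      exact h _ (Or.inl ⟨i, j, k, rfl⟩)
    · simp only [map_rS]
      exact h _ (Or.inr (Or.inl ⟨i, j, k, rfl⟩))
    · simp only [map_rK, mE_cr, e1, h2]
      exact h _ (Or.inr (Or.inr (Or.inl ⟨i, u, w, z, rfl⟩)))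
    · simp only [map_rK, mE_cr, e3, h4]
      exact h _ (Or.inr (Or.inr (Or.inr ⟨i, u, w, z, rfl⟩)))

/-! ### the rows are in the field -/

section field

variable (K : IntermediateField ℚ ℂ)

lemma beta_memK {p : E} (hp : ∀ k, p k ∈ K) (k : Fin 5) : beta p k ∈ K := by
  have h2 : (2 : ℂ) ∈ K := ofNat_mem K 2
  fin_cases k
  · exact hp 1
  · exact hp 0
  · exact hp 3
  · exact hp 2
  · exact K.mul_mem h2 (hp 4)

lemma single_memK (u k : Fin 5) : (Pi.single u 1 : E) k ∈ K := by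
  rw [Pi.single_apply]
  split_ifs
  · exact K.one_mem
  · exact K.zero_mem

lemma cr_memK {p l : E} (hp : ∀ k, p k ∈ K) (hl : ∀ k, l k ∈ K) (u w z k : Fin 5) :
    cr p l u w z k ∈ K := by
  have hb := beta_memK K hp
  simp only [cr, cross, dotProduct_single, mul_one, Pi.add_apply, Pi.smul_apply, smul_eq_mul]
  refine K.add_mem (K.add_mem ?_ ?_) ?_ <;>
  exact K.mul_mem (K.sub_mem (K.mul_mem (hb _) (hl _)) (K.mul_mem (hb _) (hl _)))
    (single_memK K _ _)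

lemma rK_memK {p v : E} (hp : ∀ k, p k ∈ K) (hv : ∀ k, v k ∈ K) (q : I3) : rK p v q ∈ K :=
  K.mul_mem (K.mul_mem (hp _) (hp _)) (hv _)

lemma rS_memK (q q' r : I3) : rS q q' r ∈ K := by
  simp only [rS, Pi.sub_apply, Pi.single_apply]
  refine K.sub_mem ?_ ?_ <;> split_ifs
  · exact K.one_mem
  · exact K.zero_mem
  · exact K.one_mem
  · exact K.zero_mem

lemma rows_memK {p : Fin 3 → E} {l : E} {p' : Fin 3 → E} {l' : E} (hp : ∀ i k, p i k ∈ K)
    (hl : ∀ k, l k ∈ K) (hp' : ∀ i k, p' i k ∈ K) (hl' : ∀ k, l' k ∈ K) (r : I3 → ℂ)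
    (hr : r ∈ Rows p l p' l') (q : I3) : r q ∈ K := by
  rcases hr with ⟨i, j, k, rfl⟩ | ⟨i, j, k, rfl⟩ | ⟨i, u, w, z, rfl⟩ | ⟨i, u, w, z, rfl⟩
  · exact rS_memK K _ _ _
  · exact rS_memK K _ _ _
  · exact rK_memK K (hp i) (cr_memK K (hp i) hl u w z) q
  · exact rK_memK K (hp' i) (cr_memK K (hp' i) hl' u w z) q

end field

lemma entB_countable (p : Fin 3 → E) (l : E) : (entB p l).Countable := by
  refine Set.Countable.mono ?_ ((entP_countable p Set.univ).union (Set.countable_range l))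
  rintro z (⟨i, j, rfl⟩ | ⟨j, rfl⟩)
  · exact Or.inl ⟨i, trivial, j, rfl⟩
  · exact Or.inr ⟨j, rfl⟩

lemma ZB_le (p : Fin 3 → E) (l : E) {δ : D} (h : δ ∈ ZB p l) : δ ∈ ZA (entB p l) := by
  rw [mem_ZB] at h
  rintro z (⟨i, j, rfl⟩ | ⟨j, rfl⟩)
  · exact congrFun (h.1 i) j
  · exact congrFun h.2 j

lemma image_entB {σ : ℂ ≃+* ℂ} {p : Fin 3 → E} {l : E} {c : Fin 3 → E} {m : E}
    (h1 : mP σ p = c) (h2 : mE σ l = m) : σ '' entB p l = entB c m := by
  subst h1 h2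
  ext z
  constructor
  · rintro ⟨_, ⟨i, j, rfl⟩ | ⟨j, rfl⟩, rfl⟩
    · exact Or.inl ⟨i, j, rfl⟩
    · exact Or.inr ⟨j, rfl⟩
  · rintro (⟨i, j, rfl⟩ | ⟨j, rfl⟩)
    · exact ⟨_, Or.inl ⟨i, j, rfl⟩, rfl⟩
    · exact ⟨_, Or.inr ⟨j, rfl⟩, rfl⟩

end I_TUX

open I_TUX in
theorem TUX_pf (hGQX : GQX) (hGLX : GLX) (hCRX : CRX) : TUX := by
  intro s p l p' l' t c m c' m' hs ht
  -- first configuration
  obtain ⟨σ1, -, h1, h2⟩ := pair_step hGQX hGLX (A := ∅) Set.countable_empty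
    (σ0 := RingEquiv.refl ℂ) hs.q0 ht.q0 hs.lp ht.lp hs.ind ht.ind
    (fun x hx => by
      obtain ⟨δ, hδ⟩ := hs.full1 x hx
      exact ⟨δ, fun a ha => absurd ha (Set.notMem_empty a), hδ⟩)
    (fun x hx => by
      obtain ⟨δ, hδ⟩ := ht.full1 x hx
      refine ⟨δ, ?_, hδ⟩
      rintro _ ⟨a, ha, -⟩
      exact absurd ha (Set.notMem_empty a))
  -- second configuration
  obtain ⟨σ2, g, h3, h4⟩ := pair_step hGQX hGLX (A := entB p l) (entB_countable p l)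
    (σ0 := σ1) hs.q0' ht.q0' hs.lp' ht.lp' hs.ind' ht.ind'
    (fun x hx => by
      obtain ⟨δ, hδ, e⟩ := hs.full2 x hx
      exact ⟨δ, ZB_le p l hδ, e⟩)
    (fun x hx => by
      obtain ⟨δ, hδ, e⟩ := ht.full2 x hx
      refine ⟨δ, ?_, e⟩
      rw [image_entB h1 h2]
      exact ZB_le c m hδ)
  have h1' : mP σ2 p = c := by
    rw [← h1]
    funext i k
    exact g _ (Or.inl ⟨i, k, rfl⟩)
  have h2' : mE σ2 l = m := by
    rw [← h2]
    funext k
    exact g _ (Or.inr ⟨k, rfl⟩)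
  -- the tensor
  have hsub : ∀ z ∈ entB p l ∪ entB p' l',
      z ∈ IntermediateField.adjoin ℚ (entB p l ∪ entB p' l') :=
    fun z hz => IntermediateField.subset_adjoin ℚ _ hz
  obtain ⟨σ3, g3, h5⟩ := hGLX I3 (entB p l ∪ entB p' l')
    ((entB_countable p l).union (entB_countable p' l')) σ2 (Rows p l p' l')
    (fun r hr q => rows_memK _ (fun i k => hsub _ (Or.inl (Or.inl ⟨i, k, rfl⟩)))
      (fun k => hsub _ (Or.inl (Or.inr ⟨k, rfl⟩))) (fun i k => hsub _ (Or.inr (Or.inl ⟨i, k, rfl⟩)))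
      (fun k => hsub _ (Or.inr (Or.inr ⟨k, rfl⟩))) r hr q)
    (flat s) (flat t) ((rows_iff hCRX hs.nt hs.nt' s).2 hs.sK)
    ((rows_map σ2 h1' h2' h3 h4 (flat t)).2 ((rows_iff hCRX ht.nt ht.nt' t).2 ht.sK))
    (by
      intro u hu
      have hT : (fun i j k => u (i, j, k) : T3) ∈ KB p l ⊓ KB p' l' :=
        (rows_iff hCRX hs.nt hs.nt' _).1 hu
      obtain ⟨δ, hδ, e⟩ := hs.full3 _ hT
      refine ⟨δ, mem_ZA_union (ZB_le _ _ hδ.1) (ZB_le _ _ hδ.2), ?_⟩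
      rintro ⟨i, j, k⟩
      exact congrFun (congrFun (congrFun e i) j) k)
    (by
      intro u hu
      have hT : (fun i j k => u (i, j, k) : T3) ∈ KB c m ⊓ KB c' m' :=
        (rows_iff hCRX ht.nt ht.nt' _).1 ((rows_map σ2 h1' h2' h3 h4 u).1 hu)
      obtain ⟨δ, hδ, e⟩ := ht.full3 _ hT
      refine ⟨δ, ?_, ?_⟩
      · rw [Set.image_union, image_entB h1' h2', image_entB h3 h4]
        exact mem_ZA_union (ZB_le _ _ hδ.1) (ZB_le _ _ hδ.2)
      · rintro ⟨i, j, k⟩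
        exact congrFun (congrFun (congrFun e i) j) k)
  refine ⟨σ3, ?_, ?_, ?_, ?_, ?_⟩
  · funext i j k
    exact h5 (i, j, k)
  · rw [← h1']
    funext i k
    exact g3 _ (Or.inl (Or.inl ⟨i, k, rfl⟩))
  · rw [← h2']
    funext k
    exact g3 _ (Or.inl (Or.inr ⟨k, rfl⟩))
  · rw [← h3]
    funext i k
    exact g3 _ (Or.inr (Or.inl ⟨i, k, rfl⟩))
  · rw [← h4]
    funext k
    exact g3 _ (Or.inr (Or.inr ⟨k, rfl⟩))

end Pool.Agent.Work.MP_ea8963_ag.G4
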