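import Pool.Agent.Work.MP_ea8963_ag.G4.Stmts

/-!
Block [ea8963 G4], item TWX: the nodes of the first section are not on the second hyperplane.
-/

noncomputable section

open Module

namespace Pool.Agent.Work.MP_ea8963_ag.G4

namespace I_TWX

/-- two covectors, one not a multiple of the other -/
lemma indep {l m : E} (hl : l ≠ 0) (h : ∀ c : ℂ, m ≠ c • l) : LinearIndependent ℂ ![l, m] := by
  rw [LinearIndependent.pair_iff]
  intro a b hab
  have hb : b = 0 := by
    by_contra hb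
    refine h (-(b⁻¹ * a)) ?_
    have h1 : b • m = -(a • l) := by
      rw [eq_neg_iff_add_eq_zero, add_comm]; exact hab
    have h2 : m = b⁻¹ • (b • m) := by rw [smul_smul, inv_mul_cancel₀ hb, one_smul]
    rw [h2, h1, smul_neg, smul_smul, neg_smul]
  rw [hb, zero_smul, add_zero] at hab
  rcases smul_eq_zero.1 hab with h1 | h1
  · exact ⟨h1, hb⟩
  · exact absurd h1 hl

end I_TWX

open I_TWX in
theorem TWX_pf (hLNX : LNX) (hNCX : NCX) : TWX := by
  intro s hs p l lam mu p' l' lam' mu' hC hO h5 i hi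
  obtain ⟨δ, hδ, hc⟩ := hLNX s hs p' l' lam' mu' hO.toCfg (ZS s ⊓ ZB p l) inf_le_left h5
  have hδS : δ ∈ ZS s := hδ.1
  have hδB := mem_ZB.1 hδ.2
  have hdl : dE δ l' ⬝ᵥ p i = 0 := by
    have h1 := d_dot δ l' (p i)
    rw [hi, map_zero, hδB.1 i, dotProduct_zero, add_zero] at h1
    exact h1.symm
  have hind := indep hO.l0 hc
  have hfin := finrank_Ann hind
  have hle : Submodule.span ℂ (Set.range p') ≤ Ann ![l', dE δ l'] := by
    rw [Submodule.span_le]
    rintro _ ⟨j, rfl⟩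
    change p' j ∈ Ann ![l', dE δ l']
    rw [mem_Ann2]
    exact ⟨hO.toCfg.lp j, hO.toCfg.dl_p hs hδS j⟩
  have hspan : finrank ℂ (Submodule.span ℂ (Set.range p')) = 3 := by
    rw [finrank_span_eq_card hO.ind]; rfl
  have heq := Submodule.eq_of_le_of_finrank_eq hle (by omega)
  have hmem : p i ∈ Submodule.span ℂ (Set.range p') := by
    rw [heq, mem_Ann2]
    exact ⟨hi, hdl⟩
  rw [Submodule.mem_span_range_iff_exists_fun] at hmem
  obtain ⟨x, hx⟩ := hmem
  obtain ⟨j, c, hcj⟩ := hO.con x (by rw [hx]; exact hC.q0 i) (by rw [hx]; exact hC.s0 i)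
  rw [hx] at hcj
  have hne : p i ≠ 0 := hC.ind.ne_zero i
  have hc0 : c ≠ 0 := by
    rintro rfl
    exact hne (by rw [hcj, zero_smul])
  have h1 : p' j = c⁻¹ • p i := by rw [hcj, smul_smul, inv_mul_cancel₀ hc0, one_smul]
  refine hNCX s hs p' l' lam' mu' hO.toCfg hO.bij δ hδS hc j (δ c⁻¹ * c) ?_
  rw [mul_smul, ← hcj]
  conv_lhs => rw [h1]
  rw [dE_smul, hδB.1 i, smul_zero, add_zero]

end Pool.Agent.Work.MP_ea8963_ag.G4
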