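import Pool.Agent.Work.MP_ea8963_ag.G4.Stmts2

/-!
Block [ea8963 G4], item XEX: one explicit cubic with a three nodal hyperplane section.
-/

set_option linter.style.longLine false
set_option linter.unusedVariables false
set_option linter.unusedSimpArgs false

noncomputable section

open Module Topology

namespace Pool.Agent.Work.MP_ea8963_ag.G4

namespace I_XEX

/-- coordinate forms -/
def ee (i : Fin 5) : E := Pi.single i 1

lemma ee_dot (i : Fin 5) (x : E) : ee i ⬝ᵥ x = x i := by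
  simp [ee]

/-- the cubic -/
def ss : T3 := (1 / 6 : ℂ) • (sp (ee 2) (ee 0) (ee 0) + sp (ee 2) (ee 1) (ee 1)
  + sp (ee 0) (ee 3) (ee 3) + sp (ee 0) (ee 4) (ee 4) + (2 : ℂ) • sp (ee 1) (ee 3) (ee 3)
  + (-1 : ℂ) • sp (ee 1) (ee 4) (ee 4) + sp (ee 0) (ee 1) (ee 4)
  + (-1 : ℂ) • sp (ee 4) (ee 4) (ee 4))

lemma ss_mem : ss ∈ SymT := by
  refine SymT.smul_mem _ ?_
  refine SymT.add_mem (SymT.add_mem (SymT.add_mem (SymT.add_mem (SymT.add_mem (SymT.add_mem
    (SymT.add_mem (sp_mem _ _ _) (sp_mem _ _ _)) (sp_mem _ _ _)) (sp_mem _ _ _))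
    (SymT.smul_mem _ (sp_mem _ _ _))) (SymT.smul_mem _ (sp_mem _ _ _))) (sp_mem _ _ _))
    (SymT.smul_mem _ (sp_mem _ _ _))

lemma tri_ss (x y z : E) : tri ss x y z =
    (1 / 3) * (x 2 * y 0 * z 0 + x 0 * y 2 * z 0 + x 0 * y 0 * z 2)
    + (1 / 3) * (x 2 * y 1 * z 1 + x 1 * y 2 * z 1 + x 1 * y 1 * z 2)
    + (1 / 3) * (x 0 * y 3 * z 3 + x 3 * y 0 * z 3 + x 3 * y 3 * z 0)
    + (1 / 3) * (x 0 * y 4 * z 4 + x 4 * y 0 * z 4 + x 4 * y 4 * z 0)
    + (2 / 3) * (x 1 * y 3 * z 3 + x 3 * y 1 * z 3 + x 3 * y 3 * z 1)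
    - (1 / 3) * (x 1 * y 4 * z 4 + x 4 * y 1 * z 4 + x 4 * y 4 * z 1)
    + (1 / 6) * (x 0 * y 1 * z 4 + x 1 * y 0 * z 4 + x 0 * y 4 * z 1 + x 4 * y 0 * z 1
      + x 1 * y 4 * z 0 + x 4 * y 1 * z 0)
    - x 4 * y 4 * z 4 := by
  rw [ss, tri_smul_tensor]
  simp only [tri_add_tensor, tri_smul_tensor, tri_sp, ee_dot]
  ring

/-- the explicit covector -/
def cc (x y : E) : E := ![
  (1 / 3) * (x 2 * y 0 + x 0 * y 2) + (1 / 3) * (x 3 * y 3) + (1 / 3) * (x 4 * y 4)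
    + (1 / 6) * (x 1 * y 4 + x 4 * y 1),
  (1 / 3) * (x 2 * y 1 + x 1 * y 2) + (2 / 3) * (x 3 * y 3) - (1 / 3) * (x 4 * y 4)
    + (1 / 6) * (x 0 * y 4 + x 4 * y 0),
  (1 / 3) * (x 0 * y 0) + (1 / 3) * (x 1 * y 1),
  (1 / 3) * (x 0 * y 3 + x 3 * y 0) + (2 / 3) * (x 1 * y 3 + x 3 * y 1),
  (1 / 3) * (x 0 * y 4 + x 4 * y 0) - (1 / 3) * (x 1 * y 4 + x 4 * y 1)
    + (1 / 6) * (x 0 * y 1 + x 1 * y 0) - x 4 * y 4]

lemma cov_ss (x y : E) : cov ss x y = cc x y := by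
  have h : ∀ k, cov ss x y k = tri ss x y (Pi.single k 1) := by
    intro k; simp [tri]
  ext k
  rw [h, tri_ss]
  fin_cases k <;> simp [cc, Pi.single_apply]

/-- the data -/
def yy : Y := ![![1, 0, 0, 0, 0, 0, 3], ![0, 1, 0, 0, 0, 0, 3], ![1, -1, 0, 0, 1, 0, 3 / 2]]

def q0 : E := ![1, 0, 0, 0, 0]
def q1 : E := ![0, 1, 0, 0, 0]
def q2 : E := ![1, -1, 0, 0, 1]

lemma p0 : pOf yy 0 = q0 := by
  ext k; fin_cases k <;> simp [pOf, yy, q0]
lemma p1 : pOf yy 1 = q1 := by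
  ext k; fin_cases k <;> simp [pOf, yy, q1]
lemma p2 : pOf yy 2 = q2 := by
  ext k; fin_cases k <;> simp [pOf, yy, q2]

lemma la0 (i : Fin 3) : laOf yy i = 0 := by
  fin_cases i <;> rfl
lemma mu0 : muOf yy 0 = 3 := rfl
lemma mu1 : muOf yy 1 = 3 := rfl
lemma mu2 : muOf yy 2 = 3 / 2 := rfl

def ll : E := ![0, 0, 1, 0, 0]

lemma c0 : cov ss q0 q0 = (1 / 3 : ℂ) • ll := by
  rw [cov_ss]; ext k; fin_cases k <;> simp [cc, q0, ll]
lemma c1 : cov ss q1 q1 = (1 / 3 : ℂ) • ll := by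
  rw [cov_ss]; ext k; fin_cases k <;> simp [cc, q1, ll]
lemma c2 : cov ss q2 q2 = (2 / 3 : ℂ) • ll := by
  rw [cov_ss]; ext k; fin_cases k <;> simp [cc, q2, ll] <;> norm_num

lemma n0 : Nd ss q0 0 3 := by
  constructor
  · rw [c0, LinearIndependent.pair_iff]
    intro a b hab
    have h1 := congrFun hab 1
    have h2 := congrFun hab 2
    simp [beta, q0, ll] at h1 h2
    exact ⟨h1, h2⟩
  · intro v x y h1 h2 h3
    rw [c0, cov_ss] at h3
    rw [tri, c0] at h2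
    have g0 := congrFun h3 0
    have g1 := congrFun h3 1
    have g2 := congrFun h3 2
    have g3 := congrFun h3 3
    have g4 := congrFun h3 4
    simp [beta, q0, ll, cc] at g0 g1 g2 g3 g4
    simp [B_def, q0] at h1
    simp [ll, dotProduct, Fin.sum_univ_succ] at h2
    refine ⟨v 0, ?_⟩
    ext k
    fin_cases k
    · simp [q0]
    · simp [q0, h1]
    · simp [q0, h2]
    · simp [q0, g3]
    · simp [q0]
      linear_combination (3 : ℂ) * g4 - (1 / 2 : ℂ) * h1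

lemma n1 : Nd ss q1 0 3 := by
  constructor
  · rw [c1, LinearIndependent.pair_iff]
    intro a b hab
    have h1 := congrFun hab 0
    have h2 := congrFun hab 2
    simp [beta, q1, ll] at h1 h2
    exact ⟨h1, h2⟩
  · intro v x y h1 h2 h3
    rw [c1, cov_ss] at h3
    rw [tri, c1] at h2
    have g0 := congrFun h3 0
    have g1 := congrFun h3 1
    have g2 := congrFun h3 2
    have g3 := congrFun h3 3
    have g4 := congrFun h3 4
    simp [beta, q1, ll, cc] at g0 g1 g2 g3 g4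
    simp [B_def, q1] at h1
    simp [ll, dotProduct, Fin.sum_univ_succ] at h2
    refine ⟨v 1, ?_⟩
    ext k
    fin_cases k
    · simp [q1, h1]
    · simp [q1]
    · simp [q1, h2]
    · simp [q1, g3]
    · simp [q1]
      linear_combination -(3 : ℂ) * g4 + (1 / 2 : ℂ) * h1

lemma n2 : Nd ss q2 0 (3 / 2) := by
  constructor
  · rw [c2, LinearIndependent.pair_iff]
    intro a b hab
    have h1 := congrFun hab 1
    have h2 := congrFun hab 2
    simp [beta, q2, ll] at h1 h2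
    exact ⟨h1, h2⟩
  · intro v x y h1 h2 h3
    rw [c2, cov_ss] at h3
    rw [tri, c2] at h2
    have g0 := congrFun h3 0
    have g1 := congrFun h3 1
    have g2 := congrFun h3 2
    have g3 := congrFun h3 3
    have g4 := congrFun h3 4
    simp [beta, q2, ll, cc] at g0 g1 g2 g3 g4
    simp [B_def, q2] at h1
    simp [ll, dotProduct, Fin.sum_univ_succ] at h2
    refine ⟨v 4, ?_⟩
    have hx : x = 0 := by
      linear_combination (1 / 2 : ℂ) * g4 + (1 / 4 : ℂ) * h1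
    ext k
    fin_cases k
    · simp [q2]
      linear_combination (2 : ℂ) * g1 + (2 : ℂ) * h2 - (2 : ℂ) * hx
    · simp [q2]
      linear_combination (2 : ℂ) * g0 - (2 : ℂ) * h2 + (2 : ℂ) * hx
    · simp [q2, h2]
    · simp [q2]
      linear_combination (-3 : ℂ) * g3
    · simp [q2]

theorem cfg : CfgY ss yy := by
  have hom : om ss yy 0 = ll := by
    rw [om, la0, mu0, p0, c0]
    ext k; fin_cases k <;> simp [ll]
  rw [CfgY, hom]
  refine ⟨?_, ?_, ?_, ?_, ?_, ?_⟩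
  · intro i
    fin_cases i
    · show B (pOf yy 0) (pOf yy 0) = 0
      rw [p0, B_def]; simp [q0]
    · show B (pOf yy 1) (pOf yy 1) = 0
      rw [p1, B_def]; simp [q1]
    · show B (pOf yy 2) (pOf yy 2) = 0
      rw [p2, B_def]; simp [q2]; norm_num
  · intro i
    fin_cases i
    · show tri ss (pOf yy 0) (pOf yy 0) (pOf yy 0) = 0
      rw [p0, tri_ss]; simp [q0]
    · show tri ss (pOf yy 1) (pOf yy 1) (pOf yy 1) = 0
      rw [p1, tri_ss]; simp [q1]
    · show tri ss (pOf yy 2) (pOf yy 2) (pOf yy 2) = 0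
      rw [p2, tri_ss]; simp [q2]; norm_num
  · intro i
    fin_cases i
    · show ll = laOf yy 0 • beta (pOf yy 0) + muOf yy 0 • cov ss (pOf yy 0) (pOf yy 0)
      rw [la0, mu0, p0, c0]
      ext k; fin_cases k <;> simp [ll]
    · show ll = laOf yy 1 • beta (pOf yy 1) + muOf yy 1 • cov ss (pOf yy 1) (pOf yy 1)
      rw [la0, mu1, p1, c1]
      ext k; fin_cases k <;> simp [ll]
    · show ll = laOf yy 2 • beta (pOf yy 2) + muOf yy 2 • cov ss (pOf yy 2) (pOf yy 2)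
      rw [la0, mu2, p2, c2]
      ext k; fin_cases k <;> simp [ll]
  · rw [Fintype.linearIndependent_iff]
    intro g hg
    rw [Fin.sum_univ_three, p0, p1, p2] at hg
    have h0 := congrFun hg 0
    have h1 := congrFun hg 1
    have h4 := congrFun hg 4
    simp [q0, q1, q2] at h0 h1 h4
    rw [h4] at h0 h1
    simp at h0 h1
    intro i
    fin_cases i
    · exact h0
    · exact h1
    · exact h4
  · intro i
    fin_cases i
    · show Nd ss (pOf yy 0) (laOf yy 0) (muOf yy 0)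
      rw [la0, mu0, p0]; exact n0
    · show Nd ss (pOf yy 1) (laOf yy 1) (muOf yy 1)
      rw [la0, mu1, p1]; exact n1
    · show Nd ss (pOf yy 2) (laOf yy 2) (muOf yy 2)
      rw [la0, mu2, p2]; exact n2
  · intro h
    have := congrFun h 2
    simp [ll] at this

end I_XEX

theorem XEX_pf : XEX := ⟨I_XEX.ss, I_XEX.ss_mem, I_XEX.yy, I_XEX.cfg⟩

end Pool.Agent.Work.MP_ea8963_ag.G4
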