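import Pool.Agent.Work.MP_ea8963_ag.G4.Stmts2

/-!
Block [ea8963 G4], item XGX: generic symmetric tensors are dense.
-/

set_option linter.style.longLine false

noncomputable section

open Module Topology

namespace Pool.Agent.Work.MP_ea8963_ag.G4

namespace I_XGX

/-- the index set of the entries -/
abbrev Ix : Type := Fin 5 × Fin 5 × Fin 5

/-- two indices are equivalent when the entries of all symmetric tensors agree -/
def rel : Setoid Ix where
  r a b := ∀ s ∈ SymT, s a.1 a.2.1 a.2.2 = s b.1 b.2.1 b.2.2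
  iseqv := ⟨fun _ _ _ => rfl, fun h s hs => (h s hs).symm,
    fun h h' s hs => (h s hs).trans (h' s hs)⟩

/-- classes of indices -/
abbrev Cl : Type := Quotient rel

/-- the class of an index -/
def mk (i j k : Fin 5) : Cl := Quotient.mk rel (i, j, k)

instance : Finite Cl := Quotient.finite rel

lemma mk_swap12 (i j k : Fin 5) : mk i j k = mk j i k :=
  Quotient.sound (s := rel) (fun _ hs => (hs i j k).1)

lemma mk_swap23 (i j k : Fin 5) : mk i j k = mk i k j :=
  Quotient.sound (s := rel) (fun _ hs => (hs i j k).2)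

/-- the values of a symmetric tensor on the classes -/
def bar (s : T3) (q : Cl) : ℂ := s q.out.1 q.out.2.1 q.out.2.2

lemma bar_mk {s : T3} (hs : s ∈ SymT) (i j k : Fin 5) : bar s (mk i j k) = s i j k := by
  have h : rel.r (mk i j k).out (i, j, k) := Quotient.mk_out (s := rel) (i, j, k)
  exact h s hs

/-- the symmetric tensor with given values -/
def ten (t : Cl → ℂ) : T3 := fun i j k => t (mk i j k)

lemma ten_mem (t : Cl → ℂ) : ten t ∈ SymT := by
  intro i j k
  exact ⟨congrArg t (mk_swap12 i j k), congrArg t (mk_swap23 i j k)⟩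

end I_XGX

open I_XGX in
/-- ITEM XGX -/
theorem XGX_pf (hCHX : CHX) : XGX := by
  intro s hs O hO
  obtain ⟨ε, hε, hball⟩ := Metric.mem_nhds_iff.1 hO
  obtain ⟨n, ⟨e⟩⟩ := Finite.exists_equiv_fin Cl
  obtain ⟨c', hc', hfull⟩ := hCHX ∅ Set.countable_empty n (fun k => bar s (e.symm k)) ε hε
  refine ⟨ten (fun q => c' (e q)), hball ?_, ten_mem _, ?_⟩
  · rw [Metric.mem_ball, dist_pi_lt_iff hε]
    intro i
    rw [dist_pi_lt_iff hε]
    intro j
    rw [dist_pi_lt_iff hε]
    intro k
    have h1 := hc' (e (mk i j k))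
    rw [e.symm_apply_apply, bar_mk hs] at h1
    rw [dist_eq_norm]
    exact h1
  · intro v hv
    obtain ⟨δ, -, hδ⟩ := hfull (fun k => bar v (e.symm k))
    refine ⟨δ, ?_⟩
    ext i j k
    have h1 := hδ (e (mk i j k))
    rw [e.symm_apply_apply, bar_mk hv] at h1
    exact h1

end Pool.Agent.Work.MP_ea8963_ag.G4
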