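import Pool.Agent.Work.MP_ea8963_ag.G4.Off
import Pool.Agent.Work.MP_ea8963_ag.G4.I_GK
import Pool.Agent.Work.MP_ea8963_ag.G4.I_SMX
import Pool.Agent.Work.MP_ea8963_ag.G4.I_TGX
import Pool.Agent.Work.MP_ea8963_ag.G4.I_DTB
import Pool.Agent.Work.MP_ea8963_ag.G4.I_FLX
import Pool.Agent.Work.MP_ea8963_ag.G4.I_BJX
import Pool.Agent.Work.MP_ea8963_ag.G4.I_CNX
import Pool.Agent.Work.MP_ea8963_ag.G4.I_LMX
import Pool.Agent.Work.MP_ea8963_ag.G4.I_LNX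
import Pool.Agent.Work.MP_ea8963_ag.G4.I_NCX
import Pool.Agent.Work.MP_ea8963_ag.G4.I_TWX
import Pool.Agent.Work.MP_ea8963_ag.G4.I_R1X
import Pool.Agent.Work.MP_ea8963_ag.G4.I_R2X
import Pool.Agent.Work.MP_ea8963_ag.G4.I_RKX
import Pool.Agent.Work.MP_ea8963_ag.G4.I_RLX
import Pool.Agent.Work.MP_ea8963_ag.G4.I_RNX
import Pool.Agent.Work.MP_ea8963_ag.G4.I_DKX
import Pool.Agent.Work.MP_ea8963_ag.G4.I_NNX
import Pool.Agent.Work.MP_ea8963_ag.G4.I_F2X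
import Pool.Agent.Work.MP_ea8963_ag.G4.I_FAX
import Pool.Agent.Work.MP_ea8963_ag.G4.I_FCX
import Pool.Agent.Work.MP_ea8963_ag.G4.I_EXX
import Pool.Agent.Work.MP_ea8963_ag.G4.I_FBX
import Pool.Agent.Work.MP_ea8963_ag.G4.I_FDX
import Pool.Agent.Work.MP_ea8963_ag.G4.I_FEX
import Pool.Agent.Work.MP_ea8963_ag.G4.I_CHX
import Pool.Agent.Work.MP_ea8963_ag.G4.I_JCX
import Pool.Agent.Work.MP_ea8963_ag.G4.I_JDX
import Pool.Agent.Work.MP_ea8963_ag.G4.I_FFX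
import Pool.Agent.Work.MP_ea8963_ag.G4.I_ICX
import Pool.Agent.Work.MP_ea8963_ag.G4.I_GQX
import Pool.Agent.Work.MP_ea8963_ag.G4.I_GLX
import Pool.Agent.Work.MP_ea8963_ag.G4.I_CRX
import Pool.Agent.Work.MP_ea8963_ag.G4.I_TUX
import Pool.Agent.Work.MP_ea8963_ag.G4.I_TYX
import Pool.Agent.Work.MP_ea8963_ag.G4.I_LAX
import Pool.Agent.Work.MP_ea8963_ag.G4.I_LBX
import Pool.Agent.Work.MP_ea8963_ag.G4.I_LCX
import Pool.Agent.Work.MP_ea8963_ag.G4.I_CTX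
import Pool.Agent.Work.MP_ea8963_ag.G4.I_SUX
import Pool.Agent.Work.MP_ea8963_ag.G4.I_STX
import Pool.Agent.Work.MP_ea8963_ag.G4.I_IFX
import Pool.Agent.Work.MP_ea8963_ag.G4.I_JEX
import Pool.Agent.Work.MP_ea8963_ag.G4.I_NOX
import Pool.Agent.Work.MP_ea8963_ag.G4.I_COX
import Pool.Agent.Work.MP_ea8963_ag.G4.I_RYX
import Pool.Agent.Work.MP_ea8963_ag.G4.I_PTX
import Pool.Agent.Work.MP_ea8963_ag.G4.I_XEX
import Pool.Agent.Work.MP_ea8963_ag.G4.I_XNX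
import Pool.Agent.Work.MP_ea8963_ag.G4.I_XGX
import Pool.Agent.Work.MP_ea8963_ag.G4.I_XAX
import Pool.Agent.Work.MP_ea8963_ag.G4.I_OAX
import Pool.Agent.Work.MP_ea8963_ag.G4.I_OBX
import Pool.Agent.Work.MP_ea8963_ag.G4.I_OCX
import Pool.Agent.Work.MP_ea8963_ag.G4.I_NLX
import Pool.Agent.Work.MP_ea8963_ag.G4.I_PIX
import Pool.Agent.Work.MP_ea8963_ag.G4.I_ODX
import Pool.Agent.Work.MP_ea8963_ag.G4.I_NFX
import Pool.Agent.Work.MP_ea8963_ag.G4.I_OEX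

/-!
Block [ea8963 G4]: all items instantiated.  Captain helper56.
-/

noncomputable section

open Module Topology MvPolynomial

namespace Pool.Agent.Work.MP_ea8963_ag.G4

theorem c_GK : GK := GK_pf
theorem c_SMX : SMX := SMX_pf c_GK
theorem c_TGX : TGX := TGX_pf c_GK
theorem c_DTB : DTB := DTB_pf
theorem c_FLX : FLX := FLX_pf c_GK c_DTB
theorem c_BJX : BJX := BJX_pf
theorem c_CNX : CNX := CNX_pf
theorem c_LMX : LMX := LMX_pf
theorem c_LNX : LNX := LNX_pf c_LMX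
theorem c_NCX : NCX := NCX_pf
theorem c_TWX : TWX := TWX_pf c_LNX c_NCX
theorem c_R1X : R1X := R1X_pf
theorem c_R2X : R2X := R2X_pf
theorem c_RKX : RKX := RKX_pf c_R1X c_R2X
theorem c_RLX : RLX := RLX_pf c_RKX
theorem c_RNX : RNX := RNX_pf c_R1X c_R2X c_RKX
theorem c_DKX : DKX := DKX_pf
theorem c_NNX : NNX := NNX_pf c_DKX
theorem c_F2X : F2X := F2X_pf c_DKX c_DTB
theorem c_FAX : FAX := FAX_pf
theorem c_FCX : FCX := FCX_pf c_FAX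
theorem c_EXX : EXX := EXX_pf c_FCX
theorem c_FBX : FBX := FBX_pf
theorem c_FDX : FDX := FDX_pf c_FBX
theorem c_FEX : FEX := FEX_pf c_FDX
theorem c_CHX : CHX := CHX_pf c_FEX
theorem c_JCX : JCX := JCX_pf
theorem c_JDX : JDX := JDX_pf
theorem c_FFX : FFX := FFX_pf
theorem c_ICX : ICX := ICX_pf c_EXX c_CHX c_JCX c_JDX c_FEX c_FFX
theorem c_GQX : GQX := GQX_pf c_EXX
theorem c_GLX : GLX := GLX_pf c_EXX
theorem c_CRX : CRX := CRX_pf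
theorem c_TUX : TUX := TUX_pf c_GQX c_GLX c_CRX
theorem c_TYX : TYX := TYX_pf
theorem c_LAX : LAX := LAX_pf c_FAX c_FBX c_FCX c_FDX c_JCX
theorem c_LBX : LBX := LBX_pf c_FFX c_LAX
theorem c_LCX : LCX := LCX_pf c_FFX c_LBX
theorem c_CTX : CTX := CTX_pf
theorem c_SUX : SUX := SUX_pf
theorem c_STX : STX := STX_pf
theorem c_IFX : IFX := IFX_pf
theorem c_JEX : JEX := JEX_pf
theorem c_NOX : NOX := NOX_pf
theorem c_COX : COX := COX_pf c_NOX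
theorem c_RYX : RYX := RYX_pf
theorem c_PTX : PTX := PTX_pf c_SUX c_STX c_IFX c_JEX c_COX c_RYX c_CHX
theorem c_XEX : XEX := XEX_pf
theorem c_XNX : XNX := XNX_pf c_SUX c_STX c_IFX c_COX
theorem c_XGX : XGX := XGX_pf c_CHX
theorem c_XAX : XAX := XAX_pf c_GLX
theorem c_OAX : OAX := OAX_pf
theorem c_OBX : OBX := OBX_pf
theorem c_OCX : OCX := OCX_pf c_FBX c_OBX
theorem c_NLX : NLX := NLX_pf c_GK
theorem c_PIX : PIX := PIX_pf c_NLX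
theorem c_ODX : ODX := ODX_pf c_SMX c_PIX c_OAX c_OBX
theorem c_NFX : NFX := NFX_pf c_GK c_SMX
theorem c_OEX : OEX := OEX_pf c_SMX c_NFX c_OAX c_OBX

/-- the final theorem -/
theorem final (f : MvPolynomial (Fin 5) ℂ) (hf : f.IsHomogeneous 3)
    (hgen : AlgebraicIndependent ℚ
      (fun m : {m : Fin 5 →₀ ℕ // m.degree = 3} => f.coeff m.1)) :
    (∀ q : Fin 5 → ℂ, q ≠ 0 → eval q qf = 0 → eval q f = 0 →
      LinearIndependent ℂ ![grad qf q, grad f q]) ∧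
    (Sev f).Nonempty ∧
    ∀ F G : MvPolynomial (Fin 5) ℂ, (∀ l ∈ Sev f, eval l F * eval l G = 0) →
      (∀ l ∈ Sev f, eval l F = 0) ∨ (∀ l ∈ Sev f, eval l G = 0) :=
  final_of_items c_SMX c_TGX c_FLX c_BJX c_CNX c_TWX c_RLX c_RNX c_NNX c_F2X c_ICX c_TUX c_TYX c_LCX c_CTX c_PTX c_FFX c_XEX c_XNX c_XGX c_XAX c_OAX c_OBX c_OCX c_ODX c_OEX f hf hgen

end Pool.Agent.Work.MP_ea8963_ag.G4
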