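import Pool.Agent.Work.MP_ea8963_ag.G4.Stmts2

/-!
Item CTX of block [ea8963 G4]: configurations are transported by automorphisms.
-/

set_option linter.style.longLine false
set_option linter.unusedVariables false

noncomputable section

open Module Topology

namespace Pool.Agent.Work.MP_ea8963_ag.G4

namespace I_CTX

variable (σ : ℂ ≃+* ℂ)

lemma mE_add (x y : E) : mE σ (x + y) = mE σ x + mE σ y := by
  ext i; simp [mE]

lemma mE_smul (c : ℂ) (x : E) : mE σ (c • x) = σ c • mE σ x := by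
  ext i; simp [mE]

lemma mE_zero : mE σ 0 = 0 := by
  ext i; simp [mE]

/-- `mE` as an additive map -/
def mEh : E →+ E where
  toFun := mE σ
  map_zero' := mE_zero σ
  map_add' := mE_add σ

lemma mEh_apply (x : E) : mEh σ x = mE σ x := rfl

lemma mE_symm (x : E) : mE σ.symm (mE σ x) = x := by
  ext i; simp [mE]

lemma mE_symm' (x : E) : mE σ (mE σ.symm x) = x := by
  ext i; simp [mE]

lemma mE_eq_zero {x : E} (h : mE σ x = 0) : x = 0 := by
  rw [← mE_symm σ x, h, mE_zero]

lemma mE_sum {n : ℕ} (g : Fin n → ℂ) (v : Fin n → E) :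
    mE σ (∑ i, g i • v i) = ∑ i, σ (g i) • mE σ (v i) := by
  rw [← mEh_apply, map_sum]
  refine Finset.sum_congr rfl fun i _ => ?_
  rw [mEh_apply, mE_smul]

lemma ind {n : ℕ} {v : Fin n → E} (hv : LinearIndependent ℂ v) :
    LinearIndependent ℂ (fun i => mE σ (v i)) := by
  rw [Fintype.linearIndependent_iff] at hv ⊢
  intro g hg i
  have h1 : ∑ i, σ.symm (g i) • v i = 0 := by
    have h2 := congrArg (mE σ.symm) hg
    rw [mE_sum, mE_zero] at h2
    simpa only [mE_symm] using h2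
  have h3 := hv _ h1 i
  simpa using h3

lemma beta_mE (x : E) : beta (mE σ x) = mE σ (beta x) := by
  have h2 : σ (2 : ℂ) = 2 := map_ofNat σ 2
  ext i; fin_cases i <;> simp [beta, mE, h2]

lemma dot_mE (x y : E) : mE σ x ⬝ᵥ mE σ y = σ (x ⬝ᵥ y) := by
  simp [dotProduct, mE, map_sum]

lemma B_mE (x y : E) : B (mE σ x) (mE σ y) = σ (B x y) := by
  unfold B
  rw [beta_mE, dot_mE]

lemma cov_mE (s : T3) (x y : E) : cov (mT σ s) (mE σ x) (mE σ y) = mE σ (cov s x y) := by
  ext k
  simp [cov, mT, mE, map_sum]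

lemma tri_mE (s : T3) (x y z : E) : tri (mT σ s) (mE σ x) (mE σ y) (mE σ z) = σ (tri s x y z) := by
  unfold tri
  rw [cov_mE, dot_mE]

lemma nd {s : T3} {p : E} {lam mu : ℂ} (h : Nd s p lam mu) :
    Nd (mT σ s) (mE σ p) (σ lam) (σ mu) := by
  refine ⟨?_, ?_⟩
  · have h1 := ind σ h.rank
    convert h1 using 1
    ext i j
    fin_cases i
    · simp [beta_mE]
    · simp [cov_mE]
  · intro v x y h1 h2 h3
    set v' := mE σ.symm v with hv'
    have hv : v = mE σ v' := (mE_symm' σ v).symm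
    rw [hv, B_mE] at h1
    rw [hv, tri_mE] at h2
    have h1' : B p v' = 0 := by simpa using h1
    have h2' : tri s p p v' = 0 := by simpa using h2
    have h3' : lam • beta v' + (2 * mu) • cov s p v' + σ.symm x • beta p
        + σ.symm y • cov s p p = 0 := by
      apply mE_eq_zero σ
      rw [mE_add, mE_add, mE_add, mE_smul, mE_smul, mE_smul, mE_smul, ← beta_mE, ← beta_mE,
        ← cov_mE, ← cov_mE, ← hv, RingEquiv.apply_symm_apply, RingEquiv.apply_symm_apply,
        map_mul, map_ofNat]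
      exact h3
    obtain ⟨c, hc⟩ := h.ker v' _ _ h1' h2' h3'
    exact ⟨σ c, by rw [hv, hc, mE_smul]⟩

end I_CTX

open I_CTX in
theorem CTX_pf : CTX := by
  intro σ s p l lam mu h
  refine ⟨fun i => ?_, fun i => ?_, fun i => ?_, ?_, fun i => ?_, ?_⟩
  · change B (mE σ (p i)) (mE σ (p i)) = 0
    rw [B_mE, h.q0 i, map_zero]
  · change tri (mT σ s) (mE σ (p i)) (mE σ (p i)) (mE σ (p i)) = 0
    rw [tri_mE, h.s0 i, map_zero]
  · change mE σ l = σ (lam i) • beta (mE σ (p i)) + σ (mu i) • cov (mT σ s) (mE σ (p i)) (mE σ (p i))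
    rw [beta_mE, cov_mE, ← mE_smul, ← mE_smul, ← mE_add, ← h.eq i]
  · exact ind σ h.ind
  · exact nd σ (h.nd i)
  · intro h0
    exact h.l0 (mE_eq_zero σ h0)

end Pool.Agent.Work.MP_ea8963_ag.G4
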