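import Pool.Agent.Work.MP_ea8963_ag.G4.Stmts

/-!
Block [ea8963 G4], item F2X: all counts for two generic configurations are sharp.
-/

set_option linter.style.longLine false

noncomputable section

open Module Topology

namespace Pool.Agent.Work.MP_ea8963_ag.G4

theorem F2X_pf (hDKX : DKX) (hDTB : DTB) : F2X := by
  intro s hs p l lam mu p' l' lam' mu' h h' h5 h0
  have hrn := rn (evT s) (evB p' l') (ZB p l)
  change finrank ℂ ((ZB p l).map (evT s)) + finrank ℂ ((ZB p l ⊓ ZS s).map (evB p' l')) =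
    finrank ℂ ((ZB p l).map (evB p' l')) +
      finrank ℂ ((ZB p l ⊓ ZB p' l').map (evT s)) at hrn
  rw [inf_comm (ZB p l) (ZS s)] at hrn
  have h1 : (ZB p l).map (evB p' l') ≤ TB p' l' := by
    rintro _ ⟨δ, -, rfl⟩
    exact h'.toCfg.ev_mem δ
  have h2 : (ZB p l ⊓ ZB p' l').map (evT s) ≤ KB p l ⊓ KB p' l' := by
    rintro _ ⟨δ, hδ, rfl⟩
    exact ⟨h.toCfg.dT_mem_KB hs.1 h.mu_ne hδ.1, h'.toCfg.dT_mem_KB hs.1 h'.mu_ne hδ.2⟩
  have h3 := hDKX p l p' l' (h.toCfg.nt h.mu_ne) (h'.toCfg.nt h'.mu_ne)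
  have h4 := hDTB p' l' h'.ind
  have h6 := h.rkS
  have h1' := Submodule.finrank_mono h1
  have h2' := Submodule.finrank_mono h2
  refine ⟨?_, ?_⟩
  · have he : (ZB p l).map (evB p' l') = TB p' l' :=
      Submodule.eq_of_le_of_finrank_eq h1 (by omega)
    intro x hx
    rw [← he] at hx
    obtain ⟨δ, hδZ, hδ⟩ := hx
    exact ⟨δ, hδZ, hδ⟩
  · have he : (ZB p l ⊓ ZB p' l').map (evT s) = KB p l ⊓ KB p' l' :=
      Submodule.eq_of_le_of_finrank_eq h2 (by omega)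
    intro t ht
    rw [← he] at ht
    obtain ⟨δ, hδZ, hδ⟩ := ht
    exact ⟨δ, hδZ, hδ⟩

end Pool.Agent.Work.MP_ea8963_ag.G4
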