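import Pool.Agent.Work.MP_ea8963_ag.G4.Stmts2

/-!
Block [ea8963 G4], item FFX (helper33): `cl` of `cl`, and `cl A` is a field.
-/

set_option linter.style.longLine false

noncomputable section

open Module Topology

namespace Pool.Agent.Work.MP_ea8963_ag.G4

namespace I_FFX

lemma d_inv {δ : D} {x : ℂ} (hx : δ x = 0) : δ x⁻¹ = 0 := by
  by_cases h0 : x = 0
  · rw [h0, inv_zero, map_zero]
  · have h1 := congrArg δ (mul_inv_cancel₀ h0)
    rw [Derivation.leibniz, Derivation.map_one_eq_zero, hx] at h1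
    simp only [smul_eq_mul, mul_zero, add_zero] at h1
    rcases mul_eq_zero.1 h1 with h2 | h2
    · exact absurd h2 h0
    · exact h2

end I_FFX

theorem FFX_pf : FFX := by
  intro A
  have hsub : A ⊆ cl A := fun a ha δ hδ => hδ a ha
  refine ⟨hsub, le_antisymm (ZA_mono hsub) fun δ hδ z hz => hz δ hδ, ?_, ?_⟩
  · intro q δ _
    exact δ.map_algebraMap q
  · intro x hx y hy
    refine ⟨fun δ hδ => ?_, fun δ hδ => ?_, fun δ hδ => ?_, fun δ hδ => ?_⟩
    · rw [map_add, hx δ hδ, hy δ hδ, add_zero]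
    · rw [Derivation.leibniz, hx δ hδ, hy δ hδ, smul_zero, smul_zero, add_zero]
    · rw [map_neg, hx δ hδ, neg_zero]
    · exact I_FFX.d_inv (hx δ hδ)

end Pool.Agent.Work.MP_ea8963_ag.G4
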