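import Pool.Agent.Work.MP_ea8963_ag.G4.Off

/-! Block [ea8963 G4], item OEX. -/

set_option linter.style.longLine false
set_option linter.unusedVariables false

noncomputable section

open Module Topology MvPolynomial

namespace Pool.Agent.Work.MP_ea8963_ag.G4

namespace I_OEX

/-- a third vector in a plane -/
lemma exists_of_dep {a b l : E} (h2 : LinearIndependent ℂ ![a, b])
    (h : ¬ LinearIndependent ℂ ![a, (3 : ℂ) • b, l]) : ∃ al be : ℂ, l = al • a + be • b := by
  by_contra hcon
  push Not at hcon
  apply h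
  rw [Fintype.linearIndependent_iff]
  intro g hg
  rw [Fin.sum_univ_three] at hg
  simp only [Matrix.cons_val_zero, Matrix.cons_val_one, Matrix.cons_val] at hg
  have hc : g 2 = 0 := by
    by_contra hc
    apply hcon (-(g 2)⁻¹ * g 0) (-(g 2)⁻¹ * (3 * g 1))
    have h3 : g 2 • l = -(g 0 • a + g 1 • (3 : ℂ) • b) := by
      rw [eq_neg_iff_add_eq_zero, add_comm]
      exact hg
    have h4 : l = (g 2)⁻¹ • (g 2 • l) := by rw [smul_smul, inv_mul_cancel₀ hc, one_smul]
    rw [h4, h3]
    module
  rw [hc, zero_smul, add_zero] at hg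
  rw [LinearIndependent.pair_iff] at h2
  have h5 := h2 (g 0) (g 1 * 3) (by rw [← hg, smul_smul])
  have h6 : g 1 = 0 := (mul_eq_zero.1 h5.2).resolve_right (by norm_num)
  intro i
  fin_cases i
  · exact h5.1
  · exact h6
  · exact hc

lemma dep_of {a b l : E} {al be : ℂ} (h : l = al • a + be • b) :
    ¬ LinearIndependent ℂ ![a, (3 : ℂ) • b, l] := by
  intro hli
  rw [Fintype.linearIndependent_iff] at hli
  have h1 := hli ![al, be / 3, -1] (by
    rw [Fin.sum_univ_three]
    simp only [Matrix.cons_val_zero, Matrix.cons_val_one, Matrix.cons_val]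
    rw [h]
    module) 2
  simp at h1

lemma finrank_of {a b l : E} {al be : ℂ} (h2 : LinearIndependent ℂ ![a, b])
    (h : l = al • a + be • b) :
    finrank ℂ (Submodule.span ℂ (Set.range ![a, (3 : ℂ) • b, l])) = 2 := by
  have e : Submodule.span ℂ (Set.range ![a, (3 : ℂ) • b, l]) =
      Submodule.span ℂ (Set.range ![a, b]) := by
    apply le_antisymm
    · rw [Submodule.span_le]
      rintro x ⟨i, rfl⟩
      have ha : a ∈ Submodule.span ℂ (Set.range ![a, b]) := Submodule.subset_span ⟨0, rfl⟩
      have hb : b ∈ Submodule.span ℂ (Set.range ![a, b]) := Submodule.subset_span ⟨1, rfl⟩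
      fin_cases i
      · exact ha
      · exact Submodule.smul_mem _ _ hb
      · show l ∈ Submodule.span ℂ (Set.range ![a, b])
        rw [h]
        exact Submodule.add_mem _ (Submodule.smul_mem _ _ ha) (Submodule.smul_mem _ _ hb)
    · rw [Submodule.span_le]
      rintro x ⟨i, rfl⟩
      fin_cases i
      · exact Submodule.subset_span ⟨0, rfl⟩
      · have h3 : (3 : ℂ) • b ∈ Submodule.span ℂ (Set.range ![a, (3 : ℂ) • b, l]) :=
          Submodule.subset_span ⟨1, rfl⟩
        have h4 := Submodule.smul_mem _ (3 : ℂ)⁻¹ h3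
        rw [smul_smul, inv_mul_cancel₀ (by norm_num : (3 : ℂ) ≠ 0), one_smul] at h4
        exact h4
  rw [e, finrank_span_eq_card h2]
  simp

end I_OEX

open I_OEX in
theorem OEX_pf (hSMX : SMX) (hNFX : NFX) (hOAX : OAX) (hOBX : OBX) : OEX := by
  intro f hf hgen p l lam mu ho
  obtain ⟨hA1, hA2, hA3⟩ := hOAX
  obtain ⟨hsym, hB1, hB2, hB3⟩ := hOBX f hf
  have hc : Cfg (sten f) p l lam mu := ho.toCfg
  have hp0 : ∀ i, p i ≠ 0 := fun i => hc.ind.ne_zero i
  have hsing : ∀ i, IsSing f l (p i) := by
    intro i
    refine ⟨hp0 i, ?_, ?_, hc.lp i, ?_⟩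
    · have h1 := hA1 (p i)
      rw [hc.q0 i] at h1
      exact (mul_eq_zero.1 h1).resolve_left (by norm_num)
    · rw [hB1]; exact hc.s0 i
    · rw [hA2, hB2]
      exact dep_of (hc.eq i)
  refine ⟨hc.l0, p, ?_, ?_, ?_⟩
  · intro i
    refine ⟨hsing i, ?_, ?_⟩
    · rw [hA2, hB2]
      exact finrank_of (hc.nd i).rank (hc.eq i)
    · intro a b c habc hrel v hv1 hv2 hv3 hv4
      rw [hA2] at hv1
      rw [hB2, smul_dotProduct, smul_eq_mul] at hv2
      have hv2' : cov (sten f) (p i) (p i) ⬝ᵥ v = 0 :=
        (mul_eq_zero.1 hv2).resolve_left (by norm_num)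
      have hli := (hc.nd i).rank
      have hli' := hli
      rw [LinearIndependent.pair_iff] at hli'
      rw [hA2, hB2, hc.eq i] at hrel
      have h1 := hli' (a + c * lam i) (3 * b + c * mu i) (by
        rw [← hrel]
        module)
      obtain ⟨h1a, h1b⟩ := h1
      have hcne : c ≠ 0 := by
        intro h0
        rw [h0] at h1a h1b
        have ha : a = 0 := by simpa using h1a
        have hb : b = 0 := by
          have : 3 * b = 0 := by simpa using h1b
          exact (mul_eq_zero.1 this).resolve_left (by norm_num)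
        rcases habc with h | h | h
        · exact h ha
        · exact h hb
        · exact h h0
      have hspan := mem_span_of_ann hli
        (c := lam i • beta v + (2 * mu i) • cov (sten f) (p i) v) (by
          intro x hx
          have hx0 : beta (p i) ⬝ᵥ x = 0 := hx 0
          have hx1 : cov (sten f) (p i) (p i) ⬝ᵥ x = 0 := hx 1
          have hlx : l ⬝ᵥ x = 0 := by
            rw [hc.eq i, add_dotProduct, smul_dotProduct, smul_dotProduct, hx0, hx1]
            simp
          have h2 := hv4 x (by rw [hA2]; exact hx0)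
            (by rw [hB2, smul_dotProduct, hx1, smul_zero]) hlx
          rw [hA3, hB3] at h2
          rw [add_dotProduct, smul_dotProduct, smul_dotProduct, smul_eq_mul, smul_eq_mul]
          have h3 : beta v ⬝ᵥ x = B v x := rfl
          have h4 : cov (sten f) (p i) v ⬝ᵥ x = tri (sten f) (p i) v x := rfl
          rw [h3, h4]
          have h5 : c * (lam i * B v x + 2 * mu i * tri (sten f) (p i) v x) = 0 := by
            linear_combination (-1 : ℂ) * h2 + h1a * B v x + 2 * h1b * tri (sten f) (p i) v x
          exact (mul_eq_zero.1 h5).resolve_left hcne)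
      rw [Submodule.mem_span_range_iff_exists_fun] at hspan
      obtain ⟨g, hg⟩ := hspan
      rw [Fin.sum_univ_two] at hg
      simp only [Matrix.cons_val_zero, Matrix.cons_val_one] at hg
      exact (hc.nd i).ker v (-(g 0)) (-(g 1)) hv1 hv2' (by
        rw [← hg]
        module)
  · intro i j hij t h
    have hli := hc.ind
    rw [Fintype.linearIndependent_iff] at hli
    have h1 := hli (Pi.single i 1 - Pi.single j t) (by
      simp only [Pi.sub_apply, sub_smul, Finset.sum_sub_distrib]
      rw [Finset.sum_eq_single i, Finset.sum_eq_single j]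
      · simp [h]
      · intro k _ hk; simp [hk]
      · intro hk; exact absurd (Finset.mem_univ _) hk
      · intro k _ hk; simp [hk]
      · intro hk; exact absurd (Finset.mem_univ _) hk) i
    simp [hij] at h1
  · intro q hq
    obtain ⟨hq0, hq1, hq2, hq3, hq4⟩ := hq
    have hB0 : B q q = 0 := by rw [← hA1, hq1, mul_zero]
    have hli := hSMX (sten f) hgen q hq0 hB0
    rw [hA2, hB2] at hq4
    obtain ⟨al, be, hl⟩ := exists_of_dep hli hq4
    exact hNFX (sten f) hgen p l lam mu ho q hq0 hB0 (by rw [← hB1]; exact hq2) hq3 al be hl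

end Pool.Agent.Work.MP_ea8963_ag.G4
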