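import Pool.Agent.Work.MP_ea8963_ag.G4.Stmts2

/-!
Block [ea8963 G4], item XNX: configurations exist on nearby symmetric tensors.
-/

set_option linter.style.longLine false

noncomputable section

open Module Topology

namespace Pool.Agent.Work.MP_ea8963_ag.G4

namespace I_XNX

/-- the equations hold at a configuration -/
lemma Phi_eq_zero {s : T3} {y : Y} (h : CfgY s y) : Phi s y = 0 := by
  have h1 : (fun i => B (pOf y i) (pOf y i)) = (0 : Fin 3 → ℂ) := funext fun i => h.q0 i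
  have h2 : (fun i => tri s (pOf y i) (pOf y i) (pOf y i)) = (0 : Fin 3 → ℂ) :=
    funext fun i => h.s0 i
  have h3 : om s y 0 - om s y 1 = 0 := sub_eq_zero.2 (h.eq 1)
  have h4 : om s y 0 - om s y 2 = 0 := sub_eq_zero.2 (h.eq 2)
  exact Prod.ext h1 (Prod.ext h2 (Prod.ext h3 h4))

end I_XNX

/-- ITEM XNX -/
theorem XNX_pf (hSUX : SUX) (hSTX : STX) (hIFX : IFX) (hCOX : COX) : XNX := by
  intro s hs y hy
  have hc := hCOX s y hy
  obtain ⟨g', hg, hg'⟩ := hSTX s y
  rw [nhds_prod_eq] at hc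
  obtain ⟨pa, ha, pb, hb, hab⟩ := Filter.eventually_prod_iff.1 hc
  have h1 := hIFX T3 Y Z16 (fun z => Phi z.1 z.2) g' s y hg
    (fun z => by
      obtain ⟨dy, h⟩ := hSUX s hs y hy z
      exact ⟨dy, (hg' dy).trans h⟩) {y' | pb y'} hb
  filter_upwards [h1, ha] with s' h2 hs' _
  obtain ⟨y', hy', he⟩ := h2
  exact ⟨y', hab hs' hy' (he.trans (I_XNX.Phi_eq_zero hy))⟩

end Pool.Agent.Work.MP_ea8963_ag.G4
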