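import Pool.Agent.Work.MP_ea8963_ag.G4.Basic

/-!
Block [ea8963 G4]: linear algebra tools (all proved).
-/

set_option linter.style.longLine false
set_option linter.unusedSectionVars false

noncomputable section

open Module

namespace Pool.Agent.Work.MP_ea8963_ag.G4

/-! ### rank-nullity for two linear maps -/

section RN

variable {V M M' : Type*} [AddCommGroup V] [Module ℂ V] [AddCommGroup M] [Module ℂ M]
    [AddCommGroup M'] [Module ℂ M'] [FiniteDimensional ℂ M] [FiniteDimensional ℂ M']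

lemma rn_prod (f : V →ₗ[ℂ] M) (g : V →ₗ[ℂ] M') (W : Submodule ℂ V) :
    finrank ℂ (W.map (f.prod g)) = finrank ℂ (W.map f) +
      finrank ℂ ((W ⊓ LinearMap.ker f).map g : Submodule ℂ M') := by
  set P : Submodule ℂ (M × M') := W.map (f.prod g) with hP
  set h : P →ₗ[ℂ] M := (LinearMap.fst ℂ M M').comp P.subtype with hh
  have h1 := LinearMap.finrank_range_add_finrank_ker h
  have hr : LinearMap.range h = W.map f := by
    ext m
    constructor
    · rintro ⟨⟨x, hx⟩, rfl⟩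
      obtain ⟨w, hw, rfl⟩ := hx
      exact ⟨w, hw, rfl⟩
    · rintro ⟨w, hw, rfl⟩
      exact ⟨⟨(f w, g w), ⟨w, hw, rfl⟩⟩, rfl⟩
  set k : LinearMap.ker h →ₗ[ℂ] M' :=
    (LinearMap.snd ℂ M M').comp (P.subtype.comp (LinearMap.ker h).subtype) with hk
  have hkr : LinearMap.range k = ((W ⊓ LinearMap.ker f).map g : Submodule ℂ M') := by
    ext m
    constructor
    · rintro ⟨⟨⟨x, hx⟩, hxk⟩, rfl⟩
      obtain ⟨w, hw, rfl⟩ := hx
      exact ⟨w, ⟨hw, hxk⟩, rfl⟩
    · rintro ⟨w, ⟨hw, hwk⟩, rfl⟩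
      exact ⟨⟨⟨(f w, g w), ⟨w, hw, rfl⟩⟩, hwk⟩, rfl⟩
  have hki : Function.Injective k := by
    rintro ⟨⟨x, hx⟩, hxk⟩ ⟨⟨y, hy⟩, hyk⟩ h0
    have h2 : x.1 = 0 := hxk
    have h2' : y.1 = 0 := hyk
    have h3 : x.2 = y.2 := h0
    have h4 : x = y := Prod.ext (h2.trans h2'.symm) h3
    subst h4
    rfl
  have hk2 := LinearMap.finrank_range_of_inj hki
  rw [← hr, ← hkr, hk2, h1]

lemma finrank_map_prod_swap (f : V →ₗ[ℂ] M) (g : V →ₗ[ℂ] M') (W : Submodule ℂ V) :
    finrank ℂ (W.map (f.prod g)) = finrank ℂ (W.map (g.prod f)) := by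
  have e : W.map (f.prod g) = (W.map (g.prod f)).map
      (LinearEquiv.prodComm ℂ M' M : (M' × M) →ₗ[ℂ] (M × M')) := by
    ext m
    constructor
    · rintro ⟨w, hw, rfl⟩
      exact ⟨(g w, f w), ⟨w, hw, rfl⟩, rfl⟩
    · rintro ⟨x, ⟨w, hw, rfl⟩, rfl⟩
      exact ⟨w, hw, rfl⟩
  rw [e]
  exact LinearEquiv.finrank_map_eq (LinearEquiv.prodComm ℂ M' M) _

/-- the form used in all counts -/
lemma rn (f : V →ₗ[ℂ] M) (g : V →ₗ[ℂ] M') (W : Submodule ℂ V) :
    finrank ℂ (W.map f) + finrank ℂ ((W ⊓ LinearMap.ker f).map g : Submodule ℂ M') =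
    finrank ℂ (W.map g) + finrank ℂ ((W ⊓ LinearMap.ker g).map f : Submodule ℂ M) := by
  rw [← rn_prod f g W, ← rn_prod g f W, finrank_map_prod_swap]

lemma rn_le (f : V →ₗ[ℂ] M) (g : V →ₗ[ℂ] M') (W : Submodule ℂ V) :
    finrank ℂ (W.map f) ≤
    finrank ℂ (W.map g) + finrank ℂ ((W ⊓ LinearMap.ker g).map f : Submodule ℂ M) := by
  rw [← rn f g W]; omega

lemma finrank_map_mono (f : V →ₗ[ℂ] M) {W W' : Submodule ℂ V} (h : W ≤ W') :
    finrank ℂ (W.map f) ≤ finrank ℂ (W'.map f) :=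
  Submodule.finrank_mono (Submodule.map_mono h)

/-- pairing lemma: left kernel and right kernel -/
lemma pair (φ : M' →ₗ[ℂ] Dual ℂ M) :
    finrank ℂ ((LinearMap.range φ).dualCoannihilator : Submodule ℂ M) + finrank ℂ M' =
      finrank ℂ M + finrank ℂ (LinearMap.ker φ) := by
  have h1 := LinearMap.finrank_range_add_finrank_ker φ
  have h2 := Subspace.finrank_add_finrank_dualCoannihilator_eq (K := ℂ) (V := M) (LinearMap.range φ)
  omega

end RN

/-! ### linear systems in `E` -/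

/-- the common kernel of the covectors `a i` -/
def Ann {ι : Type*} (a : ι → E) : Submodule ℂ E where
  carrier := {x | ∀ i, a i ⬝ᵥ x = 0}
  zero_mem' := by intro i; simp
  add_mem' := by
    intro x y hx hy i
    have h1 : a i ⬝ᵥ x = 0 := hx i
    have h2 : a i ⬝ᵥ y = 0 := hy i
    simp [dotProduct_add, h1, h2]
  smul_mem' := by
    intro c x hx i
    have h1 : a i ⬝ᵥ x = 0 := hx i
    simp [dotProduct_smul, h1]

lemma mem_Ann {ι : Type*} {a : ι → E} {x : E} : x ∈ Ann a ↔ ∀ i, a i ⬝ᵥ x = 0 := Iff.rfl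

/-- `x ↦ (a i ⬝ᵥ x)_i` -/
def dotL {k : ℕ} (a : Fin k → E) : E →ₗ[ℂ] (Fin k → ℂ) := Matrix.mulVecLin (Matrix.of a)

lemma dotL_apply {k : ℕ} (a : Fin k → E) (x : E) (i : Fin k) : dotL a x i = a i ⬝ᵥ x := rfl

lemma dotL_surjective {k : ℕ} {a : Fin k → E} (ha : LinearIndependent ℂ a) :
    Function.Surjective (dotL a) := by
  have h1 : (Matrix.of a).rank = Fintype.card (Fin k) := LinearIndependent.rank_matrix (M := Matrix.of a) ha
  rw [← LinearMap.range_eq_top]
  apply Submodule.eq_top_of_finrank_eq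
  rw [Matrix.rank] at h1
  rw [dotL, h1]
  simp

/-- linear systems with independent rows are solvable -/
lemma exists_solution {k : ℕ} {a : Fin k → E} (ha : LinearIndependent ℂ a) (y : Fin k → ℂ) :
    ∃ x : E, ∀ i, a i ⬝ᵥ x = y i := by
  obtain ⟨x, hx⟩ := dotL_surjective ha y
  exact ⟨x, fun i => congrFun hx i⟩

lemma finrank_Ann {k : ℕ} {a : Fin k → E} (ha : LinearIndependent ℂ a) :
    finrank ℂ (Ann a) + k = 5 := by
  have h1 := LinearMap.finrank_range_add_finrank_ker (dotL a)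
  rw [LinearMap.range_eq_top.2 (dotL_surjective ha)] at h1
  have h2 : LinearMap.ker (dotL a) = Ann a := by
    ext x
    rw [LinearMap.mem_ker, mem_Ann]
    exact ⟨fun h i => congrFun h i, fun h => funext h⟩
  rw [h2] at h1
  simp at h1
  omega

/-- a submodule killed by `k` independent covectors has dimension at most `5 - k` -/
lemma finrank_le_of_ann {k : ℕ} {a : Fin k → E} (ha : LinearIndependent ℂ a) {U : Submodule ℂ E}
    (hU : ∀ x ∈ U, ∀ i, a i ⬝ᵥ x = 0) : finrank ℂ U + k ≤ 5 := by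
  have h1 := finrank_Ann ha
  have h2 : finrank ℂ U ≤ finrank ℂ (Ann a) := Submodule.finrank_mono (fun x hx => hU x hx)
  omega

/-- double annihilator -/
lemma mem_span_of_ann {k : ℕ} {a : Fin k → E} (ha : LinearIndependent ℂ a) {c : E}
    (hc : ∀ x : E, (∀ i, a i ⬝ᵥ x = 0) → c ⬝ᵥ x = 0) : c ∈ Submodule.span ℂ (Set.range a) := by
  by_contra hcon
  have h1 : LinearIndependent ℂ (Fin.cons c a : Fin (k + 1) → E) :=
    linearIndependent_finCons.2 ⟨ha, hcon⟩
  obtain ⟨x, hx⟩ := exists_solution h1 (Fin.cons 1 0)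
  have h2 : c ⬝ᵥ x = 1 := by simpa using hx 0
  have h3 : c ⬝ᵥ x = 0 := hc x (fun i => by simpa using hx i.succ)
  rw [h2] at h3
  exact one_ne_zero h3

/-- there is a vector with prescribed values which also solves: `v` not in the span of `p` can be
separated -/
lemma exists_sep {k : ℕ} {a : Fin k → E} (ha : LinearIndependent ℂ a) {c : E}
    (hc : c ∉ Submodule.span ℂ (Set.range a)) : ∃ x : E, (∀ i, a i ⬝ᵥ x = 0) ∧ c ⬝ᵥ x = 1 := by
  have h1 : LinearIndependent ℂ (Fin.cons c a : Fin (k + 1) → E) :=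
    linearIndependent_finCons.2 ⟨ha, hc⟩
  obtain ⟨x, hx⟩ := exists_solution h1 (Fin.cons 1 0)
  exact ⟨x, fun i => by simpa using hx i.succ, by simpa using hx 0⟩

/-- a dual family -/
lemma exists_dual {k : ℕ} {p : Fin k → E} (hp : LinearIndependent ℂ p) :
    ∃ a : Fin k → E, ∀ i j, a i ⬝ᵥ p j = if i = j then 1 else 0 := by
  have h := fun i => exists_solution hp (fun j => if i = j then (1 : ℂ) else 0)
  choose a ha using h
  exact ⟨a, fun i j => by rw [dotProduct_comm]; exact ha i j⟩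

lemma dot_ext {x y : E} (h : ∀ a : E, a ⬝ᵥ x = a ⬝ᵥ y) : x = y := by
  ext i
  have := h (Pi.single i 1)
  simpa using this

lemma eq_zero_of_dot {x : E} (h : ∀ a : E, a ⬝ᵥ x = 0) : x = 0 :=
  dot_ext (by simpa using h)

end Pool.Agent.Work.MP_ea8963_ag.G4
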