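import Pool.Agent.Work.MP_ea8963_ag.G4.Asm

/-!
Block [ea8963 G4]: the official definitions (in terms of polynomials), the statements of the
translation items, and the final theorem from all items.  Captain helper56.
-/

set_option linter.style.longLine false
set_option linter.unusedVariables false

noncomputable section

open Module Topology MvPolynomial

namespace Pool.Agent.Work.MP_ea8963_ag.G4

/-- the quadratic form `x0 x1 + x2 x3 + x4 ^ 2` -/
def qf : MvPolynomial (Fin 5) ℂ := X 0 * X 1 + X 2 * X 3 + X 4 ^ 2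

/-- the gradient of `f` at `p` -/
def grad (f : MvPolynomial (Fin 5) ℂ) (p : Fin 5 → ℂ) : Fin 5 → ℂ := fun i => eval p (pderiv i f)

/-- the Hessian form of `f` at `p` -/
def hess (f : MvPolynomial (Fin 5) ℂ) (p v w : Fin 5 → ℂ) : ℂ :=
  ∑ i, ∑ j, eval p (pderiv i (pderiv j f)) * v i * w j

/-- `p` represents a singular point of the curve `qf = f = l = 0` in `P^4` -/
def IsSing (f : MvPolynomial (Fin 5) ℂ) (l p : Fin 5 → ℂ) : Prop :=
  p ≠ 0 ∧ eval p qf = 0 ∧ eval p f = 0 ∧ l ⬝ᵥ p = 0 ∧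
    ¬ LinearIndependent ℂ ![grad qf p, grad f p, l]

/-- `p` represents a node (ordinary double point) of the curve `qf = f = l = 0` in `P^4`: the
Jacobian matrix has rank 2, and for the linear relation `a, b, c` between its rows the second order
form `a Hess qf + b Hess f` is non-degenerate on the (two-dimensional) tangent space at `p`. -/
def IsNode (f : MvPolynomial (Fin 5) ℂ) (l p : Fin 5 → ℂ) : Prop :=
  IsSing f l p ∧
  finrank ℂ (Submodule.span ℂ (Set.range ![grad qf p, grad f p, l])) = 2 ∧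
  ∀ a b c : ℂ, (a ≠ 0 ∨ b ≠ 0 ∨ c ≠ 0) → a • grad qf p + b • grad f p + c • l = 0 →
    ∀ v : Fin 5 → ℂ, grad qf p ⬝ᵥ v = 0 → grad f p ⬝ᵥ v = 0 → l ⬝ᵥ v = 0 →
    (∀ w : Fin 5 → ℂ, grad qf p ⬝ᵥ w = 0 → grad f p ⬝ᵥ w = 0 → l ⬝ᵥ w = 0 →
      a * hess qf p v w + b * hess f p v w = 0) →
    ∃ t : ℂ, v = t • p

/-- the Severi curve: the hyperplanes `l = 0` such that the section `qf = f = l = 0` has exactly
three singular points, all of them nodes -/
def Sev (f : MvPolynomial (Fin 5) ℂ) : Set (Fin 5 → ℂ) :=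
  {l | l ≠ 0 ∧ ∃ p : Fin 3 → Fin 5 → ℂ, (∀ i, IsNode f l (p i)) ∧
    (∀ i j, i ≠ j → ∀ t : ℂ, p i ≠ t • p j) ∧
    ∀ q, IsSing f l q → ∃ (i : Fin 3) (t : ℂ), q = t • p i}

/-- the symmetric tensor of the cubic form `f`: third derivatives divided by 6 -/
def sten (f : MvPolynomial (Fin 5) ℂ) : T3 := fun i j k =>
  (1 / 6 : ℂ) * eval 0 (pderiv i (pderiv j (pderiv k f)))

/-- ITEM OAX.  Proof: compute (`simp [qf, grad, pderiv_X, Pi.single_apply, Fin.sum_univ_succ]`). -/
def OAX : Prop := (∀ x, 2 * eval x qf = B x x) ∧ (∀ x, grad qf x = beta x) ∧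
  ∀ x v w, hess qf x v w = B v w

/-- ITEM OBX.  Proof: `pderiv_pderiv_comm` gives symmetry.  A third derivative of a form of degree 3
is constant (`IsHomogeneous.pderiv`, degree 0: `totalDegree = 0`, so `eval x = eval 0`).  Euler's
identity `∑ x i * pderiv i f = (deg) * f` for `f` and its first and second derivatives
(`IsHomogeneous.sum_X_mul_pderiv` or prove it on monomials): second derivatives
`eval x (pderiv i (pderiv j f)) = ∑ k, 6 * sten f i j k * x k` (up to symmetry), first derivatives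
`2 * eval x (pderiv i f) = ∑ j, eval x (pderiv j (pderiv i f)) * x j`, and
`3 * eval x f = ∑ i, eval x (pderiv i f) * x i`. -/
def OBX : Prop := ∀ f : MvPolynomial (Fin 5) ℂ, f.IsHomogeneous 3 →
  sten f ∈ SymT ∧ (∀ x, eval x f = tri (sten f) x x x) ∧
  (∀ x, grad f x = (3 : ℂ) • cov (sten f) x x) ∧
  ∀ x v w, hess f x v w = 6 * tri (sten f) x v w

/-- ITEM OCX (`FBX → OBX → OCX`).  Proof: `sten f i j k = κ * f.coeff (e_i + e_j + e_k)` with
`κ = (product of the factorials of the multiplicities) / 6`, a non-zero rational number depending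
only on the multiset `{i, j, k}` (compute `pderiv` on monomials; `MvPolynomial.coeff_pderiv`, or
`constantCoeff`/`eval 0` of iterated `pderiv`).  `FBX` with `A = ∅` for the (finite, enumerated)
family of coefficients (`IntermediateField.adjoin ℚ ∅ = ⊥`, transport the algebraic independence
from `ℚ`): given `v ∈ SymT` choose `δ` with `δ (coeff m) = κ⁻¹ * v i j k`, `m = e_i + e_j + e_k`
(well defined by the symmetry of `v`). -/
def OCX : Prop := ∀ f : MvPolynomial (Fin 5) ℂ, f.IsHomogeneous 3 →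
  AlgebraicIndependent ℚ (fun m : {m : Fin 5 →₀ ℕ // m.degree = 3} => f.coeff m.1) →
  Gen (sten f)

/-- ITEM ODX (`SMX → PIX → OAX → OBX → ODX`).  Proof: let `p i` be the three nodes of `l`.
`B (p i) (p i) = 0`, `tri s (p i) (p i) (p i) = 0`.  By `SMX` `beta p, cov s p p` are independent, the
three rows `beta p, 3 cov s p p, l` span a plane, so `l = lam • beta p + mu • cov s p p`.
`ind`: `PIX`.  `Nd.ker`: given `v, x, y`, use the node condition with `a = lam, b = mu / 3, c = -1`: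
for `w` in the tangent space `a * hess qf + b * hess f = lam B v w + 2 mu tri s p v w
= - x B p w - y tri s p p w = 0`. -/
def ODX : Prop := ∀ f : MvPolynomial (Fin 5) ℂ, f.IsHomogeneous 3 → Gen (sten f) →
  ∀ l ∈ Sev f, ∃ (p : Fin 3 → E) (lam mu : Fin 3 → ℂ), Cfg (sten f) p l lam mu

/-- ITEM OEX (`SMX → NFX → OAX → OBX → OEX`).  Proof: `IsNode`: rank 2 by `Nd.rank`; if
`a • grad qf + b • grad f + c • l = 0` then `a = - c lam`, `3 b = - c mu` (independence), so
`c ≠ 0`; the covector `lam • beta v + 2 mu • cov s p v` is killed by the tangent space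
`Ann ![beta p, cov s p p]`, so it is in the span of `beta p, cov s p p` (`mem_span_of_ann`), apply
`Nd.ker`.  A singular point `q`: `beta q, cov s q q` are independent (`SMX`) and the three rows are
dependent, so `l = al • beta q + be • cov s q q`: `NFX`.  The `p i` are pairwise non-proportional by
`ind`. -/
def OEX : Prop := ∀ f : MvPolynomial (Fin 5) ℂ, f.IsHomogeneous 3 → Gen (sten f) →
  ∀ p l lam mu, Opt (sten f) p l lam mu → l ∈ Sev f

/-- the final theorem from all items -/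
theorem final_of_items (hSM : SMX) (hTG : TGX) (hFL : FLX) (hBJ : BJX) (hCN : CNX) (hTW : TWX)
    (hRL : RLX) (hRN : RNX) (hNN : NNX) (hF2 : F2X) (hIC : ICX) (hTU : TUX) (hTY : TYX)
    (hLC : LCX) (hCT : CTX) (hPT : PTX) (hFF : FFX) (hXE : XEX) (hXN : XNX) (hXG : XGX)
    (hXA : XAX) (hOA : OAX) (hOB : OBX) (hOC : OCX) (hOD : ODX) (hOE : OEX)
    (f : MvPolynomial (Fin 5) ℂ) (hf : f.IsHomogeneous 3)
    (hgen : AlgebraicIndependent ℚ
      (fun m : {m : Fin 5 →₀ ℕ // m.degree = 3} => f.coeff m.1)) :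
    (∀ q : Fin 5 → ℂ, q ≠ 0 → eval q qf = 0 → eval q f = 0 →
      LinearIndependent ℂ ![grad qf q, grad f q]) ∧
    (Sev f).Nonempty ∧
    ∀ F G : MvPolynomial (Fin 5) ℂ, (∀ l ∈ Sev f, eval l F * eval l G = 0) →
      (∀ l ∈ Sev f, eval l F = 0) ∨ (∀ l ∈ Sev f, eval l G = 0) := by
  have hs : Gen (sten f) := hOC f hf hgen
  obtain ⟨hA1, hA2, hA3⟩ := hOA
  obtain ⟨-, hB1, hB2, -⟩ := hOB f hf
  refine ⟨?_, ?_, ?_⟩
  · intro q hq h1 h2
    have h3 := hSM (sten f) hs q hq (by rw [← hA1, h1, mul_zero])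
    rw [hA2, hB2, LinearIndependent.pair_iff]
    rw [LinearIndependent.pair_iff] at h3
    intro a b hab
    have h4 := h3 a (b * 3) (by rw [← hab, smul_smul])
    exact ⟨h4.1, (mul_eq_zero.1 h4.2).resolve_right (by norm_num)⟩
  · obtain ⟨p, l, lam, mu, ho⟩ := exi hTG hFL hBJ hCN hCT hPT hXE hXN hXG hXA hs
    exact ⟨l, hOE f hf hs p l lam mu ho⟩
  · intro F G hFG
    by_contra hcon
    push Not at hcon
    obtain ⟨⟨l1, hl1, hF⟩, ⟨l2, hl2, hG⟩⟩ := hcon
    obtain ⟨p1, lam1, mu1, c1⟩ := hOD f hf hs l1 hl1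
    obtain ⟨p2, lam2, mu2, c2⟩ := hOD f hf hs l2 hl2
    obtain ⟨p, l, lam, mu, ho, hF', hG'⟩ := irr hTG hFL hBJ hCN hTW hRL hRN hNN hF2 hIC hTU hTY
      hLC hCT hPT hFF hs F G c1.toCfgY c2.toCfgY (by rw [om_toY c1]; exact hF)
      (by rw [om_toY c2]; exact hG)
    exact (mul_ne_zero hF' hG') (hFG l (hOE f hf hs p l lam mu ho))

end Pool.Agent.Work.MP_ea8963_ag.G4
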