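import Pool.Agent.Work.MP_ea8963_ag.G4.Defs

/-!
Block [ea8963 G4]: statements of the items.  Captain helper56.

THEOREM (goal). `X = {x0 x1 + x2 x3 + x4 ^ 2 = 0, f = 0}` in P^4, `f` a cubic form whose
coefficients are algebraically independent over the rationals (the very general K3 surface of
genus 4).  The locus of hyperplane sections with exactly three singular points, all of them nodes,
is non-empty and irreducible.

METHOD.  `D` = derivations of the complex numbers.  A tuple `x` is generic over a field iff all its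
formal derivatives occur.  All dimension counts are the one lemma `rn` (file Lin.lean): for two
linear maps on a space `W` of derivations
  dim f(W) + dim g(W cap ker f) = dim g(W) + dim f(W cap ker g).
`n` denotes `finrank SymT` (its value is never needed).
-/

set_option linter.style.longLine false
set_option linter.unusedVariables false

noncomputable section

open Module Topology

namespace Pool.Agent.Work.MP_ea8963_ag.G4

/-! ## Part A: counts for one configuration -/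

/-- ITEM GK (linear algebra).
Proof: lemma `pair` of Lin.lean with `M = SymT`, `M' = Π i, A i`,
`φ v = (t ↦ ∑ i, tri t (P i) (P i) (v i))`.  The kernel of `φ` is zero: let `a` be the dual family
(`exists_dual`), test `t = sp (a i) (a i) c`: by `tri_sp_ppv` only the term `i` survives and gives
`2 (c ⬝ᵥ v i + 2 (a i ⬝ᵥ v i) (c ⬝ᵥ P i)) = 0`; `c = a i` gives `a i ⬝ᵥ v i = 0`, then
`c ⬝ᵥ v i = 0` for all `c`.  `(range φ).dualCoannihilator` mapped by `SymT.subtype` is `KK P A`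
(`Submodule.finrank_map_subtype_eq`), `finrank (Π i, A i) = ∑ finrank (A i)`. -/
def GK : Prop := ∀ (n : ℕ) (P : Fin n → E) (A : Fin n → Submodule ℂ E), LinearIndependent ℂ P →
  finrank ℂ (KK P A) + ∑ i, finrank ℂ (A i) ≤ finrank ℂ SymT

/-- ITEM SMX (`GK → SMX`): the surface is smooth.
Proof: `beta q ≠ 0`.  If the pair is dependent, `cov s q q = ρ • beta q`.  Replace `q` by a multiple
with `q j = 1`.  `rn_le` with `f = evT s`, `g = evE q`, `W = ⊤`: `n = dim evT s (⊤)`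
(`Gen.map_evT`).  Range of `evE q`: killed by the covectors `beta q` (derivative of `B q q = 0`) and
`Pi.single j 1` (derivative of `q j = 1`), independent (evaluate at `q`), so dimension ≤ 3
(`finrank_le_of_ann`).  If `δ` kills `q`, then `t = dT δ s` has `cov t q q = δ ρ • beta q`, so
`t ∈ KK ![q] (fun _ => Ann ![beta q])`, dimension ≤ n - 4 by `GK` (`finrank_Ann`: 4).
`n ≤ 3 + (n - 4)` is absurd. -/
def SMX : Prop := ∀ s, Gen s → ∀ q : E, q ≠ 0 → B q q = 0 → LinearIndependent ℂ ![beta q, cov s q q]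

/-- ITEM NLX (`GK → NLX`): there is no line in the surface.
Proof: some 2x2 minor `u i * v j - u j * v i ≠ 0` (`i ≠ j`); replace `u, v` by another basis of the
same plane with `u i = 1, u j = 0, v i = 0, v j = 1` (all hypotheses are about the plane; use
`tri_comm`).  Count with `rn_le`, `f = evT s`, first `W = ⊤, g = evE u`: the range is killed by
`beta u, Pi.single i 1, Pi.single j 1`, independent (evaluate at `u` and `v`): dimension ≤ 2.
Then `W = ZE u`, `g = evE v`: killed by `beta u, beta v, Pi.single i 1, Pi.single j 1`: dimension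
≤ 1.  Then `δ` kills `u, v`: `dT δ s ∈ KK ![u, v] (fun _ => span {u, v})`, dimension ≤ n - 4.
`n ≤ 2 + 1 + (n - 4)` is absurd. -/
def NLX : Prop := ∀ s, Gen s → ∀ u v : E, LinearIndependent ℂ ![u, v] →
  B u u = 0 → B u v = 0 → B v v = 0 →
  tri s u u u = 0 → tri s u u v = 0 → tri s v v u = 0 → tri s v v v = 0 → False

/-- ITEM PIX (`NLX → PIX`): three singular points of a section are linearly independent.
Proof: if not, as they are pairwise independent, each is a combination of the other two, with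
non-zero coefficients; from `B (p k) (p k) = 0` we get `B (p i) (p j) = 0` for all `i ≠ j` (so for
all i, j).  `l ⬝ᵥ p i = 0` for all i (pair the equation at `i` with `p i`).  Pair the equation at
`i` with `p j`: `mu i * tri s (p i) (p i) (p j) = 0`.  At most one `mu i` is zero (`mu i = 0` gives
`l = lam i • beta (p i)`, so two such `p i` would be proportional, `beta` is injective).  Take
`i ≠ j` with `mu i ≠ 0 ≠ mu j`: `NLX` for `u = p i, v = p j`. -/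
def PIX : Prop := ∀ s, Gen s → ∀ (p : Fin 3 → E) (l : E) (lam mu : Fin 3 → ℂ), l ≠ 0 →
  (∀ i, B (p i) (p i) = 0) → (∀ i, tri s (p i) (p i) (p i) = 0) →
  (∀ i, l = lam i • beta (p i) + mu i • cov s (p i) (p i)) → (∀ i, p i ≠ 0) →
  (∀ i j, i ≠ j → ∀ c : ℂ, p i ≠ c • p j) → LinearIndependent ℂ p

/-- ITEM TGX (`GK → TGX`): the section is not tangential.
Proof: let `mu i = 0`, `j, k` the other two indices; `l = lam i • beta (p i)`, `lam i ≠ 0`;
`mu j, mu k ≠ 0` (else `beta (p j)` and `beta (p i)` are proportional).  `rn` with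
`W = ⊤, f = evT s, g = evB p l`: `n + 5 ≤ dim evB(⊤) + dim evT s (ZB p l)`.
(1) `dim evB(⊤) ≤ 4 + 1 + 3 + 3 = 11`: use `rn_le` with `f = evB p l` four times:
`W = ⊤, g = evE (p i)` (killed by `beta (p i)`: ≤ 4); `W = ZE (p i), g = evE l` (in the span of
`beta (p i)`: ≤ 1); `W = ZE (p i) ⊓ ZE l, g = evE (p j)` (killed by `beta (p j)` and `l`, which are
independent: ≤ 3), then `evE (p k)` (≤ 3), and then `evB` is zero.
(2) `dim evT s (ZB) ≤ n - 7`: if `δ` kills `p, l`, then `t = dT δ s` has `t (p i, p i, p i) = 0`,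
and for `m = j, k` (`Cfg.d_eq`) `tri t (p m) (p m) v = 0` for `B (p m) v = 0 = l ⬝ᵥ v`;
so `t ∈ KK p A`, `A i = span {p i}`, `A m = Ann ![beta (p m), l]`; `GK`.
`n + 5 ≤ 11 + n - 7` is absurd. -/
def TGX : Prop := ∀ s, Gen s → ∀ p l lam mu, Cfg s p l lam mu →
  5 ≤ finrank ℂ ((ZS s).map (evB p l)) → ∀ i, mu i ≠ 0

/-- ITEM DTB.  Proof: `rn_prod` with `V = (Fin 3 → E) × E`, `f = fst`, `g = snd`, `W = TB p l`
(`f.prod g = id`).  `W.map fst` lies in `Submodule.pi`-product of the `Ann ![beta (p i)]`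
(dimension 3 * 4), `(W ⊓ ker fst).map snd` is killed by `p 0, p 1, p 2`: dimension ≤ 2
(`finrank_le_of_ann` with `a = p`). (`p i ≠ 0` so `beta (p i) ≠ 0`.) -/
def DTB : Prop := ∀ (p : Fin 3 → E) (l : E), LinearIndependent ℂ p → finrank ℂ (TB p l) ≤ 14

/-- ITEM FLX (`GK → DTB → FLX`).  Proof: `rn` with `W = ⊤, f = evT s, g = evB p l`:
`n + dim evB(ZS s) = dim evB(⊤) + dim evT s(ZB p l)`; `evB(⊤) ≤ TB p l` (`Cfg.ev_mem`) has
dimension ≤ 14, `evT s (ZB p l) ≤ KB p l` (`Cfg.dT_mem_KB`) has dimension ≤ n - 9 (`GK`, `KB` is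
`KK p (Ann ![beta (p i), l])`, `Cfg.nt`, `finrank_Ann`: 3).  So all inequalities are equalities. -/
def FLX : Prop := ∀ s, Gen s → ∀ p l lam mu, Cfg s p l lam mu → (∀ i, mu i ≠ 0) →
  5 ≤ finrank ℂ ((ZS s).map (evB p l)) →
  finrank ℂ ((ZS s).map (evB p l)) = 5 ∧
  finrank ℂ SymT ≤ finrank ℂ ((ZB p l).map (evT s)) + 9 ∧
  (∀ x ∈ TB p l, ∃ δ : D, evB p l δ = x) ∧ (∀ t ∈ KB p l, ∃ δ ∈ ZB p l, dT δ s = t)

/-- ITEM BJX.  Proof: suppose `B (p i) (p j) = 0`.  Then `B (dE δ (p i)) (p j) + B (p i) (dE δ (p j))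
= 0` for all `δ`.  `beta (p i), beta (p j)` are independent, so `exists_sep` gives `w` with
`B (p i) w = 0`, `B (p j) w = 1`.  By `exists_solution` with `a = p` there is `m : E` with
`m ⬝ᵥ p i = - l ⬝ᵥ w`, `m ⬝ᵥ p k = 0` for `k ≠ i`.  `(Pi.single i w, m) ∈ TB p l`, take `δ`. -/
def BJX : Prop := ∀ s p l lam mu, Cfg s p l lam mu → (∀ x ∈ TB p l, ∃ δ : D, evB p l δ = x) →
  ∀ i j, i ≠ j → B (p i) (p j) ≠ 0

/-- ITEM CNX (the conic through the three nodes is not in the surface).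
Proof: `ρ i = lam i / mu i`.  Pairing the main equation at `i` with `p j` (`Cfg.dot_eq`, `Cfg.lp`):
`tri s (p i) (p i) (p j) = - ρ i * B (p i) (p j)`.  For `q = ∑ x i • p i` with `B q q = 0`, i.e.
`B01 x0 x1 + B02 x0 x2 + B12 x1 x2 = 0`, expand (trilinear, symmetric):
`tri s q q q = c * x 0 * x 1 * x 2`, `c = 3 (ρ0 B12 + ρ1 B02 + ρ2 B01) + 6 tri s (p 0) (p 1) (p 2)`.
If `c ≠ 0`: some `x i = 0`, then (`B q q = 0`, `bij`) another coordinate is 0: `q = c • p j`.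
`c = 0` is impossible: let `a` be the dual family of `p` (`exists_dual`), `t = sp (a 0) (a 1) (a 2)`.
`tri t (p i) (p i) v = 0` for all v, so `t ∈ KB p l`, `tri t (p 0) (p 1) (p 2) = 1`.  Take
`δ ∈ ZB p l` with `dT δ s = t`.  Apply `δ` to `mu i * tri s (p i) (p i) (p j) = - lam i * B` and to
`tri s (p i) (p i) (p j) * mu i + ...`: as `tri t (p i) (p i) (p j) = 0` one gets `δ (ρ i) = 0`
(`B (p i) (p j) ≠ 0`), so `0 = δ c = 6`. -/
def CNX : Prop := ∀ s ∈ SymT, ∀ p l lam mu, Cfg s p l lam mu → (∀ i, mu i ≠ 0) →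
  (∀ i j, i ≠ j → B (p i) (p j) ≠ 0) → (∀ t ∈ KB p l, ∃ δ ∈ ZB p l, dT δ s = t) →
  ∀ x : Fin 3 → ℂ, B (∑ i, x i • p i) (∑ i, x i • p i) = 0 →
    tri s (∑ i, x i • p i) (∑ i, x i • p i) (∑ i, x i • p i) = 0 →
    ∃ (j : Fin 3) (c : ℂ), ∑ i, x i • p i = c • p j

/-- ITEM NFX (`GK → SMX → NFX`): there is no fourth singular point.
Proof: if `q ∈ span (range p)`: `Opt.con`.  So `q ∉ N = span (range p)`, suppose this.
(a) `be = 0`: `l = al • beta q`, `al ≠ 0`.  By `exists_solution` there is `m` with `m ⬝ᵥ p i = 0`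
and `m ⬝ᵥ q = 1` (`q ∉ N`: the family `Fin.cons q p`, i.e. `exists_sep` with `a = p`, `c = q`).
`(0, m) ∈ TB p l`, so some `δ` has `δ p = 0`, `dE δ l = m`.  Let `q' = al • q`, `l = beta q'`,
`B q' q' = 0`; `m = beta (dE δ q')`, so `m ⬝ᵥ q' = B (dE δ q') q' = 0` (derivative of
`B q' q' = 0`), but `m ⬝ᵥ q' = al ≠ 0`.
(b) `be ≠ 0`.  Scale `q` such that `q j = 1` for some `j` (`al`, `be` change).  `beta q`, `l` are
independent (`SMX`, `be ≠ 0`); `beta q, l, Pi.single j 1` are independent (the first two kill `q`).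
`rn_le` with `f = evT s`, `W = ZB p l`, `g = evE q`: `n - 9 ≤ dim` (by `Opt.rkS`).  `evE q (ZB p l)`
is killed by `beta q, l, Pi.single j 1`: ≤ 2.  If `δ` kills `p, l, q`: `t = dT δ s ∈ KB p l`
(`Cfg.dT_mem_KB`), and the derivative of `l = al • beta q + be • cov s q q` gives
`tri t q q v = 0` when `B q v = 0 = l ⬝ᵥ v`; so `t ∈ KK (Fin.snoc p q or Fin.cons q p) ...`
with four independent points, dimension ≤ n - 12 (`GK`).  `n - 9 ≤ 2 + n - 12` is absurd. -/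
def NFX : Prop := ∀ s, Gen s → ∀ p l lam mu, Opt s p l lam mu → ∀ q : E, q ≠ 0 →
  B q q = 0 → tri s q q q = 0 → l ⬝ᵥ q = 0 → ∀ al be : ℂ, l = al • beta q + be • cov s q q →
  ∃ (i : Fin 3) (c : ℂ), q = c • p i

/-! ## Part B: derivations over the field of `s`, two configurations -/

/-- ITEM LMX: if `l` is projectively constant then so are the nodes.
Proof: `Cfg.d_eq` with `dT δ s = 0`: `c • l = δ(lam) beta p + lam beta (δ p) + δ(mu) cov s p p +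
2 mu cov s p (δ p)`; substitute `l = lam beta p + mu cov s p p` and use `Nd.ker` with
`v = dE δ (p i)`, `x = δ (lam i) - c lam i`, `y = δ (mu i) - c mu i`, and `Cfg.tri_dE`. -/
def LMX : Prop := ∀ s ∈ SymT, ∀ p l lam mu, Cfg s p l lam mu → ∀ δ ∈ ZS s, ∀ c : ℂ,
  dE δ l = c • l → ∀ i, ∃ c' : ℂ, dE δ (p i) = c' • p i

/-- ITEM LNX (`LMX → LNX`).  Proof: otherwise all of `W.map (evB p l)` lies in the range of the
linear map `(Fin 3 → ℂ) × ℂ → (Fin 3 → E) × E`, `(c, d) ↦ (fun i => c i • p i, d • l)`, of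
dimension ≤ 4. -/
def LNX : Prop := ∀ s ∈ SymT, ∀ p l lam mu, Cfg s p l lam mu → ∀ W : Submodule ℂ D, W ≤ ZS s →
  5 ≤ finrank ℂ (W.map (evB p l)) → ∃ δ ∈ W, ∀ c : ℂ, dE δ l ≠ c • l

/-- ITEM NCX.  Proof: suppose `dE δ (p i) = c • p i`.  By `Cfg.d_eq` (with `dT δ s = 0`) `dE δ l` is
in the span of `beta (p i)`, `cov s (p i) (p i)`, as is `l`.  `l ≠ 0` and `dE δ l` is not a multiple
of `l`, so `l, dE δ l` are independent and span the same plane: `beta (p i) = x • l + y • dE δ l`.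
Pair with `p j`, `j ≠ i`: `Cfg.lp` and `Cfg.dl_p` give `B (p i) (p j) = 0`, contradiction. -/
def NCX : Prop := ∀ s ∈ SymT, ∀ p l lam mu, Cfg s p l lam mu →
  (∀ i j, i ≠ j → B (p i) (p j) ≠ 0) → ∀ δ ∈ ZS s, (∀ c : ℂ, dE δ l ≠ c • l) →
  ∀ i, ∀ c : ℂ, dE δ (p i) ≠ c • p i

/-- ITEM TWX (`LNX → NCX → TWX`): the nodes of the first section are not on the second hyperplane.
Proof: `LNX` for the second configuration and `W = ZS s ⊓ ZB p l`: `δ ∈ W` with `dE δ l'` not a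
multiple of `l'`.  Suppose `l' ⬝ᵥ p i = 0`.  Then `dE δ l' ⬝ᵥ p i = 0` (`dE δ (p i) = 0`).
`l', dE δ l'` are independent and kill `p' 0, p' 1, p' 2` (`Cfg.lp`, `Cfg.dl_p`), so
`Ann ![l', dE δ l']` has dimension 3 and is the span of `p'`: `p i = ∑ x j • p' j`.  `Opt.con` (for
`p'`): `p i = c • p' j`, `c ≠ 0` (`p i ≠ 0`), so `p' j = c⁻¹ • p i` and
`dE δ (p' j) = δ (c⁻¹) • p i` is a multiple of `p' j`: contradiction to `NCX`. -/
def TWX : Prop := ∀ s ∈ SymT, ∀ p l lam mu p' l' lam' mu', Cfg s p l lam mu →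
  Opt s p' l' lam' mu' → 5 ≤ finrank ℂ ((ZS s ⊓ ZB p l).map (evB p' l')) →
  ∀ i, l' ⬝ᵥ p i ≠ 0

/-- ITEM R1X.  Proof: test `t = sp m b c` and `tri_sp_ppv`; the second sum vanishes. -/
def R1X : Prop := ∀ p p' v v' : Fin 3 → E,
  (∀ t ∈ SymT, ∑ i, tri t (p i) (p i) (v i) + ∑ i, tri t (p' i) (p' i) (v' i) = 0) →
  ∀ m : E, (∀ i, m ⬝ᵥ p' i = 0) → (∀ i, m ⬝ᵥ v' i = 0) → ∀ b c : E,
  ∑ i, ((b ⬝ᵥ p i) * (c ⬝ᵥ ((2 * (m ⬝ᵥ p i)) • v i + (m ⬝ᵥ v i) • p i)) +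
    (b ⬝ᵥ ((2 * (m ⬝ᵥ p i)) • v i + (m ⬝ᵥ v i) • p i)) * (c ⬝ᵥ p i)) = 0

/-- ITEM R2X.  Proof: `w i ∈ span p`: if not, `exists_sep` (`a = p`) gives `b` with `b ⬝ᵥ p j = 0`
for all `j` and `b ⬝ᵥ w i = 1`; with `c = a i` (dual family) the sum is `b ⬝ᵥ w i = 1`.  Write
`w i = ∑ j, m i j • p j`; `b = a i, c = a j` (dual family): `m i j + m j i = 0` (also `m i i = 0`).
`B (p i) (w i) = 0` gives three linear equations for `m 0 1, m 0 2, m 1 2` with solution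
`κ = m 0 1 * B (p 0) (p 1)`. -/
def R2X : Prop := ∀ p : Fin 3 → E, LinearIndependent ℂ p → (∀ i, B (p i) (p i) = 0) →
  (∀ i j, i ≠ j → B (p i) (p j) ≠ 0) → ∀ w : Fin 3 → E, (∀ i, B (p i) (w i) = 0) →
  (∀ b c : E, ∑ i, ((b ⬝ᵥ p i) * (c ⬝ᵥ w i) + (b ⬝ᵥ w i) * (c ⬝ᵥ p i)) = 0) →
  ∃ κ : ℂ, ∀ i, w i = κ • uu p i

/-- ITEM RKX (`R1X → R2X → RKX`).  Proof: `R1X` with `m = l'` (`l' ⬝ᵥ x.2 i = 0` is part of
`RelM`), then `R2X`.  If `κ = 0`: apply `l'` to `(2 l'(p i)) • x.1 i + l'(x.1 i) • p i = 0`: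
`3 l'(p i) l'(x.1 i) = 0`, so `l'(x.1 i) = 0`, so `x.1 i = 0`. -/
def RKX : Prop := ∀ (p : Fin 3 → E) (l : E) (p' : Fin 3 → E) (l' : E), LinearIndependent ℂ p →
  (∀ i, B (p i) (p i) = 0) → (∀ i j, i ≠ j → B (p i) (p j) ≠ 0) → (∀ i, l' ⬝ᵥ p' i = 0) →
  (∀ i, l' ⬝ᵥ p i ≠ 0) → ∀ x ∈ RelM p l p' l', ∃ κ : ℂ,
  (∀ i, (2 * (l' ⬝ᵥ p i)) • x.1 i + (l' ⬝ᵥ x.1 i) • p i = κ • uu p i) ∧
  (κ = 0 → ∀ i, x.1 i = 0)

/-- ITEM RLX (`RKX → RLX`).  Proof: the linear map `x ↦ (2 l'(p 0)) • x.1 0 + l'(x.1 0) • p 0` from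
`RelM` to `span {uu p 0}` is injective: if the image is 0 then `κ • uu p 0 = 0`, `uu p 0 ≠ 0`,
`κ = 0`, `x.1 = 0`, and then `∑ tri t (p' i) (p' i) (x.2 i) = 0` for all `t ∈ SymT` gives `x.2 = 0`
(test `t = sp (a i) (a i) c` with the dual family `a` of `p'` as in GK). -/
def RLX : Prop := ∀ (p : Fin 3 → E) (l : E) (p' : Fin 3 → E) (l' : E), LinearIndependent ℂ p →
  (∀ i, B (p i) (p i) = 0) → (∀ i j, i ≠ j → B (p i) (p j) ≠ 0) → LinearIndependent ℂ p' →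
  (∀ i, l' ⬝ᵥ p' i = 0) → (∀ i, l' ⬝ᵥ p i ≠ 0) → finrank ℂ (RelM p l p' l') ≤ 1

/-- ITEM RNX (`R1X → R2X → RKX → RNX`).  Proof: `κ` of `RKX` is not 0 (else `x.1 = 0`, and then
`x.2 = 0` as in RLX).  By RKX for the swapped relation `(x.2, x.1) ∈ RelM p' l' p l` and
`l ⬝ᵥ p' i ≠ 0`, each `x.2 i` is in the span of `uu p' i` and `p' i`, so in the span of `p'`.
`Ann`ihilator of `p'` has dimension 2: choose `m` with `m ⬝ᵥ p' i = 0` for all `i`, not a multiple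
of `l'`.  Then `m ⬝ᵥ x.2 i = 0`, so by `R1X`, `R2X` (with `w i = (2 m(p i)) • x.1 i + m(x.1 i) • p i`,
`B (p i) (w i) = 0`) `w i = κ' • uu p i`.  Substitute `x.1 i = (2 l'(p i))⁻¹ • (κ • uu p i -
l'(x.1 i) • p i)`; `uu p i` and `p i` are independent, so `m(p i) κ / l'(p i) = κ'`, i.e.
`(m - (κ'/κ) • l') ⬝ᵥ p i = 0` for all `i`.  This covector works (it is not 0). -/
def RNX : Prop := ∀ (p : Fin 3 → E) (l : E) (p' : Fin 3 → E) (l' : E), LinearIndependent ℂ p →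
  (∀ i, B (p i) (p i) = 0) → (∀ i j, i ≠ j → B (p i) (p j) ≠ 0) → LinearIndependent ℂ p' →
  (∀ i, B (p' i) (p' i) = 0) → (∀ i j, i ≠ j → B (p' i) (p' j) ≠ 0) →
  (∀ i, l ⬝ᵥ p i = 0) → (∀ i, l' ⬝ᵥ p' i = 0) → (∀ i, l' ⬝ᵥ p i ≠ 0) → (∀ i, l ⬝ᵥ p' i ≠ 0) →
  ∀ x ∈ RelM p l p' l', x ≠ 0 →
  ∃ m : E, m ≠ 0 ∧ (∀ i, m ⬝ᵥ p i = 0) ∧ ∀ i, m ⬝ᵥ p' i = 0

/-- ITEM DKX (linear algebra).  Proof: lemma `pair` with `M = SymT`,
`M' = (Π i, Ann ![beta (p i), l]) × (Π i, Ann ![beta (p' i), l'])` (dimension 9 + 9 by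
`finrank_Ann` and `Nt`), `φ (v, v') t = ∑ tri t (p i) (p i) (v i) + ∑ tri t (p' i) (p' i) (v' i)`.
`ker φ` is `RelM`, the coannihilator is `KB p l ⊓ KB p' l'`. -/
def DKX : Prop := ∀ (p : Fin 3 → E) (l : E) (p' : Fin 3 → E) (l' : E), Nt p l → Nt p' l' →
  finrank ℂ (KB p l ⊓ KB p' l' : Submodule ℂ T3) + 18 =
    finrank ℂ SymT + finrank ℂ (RelM p l p' l')

/-- ITEM NNX (`DKX → NNX`).  Proof: scale `m` so that `m j = 1` for some `j`.  `rn` with
`W = ZB p l, f = evT s, g = evB p' l'`: `dim evT s(ZB p l) + dim evB'(ZB p l ⊓ ZS s) =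
dim evB'(ZB p l) + dim evT s(ZB p l ⊓ ZB p' l')`; the left side is ≥ (n - 9) + 5 (`Opt.rkS`).
`rn_le` with `f = evB p' l', g = evE m, W = ZB p l`: `evE m (ZB p l)` is killed by the vectors
`p 0, p 1, p 2, Pi.single j 1` (as covectors; independent because `m` kills `p` but not
`Pi.single j 1`): ≤ 1.  `evB'(ZB p l ⊓ ZE m)` lies in the space of `(dp, dl)` with
`B (p' i) (dp i) = 0`, `m ⬝ᵥ dp i = 0`, `dl ⬝ᵥ p' i + l' ⬝ᵥ dp i = 0`, of dimension ≤ 9 + 2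
(`beta (p' i)`, `m` are independent because `m (p' j) = 0 ≠ B (p' i) (p' j)`; as in DTB).
`evT s (ZB p l ⊓ ZB p' l') ≤ KB p l ⊓ KB p' l'` (`Cfg.dT_mem_KB`), dimension ≤ n - 17 (`DKX`).
`n - 4 ≤ 1 + 11 + n - 17` is absurd. -/
def NNX : Prop := ∀ s, Gen s → ∀ p l lam mu p' l' lam' mu', Opt s p l lam mu →
  Opt s p' l' lam' mu' → 5 ≤ finrank ℂ ((ZS s ⊓ ZB p l).map (evB p' l')) →
  finrank ℂ (RelM p l p' l') ≤ 1 → ∀ m : E, m ≠ 0 → (∀ i, m ⬝ᵥ p i = 0) →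
  (∀ i, m ⬝ᵥ p' i = 0) → False

/-- ITEM F2X (`DKX → DTB → F2X`).  Proof: as FLX.  `rn` with `W = ZB p l, f = evT s,
g = evB p' l'`: left side ≥ (n - 9) + 5 (`Opt.rkS`); `evB'(ZB p l) ≤ TB p' l'` (≤ 14),
`evT s (ZB p l ⊓ ZB p' l') ≤ KB p l ⊓ KB p' l'` (= n - 18 by `DKX`).  All are equalities. -/
def F2X : Prop := ∀ s, Gen s → ∀ p l lam mu p' l' lam' mu', Opt s p l lam mu →
  Opt s p' l' lam' mu' → 5 ≤ finrank ℂ ((ZS s ⊓ ZB p l).map (evB p' l')) →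
  finrank ℂ (RelM p l p' l') = 0 →
  (∀ x ∈ TB p' l', ∃ δ ∈ ZB p l, evB p' l' δ = x) ∧
  (∀ t ∈ KB p l ⊓ KB p' l', ∃ δ ∈ ZB p l ⊓ ZB p' l', dT δ s = t)

end Pool.Agent.Work.MP_ea8963_ag.G4
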