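import Pool.Agent.Work.MP_ea8963_ag.G4.Stmts

/-!
Block [ea8963 G4]: statements of the items, field theory and analysis.  Captain helper56.
-/

set_option linter.style.longLine false
set_option linter.unusedVariables false

noncomputable section

open Module Topology

namespace Pool.Agent.Work.MP_ea8963_ag.G4

/-! ## Part C: field theory -/

/-- ITEM FAX: derivations kill algebraic elements.
Proof: let `P` be the minimal polynomial of `z` over `F = IntermediateField.adjoin ℚ A`; `δ` kills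
`A`, so it kills `F` (`IntermediateField.adjoin_induction`; for inverses `Derivation.leibniz_inv` or
`δ (x * x⁻¹) = 0`).  `0 = δ (P z) = P' z * δ z` (sum over the coefficients, which `δ` kills), and
`P' z ≠ 0` (separable, characteristic 0). -/
def FAX : Prop := ∀ (A : Set ℂ) (z : ℂ), IsAlgebraic (IntermediateField.adjoin ℚ A) z → z ∈ cl A

/-- ITEM FBX: existence of derivations.
Proof: `F = IntermediateField.adjoin ℚ A`.  Extend `x` to a transcendence basis `y : ι → ℂ` of `ℂ`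
over `F` (`exists_isTranscendenceBasis_superset` or similar).  The field
`K = IntermediateField.adjoin F (range y)` is the fraction field of `MvPolynomial ι F`; `ℂ` is
algebraic and separable over `K`, so formally etale over `K`, and `K` is formally etale (a
localization) over `Algebra.adjoin F (range y)`, a polynomial ring (`AlgebraicIndependent.aevalEquiv`).
See Mathlib/RingTheory/Smooth/Field.lean for this chain of instances.  A derivation of the
polynomial ring with values in `ℂ` exists (`MvPolynomial.mkDerivation`) with arbitrary values on the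
variables.  Extend it: it corresponds to an algebra map to the dual numbers `TrivSqZeroExt ℂ ℂ` (or
`DualNumber ℂ`), use `Algebra.FormallySmooth.exists_lift`; or use
`KaehlerDifferential.tensorKaehlerEquivOfFormallyEtale`.  Alternative: extend step by step with Zorn
(transcendental element: arbitrary value; algebraic element: forced value). -/
def FBX : Prop := ∀ (A : Set ℂ) (n : ℕ) (x : Fin n → ℂ),
  AlgebraicIndependent (IntermediateField.adjoin ℚ A) x → Full (ZA A) x

/-- ITEM FCX (`FAX → FCX`).  Proof: if `x` is not algebraically independent over `F = adjoin ℚ A`,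
some `x i` is algebraic over `F (x j, j ≠ i)` (look for `AlgebraicIndependent` and `Transcendental`
in Mathlib/RingTheory/AlgebraicIndependent/Transcendental.lean: a family is algebraically
independent iff each member is transcendental over the algebra generated by the others, or use the
`Fin`-successive form), so by `FAX` for the set `A ∪ {x j, j ≠ i}` every `δ ∈ ZA A` with `δ (x j) =
0` for `j ≠ i` kills `x i`: contradiction to `Full`. -/
def FCX : Prop := ∀ (A : Set ℂ) (n : ℕ) (x : Fin n → ℂ), Full (ZA A) x →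
  AlgebraicIndependent (IntermediateField.adjoin ℚ A) x

/-- ITEM FDX (`FBX → FDX`).  Proof: if `z` is transcendental over `adjoin ℚ A`, the family `![z]`
is algebraically independent, `FBX` gives `δ ∈ ZA A` with `δ z = 1`. -/
def FDX : Prop := ∀ (A : Set ℂ) (z : ℂ), z ∈ cl A → IsAlgebraic (IntermediateField.adjoin ℚ A) z

/-- ITEM FEX (`FDX → FEX`).  Proof: `IntermediateField.adjoin ℚ A` is countable, the algebraic
elements over a countable field are countable (`Algebraic.countable`). -/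
def FEX : Prop := ∀ A : Set ℂ, A.Countable → (cl A).Countable

/-- ITEM FFX: `cl` of `cl`.  (Easy: `ZA (cl A) = ZA A`.) Also `cl A` is closed under the field
operations and contains the rationals. -/
def FFX : Prop := ∀ A : Set ℂ, A ⊆ cl A ∧ ZA (cl A) = ZA A ∧ (∀ q : ℚ, (q : ℂ) ∈ cl A) ∧
  (∀ x ∈ cl A, ∀ y ∈ cl A, x + y ∈ cl A ∧ x * y ∈ cl A ∧ -x ∈ cl A ∧ x⁻¹ ∈ cl A)

/-- ITEM CHX (`FEX → CHX`).  Proof: induction on `n` (`Fin.snoc`, `Fin.init`, `Fin.last`): given
`c'` for the first `n` entries, the set `cl (A ∪ range c')` is countable, so its complement is dense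
in `ℂ` (`Set.Countable.dense_compl ℝ`): choose the last entry `z` there, near `c (last)`; some
`δ₂ ∈ ZA (A ∪ range c')` has `δ₂ z ≠ 0`, scale: `δ₂ z = 1`; given values `v` take `δ₁ ∈ ZA A` with
the first `n` values and `δ₁ + (v (last) - δ₁ z) • δ₂`. -/
def CHX : Prop := ∀ (A : Set ℂ), A.Countable → ∀ (n : ℕ) (c : Fin n → ℂ) (ε : ℝ), 0 < ε →
  ∃ c' : Fin n → ℂ, (∀ i, ‖c' i - c i‖ < ε) ∧ Full (ZA A) c'

/-- ITEM EXX (`FCX → EXX`): extension of automorphisms.
Proof: `F = adjoin ℚ A`, `F' = adjoin ℚ (σ '' A)`, countable fields, `σ` maps `F` onto `F'`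
(`IntermediateField.adjoin_map` or `Subfield.closure`).  By `FCX` `x` is algebraically independent
over `F` and `y` over `F'`.  Extend `x` to a transcendence basis `S` of `ℂ / F` and `y` to a
transcendence basis `S'` of `ℂ / F'`; `#(S \ range x) = #(S' \ range y) = continuum`
(`IsAlgClosed.cardinal_eq_cardinal_transcendence_basis_of_aleph0_lt`, Mathlib file
FieldTheory/IsAlgClosed/Classification.lean), so there is a bijection `e : S ≃ S'` with
`x i ↦ y i`.  `F[S] ≃ F'[S']` (as polynomial rings, over `σ`), and `ℂ` is an algebraic closure of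
the fraction field of both (`isAlgClosure_of_transcendence_basis`), `IsAlgClosure.equivOfEquiv`
(see the proof of `IsAlgClosed.equivOfTranscendenceBasis`). -/
def EXX : Prop := ∀ (A : Set ℂ), A.Countable → ∀ (σ : ℂ ≃+* ℂ) (n : ℕ) (x y : Fin n → ℂ),
  Full (ZA A) x → Full (ZA (σ '' A)) y →
  ∃ σ' : ℂ ≃+* ℂ, (∀ a ∈ A, σ' a = σ a) ∧ ∀ i, σ' (x i) = y i

/-- ITEM JCX (linear algebra), first half.  Proof: the 20 coordinate functionals restricted to
`U = W.map (evB p l)` span the dual of `U` (dimension ≥ 5), so five of them are linearly independent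
on `U` (`exists_fun_fin_finrank_span_eq` or a maximal independent subfamily), so the map `U → ℂ^5`
is surjective. -/
def JCX : Prop := ∀ (W : Submodule ℂ D) (p : Fin 3 → E) (l : E),
  5 ≤ finrank ℂ (W.map (evB p l)) → ∃ x : Fin 5 → ℂ, (∀ k, x k ∈ entB p l) ∧ Full W x

/-- ITEM JDX (linear algebra), second half.  Proof: composing with the five coordinates gives a
surjective linear map `W.map (evB p l) → ℂ^5`. -/
def JDX : Prop := ∀ (W : Submodule ℂ D) (p : Fin 3 → E) (l : E) (x : Fin 5 → ℂ),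
  (∀ k, x k ∈ entB p l) → Full W x → 5 ≤ finrank ℂ (W.map (evB p l))

/-- ITEM ICX (`EXX → CHX → JCX → JDX → FEX → FFX → ICX`): independent conjugate.
Proof: `JCX` with `W = ZA A0` gives `x`; `CHX` gives `y` with `Full (ZA A1) y`, so
`Full (ZA (cl A0)) y` and `Full (ZA (cl A0)) x` (`ZA (cl A0) = ZA A0 ≥ ZA A1`); `cl A0` is
countable; `EXX` for the set `cl A0`, `σ = refl`: `τ x = y`.  The entries of `(mP τ p, mE τ l)`
contain `y`: `JDX`. -/
def ICX : Prop := ∀ (A0 A1 : Set ℂ), A0 ⊆ A1 → A1.Countable → ∀ (p : Fin 3 → E) (l : E),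
  5 ≤ finrank ℂ ((ZA A0).map (evB p l)) → ∃ τ : ℂ ≃+* ℂ, (∀ a ∈ cl A0, τ a = a) ∧
    5 ≤ finrank ℂ ((ZA A1).map (evB (mP τ p) (mE τ l)))

/-- ITEM GQX (`EXX → GQX`): generic isotropic vectors are conjugate.
Proof: `p 1 ≠ 0`: there is `v` with `B p v = 0` and `v ⬝ᵥ`-coordinate `v 1 ≠ 0` unless
`beta p` is a multiple of `Pi.single 1 1`, i.e. `p = p 0 • e_0`, but then take `v = e_2`
(`B p v = 0`): `δ (p 2) = 1` contradicts `p 2 = 0`.  So (if `p 1 = 0` then `δ (p 1) = 0` for all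
`δ`) `p 1 ≠ 0`; same for `q`.  For `x = ![p 1, p 2, p 3, p 4]` `Full (ZA A) x` holds (given
`v 1, .., v 4` solve `B p v = 0` for `v 0`, the coefficient is `p 1`).  Same for `q`.  `EXX`.
Finally `p 0 = - (p 2 * p 3 + p 4 ^ 2) / p 1` (`B_def`), so `σ' (p 0) = q 0`. -/
def GQX : Prop := ∀ (A : Set ℂ), A.Countable → ∀ (σ : ℂ ≃+* ℂ) (p q : E), p ≠ 0 → q ≠ 0 →
  B p p = 0 → B q q = 0 → (∀ v, B p v = 0 → ∃ δ ∈ ZA A, dE δ p = v) →
  (∀ v, B q v = 0 → ∃ δ ∈ ZA (σ '' A), dE δ q = v) →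
  ∃ σ' : ℂ ≃+* ℂ, (∀ a ∈ A, σ' a = σ a) ∧ mE σ' p = q

/-- ITEM GLX (`EXX → GLX`): generic solutions of conjugate linear systems are conjugate.
Proof: `F = adjoin ℚ A`.  The rows `R` live in `F^ι`; `V = span_F R`.  Choose `J ⊆ ι` such that the
classes of the unit vectors `e_j, j ∈ J`, form a basis of `F^ι / V`.  So `e_i = ∑_J c_ij e_j + V`
with `c_ij ∈ F`; hence `u i = ∑_J c_ij u j` for every complex solution `u` of the system; and
conversely for every `w ∈ ℂ^J` the vector `u i = ∑_J c_ij w_j` is a solution with `u j = w j` on `J`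
(check on a row `r ∈ R ⊆ V`: `r = ∑ r_i e_i ≡ ∑_J (∑_i r_i c_ij) e_j` mod `V`, so
`∑_i r_i c_ij = 0`).  So `Full (ZA A) (x|J)`.  Apply `σ` to all this (it maps `F` into
`F' = adjoin ℚ (σ '' A)`): the same `J` and `σ (c_ij)` work for the rows `σ R`, so
`Full (ZA (σ '' A)) (y|J)`.  `EXX` (enumerate `J` by `Fin |J|`) gives `σ'` with `σ' (x j) = y j`,
`j ∈ J`; `σ'` agrees with `σ` on `F`; so `σ' (x i) = ∑ σ (c_ij) y j = y i`. -/
def GLX : Prop := ∀ (ι : Type) [Fintype ι] (A : Set ℂ), A.Countable → ∀ (σ : ℂ ≃+* ℂ)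
  (R : Set (ι → ℂ)), (∀ r ∈ R, ∀ i, r i ∈ IntermediateField.adjoin ℚ A) → ∀ x y : ι → ℂ,
  (∀ r ∈ R, ∑ i, r i * x i = 0) → (∀ r ∈ R, ∑ i, σ (r i) * y i = 0) →
  (∀ u : ι → ℂ, (∀ r ∈ R, ∑ i, r i * u i = 0) → ∃ δ ∈ ZA A, ∀ i, δ (x i) = u i) →
  (∀ u : ι → ℂ, (∀ r ∈ R, ∑ i, σ (r i) * u i = 0) → ∃ δ ∈ ZA (σ '' A), ∀ i, δ (y i) = u i) →
  ∃ σ' : ℂ ≃+* ℂ, (∀ a ∈ A, σ' a = σ a) ∧ ∀ i, σ' (x i) = y i

/-- the explicit rows which define `KB` (in the entries of the tensor) -/
def cross (a b u w z : E) : E :=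
  ((a ⬝ᵥ w) * (b ⬝ᵥ z) - (a ⬝ᵥ z) * (b ⬝ᵥ w)) • u + ((a ⬝ᵥ z) * (b ⬝ᵥ u) - (a ⬝ᵥ u) * (b ⬝ᵥ z)) • w
    + ((a ⬝ᵥ u) * (b ⬝ᵥ w) - (a ⬝ᵥ w) * (b ⬝ᵥ u)) • z

/-- ITEM CRX: explicit linear equations for `KB`.
Proof: `cross a b u w z` is killed by `a` and `b` (expand, ring).  Conversely, for independent
`a, b` there are unit vectors `u, w` with `(a u)(b w) - (a w)(b u) ≠ 0` (a 2x2 minor), and for `z`
with `a z = b z = 0`, `cross a b u w z` is a non-zero multiple of `z`; by linearity in `z` it is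
enough to have the equation for unit vectors `z`. -/
def CRX : Prop := ∀ (p : Fin 3 → E) (l : E), Nt p l → ∀ t ∈ SymT, (t ∈ KB p l ↔
  ∀ (i : Fin 3) (u w z : Fin 5), tri t (p i) (p i)
    (cross (beta (p i)) l (Pi.single u 1) (Pi.single w 1) (Pi.single z 1)) = 0)

/-- ITEM TUX (`GQX → GLX → CRX → TUX`): uniqueness of the type.
Proof: build `σ` step by step, starting from the identity and `A = ∅`; each step enlarges `A` by the
entries of the new vector and keeps the old ones: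
`p 0, p 1, p 2` (GQX; the derivations are obtained from `full1` with `(Pi.single i v, m)`, where `m`
is chosen with `m ⬝ᵥ p i = - l ⬝ᵥ v`, `m ⬝ᵥ p k = 0`, see the proof of BJX), then `l` (GLX with
`ι = Fin 5`, `R = {p 0, p 1, p 2}`; derivations from `full1` with `(0, m)`), then `p' 0, p' 1, p' 2`
and `l'` in the same way from `full2` (they kill `p, l`), finally the tensor (GLX with
`ι = Fin 5 × Fin 5 × Fin 5`; rows: the symmetry equations and the equations of CRX for `(p, l)` and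
`(p', l')`; all entries of the rows are polynomials in the entries of `p, l, p', l'`; derivations
from `full3`).  You may split this into several lemmas: it is the longest item of part C; e.g. one
lemma for `(p, l) ↦ (c, m)` relative to a set `A`, used twice. -/
def TUX : Prop := ∀ s p l p' l' t c m c' m', Trip s p l p' l' → Trip t c m c' m' →
  ∃ σ : ℂ ≃+* ℂ, mT σ s = t ∧ mP σ p = c ∧ mE σ l = m ∧ mP σ p' = c' ∧ mE σ l' = m'

/-- ITEM TYX: polynomials over the algebraic closure do not separate `l1` and `l2`.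
Proof: `σ` maps `cl A` onto itself (if `δ ∈ ZA A` then `σ⁻¹ ∘ δ ∘ σ` and `σ ∘ δ ∘ σ⁻¹` are in
`ZA A`, because `σ` fixes `A`).  Let `H' = H` with coefficients `σ⁻¹` (`MvPolynomial.map`): its
coefficients are in `cl A`, so they are fixed by `τ`.  `eval l2 H = eval (σ (τ l1)) (σ H') =
σ (eval (τ l1) H') = σ (eval (τ l1) (τ H')) = σ (τ (eval l1 H'))`, and
`σ (eval l1 H') = eval (σ l1) (σ H') = eval l1 H` (`MvPolynomial.map_eval` / `eval₂`).  So both
vanish iff `eval l1 H' = 0`. -/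
def TYX : Prop := ∀ (A : Set ℂ) (σ τ : ℂ ≃+* ℂ) (l1 l2 : E), (∀ a ∈ A, σ a = a) →
  (∀ a ∈ cl A, τ a = a) → mE σ l1 = l1 → mE σ (mE τ l1) = l2 →
  ∀ H : MvPolynomial (Fin 5) ℂ, (∀ m, H.coeff m ∈ cl A) →
  (MvPolynomial.eval l1 H = 0 ↔ MvPolynomial.eval l2 H = 0)

/-- ITEM LAX (`FAX → FBX → FCX → FDX → JCX → LAX`): good derivations.
There are derivations `δ_k ∈ ZA A1` which map `M = cl (A0 ∪ entB p l)` into itself and such that
an element of `M` killed by all `δ_k` is in `cl A0`.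
Proof: `JCX` with `W = ZA A1`: five entries `y` with `Full (ZA A1) y`; `δ_k ∈ ZA A1` with
`δ_k (y j) = 1` if `j = k`, else 0.  `ZA (A0 ∪ range y) ≤ ZB p l` : the rank of `evB p l` on
`ZA A0` is ≤ 5 and `ZA A0 → ℂ^5`, `δ ↦ δ y` is surjective and factors through `evB p l`, so it is
injective on the image of `evB`.  So `M = cl (A0 ∪ range y)` = elements algebraic over
`K = adjoin ℚ (A0 ∪ range y)` (FAX, FDX).  `δ_k` maps `K` into `K` (`adjoin_induction`), hence `M`
into `M`: for `g ∈ M` with minimal polynomial `P` over `K`: `P'(g) δ_k g = - P^δ(g)`.  If `g ∈ M` and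
`δ_k g = 0` for all `k` and `g ∉ cl A0`: take `δ ∈ ZA A0` with `δ g ≠ 0`; then
`δ - ∑ δ (y k) • δ_k` kills `A0` and `y`, so it kills `M`, so `g`: contradiction. -/
def LAX : Prop := ∀ (A0 A1 : Set ℂ), A0 ⊆ A1 → ∀ (p : Fin 3 → E) (l : E),
  finrank ℂ ((ZA A0).map (evB p l)) ≤ 5 → 5 ≤ finrank ℂ ((ZA A1).map (evB p l)) →
  ∃ S : Set D, (∀ δ ∈ S, δ ∈ ZA A1) ∧
    (∀ δ ∈ S, ∀ g ∈ cl (A0 ∪ entB p l), δ g ∈ cl (A0 ∪ entB p l)) ∧
    (∀ g ∈ cl (A0 ∪ entB p l), (∀ δ ∈ S, δ g = 0) → g ∈ cl A0)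

/-- ITEM LBX (`FFX → LAX → LBX`): linear disjointness.
Proof: suppose not all `g i` are 0; take a counterexample with the least number of non-zero `g i`;
divide by one of them: some `g i₀ = 1` (`cl (..)` is a field).  For `δ ∈ S` (LAX):
`∑ θ i * δ (g i) = 0` (`δ (θ i) = 0` as `θ i ∈ cl A1`), `δ (g i) ∈ cl (..)`, with fewer non-zero
terms (`δ (g i₀) = 0`, `g i = 0 → δ (g i) = 0`), so all `δ (g i) = 0`; hence all `g i ∈ cl A0` and
the hypothesis on `θ` gives `g = 0`. -/
def LBX : Prop := ∀ (A0 A1 : Set ℂ), A0 ⊆ A1 → ∀ (p : Fin 3 → E) (l : E),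
  finrank ℂ ((ZA A0).map (evB p l)) ≤ 5 → 5 ≤ finrank ℂ ((ZA A1).map (evB p l)) →
  ∀ (n : ℕ) (θ g : Fin n → ℂ), (∀ i, θ i ∈ cl A1) → (∀ i, g i ∈ cl (A0 ∪ entB p l)) →
  (∀ c : Fin n → ℂ, (∀ i, c i ∈ cl A0) → ∑ i, c i * θ i = 0 → ∀ i, c i = 0) →
  ∑ i, θ i * g i = 0 → ∀ i, g i = 0

/-- ITEM LCX (`FFX → LBX → LCX`).  Proof: `K = cl A0` is a subfield (FFX).  The coefficients of `F`
span a finite dimensional `K`-space; choose a `K`-basis `θ` of it: `F.coeff m = ∑ θ j * k j m`,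
`k j m ∈ K`; `F = ∑ θ j • H j`, `H j` with coefficients `k j m` (finite support: only `m` in the
support of `F`).  `θ j ∈ cl A1`.  `eval l F = ∑ θ j * eval l (H j) = 0` and
`eval l (H j) ∈ cl (A0 ∪ entB p l)`, so by `LBX` all `eval l (H j) = 0`, hence
`eval l1 (H j) = 0` and `eval l1 F = 0`. -/
def LCX : Prop := ∀ (A0 A1 : Set ℂ), A0 ⊆ A1 → ∀ (p : Fin 3 → E) (l : E),
  finrank ℂ ((ZA A0).map (evB p l)) ≤ 5 → 5 ≤ finrank ℂ ((ZA A1).map (evB p l)) → ∀ l1 : E,
  (∀ H : MvPolynomial (Fin 5) ℂ, (∀ m, H.coeff m ∈ cl A0) →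
    MvPolynomial.eval l H = 0 → MvPolynomial.eval l1 H = 0) →
  ∀ F : MvPolynomial (Fin 5) ℂ, (∀ m, F.coeff m ∈ cl A1) →
    MvPolynomial.eval l F = 0 → MvPolynomial.eval l1 F = 0

/-- ITEM CTX: configurations are transported by automorphisms.
Proof: apply `σ` to everything; for `ind` and `Nd` transport back with `σ.symm`
(e.g. `Fintype.linearIndependent_iff`: a relation with coefficients `c` is mapped to one with
coefficients `σ.symm c`). -/
def CTX : Prop := ∀ (σ : ℂ ≃+* ℂ) s p l lam mu, Cfg s p l lam mu →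
  Cfg (mT σ s) (mP σ p) (mE σ l) (fun i => σ (lam i)) (fun i => σ (mu i))

/-! ## Part D: analysis -/

/-- the space of unknowns: `y i = (p i, lam i, mu i)` -/
abbrev Y : Type := Fin 3 → Fin 7 → ℂ

/-- the points -/
def pOf (y : Y) (i : Fin 3) : E := fun k => y i (Fin.castAdd 2 k)

/-- first multipliers -/
def laOf (y : Y) (i : Fin 3) : ℂ := y i 5

/-- second multipliers -/
def muOf (y : Y) (i : Fin 3) : ℂ := y i 6

/-- the covector `lam i beta (p i) + mu i s (p i, p i, .)` -/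
def om (s : T3) (y : Y) (i : Fin 3) : E :=
  laOf y i • beta (pOf y i) + muOf y i • cov s (pOf y i) (pOf y i)

/-- the derivative of `om` -/
def dom (s : T3) (y dy : Y) (i : Fin 3) : E :=
  laOf dy i • beta (pOf y i) + muOf dy i • cov s (pOf y i) (pOf y i)
    + laOf y i • beta (pOf dy i)
    + muOf y i • (cov s (pOf dy i) (pOf y i) + cov s (pOf y i) (pOf dy i))

/-- the target space of the equations -/
abbrev Z16 : Type := (Fin 3 → ℂ) × (Fin 3 → ℂ) × E × E

/-- the equations -/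
def Phi (s : T3) (y : Y) : Z16 :=
  (fun i => B (pOf y i) (pOf y i), fun i => tri s (pOf y i) (pOf y i) (pOf y i),
    om s y 0 - om s y 1, om s y 0 - om s y 2)

/-- the partial derivative of `Phi` in `y` -/
def dPhi (s : T3) (y dy : Y) : Z16 :=
  (fun i => B (pOf dy i) (pOf y i) + B (pOf y i) (pOf dy i),
    fun i => tri s (pOf dy i) (pOf y i) (pOf y i) + tri s (pOf y i) (pOf dy i) (pOf y i)
      + tri s (pOf y i) (pOf y i) (pOf dy i),
    dom s y dy 0 - dom s y dy 1, dom s y dy 0 - dom s y dy 2)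

/-- a good point: the configuration of `y` -/
def CfgY (s : T3) (y : Y) : Prop := Cfg s (pOf y) (om s y 0) (laOf y) (muOf y)

/-- ITEM SUX: the partial derivative is surjective at a configuration.
Proof: notation `p i, lam i, mu i`; `s` symmetric.  Given the target `(a, c, η, θ)`.  Since
`beta (p i)`, `cov s (p i) (p i)` are independent (`Nd.rank`), `exists_solution` gives `w i` with
`2 B (p i) (w i) = a i`, `3 tri s (p i) (p i) (w i) = c i`.  So (subtract) we may assume `a = c = 0`.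
KEY: for each `i` the linear map from `{(v, x, y) : B (p i) v = 0, tri s (p i) (p i) v = 0}`
(dimension 3 + 2) to covectors, `(v, x, y) ↦ lam beta v + 2 mu cov s p v + x beta p + y cov s p p`,
has range `{ω : ω ⬝ᵥ p i = 0}` (dimension 4): the range is contained in it, and the kernel has
dimension ≤ 1: by `Nd.ker` `v = c • p i`, and then `x = - c lam`, `y = - 2 c mu` by `Nd.rank`.
Now choose `ω0` with `ω0 (p 0) = 0`, `ω0 (p 1) = η (p 1)`, `ω0 (p 2) = θ (p 2)`
(`exists_solution`, `ind`), `ω1 = ω0 - η`, `ω2 = ω0 - θ`. -/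
def SUX : Prop := ∀ s ∈ SymT, ∀ y : Y, CfgY s y → ∀ z : Z16, ∃ dy : Y, dPhi s y dy = z

/-- ITEM STX: `Phi` is strictly differentiable, with the right partial derivative.
Proof: `(s, y) ↦ Phi s y` is a polynomial map, so `ContDiff ℂ ⊤` (`contDiff_pi`, `ContDiff.sum`,
`ContDiff.mul`, ... / `fun_prop` after unfolding), hence `HasStrictFDerivAt` with
`g' = fderiv ..` (`ContDiffAt.hasStrictFDerivAt`).  `g' (0, dy)` is the derivative at `t = 0` of
`t ↦ Phi s (y + t • dy) = Phi s y + t • dPhi s y dy + t ^ 2 • (..) + t ^ 3 • (..) + t ^ 4 • ..`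
(uniqueness of derivatives, `HasFDerivAt.comp_hasDerivAt`). -/
def STX : Prop := ∀ (s : T3) (y : Y), ∃ g' : T3 × Y →L[ℂ] Z16,
  HasStrictFDerivAt (fun z : T3 × Y => Phi z.1 z.2) g' (s, y) ∧ ∀ dy, g' (0, dy) = dPhi s y dy

/-- ITEM IFX: implicit function theorem (existence).
Proof: `h (x, y) = (x, g (x, y))` has strict derivative `h' (x, y) = (x, g' (x, y))` at
`(x0, y0)`, surjective by the hypothesis; `HasStrictFDerivAt.map_nhds_eq_of_surj`: the image of the
neighbourhood `univ ×ˢ U` of `(x0, y0)` is a neighbourhood of `(x0, g (x0, y0))`; restrict to the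
points with second coordinate `g (x0, y0)`. -/
def IFX : Prop := ∀ (X Y' Z : Type) [NormedAddCommGroup X] [NormedSpace ℂ X]
  [FiniteDimensional ℂ X] [NormedAddCommGroup Y'] [NormedSpace ℂ Y'] [FiniteDimensional ℂ Y']
  [NormedAddCommGroup Z] [NormedSpace ℂ Z] [FiniteDimensional ℂ Z]
  (g : X × Y' → Z) (g' : X × Y' →L[ℂ] Z) (x0 : X) (y0 : Y'),
  HasStrictFDerivAt g g' (x0, y0) → (∀ z, ∃ y, g' (0, y) = z) →
  ∀ U ∈ 𝓝 y0, ∀ᶠ x in 𝓝 x0, ∃ y ∈ U, g (x, y) = g (x0, y0)

/-- ITEM JEX (linear algebra).  Proof: `ker L` has dimension 21 - 16 = 5; the 21 coordinate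
functionals span its dual, choose five which restrict to a basis of the dual of `ker L`.  Given
`(z, c)` take `y0` with `L y0 = z` and correct it by an element of `ker L`. -/
def JEX : Prop := ∀ L : Y →ₗ[ℂ] Z16, Function.Surjective L →
  ∃ J : Fin 5 → Fin 3 × Fin 7, ∀ (z : Z16) (c : Fin 5 → ℂ),
    ∃ y : Y, L y = z ∧ ∀ k, y (J k).1 (J k).2 = c k

/-- ITEM NOX: the node condition is open.
Proof: `p ≠ 0` (`Nd.rank`), say `p j ≠ 0`.  For `z = (s, p, lam, mu)` consider the linear map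
`M z : E × ℂ × ℂ → ℂ × ℂ × E × ℂ`, `M z (v, x, y) = (B p v, tri s p p v,
lam • beta v + (2 mu) • cov s p v + x • beta p + y • cov s p p, v j)`.
(i) `Nd` implies `M z` injective: `v = c • p`, `v j = 0` gives `v = 0`, then `rank`.
(ii) injectivity is open: the images of the 7 basis vectors are linearly independent and depend
continuously on `z` (`isOpen_setOf_linearIndependent`).
(iii) if `M z'` is injective, `B p' p' = 0`, `tri s' p' p' p' = 0`, `p' j ≠ 0`, then `Nd` for `z'`: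
`rank` from the vectors `(0, x, y)`; for `ker` apply `M z'` to
`(v - c • p', x + c lam', y + 2 c mu')`, `c = v j / p' j`. -/
def NOX : Prop := ∀ (s : T3) (p : E) (lam mu : ℂ), Nd s p lam mu →
  ∀ᶠ z : T3 × E × ℂ × ℂ in 𝓝 (s, p, lam, mu), B z.2.1 z.2.1 = 0 →
    tri z.1 z.2.1 z.2.1 z.2.1 = 0 → Nd z.1 z.2.1 z.2.2.1 z.2.2.2

/-- ITEM COX (`NOX → COX`): near a configuration every solution of the equations is a configuration.
Proof: `q0`, `s0` and `eq` are `Phi = 0` (with `l = om s y 0`); `ind` is open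
(`isOpen_setOf_linearIndependent`), `l0` is open, `nd` by NOX; everything depends continuously on
`(s, y)`. -/
def COX : Prop := ∀ (s : T3) (y : Y), CfgY s y →
  ∀ᶠ z : T3 × Y in 𝓝 (s, y), Phi z.1 z.2 = 0 → CfgY z.1 z.2

/-- ITEM RYX: ranks of `y` and of `(p, l)`.
Proof: `W.map (evB p l)` : a derivation `δ ∈ ZA A` which kills `p i` and `l` kills `lam i` and
`mu i` (`Cfg.d_eq`, `dT δ s = 0`, `Nd.rank`).  So `δ ↦ (δ (x k))_k`, which is onto `ℂ^5`, factors
through `evB p l` on `ZA A`. -/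
def RYX : Prop := ∀ s ∈ SymT, ∀ y : Y, CfgY s y → ∀ A : Set ℂ, ent s ⊆ A →
  ∀ J : Fin 5 → Fin 3 × Fin 7, Full (ZA A) (fun k => y (J k).1 (J k).2) →
  5 ≤ finrank ℂ ((ZA A).map (evB (pOf y) (om s y 0)))

/-- ITEM PTX (`SUX → STX → IFX → JEX → COX → RYX → CHX → PTX`): generic configurations nearby.
Proof: `L = g' (0, .) = dPhi s y` (STX) is surjective (SUX); `J` from JEX.  Apply IFX with
`X = Fin 5 → ℂ`, `Y' = Y`, `Z = Z16 × (Fin 5 → ℂ)`,
`g (c, y) = (Phi s y, fun k => y (J k).1 (J k).2 - c k)` at `(c0, y)`, `c0 k = y (J k).1 (J k).2`,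
`U` = the `y'` near `y` with `Phi s y' = 0 → CfgY s y'` (COX) and `om s y' 0 ∈ O` (continuity).
Choose `c` near `c0` with `Full (ZA A) c` (CHX), get `y'` with `Phi s y' = 0` and coordinates `c`;
RYX. -/
def PTX : Prop := ∀ s ∈ SymT, ∀ y : Y, CfgY s y → ∀ A : Set ℂ, A.Countable → ent s ⊆ A →
  ∀ O ∈ 𝓝 (om s y 0), ∃ y' : Y, CfgY s y' ∧ om s y' 0 ∈ O ∧
    5 ≤ finrank ℂ ((ZA A).map (evB (pOf y') (om s y' 0)))

/-! ## Part E: existence -/

/-- ITEM XEX: one explicit example.
Data (checked by computer): the cubic `x2 x0^2 + x2 x1^2 + x0 x3^2 + x0 x4^2 + 2 x1 x3^2 - x1 x4^2 +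
x0 x1 x4 - x4^3`, i.e. with `e i = Pi.single i 1` the tensor `s = (1 / 6) • (sp e2 e0 e0 +
sp e2 e1 e1 + sp e0 e3 e3 + sp e0 e4 e4 + 2 • sp e1 e3 e3 - sp e1 e4 e4 + sp e0 e1 e4 - sp e4 e4 e4)`
(`tri_sp`, `sp_mem`), `p 0 = ![1,0,0,0,0]`, `p 1 = ![0,1,0,0,0]`, `p 2 = ![1,-1,0,0,1]`,
`lam = 0`, `mu = ![3, 3, 3/2]`, `l = ![0,0,1,0,0]`.  It may help to prove first an explicit formula
for the covector `cov s x y` (five bilinear polynomials in the entries of `x, y`); then each `Nd` is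
a small linear system for `v 0, .., v 4, x, y`. -/
def XEX : Prop := ∃ s ∈ SymT, ∃ y : Y, CfgY s y

/-- ITEM XNX (`SUX → STX → IFX → COX → XNX`).  Proof: IFX with `X = T3`, `g (s, y) = Phi s y`. -/
def XNX : Prop := ∀ s ∈ SymT, ∀ y : Y, CfgY s y → ∀ᶠ s' in 𝓝 s, s' ∈ SymT → ∃ y' : Y, CfgY s' y'

/-- ITEM XGX (`CHX → XGX`).  Proof: a symmetric tensor is determined by its 35 entries
`s i j k`, `i ≤ j ≤ k`; choose them near the given ones by CHX (`A = ∅`, `n` = number of sorted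
triples, `Fintype.equivFin`), extend symmetrically (sort the indices).  `Full (ZA ∅)` gives `Gen`. -/
def XGX : Prop := ∀ s ∈ SymT, ∀ O ∈ 𝓝 s, ∃ s' ∈ O, Gen s'

/-- ITEM XAX (`GLX → XAX`).  Proof: GLX with `A = ∅`, `ι = Fin 5 × Fin 5 × Fin 5`, `R` = symmetry
equations. -/
def XAX : Prop := ∀ s t, Gen s → Gen t → ∃ σ : ℂ ≃+* ℂ, mT σ s = t

end Pool.Agent.Work.MP_ea8963_ag.G4
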